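import Pool.Agent.MP_9e68e9_lc.Thr

/-! Small explicit gadgets, checked by certificates. -/

namespace Pool.Agent.MP_9e68e9_lc

open Finset

/-- A small gadget: number of inner vertices, edges, attachments, free vertices. -/
structure Flat where
  n : ℕ
  E : List (ℕ × ℕ)
  A : List (ℕ × Bool)
  F : List ℕ

/-- Check a property of all bit lists of a given length. -/
def allB : ℕ → (List Bool → Bool) → Bool
  | 0, f => f []
  | n + 1, f => allB n (fun l => f (true :: l)) && allB n (fun l => f (false :: l))

theorem allB_spec {n : ℕ} {f : List Bool → Bool} (h : allB n f = true) :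
    ∀ l : List Bool, l.length = n → f l = true := by
  induction n generalizing f with
  | zero =>
    intro l hl
    rw [List.length_eq_zero_iff.1 hl]
    exact h
  | succ n ih =>
    simp only [allB, Bool.and_eq_true] at h
    rintro (_ | ⟨_ | _, l⟩) hl
    · simp at hl
    · exact ih h.2 l (by simpa using hl)
    · exact ih h.1 l (by simpa using hl)

namespace Flat

variable (g : Flat)

/-- The gadget described by the data. -/
def gad : Gad Bool where
  W := Fin g.n
  H := SimpleGraph.fromRel fun a b => (a.val, b.val) ∈ g.E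
  att := fun w s => (w.val, s) ∈ g.A
  need := fun w => w.val ∉ g.F

/-- Domination test. -/
def domB (a b : Bool) (y : ℕ → Bool) : Bool :=
  (List.range g.n).all fun w => decide (w ∈ g.F) || y w ||
    g.E.any (fun e => (e.1 == w && y e.2) || (e.2 == w && y e.1)) ||
    g.A.any fun e => e.1 == w && cond e.2 b a

theorem domB_iff (x : Bool → Bool) (y : ℕ → Bool) (hy : ∀ i, y i = true → i < g.n) :
    g.domB (x false) (x true) y = true ↔ g.gad.Dom x fun w : Fin g.n => y w.val := by
  have e : ∀ s, cond s (x true) (x false) = x s := by rintro (_ | _) <;> rfl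
  simp only [domB, List.all_eq_true, List.mem_range, Bool.or_eq_true, decide_eq_true_eq,
    List.any_eq_true, Bool.and_eq_true, beq_iff_eq, e]
  constructor
  · intro h w hw
    rcases h w.val w.2 with ((h | h) | ⟨⟨u, v⟩, h, ⟨rfl, h'⟩ | ⟨rfl, h'⟩⟩) | ⟨⟨u, s⟩, h, rfl, h'⟩
    · exact absurd h hw
    · exact Or.inl h
    · by_cases hv : w.val = v
      · exact Or.inl (by subst hv; exact h')
      · exact Or.inr (Or.inl ⟨⟨v, hy v h'⟩, ⟨fun e => hv (congrArg Fin.val e), Or.inl h⟩, h'⟩)
    · by_cases hv : w.val = u
      · exact Or.inl (by subst hv; exact h')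
      · exact Or.inr (Or.inl ⟨⟨u, hy u h'⟩, ⟨fun e => hv (congrArg Fin.val e), Or.inr h⟩, h'⟩)
    · exact Or.inr (Or.inr ⟨s, h, h'⟩)
  · intro h w hw
    by_cases hF : w ∈ g.F
    · exact Or.inl (Or.inl (Or.inl hF))
    · rcases h ⟨w, hw⟩ hF with h | ⟨u, ⟨-, h | h⟩, h'⟩ | ⟨s, h, h'⟩
      · exact Or.inl (Or.inl (Or.inr h))
      · exact Or.inl (Or.inr ⟨_, h, Or.inl ⟨rfl, h'⟩⟩)
      · exact Or.inl (Or.inr ⟨_, h, Or.inr ⟨rfl, h'⟩⟩)
      · exact Or.inr ⟨_, h, rfl, h'⟩

/-- Dual certificate. -/
def soundB (w : List ℕ) (la lb mu c : ℤ) : Bool :=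
  allB g.n fun l => [false, true].all fun a => [false, true].all fun b =>
    !(g.domB a b fun i => l.getD i false) ||
      decide (c ≤ (∑ i ∈ range g.n, if l.getD i false then (w.getD i 0 : ℤ) else 0) +
        (if a then la else 0) + (if b then lb else 0) + if a && b then mu else 0)

theorem sound {w : List ℕ} {la lb mu c : ℤ} (h : g.soundB w la lb mu c = true) {p : ℝ}
    {μ : (Bool → Bool) → ℝ} (hμ : Bal p μ) (hE : g.gad.Ext p μ) :
    (c : ℝ) ≤ ((∑ i ∈ range g.n, w.getD i 0 : ℕ) + la + lb) * p + mu * KK μ false true := by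
  obtain ⟨ν, h1, h2, h3, h4⟩ := hE.model hμ.1.1
  have hν : IsProb ν := ⟨h1, by
    have := hμ.1.2
    rwa [← h2, ← Ex_one, Ex_law, Ex_one] at this⟩
  have key := Ex_mono' (f := fun _ => (c : ℝ))
    (g := fun z => ∑ i : Fin g.n, (w.getD i 0 : ℝ) * ind (z.2 i) + la * ind (z.1 false) +
      lb * ind (z.1 true) + mu * (ind (z.1 false) * ind (z.1 true))) h1 fun z hz => by
      let y : Fin g.n → Bool := z.2
      have e : ∀ i : Fin g.n, (List.ofFn y).getD i false = y i := fun i => by simp
      have hd : g.domB (z.1 false) (z.1 true) (fun i => (List.ofFn y).getD i false) = true := by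
        rw [domB_iff]
        · simp only [e]
          exact h3 z hz
        · intro i hi
          by_contra hh
          rw [List.getD_eq_default _ _ (by simpa using hh)] at hi
          exact absurd hi (by simp)
      have k := allB_spec h (List.ofFn y) (by simp)
      simp only [List.all_eq_true] at k
      have k2 := k (z.1 false) (by cases z.1 false <;> simp) (z.1 true) (by cases z.1 true <;> simp)
      rw [hd, Bool.not_true, Bool.false_or, decide_eq_true_eq, Finset.sum_range] at k2
      have k3 : (c : ℝ) ≤ ((∑ i : Fin g.n, (if (List.ofFn y).getD i false then (w.getD i 0 : ℤ)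
          else 0) + (if z.1 false then la else 0) + (if z.1 true then lb else 0) +
          if z.1 false && z.1 true then mu else 0 : ℤ) : ℝ) := by exact_mod_cast k2
      refine k3.trans (le_of_eq ?_)
      push_cast
      congr 1
      · congr 1
        · congr 1
          · refine Finset.sum_congr rfl fun i _ => ?_
            rw [e]
            change _ = _ * ind (y i)
            cases y i <;> simp
          · cases z.1 false <;> simp
        · cases z.1 true <;> simp
      · cases z.1 false <;> cases z.1 true <;> simp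
  have e1 : ∀ s, Ex ν (fun z => ind (z.1 s)) = p := fun s => by
    rw [← hμ.2 s, ← h2, Ex_law]
  have e2 : Ex ν (fun z => ind (z.1 false) * ind (z.1 true)) = KK μ false true := by
    rw [KK, ← h2, Ex_law]
  rw [hν.Ex_const, Ex_add, Ex_add, Ex_add, Ex_sum, Ex_const_mul, Ex_const_mul, Ex_const_mul,
    e1, e1, e2] at key
  have e3 : ∑ i : Fin g.n, Ex ν (fun z => (w.getD i 0 : ℝ) * ind (z.2 i)) ≤
      (∑ i ∈ range g.n, w.getD i 0 : ℕ) * p := by
    rw [Finset.sum_range]
    push_cast
    rw [Finset.sum_mul]
    refine Finset.sum_le_sum fun i _ => ?_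
    rw [Ex_const_mul]
    exact mul_le_mul_of_nonneg_left (h4 i) (Nat.cast_nonneg _)
  linarith

/-- Weighted count of rows of a certificate. -/
def cnt (L : List (ℕ × Bool × Bool × List ℕ)) (h : ℕ × Bool × Bool × List ℕ → Bool) : ℕ :=
  (L.map fun r => if h r then r.1 else 0).sum

/-- Primal certificate. -/
def compB (N P K : ℕ) (L : List (ℕ × Bool × Bool × List ℕ)) : Bool :=
  L.all (fun r => r.2.2.2.all (fun i => decide (i < g.n)) &&
    g.domB r.2.1 r.2.2.1 fun i => decide (i ∈ r.2.2.2)) &&
  decide (0 < N) && cnt L (fun _ => true) == N &&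
  (List.range g.n).all (fun w => decide (cnt L (fun r => decide (w ∈ r.2.2.2)) ≤ P)) &&
  cnt L (fun r => r.2.1) == P && cnt L (fun r => r.2.2.1) == P &&
  cnt L (fun r => r.2.1 && r.2.2.1) == K

theorem comp {N P K : ℕ} {L : List (ℕ × Bool × Bool × List ℕ)} (h : g.compB N P K L = true)
    {p k : ℝ} (hp : p = (P : ℝ) / N) (hk : k = (K : ℝ) / N) : g.gad.Ext p (law2 p k) := by
  simp only [compB, Bool.and_eq_true, List.all_eq_true, decide_eq_true_eq, beq_iff_eq,
    List.mem_range] at h
  obtain ⟨⟨⟨⟨⟨⟨h1, h2⟩, h3⟩, h4⟩, h5⟩, h6⟩, h7⟩ := h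
  have hN : (0 : ℝ) < N := by exact_mod_cast h2
  let Q : Fin L.length → ℝ := fun i => (L[i.val].1 : ℝ) / N
  have key : ∀ h, Ex Q (fun i => ind (h L[i.val])) = (cnt L h : ℝ) / N := by
    intro h
    rw [cnt, ← Fin.sum_univ_fun_getElem]
    push_cast
    rw [Finset.sum_div]
    exact Finset.sum_congr rfl fun i _ => by
      dsimp only [Q]
      cases h L[i.val] <;> simp
  have hQ : IsProb Q := ⟨fun i => by positivity, by
    have := key fun _ => true
    rw [h3, div_self hN.ne'] at this
    simpa [Ex] using this⟩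
  let X : Fin L.length → Bool → Bool := fun i => mk2 L[i.val].2.1 L[i.val].2.2.1
  have hb : Bal p (law Q X) := bal_law hQ X (by
    rintro (_ | _)
    · exact (key fun r => r.2.1).trans (by rw [h5, hp])
    · exact (key fun r => r.2.2.1).trans (by rw [h6, hp]))
  have hK : KK (law Q X) false true = k := by
    rw [KK, Ex_law, hk, ← h7, ← key]
    refine Ex_congr fun i => ?_
    change ind L[i.val].2.1 * ind L[i.val].2.2.1 = _
    cases L[i.val].2.1 <;> cases L[i.val].2.2.1 <;> simp
  rw [← hK, ← hb.eq_law2]
  refine g.gad.ext_of_model hQ.1 X (fun i (w : Fin g.n) => decide (w.val ∈ L[i.val].2.2.2))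
    (fun i _ => ?_) fun w => ?_
  · have := h1 _ (List.getElem_mem i.2)
    exact (g.domB_iff (X i) _ fun j hj => this.1 j (by simpa using hj)).1 this.2
  · refine (key fun r => decide (w.val ∈ r.2.2.2)).trans_le ?_
    rw [hp]
    exact div_le_div_of_nonneg_right (by exact_mod_cast h4 _ w.2) hN.le

end Flat

/-- A path with two inner vertices. -/
def gT : Flat := ⟨2, [(0, 1)], [(0, false), (1, true)], []⟩

/-- A five-cycle. -/
def gC : Flat := ⟨6, [(0, 1), (1, 2), (2, 3), (3, 4), (0, 4), (4, 5)],
  [(0, false), (1, true), (2, false), (3, true)], [5]⟩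

/-- An eight vertex gadget. -/
def gE : Flat := ⟨8, [(0, 1), (0, 4), (0, 7), (1, 2), (2, 5), (3, 4), (3, 6), (5, 7), (6, 7)],
  [(1, false), (2, true), (3, false), (4, true), (5, false), (6, true)], []⟩

/-- A claw. -/
def gD : Flat := ⟨4, [(0, 1), (0, 2), (0, 3)],
  [(1, false), (1, true), (2, false), (2, true), (3, false), (3, true)], []⟩

/-- A nine vertex gadget. -/
def gN : Flat := ⟨9, [(0, 3), (1, 5), (1, 6), (1, 7), (2, 7), (2, 8), (3, 5), (4, 6)],
  [(0, false), (2, true), (3, true), (4, false), (5, false), (6, true), (7, false), (8, false)], []⟩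

/-- A seven vertex gadget. -/
def gS : Flat := ⟨7, [(0, 1), (0, 2), (0, 4), (1, 5), (2, 6), (3, 4), (3, 5), (3, 6)],
  [(0, false), (1, true), (2, true), (3, false), (4, true), (5, true)], [6]⟩

theorem sg_T {p : ℝ} (h1 : 1 / 3 ≤ p) (h2 : p ≤ 2 / 5) : SG p (3 * p - 1) := by
  have a := gT.comp (N := 3) (P := 1) (K := 1) (L := [(1, false, false, [0]),
    (1, false, false, [1]), (1, true, true, [])]) (by decide +kernel) (p := 1 / 3) (k := 1 / 3)
    (by norm_num) (by norm_num)
  have b := gT.comp (N := 5) (P := 2) (K := 1) (L := [(2, false, false, [1]),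
    (1, false, true, [0]), (1, true, false, [0]), (1, true, true, [])]) (by decide +kernel)
    (p := 2 / 5) (k := 1 / 5) (by norm_num) (by norm_num)
  have c := gT.comp (N := 5) (P := 2) (K := 2) (L := [(2, false, false, [0]),
    (1, false, false, [1]), (2, true, true, [])]) (by decide +kernel) (p := 2 / 5) (k := 2 / 5)
    (by norm_num) (by norm_num)
  refine sg_exact gT.gad (by linarith) (by linarith)
    (gT.gad.mix2 (by norm_num) (by norm_num) (by norm_num) (by norm_num) (by norm_num) (by norm_num)
      a c (a := 6 - 15 * p) (b := 15 * p - 5) (by linarith) (by linarith) (by ring) (by ring)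
      (by ring))
    (gT.gad.mix2 (by norm_num) (by norm_num) (by norm_num) (by norm_num) (by norm_num) (by norm_num)
      a b (a := 6 - 15 * p) (b := 15 * p - 5) (by linarith) (by linarith) (by ring) (by ring)
      (by ring)) fun μ hμ h => ?_
  have := gT.sound (w := [1, 1]) (la := 0) (lb := 0) (mu := 1) (c := 1) (by decide +kernel) hμ h
  rw [show ∑ i ∈ range gT.n, [1, 1].getD i 0 = 2 by decide +kernel] at this
  norm_num at this
  linarith

theorem sg_C {p : ℝ} (h1 : 2 / 7 ≤ p) (h2 : p ≤ 3 / 10) : SG p (7 * p - 2) := by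
  have a := gC.comp (N := 7) (P := 2) (K := 2) (L := [(1, false, false, [0, 2]),
    (1, false, false, [0, 3]), (1, false, false, [1, 3]), (1, false, false, [1, 4]),
    (1, false, false, [2, 4]), (2, true, true, [5])]) (by decide +kernel) (p := 2 / 7) (k := 2 / 7)
    (by norm_num) (by norm_num)
  have b := gC.comp (N := 10) (P := 3) (K := 2) (L := [(2, false, false, [0, 3]),
    (1, false, false, [1, 3]), (1, false, false, [1, 4]), (2, false, false, [2, 4]),
    (1, false, true, [1, 5]), (1, true, false, [2, 5]), (1, true, true, [0]),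
    (1, true, true, [5])]) (by decide +kernel) (p := 3 / 10) (k := 1 / 5)
    (by norm_num) (by norm_num)
  have c := gC.comp (N := 10) (P := 3) (K := 3) (L := [(1, false, false, [0, 2]),
    (1, false, false, [0, 3]), (2, false, false, [1, 3]), (1, false, false, [1, 4]),
    (2, false, false, [2, 4]), (1, true, true, [0]), (2, true, true, [5])]) (by decide +kernel)
    (p := 3 / 10) (k := 3 / 10) (by norm_num) (by norm_num)
  refine sg_exact gC.gad (by linarith) (by linarith)
    (gC.gad.mix2 (by norm_num) (by norm_num) (by norm_num) (by norm_num) (by norm_num) (by norm_num)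
      a c (a := 21 - 70 * p) (b := 70 * p - 20) (by linarith) (by linarith) (by ring) (by ring)
      (by ring))
    (gC.gad.mix2 (by norm_num) (by norm_num) (by norm_num) (by norm_num) (by norm_num) (by norm_num)
      a b (a := 21 - 70 * p) (b := 70 * p - 20) (by linarith) (by linarith) (by ring) (by ring)
      (by ring)) fun μ hμ h => ?_
  have := gC.sound (w := [1, 1, 1, 1, 1, 1]) (la := 0) (lb := 0) (mu := 1) (c := 2)
    (by decide +kernel) hμ h
  rw [show ∑ i ∈ range gC.n, [1, 1, 1, 1, 1, 1].getD i 0 = 6 by decide +kernel] at this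
  norm_num at this
  linarith

theorem sg_E {p : ℝ} (h1 : 3 / 10 ≤ p) (h2 : p ≤ 1 / 3) : SG p (5 * p - 3 / 2) := by
  have a := gE.comp (N := 10) (P := 3) (K := 3) (L := [(2, false, false, [1, 3, 5]),
    (2, false, false, [2, 4, 6]), (1, false, false, [0, 5, 6]), (1, false, false, [2, 3, 7]),
    (1, false, false, [1, 4, 7]), (2, true, true, [0]), (1, true, true, [7])]) (by decide +kernel)
    (p := 3 / 10) (k := 3 / 10) (by norm_num) (by norm_num)
  have b := gE.comp (N := 6) (P := 2) (K := 1) (L := [(1, false, false, [1, 3, 5]),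
    (2, false, false, [0, 2, 6]), (1, false, true, [1, 4, 7]), (1, true, false, [3, 4, 5]),
    (1, true, true, [7])]) (by decide +kernel) (p := 1 / 3) (k := 1 / 6)
    (by norm_num) (by norm_num)
  have c := gE.comp (N := 3) (P := 1) (K := 1) (L := [(1, false, false, [1, 3, 5]),
    (1, false, false, [2, 4, 6]), (1, true, true, [0])]) (by decide +kernel)
    (p := 1 / 3) (k := 1 / 3) (by norm_num) (by norm_num)
  refine sg_exact gE.gad (by linarith) (by linarith)
    (gE.gad.mix2 (by norm_num) (by norm_num) (by norm_num) (by norm_num) (by norm_num) (by norm_num)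
      a c (a := 10 - 30 * p) (b := 30 * p - 9) (by linarith) (by linarith) (by ring) (by ring)
      (by ring))
    (gE.gad.mix2 (by norm_num) (by norm_num) (by norm_num) (by norm_num) (by norm_num) (by norm_num)
      a b (a := 10 - 30 * p) (b := 30 * p - 9) (by linarith) (by linarith) (by ring) (by ring)
      (by ring)) fun μ hμ h => ?_
  have := gE.sound (w := [1, 1, 1, 1, 1, 1, 1, 1]) (la := 0) (lb := 0) (mu := 2) (c := 3)
    (by decide +kernel) hμ h
  rw [show ∑ i ∈ range gE.n, [1, 1, 1, 1, 1, 1, 1, 1].getD i 0 = 8 by decide +kernel] at this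
  norm_num at this
  linarith

theorem dg_D {p : ℝ} (h1 : 3 / 10 ≤ p) (h2 : p ≤ 1 / 3) : DG p (3 / 2 - 4 * p) := by
  have a := gD.comp (N := 10) (P := 3) (K := 0) (L := [(3, false, false, [0]),
    (1, false, false, [1, 2, 3]), (1, false, true, [1]), (2, false, true, [2]),
    (1, true, false, [1]), (2, true, false, [3])]) (by decide +kernel)
    (p := 3 / 10) (k := 0) (by norm_num) (by norm_num)
  have b := gD.comp (N := 6) (P := 2) (K := 1) (L := [(2, false, false, [0]),
    (1, false, false, [1, 2, 3]), (1, false, true, [2]), (1, true, false, [3]),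
    (1, true, true, [1])]) (by decide +kernel) (p := 1 / 3) (k := 1 / 6)
    (by norm_num) (by norm_num)
  have c := gD.comp (N := 6) (P := 2) (K := 0) (L := [(1, false, false, [0]),
    (1, false, false, [1, 2, 3]), (1, false, true, [2]), (1, false, true, [3]),
    (1, true, false, [0]), (1, true, false, [1])]) (by decide +kernel)
    (p := 1 / 3) (k := 0) (by norm_num) (by norm_num)
  refine dg_exact gD.gad (by linarith) (by linarith)
    (gD.gad.mix2 (by norm_num) (by norm_num) (by norm_num) (by norm_num) (by norm_num) (by norm_num)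
      a c (a := 10 - 30 * p) (b := 30 * p - 9) (by linarith) (by linarith) (by ring) (by ring)
      (by ring))
    (gD.gad.mix2 (by norm_num) (by norm_num) (by norm_num) (by norm_num) (by norm_num) (by norm_num)
      a b (a := 10 - 30 * p) (b := 30 * p - 9) (by linarith) (by linarith) (by ring) (by ring)
      (by ring)) fun μ hμ h => ?_
  have := gD.sound (w := [3, 1, 1, 1]) (la := 2) (lb := 2) (mu := -2) (c := 3)
    (by decide +kernel) hμ h
  rw [show ∑ i ∈ range gD.n, [3, 1, 1, 1].getD i 0 = 6 by decide +kernel] at this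
  norm_num at this
  linarith

theorem sg_N : SG (1 / 3) (1 / 9) := by
  refine sg_exact gN.gad (by norm_num) (by norm_num)
    (gN.comp (N := 3) (P := 1) (K := 1) (L := [(1, false, false, [0, 2, 4, 5]),
      (1, false, false, [3, 6, 7, 8]), (1, true, true, [1])]) (by decide +kernel)
      (by norm_num) (by norm_num))
    (gN.comp (N := 9) (P := 3) (K := 2) (L := [(1, false, false, [0, 2, 4, 5]),
      (2, false, false, [2, 3, 6]), (2, false, false, [0, 1, 4, 8]), (1, false, true, [3, 6, 7, 8]),
      (1, true, false, [1, 5, 7]), (1, true, true, [5]), (1, true, true, [7])]) (by decide +kernel)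
      (by norm_num) (by norm_num)) fun μ hμ h => ?_
  have := gN.sound (w := [1, 2, 2, 2, 2, 1, 2, 1, 1]) (la := 2) (lb := 0) (mu := 3) (c := 6)
    (by decide +kernel) hμ h
  rw [show ∑ i ∈ range gN.n, [1, 2, 2, 2, 2, 1, 2, 1, 1].getD i 0 = 14 by decide +kernel] at this
  norm_num at this
  linarith

theorem sg_S : SG (2 / 7) (1 / 14) := by
  refine sg_exact gS.gad (by norm_num) (by norm_num)
    (gS.comp (N := 7) (P := 2) (K := 2) (L := [(1, false, false, [0, 3]),
      (1, false, false, [1, 2, 4]), (1, false, false, [0, 5]), (1, false, false, [2, 4, 5]),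
      (1, false, false, [1, 3, 6]), (2, true, true, [])]) (by decide +kernel)
      (by norm_num) (by norm_num))
    (gS.comp (N := 14) (P := 4) (K := 3) (L := [(2, false, false, [0, 3]),
      (1, false, false, [0, 5]), (3, false, false, [2, 4, 5]), (2, false, false, [1, 3, 6]),
      (1, false, false, [1, 4, 6]), (1, false, true, [2, 6]), (1, true, false, [0, 1]),
      (3, true, true, [])]) (by decide +kernel) (by norm_num) (by norm_num)) fun μ hμ h => ?_
  have := gS.sound (w := [3, 2, 1, 2, 2, 2, 1]) (la := 0) (lb := 3) (mu := 2) (c := 5)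
    (by decide +kernel) hμ h
  rw [show ∑ i ∈ range gS.n, [3, 2, 1, 2, 2, 2, 1].getD i 0 = 13 by decide +kernel] at this
  norm_num at this
  linarith

end Pool.Agent.MP_9e68e9_lc
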