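import Pool.Agent.MP_9e68e9_lc.Prob

/-! Product measures on the cube: a spectral bound for the noise operator and a second moment
bound. -/

namespace Pool.Agent.MP_9e68e9_lc

open Finset

/-- Product weights. -/
def pw {α : Type} (ω : α → ℝ) (k : ℕ) (z : Fin k → α) : ℝ := ∏ i, ω (z i)

theorem Ex_pw_zero {α : Type} [Fintype α] (ω : α → ℝ) (F : (Fin 0 → α) → ℝ) :
    Ex (pw ω 0) F = F default := by
  simp [Ex, pw]

theorem Ex_pw_succ {α : Type} [Fintype α] (ω : α → ℝ) (k : ℕ) (F : (Fin (k + 1) → α) → ℝ) :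
    Ex (pw ω (k + 1)) F = Ex (pw ω k) (fun z => ∑ a, ω a * F (Fin.cons a z)) := by
  simp only [Ex, pw]
  rw [← (Fin.consEquiv fun _ : Fin (k + 1) => α).sum_comp, Fintype.sum_prod_type, Finset.sum_comm]
  refine Finset.sum_congr rfl fun z _ => ?_
  rw [Finset.mul_sum]
  refine Finset.sum_congr rfl fun a _ => ?_
  simp only [Fin.consEquiv_apply, Fin.prod_univ_succ, Fin.cons_zero, Fin.cons_succ]
  have : (Fin.consEquiv fun _ : Fin (k + 1) => α) (a, z) = Fin.cons a z := rfl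
  rw [this]
  ring

theorem isProb_pw {α : Type} [Fintype α] {ω : α → ℝ} (h : IsProb ω) (k : ℕ) : IsProb (pw ω k) :=
  isProb_pi (κ := fun _ : Fin k => ω) fun _ => h

theorem second_moment {α : Type} [Fintype α] {ω : α → ℝ} (h : IsProb ω) {g : α → ℝ}
    (h0 : ∑ a, ω a * g a = 0) (h1 : ∀ a, g a ^ 2 ≤ 1) (k : ℕ) :
    Ex (pw ω k) (fun z => ∑ i, g (z i)) = 0 ∧ Ex (pw ω k) (fun z => (∑ i, g (z i)) ^ 2) ≤ k := by
  induction k with
  | zero => simp [Ex_pw_zero]
  | succ k ih =>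
    have hk := isProb_pw h k
    constructor
    · rw [Ex_pw_succ, ← ih.1]
      refine Ex_congr fun z => ?_
      simp only [Fin.sum_univ_succ, Fin.cons_zero, Fin.cons_succ, mul_add, Finset.sum_add_distrib,
        h0, ← Finset.sum_mul, h.2]
      ring
    · rw [Ex_pw_succ]
      have h2 : ∑ a, ω a * g a ^ 2 ≤ 1 := by
        rw [← h.2]
        exact Finset.sum_le_sum fun a _ => by nlinarith [h.1 a, h1 a]
      have : Ex (pw ω k) (fun z => ∑ a, ω a * (∑ i, g ((Fin.cons a z : Fin (k + 1) → α) i)) ^ 2) ≤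
          Ex (pw ω k) (fun z => 1 + (∑ i, g (z i)) ^ 2) := by
        refine Ex_mono hk.1 fun z => ?_
        simp only [Fin.sum_univ_succ, Fin.cons_zero, Fin.cons_succ]
        generalize ∑ i, g (z i) = S
        have : ∑ a, ω a * (g a + S) ^ 2 =
            ∑ a, ω a * g a ^ 2 + 2 * S * ∑ a, ω a * g a + S ^ 2 * ∑ a, ω a := by
          simp only [Finset.mul_sum, ← Finset.sum_add_distrib]
          exact Finset.sum_congr rfl fun a _ => by ring
        rw [this, h0, h.2]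
        linarith
      rw [Ex_add, hk.Ex_const] at this
      push_cast
      linarith [ih.2]

/-- The biased bit. -/
def wt (β : ℝ) (a : Bool) : ℝ := cond a (1 - β) β

/-- A pair of correlated biased bits. -/
def tw (β θ : ℝ) (z : Bool × Bool) : ℝ :=
  θ * (if z.1 = z.2 then wt β z.1 else 0) + (1 - θ) * wt β z.1 * wt β z.2

theorem isProb_wt {β : ℝ} (h0 : 0 ≤ β) (h1 : β ≤ 1) : IsProb (wt β) :=
  ⟨by rintro (_ | _) <;> simp [wt, h0, h1], by simp [wt]⟩

theorem isProb_tw {β θ : ℝ} (h0 : 0 ≤ β) (h1 : β ≤ 1) (h2 : θ ≤ 1) (h3 : 0 ≤ θ + (1 - θ) * β)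
    (h4 : 0 ≤ θ + (1 - θ) * (1 - β)) : IsProb (tw β θ) := by
  have : 0 ≤ (1 - θ) * β * (1 - β) := mul_nonneg (mul_nonneg (by linarith) h0) (by linarith)
  refine ⟨?_, ?_⟩
  · rintro ⟨_ | _, _ | _⟩ <;> simp [tw, wt]
    · nlinarith
    · nlinarith
    · nlinarith
    · nlinarith
  · simp [Fintype.sum_prod_type, tw, wt]
    ring

/-- First components. -/
def fs {k : ℕ} (z : Fin k → Bool × Bool) : Fin k → Bool := fun i => (z i).1

/-- Second components. -/
def sn {k : ℕ} (z : Fin k → Bool × Bool) : Fin k → Bool := fun i => (z i).2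

theorem fs_cons {k : ℕ} (a : Bool × Bool) (z : Fin k → Bool × Bool) :
    fs (Fin.cons a z : Fin (k + 1) → Bool × Bool) = Fin.cons a.1 (fs z) := by
  funext i
  refine Fin.cases ?_ (fun i => ?_) i <;> simp [fs]

theorem sn_cons {k : ℕ} (a : Bool × Bool) (z : Fin k → Bool × Bool) :
    sn (Fin.cons a z : Fin (k + 1) → Bool × Bool) = Fin.cons a.2 (sn z) := by
  funext i
  refine Fin.cases ?_ (fun i => ?_) i <;> simp [sn]

/-- The quadratic form of the noise operator. -/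
def QQ (β θ : ℝ) {k : ℕ} (f : (Fin k → Bool) → ℝ) : ℝ :=
  Ex (pw (tw β θ) k) (fun z => f (fs z) * f (sn z))

/-- Variance under the biased product measure. -/
def Var (β : ℝ) {k : ℕ} (f : (Fin k → Bool) → ℝ) : ℝ :=
  Ex (pw (wt β) k) (fun y => f y ^ 2) - Ex (pw (wt β) k) f ^ 2

theorem Var_eq {β : ℝ} (h0 : 0 ≤ β) (h1 : β ≤ 1) {k : ℕ} (f : (Fin k → Bool) → ℝ) :
    Var β f = Ex (pw (wt β) k) (fun y => (f y - Ex (pw (wt β) k) f) ^ 2) := by
  have hk := isProb_pw (isProb_wt h0 h1) k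
  unfold Var
  generalize hm : Ex (pw (wt β) k) f = m
  have : Ex (pw (wt β) k) (fun y => (f y - m) ^ 2) =
      Ex (pw (wt β) k) (fun y => f y ^ 2 - (2 * m * f y - m ^ 2)) := Ex_congr fun y => by ring
  rw [this, Ex_sub, Ex_sub, Ex_const_mul, hk.Ex_const, hm]
  ring

theorem Var_nonneg {β : ℝ} (h0 : 0 ≤ β) (h1 : β ≤ 1) {k : ℕ} (f : (Fin k → Bool) → ℝ) :
    0 ≤ Var β f := by
  rw [Var_eq h0 h1]
  exact Ex_nonneg (isProb_pw (isProb_wt h0 h1) k).1 fun _ => sq_nonneg _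

theorem spectral {β θ : ℝ} (h0 : 0 ≤ β) (h1 : β ≤ 1) (hθ : |θ| ≤ 1) (k : ℕ)
    (f : (Fin k → Bool) → ℝ) : |QQ β θ f - Ex (pw (wt β) k) f ^ 2| ≤ |θ| * Var β f := by
  induction k with
  | zero =>
    obtain ⟨c, rfl⟩ : ∃ c, f = fun _ => c :=
      ⟨f default, funext fun x => congrArg f (Subsingleton.elim _ _)⟩
    simp [QQ, Var, Ex_pw_zero, sq]
  | succ k ih =>
    let g : (Fin k → Bool) → ℝ := fun y => (1 - β) * f (Fin.cons true y) + β * f (Fin.cons false y)
    let d : (Fin k → Bool) → ℝ := fun y => f (Fin.cons true y) - f (Fin.cons false y)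
    have eQ : QQ β θ f = QQ β θ g + θ * (β * (1 - β)) * QQ β θ d := by
      simp only [QQ]
      rw [Ex_pw_succ, ← Ex_const_mul, ← Ex_add]
      refine Ex_congr fun z => ?_
      simp [Fintype.sum_prod_type, fs_cons, sn_cons, tw, wt, g, d]
      ring
    have eM : Ex (pw (wt β) (k + 1)) f = Ex (pw (wt β) k) g := by
      rw [Ex_pw_succ]
      exact Ex_congr fun z => by simp [wt, g]
    have eN : Ex (pw (wt β) (k + 1)) (fun y => f y ^ 2) = Ex (pw (wt β) k) (fun y => g y ^ 2) +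
        β * (1 - β) * Ex (pw (wt β) k) (fun y => d y ^ 2) := by
      rw [Ex_pw_succ, ← Ex_const_mul, ← Ex_add]
      refine Ex_congr fun z => ?_
      simp [wt, g, d]
      ring
    have hd : |QQ β θ d| ≤ Ex (pw (wt β) k) (fun y => d y ^ 2) := by
      have a1 := ih d
      have a2 := Var_nonneg h0 h1 d
      have a3 : |θ| * Var β d ≤ Var β d := by nlinarith
      have a4 := sq_nonneg (Ex (pw (wt β) k) d)
      rw [abs_le] at a1 ⊢
      unfold Var at a1 a2 a3
      constructor <;> linarith [a1.1, a1.2]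
    have hb : 0 ≤ β * (1 - β) := mul_nonneg h0 (by linarith)
    have h2 : |θ * (β * (1 - β)) * QQ β θ d| ≤
        |θ| * (β * (1 - β) * Ex (pw (wt β) k) (fun y => d y ^ 2)) := by
      rw [abs_mul, abs_mul, abs_of_nonneg hb, mul_assoc]
      exact mul_le_mul_of_nonneg_left (mul_le_mul_of_nonneg_left hd hb) (abs_nonneg _)
    have h3 := ih g
    unfold Var at h3 ⊢
    rw [eQ, eM, eN]
    calc _ = |(QQ β θ g - Ex (pw (wt β) k) g ^ 2) + θ * (β * (1 - β)) * QQ β θ d| := by ring_nf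
      _ ≤ _ := abs_add_le _ _
      _ ≤ _ := by linarith

theorem Var_comb {β : ℝ} (h0 : 0 ≤ β) (h1 : β ≤ 1) {k : ℕ} (f g : (Fin k → Bool) → ℝ) :
    Var β (fun y => (1 - β) * f y - β * g y) ≤ (1 - β) * Var β f + β * Var β g := by
  rw [Var_eq h0 h1, Var_eq h0 h1, Var_eq h0 h1, Ex_sub, Ex_const_mul, Ex_const_mul]
  generalize Ex (pw (wt β) k) f = m
  generalize Ex (pw (wt β) k) g = n
  rw [← Ex_const_mul, ← Ex_const_mul, ← Ex_add]
  refine Ex_mono (isProb_pw (isProb_wt h0 h1) k).1 fun y => ?_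
  have : 0 ≤ β * (1 - β) * ((f y - m) + (g y - n)) ^ 2 :=
    mul_nonneg (mul_nonneg h0 (by linarith)) (sq_nonneg _)
  nlinarith

end Pool.Agent.MP_9e68e9_lc
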