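import Pool.Agent.MP_9e68e9_lc.Thr
import Pool.Agent.MP_9e68e9_lc.Spec

/-! Amplification: a gap between closeness and distance gives arbitrarily fine closeness. -/

namespace Pool.Agent.MP_9e68e9_lc

open Finset

variable {k : ℕ}

/-- Hamming distance as a real number. -/
def hd (y y' : Fin k → Bool) : ℝ := ∑ i, ind (y i != y' i)

/-- The antipode. -/
def ng (y : Fin k → Bool) : Fin k → Bool := fun i => !y i

theorem ind_sq (b : Bool) : ind b ^ 2 = ind b := by cases b <;> simp

theorem hd_ng_ng (y y' : Fin k → Bool) : hd (ng y) (ng y') = hd y y' :=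
  Finset.sum_congr rfl fun i _ => by unfold ng; cases y i <;> cases y' i <;> rfl

theorem hd_ng_right (y y' : Fin k → Bool) : hd y (ng y') = k - hd y y' := by
  have : ∑ _i : Fin k, (1 : ℝ) = k := by simp
  rw [← this, hd, hd, ← Finset.sum_sub_distrib]
  exact Finset.sum_congr rfl fun i _ => by unfold ng; cases y i <;> cases y' i <;> simp

theorem hd_ng_left (y y' : Fin k → Bool) : hd (ng y) y' = k - hd y y' := by
  have : ∑ _i : Fin k, (1 : ℝ) = k := by simp
  rw [← this, hd, hd, ← Finset.sum_sub_distrib]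
  exact Finset.sum_congr rfl fun i _ => by unfold ng; cases y i <;> cases y' i <;> simp

theorem hd_self (y : Fin k → Bool) : hd y y = 0 := by simp [hd]

theorem hd_comm (y y' : Fin k → Bool) : hd y y' = hd y' y :=
  Finset.sum_congr rfl fun i _ => by cases y i <;> cases y' i <;> rfl

theorem hd_triangle (x y z : Fin k → Bool) : hd x z ≤ hd x y + hd y z := by
  rw [hd, hd, hd, ← Finset.sum_add_distrib]
  exact Finset.sum_le_sum fun i _ => by cases x i <;> cases y i <;> cases z i <;> simp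

theorem hd_update (y : Fin k → Bool) (i : Fin k) : hd y (Function.update y i (!y i)) = 1 := by
  rw [hd, Finset.sum_eq_single i]
  · simp only [Function.update_self]
    cases y i <;> rfl
  · intro j _ hj
    simp [Function.update_of_ne hj]
  · simp

theorem cube_model {p c : ℝ} (hk : 0 < k) (h0 : 0 ≤ c) (h1 : c ≤ p) (h2 : p + c ≤ 1) {V : Type}
    [Fintype V] [DecidableEq V] (pos : V → Fin k → Bool) :
    ∃ μ : (V → Bool) → ℝ, Bal p μ ∧ ∀ u v, KK μ u v = p - c / k * hd (pos u) (pos v) := by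
  have hk' : (0 : ℝ) < k := by exact_mod_cast hk
  let P : (Fin k × Bool) ⊕ Bool → ℝ := Sum.elim (fun _ => c / k) fun b => cond b (p - c) (1 - p - c)
  let X : (Fin k × Bool) ⊕ Bool → V → Bool := fun ω v =>
    Sum.elim (fun q : Fin k × Bool => pos v q.1 == q.2) id ω
  have hP : IsProb P := by
    refine ⟨?_, ?_⟩
    · rintro (_ | _ | _)
      · exact div_nonneg h0 hk'.le
      · change 0 ≤ 1 - p - c; linarith
      · change 0 ≤ p - c; linarith
    · simp [P, Fintype.sum_sum_type]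
      field_simp
      ring
  have key : ∀ u v, Ex P (fun ω => ind (X ω u) * ind (X ω v)) =
      p - c / k * hd (pos u) (pos v) := by
    intro u v
    have e : ∀ i, ∑ σ : Bool, c / k * (ind (pos u i == σ) * ind (pos v i == σ)) =
        c / k - c / k * ind (pos u i != pos v i) := by
      intro i
      cases pos u i <;> cases pos v i <;> simp
    simp only [Ex, P, X, Fintype.sum_sum_type, Fintype.sum_prod_type, Sum.elim_inl, Sum.elim_inr, e]
    simp only [Finset.sum_sub_distrib, ← Finset.mul_sum, hd]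
    simp
    field_simp
    ring
  refine ⟨law P X, bal_law hP X fun s => ?_, fun u v => by rw [KK, Ex_law, key]⟩
  have := key s s
  rw [hd_self] at this
  rw [← sub_zero p, ← mul_zero (c / k), ← this]
  exact Ex_congr fun ω => by cases X ω s <;> simp

theorem le_of_dev {x b δ D : ℝ} (hδ : 0 < δ) (h1 : b - 1 ≤ x) (h : D ^ 2 ≤ δ ^ 2 → b ≤ x) :
    b - D ^ 2 / δ ^ 2 ≤ x := by
  by_cases e : D ^ 2 ≤ δ ^ 2
  · have : 0 ≤ D ^ 2 / δ ^ 2 := by positivity
    linarith [h e]
  · have : 1 ≤ D ^ 2 / δ ^ 2 := by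
      rw [le_div_iff₀ (by positivity)]
      linarith
    linarith

theorem Ex_ge_of_dev {α : Type} [Fintype α] {ω : α → ℝ} (hω : IsProb ω) {g : α → Bool} {m : ℝ}
    (hm : ∑ a, ω a * ind (g a) = m) {δ b B : ℝ} (hδ : 0 < δ) (hB : k / δ ^ 2 ≤ B)
    {F : (Fin k → α) → ℝ} (h1 : ∀ z, b - 1 ≤ F z)
    (h : ∀ z, |∑ i, ind (g (z i)) - k * m| ≤ δ → b ≤ F z) : b - B ≤ Ex (pw ω k) F := by
  have hm0 : 0 ≤ m := hm ▸ Finset.sum_nonneg fun a _ => mul_nonneg (hω.1 a) (ind_nonneg _)
  have hm1 : m ≤ 1 := by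
    rw [← hm, ← hω.2]
    exact Finset.sum_le_sum fun a _ => by nlinarith [hω.1 a, ind_le_one (g a)]
  have h2 := (second_moment hω (g := fun a => ind (g a) - m) (by
    simp only [mul_sub, Finset.sum_sub_distrib, hm, ← Finset.sum_mul, hω.2]; ring)
    (fun a => by cases g a <;> simp only [ind_true, ind_false] <;> nlinarith) k).2
  have hk := isProb_pw hω k
  have h3 := Ex_mono (f := fun z => b - (1 / δ ^ 2) * (∑ i, (ind (g (z i)) - m)) ^ 2) (g := F)
    hk.1 fun z => by
      have e : ∑ i, (ind (g (z i)) - m) = ∑ i, ind (g (z i)) - k * m := by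
        simp [Finset.sum_sub_distrib]
      rw [e, one_div_mul_eq_div]
      exact le_of_dev hδ (h1 z) fun hz => h z (abs_le_of_sq_le_sq' hz hδ.le |> abs_le.2)
  rw [Ex_sub, hk.Ex_const, Ex_const_mul] at h3
  have : 1 / δ ^ 2 * Ex (pw ω k) (fun z => (∑ i, (ind (g (z i)) - m)) ^ 2) ≤ k / δ ^ 2 := by
    rw [one_div_mul_eq_div]
    exact div_le_div_of_nonneg_right h2 (by positivity)
  linarith

theorem Ex_le_of_dev {α : Type} [Fintype α] {ω : α → ℝ} (hω : IsProb ω) {g : α → Bool} {m : ℝ}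
    (hm : ∑ a, ω a * ind (g a) = m) {δ b B : ℝ} (hδ : 0 < δ) (hB : k / δ ^ 2 ≤ B)
    {F : (Fin k → α) → ℝ} (h1 : ∀ z, F z ≤ b + 1)
    (h : ∀ z, |∑ i, ind (g (z i)) - k * m| ≤ δ → F z ≤ b) : Ex (pw ω k) F ≤ b + B := by
  have := Ex_ge_of_dev hω hm hδ hB (b := -b) (F := fun z => (-1) * F z)
    (fun z => by linarith [h1 z]) fun z hz => by linarith [h z hz]
  rw [Ex_const_mul] at this
  linarith

/-- The constraints of the cube gadget. -/
def CubeRel (p c s L : ℝ) (k : ℕ) (μ : (Bool ⊕ (Fin k → Bool) → Bool) → ℝ) : Prop :=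
  (∀ q : (Fin k → Bool) × (Fin k → Bool),
    (c * hd q.1 q.2 ≤ s * k → p - s ≤ KK μ (.inr q.1) (.inr q.2)) ∧
    (L * k ≤ c * hd q.1 q.2 → KK μ (.inr q.1) (.inr q.2) ≤ p - L)) ∧
  ∀ q : Bool × (Fin k → Bool),
    (c * (hd (fun _ => true) q.2 + 1) ≤ s * k → p - s ≤ KK μ (.inl q.1) (.inr q.2)) ∧
    (L * k ≤ c * (hd (fun _ => true) q.2 - 1) → KK μ (.inl q.1) (.inr q.2) ≤ p - L)

theorem real_cube {p s L : ℝ} (hs : SG p s) (hL : DG p L) (c : ℝ) (k : ℕ) :
    Real p _ (CubeRel p c s L k) :=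
  (Real.all fun _ => ((hs.pull _ _).imp _).and ((hL.pull _ _).imp _)).and
    (Real.all fun _ => ((hs.pull _ _).imp _).and ((hL.pull _ _).imp _))

theorem cube_complete {p c s L : ℝ} (hk : 0 < k) (h0 : 0 ≤ c) (h1 : c ≤ p) (h2 : p + c ≤ 1)
    (x : Fin k → Bool) (hx : hd (fun _ => true) x ≤ 1) :
    ∃ μ, Bal p μ ∧ law μ (fun x t => x (.inl t)) = law2 p (p - c / k * hd (fun _ => true) x) ∧
      CubeRel p c s L k μ := by
  have hk' : (0 : ℝ) < k := by exact_mod_cast hk
  obtain ⟨μ, hμ, hK⟩ := cube_model hk h0 h1 h2 (V := Bool ⊕ (Fin k → Bool))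
    (Sum.elim (fun a => cond a x fun _ => true) id)
  have e1 : ∀ {a : ℝ}, c * a ≤ s * k → c / k * a ≤ s := fun h => by
    rwa [div_mul_eq_mul_div, div_le_iff₀ hk']
  have e2 : ∀ {a : ℝ}, L * k ≤ c * a → L ≤ c / k * a := fun h => by
    rwa [div_mul_eq_mul_div, le_div_iff₀ hk']
  refine ⟨μ, hμ, ?_, fun q => ⟨fun h => ?_, fun h => ?_⟩, fun q => ?_⟩
  · rw [(hμ.pull Sum.inl).eq_law2]
    congr 1
    rw [KK, Ex_law]
    exact hK (.inl false) (.inl true)
  · rw [hK]
    simp only [Sum.elim_inr, id]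
    linarith [e1 h]
  · rw [hK]
    simp only [Sum.elim_inr, id]
    linarith [e2 h]
  · have t1 : hd (cond q.1 x fun _ => true) q.2 ≤ hd (fun _ => true) q.2 + 1 := by
      cases q.1
      · simp
      · have := hd_triangle x (fun _ => true) q.2
        rw [hd_comm x fun _ => true] at this
        simp only [cond_true]
        linarith
    have t2 : hd (fun _ => true) q.2 - 1 ≤ hd (cond q.1 x fun _ => true) q.2 := by
      cases q.1
      · simp
      · have := hd_triangle (fun _ => true) x q.2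
        simp only [cond_true]
        linarith
    rw [hK]
    simp only [Sum.elim_inl, Sum.elim_inr, id]
    constructor
    · intro h
      linarith [e1 ((mul_le_mul_of_nonneg_left t1 h0).trans h)]
    · intro h
      linarith [e2 (h.trans (mul_le_mul_of_nonneg_left t2 h0))]

theorem cube_sound {p c s L β η : ℝ} (hp : p ≤ 1) (hc0 : 0 ≤ c) (hc1 : c ≤ 1) (hβ : 1 / 3 ≤ β)
    (hβ' : β < 1 / 2) (hη : 0 < η) (hη1 : η ≤ 1) (hs : s = β * c + η) (hL : L = (1 - β) * c - η)
    (hk : 4 / η ^ 3 ≤ k) {μ : (Bool ⊕ (Fin k → Bool) → Bool) → ℝ} (hμ : Bal p μ)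
    (h : CubeRel p c s L k μ) :
    (1 - 2 * β) ^ 2 * (p - KK μ (.inl false) (.inl true)) ≤ 20 * η := by
  have hβ0 : 0 ≤ β := by linarith
  have hβ1 : β ≤ 1 := by linarith
  have hk0 : (0 : ℝ) < k := lt_of_lt_of_le (by positivity) hk
  have hk1 : 4 ≤ η ^ 3 * k := by rwa [div_le_iff₀ (by positivity), mul_comm] at hk
  have hk2 : 2 ≤ η * k := by
    have : η ^ 3 * k ≤ η * k := by
      refine mul_le_mul_of_nonneg_right ?_ hk0.le
      have := pow_le_one₀ hη.le hη1 (n := 2)
      nlinarith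
    linarith
  have hδ : 0 < η * k / 2 := by positivity
  have hB : k / (η * k / 2) ^ 2 ≤ η := by
    rw [div_le_iff₀ (by positivity)]
    nlinarith
  have hs0 : 0 ≤ s := by rw [hs]; positivity
  have hL1 : L ≤ 1 := by
    have := mul_le_one₀ (by linarith : 1 - β ≤ 1) hc0 hc1
    linarith
  have hsk : s * k = c * β * k + η * k := by rw [hs]; ring
  have hLk : L * k = c * (1 - β) * k - η * k := by rw [hL]; ring
  have lo : ∀ a b, p - s - 1 ≤ KK μ a b := fun a b => by linarith [hμ.KK_nonneg a b]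
  have hi : ∀ a b, KK μ a b ≤ p - L + 1 := fun a b => by linarith [hμ.KK_le a b]
  have dev : ∀ {H m : ℝ}, |H - k * m| ≤ η * k / 2 →
      c * H ≤ c * m * k + η * k / 2 ∧ c * m * k - η * k / 2 ≤ c * H := by
    intro H m hh
    rw [abs_le] at hh
    have t1 := mul_le_mul_of_nonneg_left hh.1 hc0
    have t2 := mul_le_mul_of_nonneg_left hh.2 hc0
    have t3 := mul_le_mul_of_nonneg_right hc1 hδ.le
    constructor <;> linarith
  have hν := isProb_pw (isProb_wt hβ0 hβ1) k
  set ν := pw (wt β) k with hνdef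
  -- the variance bound
  let θ := (1 - 2 * β) / (2 * (1 - β))
  have hθ : (1 - θ) * (2 * (1 - β)) = 1 := by
    have : 1 - β ≠ 0 := by linarith
    simp only [θ]
    field_simp
    ring
  have hθ0 : 0 ≤ θ := div_nonneg (by linarith) (by linarith)
  have hθ1 : θ ≤ 1 := div_le_one_of_le₀ (by linarith) (by linarith)
  have hτ : IsProb (tw β θ) := isProb_tw hβ0 hβ1 hθ1
    (add_nonneg hθ0 (mul_nonneg (by linarith) hβ0)) (by linarith)
  have varb : ∀ r : (Fin k → Bool) → Fin k → Bool, (∀ y y', hd (r y) (r y') = hd y y') →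
      Ex μ (fun x => Var β fun y => ind (x (.inr (r y)))) ≤ 2 * (1 - β) * (s + η) := by
    intro r hr
    have a1 : p - s - η ≤ Ex (pw (tw β θ) k) fun z => KK μ (.inr (r (fs z))) (.inr (r (sn z))) := by
      refine Ex_ge_of_dev hτ (g := fun a => a.1 != a.2) (m := β) ?_ hδ hB (fun z => lo _ _)
        fun z hz => (h.1 (r (fs z), r (sn z))).1 ?_
      · simp [Fintype.sum_prod_type, tw, wt]
        linear_combination β * hθ
      · have := (dev (H := hd (fs z) (sn z)) hz).1
        simp only [hr]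
        linarith
    have a2 : Ex (pw (tw β θ) k) (fun z => KK μ (.inr (r (fs z))) (.inr (r (sn z)))) =
        Ex μ fun x => QQ β θ fun y => ind (x (.inr (r y))) := by
      simp only [KK, QQ]
      rw [Ex_comm]
    have a3 : Ex μ (fun x => Ex ν fun y => ind (x (.inr (r y)))) = p := by
      rw [Ex_comm]
      simp only [hμ.2]
      exact hν.Ex_const p
    have a4 := Ex_mono (μ := μ) (f := fun x => (1 - θ) * Var β fun y => ind (x (.inr (r y))))
      (g := fun x => (Ex ν fun y => ind (x (.inr (r y)))) - QQ β θ fun y => ind (x (.inr (r y))))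
      hμ.1.1 fun x => by
        have b1 := spectral hβ0 hβ1 (θ := θ) (by rwa [abs_of_nonneg hθ0]) k
          fun y => ind (x (.inr (r y)))
        rw [abs_of_nonneg hθ0, abs_le] at b1
        have b2 : (Var β fun y => ind (x (.inr (r y)))) = (Ex ν fun y => ind (x (.inr (r y)))) -
            (Ex ν fun y => ind (x (.inr (r y)))) ^ 2 := by
          unfold Var
          congr 1
          exact Ex_congr fun y => ind_sq _
        linarith [b1.2]
    rw [Ex_const_mul, Ex_sub, a3, ← a2] at a4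
    generalize Ex μ (fun x => Var β fun y => ind (x (.inr (r y)))) = V at a4
    have : V = 2 * (1 - β) * ((1 - θ) * V) := by linear_combination (-V) * hθ
    rw [this]
    exact mul_le_mul_of_nonneg_left (by linarith) (by linarith)
  -- the second moment of the extrapolated mean
  let ϑ := -((1 - 2 * β) / (2 * β))
  have hϑ : (1 - ϑ) * (2 * β) = 1 := by
    have : β ≠ 0 := by linarith
    simp only [ϑ]
    field_simp
    ring
  have hϑ0 : ϑ ≤ 0 := neg_nonpos.2 (div_nonneg (by linarith) (by linarith))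
  have hϑ1 : -ϑ ≤ 1 := by
    simp only [ϑ, neg_neg]
    exact div_le_one_of_le₀ (by linarith) (by linarith)
  have hϑ2 : (1 - ϑ) * β = 1 / 2 := by linarith
  have hϑ3 : -1 / 2 ≤ ϑ := by
    have := mul_le_mul_of_nonneg_left hβ (by linarith : 0 ≤ 1 - ϑ)
    linarith
  have hσ : IsProb (tw β ϑ) := isProb_tw hβ0 hβ1 (by linarith) (by linarith) (by linarith)
  let F : (Bool ⊕ (Fin k → Bool) → Bool) → (Fin k → Bool) → ℝ := fun x y =>
    (1 - β) * ind (x (.inr y)) - β * ind (x (.inr (ng y)))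
  have hmean : ∑ a : Bool × Bool, tw β ϑ a * ind (a.1 != a.2) = 1 - β := by
    simp [Fintype.sum_prod_type, tw, wt]
    linear_combination (1 - β) * hϑ
  have c1 : Ex (pw (tw β ϑ) k) (fun z => KK μ (.inr (fs z)) (.inr (sn z))) ≤ p - L + η :=
    Ex_le_of_dev hσ hmean hδ hB (fun z => hi _ _) fun z hz => (h.1 (fs z, sn z)).2 (by
      have := (dev (H := hd (fs z) (sn z)) hz).2
      dsimp only
      linarith)
  have c2 : Ex (pw (tw β ϑ) k) (fun z => KK μ (.inr (ng (fs z))) (.inr (ng (sn z)))) ≤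
      p - L + η :=
    Ex_le_of_dev hσ hmean hδ hB (fun z => hi _ _) fun z hz => (h.1 (ng (fs z), ng (sn z))).2 (by
      have := (dev (H := hd (fs z) (sn z)) hz).2
      simp only [hd_ng_ng]
      linarith)
  have c3 : p - s - η ≤ Ex (pw (tw β ϑ) k) (fun z => KK μ (.inr (fs z)) (.inr (ng (sn z)))) :=
    Ex_ge_of_dev hσ hmean hδ hB (fun z => lo _ _) fun z hz => (h.1 (fs z, ng (sn z))).1 (by
      have := (dev (H := hd (fs z) (sn z)) hz).2
      simp only [hd_ng_right]
      linarith)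
  have c4 : p - s - η ≤ Ex (pw (tw β ϑ) k) (fun z => KK μ (.inr (ng (fs z))) (.inr (sn z))) :=
    Ex_ge_of_dev hσ hmean hδ hB (fun z => lo _ _) fun z hz => (h.1 (ng (fs z), sn z)).1 (by
      have := (dev (H := hd (fs z) (sn z)) hz).2
      simp only [hd_ng_left]
      linarith)
  have c5 : Ex μ (fun x => QQ β ϑ (F x)) =
      (1 - β) ^ 2 * Ex (pw (tw β ϑ) k) (fun z => KK μ (.inr (fs z)) (.inr (sn z))) +
      β ^ 2 * Ex (pw (tw β ϑ) k) (fun z => KK μ (.inr (ng (fs z))) (.inr (ng (sn z)))) -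
      β * (1 - β) * Ex (pw (tw β ϑ) k) (fun z => KK μ (.inr (fs z)) (.inr (ng (sn z)))) -
      β * (1 - β) * Ex (pw (tw β ϑ) k) (fun z => KK μ (.inr (ng (fs z))) (.inr (sn z))) := by
    simp only [QQ]
    rw [Ex_comm]
    simp only [KK, ← Ex_const_mul, ← Ex_add, ← Ex_sub]
    exact Ex_congr fun z => Ex_congr fun x => by simp only [F]; ring
  have c6 := Ex_mono (μ := μ) (f := fun x => Ex ν (F x) ^ 2)
    (g := fun x => QQ β ϑ (F x) + (-ϑ) * ((1 - β) * Var β (fun y => ind (x (.inr (id y)))) +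
      β * Var β fun y => ind (x (.inr (ng y))))) hμ.1.1 fun x => by
      have b1 := spectral hβ0 hβ1 (θ := ϑ) (by rwa [abs_of_nonpos hϑ0]) k (F x)
      rw [abs_of_nonpos hϑ0, abs_le] at b1
      have b2 := mul_le_mul_of_nonneg_left (Var_comb hβ0 hβ1 (fun y => ind (x (.inr y)))
        fun y => ind (x (.inr (ng y)))) (neg_nonneg.2 hϑ0)
      simp only [id]
      linarith [b1.1]
  rw [Ex_add, Ex_const_mul, Ex_add, Ex_const_mul, Ex_const_mul, c5] at c6
  have v1 := varb id fun _ _ => rfl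
  have v2 := varb ng hd_ng_ng
  have c7 : Ex μ (fun x => Ex ν (F x) ^ 2) ≤ (1 - 2 * β) ^ 2 * p + 2 * η * (1 + 2 * (1 - 2 * β)) := by
    have w1 : (1 - β) * Ex μ (fun x => Var β fun y => ind (x (.inr (id y)))) +
        β * Ex μ (fun x => Var β fun y => ind (x (.inr (ng y)))) ≤ 2 * (1 - β) * (s + η) := by
      linarith [mul_le_mul_of_nonneg_left v1 (by linarith : 0 ≤ 1 - β),
        mul_le_mul_of_nonneg_left v2 hβ0]
    have w2 := mul_le_mul_of_nonneg_left w1 (neg_nonneg.2 hϑ0)
    have w3 : -ϑ * (2 * (1 - β) * (s + η)) =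
        (1 - 2 * β) * (1 - β) * c + (-ϑ) * (2 * (1 - β)) * (2 * η) := by
      rw [hs]
      linear_combination ((1 - β) * c) * hϑ
    have w4 : (-ϑ) * (2 * (1 - β)) ≤ 2 * (1 - 2 * β) := by
      have := mul_le_mul_of_nonneg_left hβ (neg_nonneg.2 hϑ0)
      linarith
    have w5 := mul_le_mul_of_nonneg_right w4 (by linarith : 0 ≤ 2 * η)
    have u1 := mul_le_mul_of_nonneg_left c1 (sq_nonneg (1 - β))
    have u2 := mul_le_mul_of_nonneg_left c2 (sq_nonneg β)
    have hb : 0 ≤ β * (1 - β) := mul_nonneg hβ0 (by linarith)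
    have u3 := mul_le_mul_of_nonneg_left c3 hb
    have u4 := mul_le_mul_of_nonneg_left c4 hb
    have w6 : (1 - β) ^ 2 * (p - L + η) + β ^ 2 * (p - L + η) - β * (1 - β) * (p - s - η) -
        β * (1 - β) * (p - s - η) = (1 - 2 * β) ^ 2 * p - (1 - 2 * β) * (1 - β) * c + 2 * η := by
      rw [hs, hL]
      ring
    linarith
  -- the correlation with the terminals
  have hm0 : ∑ a : Bool, wt β a * ind (true != a) = β := by simp [wt]
  have d1 : ∀ a, (1 - 2 * β) * p - 2 * η ≤ Ex μ (fun x => ind (x (.inl a)) * Ex ν (F x)) := by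
    intro a
    have e1 : p - s - η ≤ Ex ν fun y => KK μ (.inl a) (.inr y) :=
      Ex_ge_of_dev (isProb_wt hβ0 hβ1) hm0 hδ hB (fun z => lo _ _) fun z hz => (h.2 (a, z)).1 (by
        have := (dev (H := hd (fun _ => true) z) hz).1
        dsimp only
        linarith)
    have e2 : Ex ν (fun y => KK μ (.inl a) (.inr (ng y))) ≤ p - L + η :=
      Ex_le_of_dev (isProb_wt hβ0 hβ1) hm0 hδ hB (fun z => hi _ _) fun z hz =>
        (h.2 (a, ng z)).2 (by
          have := (dev (H := hd (fun _ => true) z) hz).1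
          simp only [hd_ng_right]
          linarith)
    have e3 : Ex μ (fun x => ind (x (.inl a)) * Ex ν (F x)) =
        (1 - β) * Ex ν (fun y => KK μ (.inl a) (.inr y)) -
          β * Ex ν (fun y => KK μ (.inl a) (.inr (ng y))) := by
      simp only [← Ex_const_mul]
      rw [Ex_comm]
      simp only [KK, ← Ex_const_mul, ← Ex_sub]
      exact Ex_congr fun z => Ex_congr fun x => by simp only [F]; ring
    have u1 := mul_le_mul_of_nonneg_left e1 (by linarith : 0 ≤ 1 - β)
    have u2 := mul_le_mul_of_nonneg_left e2 hβ0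
    have w : (1 - β) * (p - s - η) - β * (p - L + η) = (1 - 2 * β) * p - 2 * η := by
      rw [hs, hL]
      ring
    linarith
  have fin := Ex_mono (μ := μ)
    (f := fun x => 2 * (1 - 2 * β) * (ind (x (.inl false)) * Ex ν (F x)) +
      2 * (1 - 2 * β) * (ind (x (.inl true)) * Ex ν (F x)) - 2 * Ex ν (F x) ^ 2 -
      (1 - 2 * β) ^ 2 / 2 * ind (x (.inl false)) - (1 - 2 * β) ^ 2 / 2 * ind (x (.inl true)))
    (g := fun x => (1 - 2 * β) ^ 2 * (ind (x (.inl false)) * ind (x (.inl true)))) hμ.1.1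
    fun x => by
      generalize Ex ν (F x) = n
      generalize 1 - 2 * β = D
      cases x (.inl false) <;> cases x (.inl true) <;> simp only [ind_true, ind_false]
      · linarith [sq_nonneg n]
      · linarith [sq_nonneg (D - 2 * n)]
      · linarith [sq_nonneg (D - 2 * n)]
      · linarith [sq_nonneg (D - n)]
  simp only [Ex_sub, Ex_add, Ex_const_mul, hμ.2] at fin
  have f1 := mul_le_mul_of_nonneg_left (d1 false) (by linarith : 0 ≤ 2 * (1 - 2 * β))
  have f2 := mul_le_mul_of_nonneg_left (d1 true) (by linarith : 0 ≤ 2 * (1 - 2 * β))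
  have f3 := mul_le_mul_of_nonneg_right (by linarith : 1 - 2 * β ≤ 1) hη.le
  unfold KK
  linarith

theorem amplify {p s L : ℝ} (hp : 2 * p ≤ 1) (hs : SG p s) (hL : DG p L) (h0 : 0 < s) (h1 : s < L)
    (h2 : L < 2 * s) (h3 : s + L ≤ p) {ε : ℝ} (hε : 0 < ε) : ∃ r, 0 < r ∧ r ≤ ε ∧ SG p r := by
  set c := s + L with hc
  have hc0 : 0 < c := by linarith
  let D := (L - s) / c
  have hD : 0 < D := div_pos (by linarith) hc0
  let η := min (min 1 ((2 * s - L) / 3)) (ε * D ^ 2 / 20)
  have hη : 0 < η := lt_min (lt_min one_pos (by linarith)) (by positivity)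
  have hη1 : η ≤ 1 := (min_le_left _ _).trans (min_le_left _ _)
  have hη2 : η ≤ (2 * s - L) / 3 := (min_le_left _ _).trans (min_le_right _ _)
  have hη3 : η ≤ ε * D ^ 2 / 20 := min_le_right _ _
  let β := (s - η) / c
  have hβc : β * c = s - η := div_mul_cancel₀ _ hc0.ne'
  have hDc : D * c = L - s := div_mul_cancel₀ _ hc0.ne'
  have hβ : 1 / 3 ≤ β := by
    rw [le_div_iff₀ hc0]
    linarith
  have hβ' : β < 1 / 2 := by
    rw [div_lt_iff₀ hc0]
    linarith
  have hDβ : D ≤ 1 - 2 * β := by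
    refine le_of_mul_le_mul_right ?_ hc0
    nlinarith
  obtain ⟨k, hk⟩ := exists_nat_ge (4 / η ^ 3)
  have hk0 : (0 : ℝ) < k := lt_of_lt_of_le (by positivity) hk
  have hk1 : 0 < k := by exact_mod_cast hk0
  have hk2 : (1 : ℝ) ≤ k := by exact_mod_cast hk1
  obtain ⟨Γ, hΓ⟩ := (real_cube hs hL c k).ex (by linarith)
  have hck : c / k ≤ p := by
    rw [div_le_iff₀ hk0]
    nlinarith
  have hck0 : 0 < c / k := by positivity
  obtain ⟨r, r1, r2, r3⟩ := sg_of Γ hp (K := p - c / k) (s' := ε) (by linarith) (by linarith)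
    ((hΓ _ (bal_law2 hp (by linarith) le_rfl)).2 (by
      have := cube_complete (s := s) (L := L) hk1 hc0.le h3 (by linarith) (fun _ => true)
        (by rw [hd_self]; exact zero_le_one)
      rwa [hd_self, mul_zero, sub_zero] at this))
    ((hΓ _ (bal_law2 hp (by linarith) (by linarith))).2 (by
      have e := hd_update (fun _ : Fin k => true) ⟨0, hk1⟩
      have := cube_complete (s := s) (L := L) hk1 hc0.le h3 (by linarith) _ e.le
      rwa [e, mul_one] at this))
    (fun μ hμ h => by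
      obtain ⟨μ', k1, rfl, k3⟩ := (hΓ μ hμ).1 h
      have := cube_sound (by linarith) hc0.le (by linarith) hβ hβ' hη hη1 (by linarith)
        (by linarith) hk k1 k3
      have e : KK (law μ' fun x t => x (.inl t)) false true = KK μ' (.inl false) (.inl true) := by
        rw [KK, Ex_law]; rfl
      rw [e]
      have a1 := k1.KK_le (.inl false) (.inl true)
      have a2 : D ^ 2 ≤ (1 - 2 * β) ^ 2 := by nlinarith
      have a3 : D ^ 2 * (p - KK μ' (.inl false) (.inl true)) ≤ D ^ 2 * ε := by nlinarith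
      have := le_of_mul_le_mul_left a3 (by positivity)
      linarith)
  exact ⟨r, by linarith, r2, r3⟩

end Pool.Agent.MP_9e68e9_lc
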