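import Mathlib

namespace Pool.Agent.MP_9e68e9_lc

/-- A dominating `(a:b)`-colouring: every vertex gets exactly `b` of the `a` colours, and every
colour class is a dominating set. -/
def IsDomColouring {V : Type} (G : SimpleGraph V) (a b : ℕ) (φ : V → Finset (Fin a)) : Prop :=
  (∀ v, (φ v).card = b) ∧ ∀ (c : Fin a) (v : V), c ∈ φ v ∨ ∃ u, G.Adj v u ∧ c ∈ φ u

/-- The fractional domatic number: the supremum of `a / b` over dominating `(a:b)`-colourings. -/
noncomputable def fdom {V : Type} (G : SimpleGraph V) : EReal :=
  sSup {x : EReal | ∃ (a b : ℕ) (φ : V → Finset (Fin a)),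
    1 ≤ b ∧ b ≤ a ∧ IsDomColouring G a b φ ∧ x = (((a : ℝ) / (b : ℝ) : ℝ) : EReal)}

open Classical in
/-- The adjacency matrix of `G`, written row by row. -/
noncomputable def adjBits {n : ℕ} (G : SimpleGraph (Fin n)) : List Bool :=
  (List.finRange n).flatMap fun a => (List.finRange n).map fun b => decide (G.Adj a b)

open Classical in
/-- The language of adjacency matrices of graphs with fractional domatic number at least `t`. -/
noncomputable def FD (t : ℝ) : List Bool → Bool := fun x =>
  decide (∃ (n : ℕ) (G : SimpleGraph (Fin n)), x = adjBits G ∧ (t : EReal) ≤ fdom G)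

end Pool.Agent.MP_9e68e9_lc
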