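import Pool.Agent.MP_9e68e9_lc.Defs

/-! The fractional domatic number through random dominating sets. -/

namespace Pool.Agent.MP_9e68e9_lc

open Finset

/-- Indicator of a Boolean. -/
def ind (b : Bool) : ℝ := if b then 1 else 0

@[simp] theorem ind_true : ind true = 1 := rfl
@[simp] theorem ind_false : ind false = 0 := rfl
theorem ind_nonneg (b : Bool) : 0 ≤ ind b := by cases b <;> simp
theorem ind_le_one (b : Bool) : ind b ≤ 1 := by cases b <;> simp

/-- The set of vertices marked `true` is dominating. -/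
def Dominates {V : Type} (G : SimpleGraph V) (x : V → Bool) : Prop :=
  ∀ v, x v = true ∨ ∃ u, G.Adj v u ∧ x u = true

/-- There is a random dominating set containing each vertex with probability at most `p`. -/
def Feas {V : Type} [Fintype V] [DecidableEq V] (G : SimpleGraph V) (p : ℝ) : Prop :=
  ∃ μ : (V → Bool) → ℝ, (∀ x, 0 ≤ μ x) ∧ ∑ x, μ x = 1 ∧ (∀ x, μ x ≠ 0 → Dominates G x) ∧
    ∀ v, ∑ x, μ x * ind (x v) ≤ p

variable {V : Type} [Fintype V] [DecidableEq V] {G : SimpleGraph V}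

theorem Feas.mono {p q : ℝ} (h : Feas G p) (hpq : p ≤ q) : Feas G q := by
  obtain ⟨μ, h1, h2, h3, h4⟩ := h
  exact ⟨μ, h1, h2, h3, fun v => (h4 v).trans hpq⟩

theorem feas_of_forall_gt {p : ℝ} (h : ∀ q, p < q → Feas G q) : Feas G p := by
  let S : ℕ → Set ((V → Bool) → ℝ) := fun n =>
    {μ | (∀ x, 0 ≤ μ x) ∧ ∑ x, μ x = 1 ∧ (∀ x, ¬ Dominates G x → μ x = 0) ∧
      ∀ v, ∑ x, μ x * ind (x v) ≤ p + 1 / ((n : ℝ) + 1)}
  have hcl : ∀ n, IsClosed (S n) := by
    intro n
    simp only [S, Set.ofPred_and, Set.ofPred_forall]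
    refine IsClosed.inter (isClosed_iInter fun x => isClosed_le (by fun_prop) (by fun_prop))
      (IsClosed.inter (isClosed_eq (by fun_prop) (by fun_prop)) (IsClosed.inter
        (isClosed_iInter fun x => isClosed_iInter fun _ => isClosed_eq (by fun_prop) (by fun_prop))
        (isClosed_iInter fun x => isClosed_le (by fun_prop) (by fun_prop))))
  have hne : ∀ n, (S n).Nonempty := by
    intro n
    obtain ⟨μ, h1, h2, h3, h4⟩ := h (p + 1 / ((n : ℝ) + 1)) (by
      have : (0 : ℝ) < 1 / ((n : ℝ) + 1) := by positivity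
      linarith)
    exact ⟨μ, h1, h2, fun x hx => by_contra fun e => hx (h3 x e), h4⟩
  have hdec : ∀ n, S (n + 1) ⊆ S n := by
    rintro n μ ⟨h1, h2, h3, h4⟩
    refine ⟨h1, h2, h3, fun v => (h4 v).trans ?_⟩
    have : 1 / (((n + 1 : ℕ) : ℝ) + 1) ≤ 1 / ((n : ℝ) + 1) :=
      one_div_le_one_div_of_le (by positivity) (by push_cast; linarith)
    linarith
  have hco : IsCompact (S 0) :=
    (isCompact_stdSimplex ℝ (V → Bool)).of_isClosed_subset (hcl 0) fun μ hμ => ⟨hμ.1, hμ.2.1⟩
  obtain ⟨μ, hμ⟩ := IsCompact.nonempty_iInter_of_sequence_nonempty_isCompact_isClosed S hdec hne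
    hco hcl
  rw [Set.mem_iInter] at hμ
  refine ⟨μ, (hμ 0).1, (hμ 0).2.1, fun x hx => by_contra fun e => hx ((hμ 0).2.2.1 x e),
    fun v => le_of_forall_pos_le_add fun ε hε => ?_⟩
  obtain ⟨n, hn⟩ := exists_nat_one_div_lt hε
  exact ((hμ n).2.2.2 v).trans (by linarith)

theorem feas_of_colouring {a b : ℕ} (hb : 1 ≤ b) (hab : b ≤ a) {φ : V → Finset (Fin a)}
    (h : IsDomColouring G a b φ) : Feas G ((b : ℝ) / a) := by
  classical
  have ha : (0 : ℝ) < a := by exact_mod_cast (by omega : 0 < a)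
  let X : Fin a → V → Bool := fun c v => decide (c ∈ φ v)
  have key : ∀ f : (V → Bool) → ℝ,
      ∑ x, (∑ c, if X c = x then (1 : ℝ) / a else 0) * f x = ∑ c, 1 / a * f (X c) := by
    intro f
    simp only [Finset.sum_mul, ite_mul, zero_mul]
    rw [Finset.sum_comm]
    simp
  refine ⟨fun x => ∑ c, if X c = x then (1 : ℝ) / a else 0, fun x => ?_, ?_, fun x hx => ?_,
    fun v => ?_⟩
  · exact Finset.sum_nonneg fun c _ => by split_ifs <;> positivity
  · have := key fun _ => 1
    simp only [mul_one] at this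
    rw [this]
    simp
    field_simp
  · obtain ⟨c, -, hc⟩ := Finset.exists_ne_zero_of_sum_ne_zero hx
    have e : X c = x := by
      by_contra e
      simp [e] at hc
    subst e
    intro v
    rcases h.2 c v with h1 | ⟨u, h1, h2⟩
    · exact Or.inl (by simpa [X] using h1)
    · exact Or.inr ⟨u, h1, by simpa [X] using h2⟩
  · rw [key fun x => ind (x v), ← Finset.mul_sum]
    have : ∑ c, ind (X c v) = b := by
      simp only [X, ind, decide_eq_true_eq, Finset.sum_boole, Finset.filter_mem_eq_inter,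
        Finset.univ_inter, h.1 v]
    rw [this]
    exact le_of_eq (by ring)

theorem exists_colouring {p : ℝ} (hp : 0 < p) (hp1 : p < 1) (h : Feas G p) {s : ℝ}
    (hs : s < 1 / p) : ∃ (a b : ℕ) (φ : V → Finset (Fin a)),
      1 ≤ b ∧ b ≤ a ∧ IsDomColouring G a b φ ∧ s < (a : ℝ) / b := by
  classical
  obtain ⟨μ, h1, h2, h3, h4⟩ := h
  obtain ⟨C, hC⟩ : ∃ C : ℝ, C = (Fintype.card (V → Bool) : ℝ) := ⟨_, rfl⟩
  have hsp : s * p < 1 := by rwa [lt_div_iff₀ hp] at hs
  obtain ⟨N, hN⟩ := exists_nat_gt (max (1 / p) (max (C / (1 - p)) (C / (1 - s * p))))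
  simp only [max_lt_iff] at hN
  obtain ⟨hN1, hN2, hN3⟩ := hN
  rw [div_lt_iff₀ hp] at hN1
  rw [div_lt_iff₀ (by linarith)] at hN2 hN3
  have hN0 : (0 : ℝ) < N := by
    by_contra hh
    nlinarith
  let m : (V → Bool) → ℕ := fun x => ⌊N * μ x⌋₊
  let I := Σ x : V → Bool, Fin (m x)
  let a := Fintype.card I
  let e : I ≃ Fin a := Fintype.equivFin I
  let b := ⌊N * p⌋₊
  have ha : (a : ℝ) = ∑ x, (m x : ℝ) := by simp [a, I]
  have ha1 : N - C ≤ a := by
    rw [ha]
    have : ∑ x : V → Bool, (N * μ x - 1) ≤ ∑ x, (m x : ℝ) :=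
      Finset.sum_le_sum fun x _ => (Nat.sub_one_lt_floor _).le
    rw [Finset.sum_sub_distrib, ← Finset.mul_sum, h2] at this
    simpa [hC] using this
  have hb1 : 1 ≤ b := Nat.le_floor (by push_cast; linarith)
  have hb2 : (b : ℝ) ≤ N * p := Nat.floor_le (by positivity)
  have hab : b ≤ a := by
    have : (b : ℝ) ≤ a := by nlinarith
    exact_mod_cast this
  let ψ : V → Finset (Fin a) := fun v => univ.filter fun c => (e.symm c).1 v = true
  have hψ : ∀ v, (ψ v).card ≤ b := by
    intro v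
    refine Nat.le_floor ?_
    have e1 : ((ψ v).card : ℝ) = ∑ i : I, ind (i.1 v) := by
      rw [← e.symm.sum_comp]
      simp [ψ, ind]
    have e2 : ∑ i : I, ind (i.1 v) = ∑ x, (m x : ℝ) * ind (x v) := by
      simp [I, Fintype.sum_sigma]
    rw [e1, e2]
    calc ∑ x, (m x : ℝ) * ind (x v) ≤ ∑ x, N * (μ x * ind (x v)) :=
          Finset.sum_le_sum fun x _ => by
            rw [← mul_assoc]
            exact mul_le_mul_of_nonneg_right (Nat.floor_le (mul_nonneg hN0.le (h1 x)))
              (ind_nonneg _)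
      _ ≤ N * p := by
          rw [← Finset.mul_sum]
          exact mul_le_mul_of_nonneg_left (h4 v) hN0.le
  have hex : ∀ v, ∃ s : Finset (Fin a), ψ v ⊆ s ∧ s.card = b := fun v =>
    Finset.exists_superset_card_eq (hψ v) (by simpa using hab)
  choose φ hφ1 hφ2 using hex
  refine ⟨a, b, φ, hb1, hab, ⟨hφ2, fun c v => ?_⟩, ?_⟩
  · have hm : μ (e.symm c).1 ≠ 0 := by
      intro h0
      have := (e.symm c).2.2
      simp [m, h0] at this
    rcases h3 _ hm v with h5 | ⟨u, h5, h6⟩
    · exact Or.inl (hφ1 v (by simpa [ψ] using h5))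
    · exact Or.inr ⟨u, h5, hφ1 u (by simpa [ψ] using h6)⟩
  · have hb0 : (0 : ℝ) < b := by exact_mod_cast hb1
    rw [lt_div_iff₀ hb0]
    by_cases hs0 : 0 ≤ s
    · nlinarith [mul_le_mul_of_nonneg_left hb2 hs0]
    · have : (0 : ℝ) ≤ a := Nat.cast_nonneg _
      nlinarith

theorem feas_one : Feas G 1 := by
  refine ⟨fun x => if x = fun _ => true then 1 else 0, fun x => by dsimp only; split_ifs <;> simp, by simp,
    fun x hx v => ?_, fun v => by simp⟩
  have : x = fun _ => true := by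
    by_contra e
    simp [e] at hx
  simp [this]

omit [Fintype V] [DecidableEq V] in
theorem one_le_fdom : ((1 : ℝ) : EReal) ≤ fdom G :=
  le_sSup ⟨1, 1, fun _ => univ, le_rfl, le_rfl, ⟨fun _ => by simp, fun _ _ => Or.inl (mem_univ _)⟩,
    by simp⟩

/-- The fractional domatic number is at least `t` iff some random dominating set contains every
vertex with probability at most `1 / t`. -/
theorem le_fdom_iff {t : ℝ} (ht : 0 < t) : (t : EReal) ≤ fdom G ↔ Feas G (1 / t) := by
  constructor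
  · intro h
    refine feas_of_forall_gt fun q hq => ?_
    have hq0 : 0 < q := lt_trans (by positivity) hq
    have h1 : ((1 / q : ℝ) : EReal) < fdom G := by
      refine lt_of_lt_of_le ?_ h
      rw [EReal.coe_lt_coe_iff]
      rwa [one_div_lt hq0 ht]
    obtain ⟨x, ⟨a, b, φ, hb, hab, hφ, rfl⟩, hx⟩ := lt_sSup_iff.1 h1
    rw [EReal.coe_lt_coe_iff] at hx
    refine (feas_of_colouring hb hab hφ).mono ?_
    have hb0 : (0 : ℝ) < b := by exact_mod_cast hb
    have ha0 : (0 : ℝ) < a := by exact_mod_cast (by omega : 0 < a)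
    rw [div_lt_div_iff₀ hq0 hb0] at hx
    rw [div_le_iff₀ ha0]
    linarith
  · intro h
    by_cases h1 : t ≤ 1
    · exact le_trans (EReal.coe_le_coe_iff.2 h1) one_le_fdom
    · refine le_of_forall_lt fun x hx => ?_
      obtain ⟨s, hs1, hs2⟩ := EReal.lt_iff_exists_real_btwn.1 hx
      rw [EReal.coe_lt_coe_iff] at hs2
      obtain ⟨a, b, φ, hb, hab, hφ, hs⟩ := exists_colouring (by positivity)
        (by rw [div_lt_one ht]; linarith) h (s := s) (by simpa using hs2)
      exact hs1.trans (lt_of_lt_of_le (EReal.coe_lt_coe_iff.2 hs) (le_sSup ⟨a, b, φ, hb, hab, hφ, rfl⟩))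

end Pool.Agent.MP_9e68e9_lc
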