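import Pool.Agent.MP_9e68e9_lc.PCPRound

/-! The PCP theorem in the form of a gap reduction to 3-SAT (Dinur's proof). -/

namespace Pool.Agent.MP_9e68e9_lc.PCP

open Finset Pool.Agent.MP_2e8011_lc
open scoped BigOperators

/-- Renamed literal. -/
def ev (l : ℕ × Bool) : ℕ × Bool := (2 * l.1, l.2)

/-- Fresh variable. -/
def fr (i j : ℕ) : ℕ := 2 * Nat.pair i j + 1

/-- Chain of width four clauses for one clause. -/
def chain (i : ℕ) (c : List (ℕ × Bool)) : CNF :=
  [(fr i 0, false), (fr i 0, false), (fr i 0, false), (fr i 0, false)] ::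
  [(fr i c.length, true), (fr i c.length, true), (fr i c.length, true), (fr i c.length, true)] ::
  (List.range c.length).map fun j =>
    [(fr i (j + 1), false), (fr i j, true), ev (c.getD j (0, true)), ev (c.getD j (0, true))]

/-- Conversion to width four. -/
def conv (φ : CNF) : CNF := (List.range φ.length).flatMap fun i => chain i (φ.getD i [])

theorem conv_pt : PT conv := by
  unfold conv chain fr ev
  fun_prop

theorem conv_w4 (φ : CNF) : W4 (conv φ) := by
  intro c hc
  simp only [conv, chain, List.mem_flatMap, List.mem_cons, List.mem_map] at hc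
  obtain ⟨i, -, rfl | rfl | ⟨j, -, rfl⟩⟩ := hc <;> rfl

theorem getD_mem' {α : Type} {l : List α} {i : ℕ} (h : i < l.length) (d : α) : l.getD i d ∈ l := by
  rw [List.getD_eq_getElem _ _ h]; exact List.getElem_mem h

theorem exists_getD {α : Type} {l : List α} {x : α} (h : x ∈ l) (d : α) :
    ∃ i < l.length, l.getD i d = x := by
  obtain ⟨i, hi, rfl⟩ := List.getElem_of_mem h
  exact ⟨i, hi, List.getD_eq_getElem _ _ hi⟩

theorem conv_complete {φ : CNF} (h : Sat φ) : Sat (conv φ) := by
  classical
  obtain ⟨a, ha⟩ := h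
  let P : ℕ → ℕ → Prop := fun i j => ∃ k < j,
    a ((φ.getD i []).getD k (0, true)).1 = ((φ.getD i []).getD k (0, true)).2
  let b : ℕ → Bool := fun x => if x % 2 = 0 then a (x / 2) else
    decide (P (x / 2).unpair.1 (x / 2).unpair.2)
  have b1 : ∀ i j, b (fr i j) = decide (P i j) := fun i j => by
    have e1 : fr i j % 2 ≠ 0 := by unfold fr; omega
    have e2 : fr i j / 2 = Nat.pair i j := by unfold fr; omega
    simp only [b, if_neg e1, e2, Nat.unpair_pair]
  have b2 : ∀ l : ℕ × Bool, b (ev l).1 = a l.1 := fun l => by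
    have e1 : (ev l).1 % 2 = 0 := by unfold ev; simp only; omega
    have e2 : (ev l).1 / 2 = l.1 := by unfold ev; simp only; omega
    simp only [b, if_pos e1, e2]
  refine ⟨b, Dat.satBy_flatMap.2 fun i hi c hc => ?_⟩
  rw [List.mem_range] at hi
  simp only [chain, List.mem_cons, List.mem_map, List.mem_range] at hc
  obtain rfl | rfl | ⟨j, hj, rfl⟩ := hc
  · refine ⟨_, List.mem_cons_self, ?_⟩
    simp only [b1, decide_eq_false_iff_not]
    rintro ⟨k, hk, -⟩
    omega
  · refine ⟨_, List.mem_cons_self, ?_⟩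
    simp only [b1, decide_eq_true_eq]
    obtain ⟨l, hl, e⟩ := ha _ (getD_mem' hi [])
    obtain ⟨k, hk, rfl⟩ := exists_getD hl (0, true)
    exact ⟨k, hk, e⟩
  · by_cases h1 : P i (j + 1)
    · by_cases h2 : P i j
      · exact ⟨(fr i j, true), by simp, by simp only [b1, decide_eq_true_eq]; exact h2⟩
      · obtain ⟨k, hk, e⟩ := h1
        obtain rfl : k = j := by
          by_contra hne
          exact h2 ⟨k, by omega, e⟩
        exact ⟨ev ((φ.getD i []).getD k (0, true)), by simp, by rw [b2]; exact e⟩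
    · exact ⟨_, List.mem_cons_self, by simp only [b1, decide_eq_false_iff_not]; exact h1⟩

theorem conv_sound {φ : CNF} (h : Sat (conv φ)) : Sat φ := by
  obtain ⟨b, hb⟩ := h
  refine ⟨fun x => b (2 * x), fun c hc => ?_⟩
  obtain ⟨i, hi, rfl⟩ := exists_getD hc []
  have H := Dat.satBy_flatMap.1 hb i (List.mem_range.2 hi)
  by_contra hn
  have key : ∀ j ≤ (φ.getD i []).length, b (fr i j) = false := by
    intro j
    induction j with
    | zero =>
      intro _
      obtain ⟨l, hl, e⟩ := H _ List.mem_cons_self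
      simp only [List.mem_cons, List.not_mem_nil, or_false, or_self] at hl
      subst hl
      exact e
    | succ j ih =>
      intro hj
      obtain ⟨l, hl, e⟩ := H _ (List.mem_cons_of_mem _ (List.mem_cons_of_mem _
        (List.mem_map.2 ⟨j, List.mem_range.2 hj, rfl⟩)))
      simp only [List.mem_cons, List.not_mem_nil, or_false, or_self] at hl
      rcases hl with rfl | rfl | rfl
      · exact e
      · have := ih (by omega)
        simp only at e
        rw [this] at e
        cases e
      · exact absurd ⟨_, getD_mem' hj (0, true), e⟩ hn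
  obtain ⟨l, hl, e⟩ := H _ (List.mem_cons_of_mem _ List.mem_cons_self)
  simp only [List.mem_cons, List.not_mem_nil, or_false, or_self] at hl
  subst hl
  have := key _ le_rfl
  simp only at e
  rw [this] at e
  cases e

/-- Splitting a clause of width four. -/
def two (i : ℕ) (c : List (ℕ × Bool)) : CNF :=
  [[ev (c.getD 0 (0, true)), ev (c.getD 1 (0, true)), (2 * i + 1, true)],
    [(2 * i + 1, false), ev (c.getD 2 (0, true)), ev (c.getD 3 (0, true))]]

/-- Conversion from width four to width three. -/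
def spl (φ : CNF) : CNF := (List.range φ.length).flatMap fun i => two i (φ.getD i [])

theorem spl_pt : PT spl := by
  unfold spl two ev
  fun_prop

theorem spl_w3 (φ : CNF) : ∀ c ∈ spl φ, c.length = 3 := by
  intro c hc
  simp only [spl, two, List.mem_flatMap, List.mem_cons, List.not_mem_nil, or_false] at hc
  obtain ⟨i, -, rfl | rfl⟩ := hc <;> rfl

theorem spl_len (φ : CNF) : (spl φ).length ≤ φ.length * 2 := by
  have := length_flatMap_le (List.range φ.length) (fun i => two i (φ.getD i [])) 2 fun _ => le_rfl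
  rwa [List.length_range] at this

theorem four_eq {α : Type} {c : List α} (h : c.length = 4) : ∃ x y z w, c = [x, y, z, w] := by
  match c, h with
  | [x, y, z, w], _ => exact ⟨x, y, z, w, rfl⟩

theorem spl_complete {φ : CNF} (hw : W4 φ) (h : Sat φ) : Sat (spl φ) := by
  obtain ⟨a, ha⟩ := h
  let b : ℕ → Bool := fun x => if x % 2 = 0 then a (x / 2) else
    (a ((φ.getD (x / 2) []).getD 0 (0, true)).1 != ((φ.getD (x / 2) []).getD 0 (0, true)).2 &&
      a ((φ.getD (x / 2) []).getD 1 (0, true)).1 != ((φ.getD (x / 2) []).getD 1 (0, true)).2)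
  have b1 : ∀ i, b (2 * i + 1) =
      (a ((φ.getD i []).getD 0 (0, true)).1 != ((φ.getD i []).getD 0 (0, true)).2 &&
        a ((φ.getD i []).getD 1 (0, true)).1 != ((φ.getD i []).getD 1 (0, true)).2) := fun i => by
    have e1 : (2 * i + 1) % 2 ≠ 0 := by omega
    have e2 : (2 * i + 1) / 2 = i := by omega
    simp only [b, if_neg e1, e2]
  have b2 : ∀ x, b (2 * x) = a x := fun x => by
    have e1 : (2 * x) % 2 = 0 := by omega
    have e2 : (2 * x) / 2 = x := by omega
    simp only [b, if_pos e1, e2]
  refine ⟨b, Dat.satBy_flatMap.2 fun i hi => ?_⟩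
  rw [List.mem_range] at hi
  have h1 := ha _ (getD_mem' hi [])
  have h2 := b1 i
  obtain ⟨x, y, z, w, e⟩ := four_eq (hw _ (getD_mem' hi []))
  rw [e] at h1 h2 ⊢
  simp only [SatBy, two, ev, List.mem_cons, List.not_mem_nil, or_false, forall_eq_or_imp,
    forall_eq, exists_eq_or_imp, exists_eq_left, List.getD_cons_zero, List.getD_cons_succ, b2,
    h2] at h1 ⊢
  by_cases hx : a x.1 = x.2 <;> by_cases hy : a y.1 = y.2 <;> simp_all

theorem spl_sound {φ : CNF} (hw : W4 φ) (a : ℕ → Bool) :
    viol (fun x => a (2 * x)) φ ≤ viol a (spl φ) := by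
  have : (viol (fun x => a (2 * x)) φ : ℝ) ≤ viol a (spl φ) := by
    rw [spl, viol_flatMap, sum_map_range, viol, countP_eq_sum _ []]
    push_cast
    refine Finset.sum_le_sum fun i hi => ?_
    obtain ⟨x, y, z, w, e⟩ := four_eq (hw _ (getD_mem' (Finset.mem_range.1 hi) []))
    rw [e]
    unfold ind
    split_ifs with h
    · have : 0 < viol a (two i [x, y, z, w]) := by
        simp only [List.all_cons, List.all_nil, Bool.and_true, Bool.and_eq_true] at h
        simp only [viol, List.countP_pos_iff, two, ev, List.mem_cons, List.not_mem_nil, or_false,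
          exists_eq_or_imp, exists_eq_left, List.getD_cons_zero, List.getD_cons_succ,
          List.all_cons, List.all_nil, Bool.and_true, Bool.and_eq_true, h, true_and, and_true]
        cases a (2 * i + 1) <;> simp
      exact_mod_cast this
    · positivity
  exact_mod_cast this

/-- One step of the iteration. -/
def step (r : CNF → CNF) (p : ℕ × CNF) : ℕ × CNF := if p.1 = 0 then p else (p.1 / 2, r p.2)

theorem iter_inv {r : CNF → CNF} (I : ℕ × CNF → Prop)
    (h : ∀ c φ, 0 < c → I (c, φ) → I (c / 2, r φ)) (p : ℕ × CNF) (hp : I p) (i : ℕ) :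
    I ((step r)^[i] p) := by
  induction i with
  | zero => exact hp
  | succ i ih =>
    rw [Function.iterate_succ_apply']
    unfold step
    split_ifs with h0
    · exact ih
    · exact h _ _ (Nat.pos_of_ne_zero h0) ih

theorem iter_fst (r : CNF → CNF) (p : ℕ × CNF) (i : ℕ) : ((step r)^[i] p).1 ≤ p.1 - i := by
  induction i with
  | zero => exact le_rfl
  | succ i ih =>
    rw [Function.iterate_succ_apply']
    generalize (step r)^[i] p = q at ih
    unfold step
    split_ifs with h0
    · omega
    · simp only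
      omega

theorem exists_amp : ∃ g : CNF → CNF, PT g ∧ (∀ φ, W4 φ → W4 (g φ)) ∧
    (∀ φ, W4 φ → Sat φ → Sat (g φ)) ∧
    ∀ φ, W4 φ → ¬ Sat φ → ∀ a, 0 < viol a (g φ) ∧ c0 * (g φ).length ≤ viol a (g φ) := by
  obtain ⟨r, C, hpt, hw, hlen, hsz, hc, hs⟩ := exists_round
  refine ⟨fun φ => ((step r)^[φ.length] (φ.length, φ)).2, ?_, fun φ h => ?_, fun φ h1 h2 => ?_,
    fun φ h1 h2 => ?_⟩
  · refine (PT.iter (B := fun φ : CNF => 2 * φ.length + 1 +
      (sz φ + C * ((φ.length + 1) * (2 * φ.length + 1) ^ C) ^ 2)) ?_ (by fun_prop) (by fun_prop)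
      (PT.pb (by fun_prop)) fun φ i _ => ?_).snd
    · unfold step
      have := hpt.comp (PT.id (α := ℕ × CNF)).snd
      fun_prop
    · have := iter_inv (r := r) (fun p => (p.2.length + 1) * (max (2 * p.1) 1) ^ C ≤
        (φ.length + 1) * (2 * φ.length + 1) ^ C ∧ p.1 ≤ φ.length ∧
        sz p.2 ≤ sz φ + C * ((φ.length + 1) * (2 * φ.length + 1) ^ C) ^ 2) (fun c ψ h0 H => by
          obtain ⟨H1, H2, H3⟩ := H
          simp only at H1 H2 H3 ⊢
          refine ⟨le_trans ?_ H1, by omega, ?_⟩
          · have h1 := hlen ψ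
            have h2 : C + 1 ≤ 2 ^ C := Nat.lt_two_pow_self
            calc _ ≤ (2 ^ C * (ψ.length + 1)) * c ^ C :=
                Nat.mul_le_mul (by nlinarith) (Nat.pow_le_pow_left (by omega) _)
              _ = (ψ.length + 1) * (2 * c) ^ C := by rw [mul_pow]; ring
              _ ≤ _ := Nat.mul_le_mul_left _ (Nat.pow_le_pow_left (by omega) _)
          · have h1 : ψ.length + 1 ≤ (φ.length + 1) * (2 * φ.length + 1) ^ C :=
              le_trans (Nat.le_mul_of_pos_right _ (pow_pos (by omega) _)) H1
            exact (hsz ψ).trans ((Nat.mul_le_mul_left _ (Nat.pow_le_pow_left h1 _)).trans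
              (Nat.le_add_left _ _))) (φ.length, φ)
        ⟨Nat.mul_le_mul_left _ (Nat.pow_le_pow_left (by simp only; omega) _), le_rfl,
          Nat.le_add_right _ _⟩ i
      obtain ⟨-, h1, h2⟩ := this
      rw [← Prod.mk.eta (p := (step r)^[i] (φ.length, φ)), sz_prod, sz_nat]
      omega
  · exact iter_inv (fun p => W4 p.2) (fun c ψ _ _ => hw ψ) _ h _
  · exact (iter_inv (fun p => W4 p.2 ∧ Sat p.2) (fun c ψ _ H => ⟨hw ψ, hc ψ H.1 H.2⟩) _
      ⟨h1, h2⟩ _).2
  · have c := c0_pos
    have hle : ∀ (a : ℕ → Bool) (ψ : CNF), viol a ψ ≤ ψ.length := fun a ψ => List.countP_le_length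
    have := iter_inv (r := r) (fun p => W4 p.2 ∧ ∀ a, 0 < viol a p.2 ∧
      (c0 * p.2.length ≤ viol a p.2 ∨ p.2.length ≤ p.1 * viol a p.2)) (fun k ψ h0 H => by
        obtain ⟨H1, H2⟩ := H
        simp only at H1 H2 ⊢
        have k0 : (0 : ℝ) < k := by exact_mod_cast h0
        have hp : 0 < ψ.length := (H2 fun _ => true).1.trans_le (hle _ _)
        refine ⟨hw ψ, fun a => ?_⟩
        obtain ⟨h3, h4⟩ := hs ψ H1 hp (min c0 (1 / k)) (lt_min c (by positivity)) (fun b => by
          rcases (H2 b).2 with h | h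
          · exact le_trans (mul_le_mul_of_nonneg_right (min_le_left _ _) (by positivity)) h
          · refine le_trans (mul_le_mul_of_nonneg_right (min_le_right _ _) (by positivity)) ?_
            rw [one_div, inv_mul_le_iff₀ k0]
            exact_mod_cast h) a
        refine ⟨h3, ?_⟩
        rcases le_or_gt c0 (3 * min c0 (1 / k)) with h5 | h5
        · rw [min_eq_right h5] at h4
          exact Or.inl h4
        · right
          rw [min_eq_left h5.le] at h4
          have h6 : 1 / (k : ℝ) ≤ c0 := by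
            by_contra h6
            rw [min_eq_left (not_le.1 h6).le] at h5
            linarith
          rw [min_eq_right h6] at h4 h5
          have h7 : k ≠ 1 := by
            rintro rfl
            have := c0_le
            norm_num at h5
            linarith
          rw [mul_one_div, div_mul_eq_mul_div, div_le_iff₀ k0] at h4
          have h8 : 3 * (r ψ).length ≤ viol a (r ψ) * k := by exact_mod_cast h4
          have h9 : viol a (r ψ) * k ≤ viol a (r ψ) * (3 * (k / 2)) :=
            Nat.mul_le_mul_left _ (by omega)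
          nlinarith) (φ.length, φ) ⟨h1, fun a => by
        have : 0 < viol a φ := Nat.pos_of_ne_zero fun h => h2 ⟨a, (satBy_iff_viol a φ).2 h⟩
        exact ⟨this, Or.inr (Nat.le_mul_of_pos_right _ this)⟩⟩ φ.length
    intro a
    obtain ⟨h3, h4⟩ := this.2 a
    refine ⟨h3, h4.resolve_right fun h5 => ?_⟩
    have h6 := iter_fst r (φ.length, φ) φ.length
    simp only [Nat.sub_self, Nat.le_zero] at h6
    rw [h6] at h5
    have := hle a ((step r)^[φ.length] (φ.length, φ)).2
    omega

/-- The PCP theorem: a polynomial time gap reduction from satisfiability to 3-SAT. -/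
theorem gap3sat : ∃ (K : ℕ) (f : CNF → CNF), 0 < K ∧ PT f ∧ (∀ φ, ∀ c ∈ f φ, c.length = 3) ∧
    (∀ φ, Sat φ → Sat (f φ)) ∧
    (∀ φ, ¬ Sat φ → f φ ≠ [] ∧ ∀ a : ℕ → Bool,
      (f φ).length ≤ K * ((f φ).countP (fun c => c.all (fun l => a l.1 != l.2)))) := by
  obtain ⟨g, hpt, hw, hc, hs⟩ := exists_amp
  obtain ⟨K, hK⟩ := exists_nat_gt (1 / c0)
  have c := c0_pos
  refine ⟨2 * (K + 1), fun φ => spl (g (conv φ)), by omega, spl_pt.comp (hpt.comp conv_pt),
    fun φ => spl_w3 _, fun φ h => spl_complete (hw _ (conv_w4 φ)) (hc _ (conv_w4 φ)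
      (conv_complete h)), fun φ h => ?_⟩
  have H := hs _ (conv_w4 φ) fun h' => h (conv_sound h')
  have H2 := spl_sound (hw _ (conv_w4 φ))
  refine ⟨fun e => ?_, fun a => ?_⟩
  · have h1 := (H fun x => true).1
    have h2 := H2 fun _ => true
    simp only at e
    rw [e] at h2
    exact absurd (h1.trans_le h2) (lt_irrefl 0)
  · have h1 := (H fun x => a (2 * x)).2
    have h2 := H2 a
    have h3 := spl_len (g (conv φ))
    rw [div_lt_iff₀ c] at hK
    have h4 : ((g (conv φ)).length : ℝ) ≤ K * viol (fun x => a (2 * x)) (g (conv φ)) := by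
      have := mul_le_mul_of_nonneg_left h1 (Nat.cast_nonneg (α := ℝ) K)
      have h0 : (0 : ℝ) ≤ (g (conv φ)).length := by positivity
      nlinarith
    have h5 : (g (conv φ)).length ≤ K * viol (fun x => a (2 * x)) (g (conv φ)) := by
      exact_mod_cast h4
    have h6 := Nat.mul_le_mul_left K h2
    change (spl (g (conv φ))).length ≤ 2 * (K + 1) * viol a (spl (g (conv φ)))
    nlinarith

end Pool.Agent.MP_9e68e9_lc.PCP
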