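import Pool.Agent.MP_9e68e9_lc.Free
import Pool.Agent.MP_9e68e9_lc.Cube
import Pool.Agent.MP_9e68e9_lc.Base
import Pool.Agent.MP_9e68e9_lc.PCP

/-! The reduction from gap satisfiability, and hardness above `5/2`. -/

namespace Pool.Agent.MP_9e68e9_lc

open Finset Pool.Agent.MP_2e8011_lc

variable {p σ L : ℝ}

/-- The relation imposed by a clause: `0, 1` are the two reference events, `2` is the event of
a false literal, `3, 4, 5` are the literals and `6, 7, 8` their negations. -/
def ClauseRel (p σ L : ℝ) (ν : (Fin 9 → Bool) → ℝ) : Prop :=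
  (∀ s : Fin 9, 2 ≤ s.val → p - σ ≤ KK ν s 0 ∧ p - σ ≤ KK ν s 1) ∧
    (KK ν 0 1 ≤ p - L ∧ KK ν 3 6 ≤ p - L ∧ KK ν 4 7 ≤ p - L ∧ KK ν 5 8 ≤ p - L) ∧
    p + L ≤ Ex ν (fun y => ind (y 2 || y 3 || y 4 || y 5))

theorem clause_real (hσ : SG p σ) (hO : OG p (p + L)) : Real p (Fin 9) (ClauseRel p σ L) := by
  have hD : DG p L := by simpa using hO.dg
  refine ((Real.all fun s : Fin 9 => ((hσ.pull s 0).and (hσ.pull s 1)).imp (2 ≤ s.val)).and
    (((hD.pull 0 1).and ((hD.pull 3 6).and ((hD.pull 4 7).and (hD.pull 5 8)))).and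
    ((hO (Fin 4) 0).pull ![2, 3, 4, 5]))).congr fun μ _ => ?_
  refine and_congr Iff.rfl (and_congr Iff.rfl ?_)
  rw [UU, Ex_law]
  refine iff_of_eq (congrArg _ (Ex_congr fun x => congrArg ind ?_))
  simp [Fin.exists_fin_succ, Bool.or_assoc]

/-- Integer indicator. -/
def zi (b : Bool) : ℤ := if b then 1 else 0

theorem ind_zi (b : Bool) : ind b = (zi b : ℝ) := by cases b <;> simp [zi]

theorem clause_sound {ν : (Fin 9 → Bool) → ℝ} (hν : Bal p ν) (h : ClauseRel p σ L ν) :
    2 * L - 2 * σ ≤ Ex ν (fun y => ind ((y 0 != y 1) && !y 2)) ∧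
    Ex ν (fun y => ind (((y 0 != y 1) && !y 2) &&
      ((!y 3 || y 6) && (!y 4 || y 7) && (!y 5 || y 8)))) ≤ 10 * (2 * σ - L) := by
  obtain ⟨h1, ⟨k0, k1, k2, k3⟩, h3⟩ := h
  have a2 := h1 2 (by decide)
  have a3 := h1 3 (by decide)
  have a4 := h1 4 (by decide)
  have a5 := h1 5 (by decide)
  have a6 := h1 6 (by decide)
  have a7 := h1 7 (by decide)
  have a8 := h1 8 (by decide)
  simp only [KK] at *
  constructor
  · have := Ex_mono (μ := ν) (g := fun y => ind ((y 0 != y 1) && !y 2))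
      (f := fun y => ind (y 0) + ind (y 1) - 2 * (ind (y 0) * ind (y 1)) - 2 * ind (y 2) +
        ind (y 2) * ind (y 0) + ind (y 2) * ind (y 1)) hν.1.1 fun y => by
        cases y 0 <;> cases y 1 <;> cases y 2 <;> norm_num
    simp only [Ex_add, Ex_sub, Ex_const_mul, hν.2] at this
    linarith
  · have key : ∀ y0 y1 y2 y3 y4 y5 y6 y7 y8 : Bool, zi (((y0 != y1) && !y2) &&
        ((!y3 || y6) && (!y4 || y7) && (!y5 || y8))) ≤ zi y0 + zi y1 + 6 * (zi y0 * zi y1) -
        zi (y2 || y3 || y4 || y5) + (zi y2 - zi y2 * zi y0 - zi y2 * zi y1) +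
        2 * (zi y3 - zi y3 * zi y0 - zi y3 * zi y1) + 2 * (zi y4 - zi y4 * zi y0 - zi y4 * zi y1) +
        2 * (zi y5 - zi y5 * zi y0 - zi y5 * zi y1) + (zi y6 - zi y6 * zi y0 - zi y6 * zi y1) +
        (zi y7 - zi y7 * zi y0 - zi y7 * zi y1) + (zi y8 - zi y8 * zi y0 - zi y8 * zi y1) +
        zi y3 * zi y6 + zi y4 * zi y7 + zi y5 * zi y8 := by decide +kernel
    have := Ex_mono (μ := ν) (f := fun y => ind (((y 0 != y 1) && !y 2) &&
        ((!y 3 || y 6) && (!y 4 || y 7) && (!y 5 || y 8))))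
      (g := fun y => ind (y 0) + ind (y 1) + 6 * (ind (y 0) * ind (y 1)) -
        ind (y 2 || y 3 || y 4 || y 5) +
        (ind (y 2) - ind (y 2) * ind (y 0) - ind (y 2) * ind (y 1)) +
        2 * (ind (y 3) - ind (y 3) * ind (y 0) - ind (y 3) * ind (y 1)) +
        2 * (ind (y 4) - ind (y 4) * ind (y 0) - ind (y 4) * ind (y 1)) +
        2 * (ind (y 5) - ind (y 5) * ind (y 0) - ind (y 5) * ind (y 1)) +
        (ind (y 6) - ind (y 6) * ind (y 0) - ind (y 6) * ind (y 1)) +
        (ind (y 7) - ind (y 7) * ind (y 0) - ind (y 7) * ind (y 1)) +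
        (ind (y 8) - ind (y 8) * ind (y 0) - ind (y 8) * ind (y 1)) +
        ind (y 3) * ind (y 6) + ind (y 4) * ind (y 7) + ind (y 5) * ind (y 8)) hν.1.1 fun y => by
        simp only [ind_zi]
        exact_mod_cast key _ _ _ _ _ _ _ _ _
    simp only [Ex_add, Ex_sub, Ex_const_mul, hν.2] at this
    linarith

/-- Weights of the six atoms in the satisfiable case. -/
def aw (p σ : ℝ) : Fin 6 → ℝ := ![p - 2 * σ, σ, σ, σ, σ, 1 - p - 2 * σ]

/-- The event of a true (or false) literal. -/
def ev (b : Bool) : Fin 6 → Bool := ![true, b, b, !b, !b, false]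

/-- The two reference events. -/
def rf (b : Bool) : Fin 6 → Bool := ![true, b, !b, b, !b, false]

theorem clause_complete (hL : L ≤ 2 * σ) (Y : Fin 6 → Fin 9 → Bool)
    (b0 b1 b2 : Bool) (hb : b0 = true ∨ b1 = true ∨ b2 = true)
    (hY : ∀ ω, Y ω = ![rf true ω, rf false ω, ev false ω, ev b0 ω, ev b1 ω, ev b2 ω,
      ev (!b0) ω, ev (!b1) ω, ev (!b2) ω]) : ClauseRel p σ L (law (aw p σ) Y) := by
  have k1 : ∀ b c, Ex (aw p σ) (fun ω => ind (ev b ω) * ind (rf c ω)) = p - σ := by
    intro b c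
    cases b <;> cases c <;> simp [Ex, Fin.sum_univ_six, aw, ev, rf] <;> ring
  have k2 : ∀ b, Ex (aw p σ) (fun ω => ind (ev b ω) * ind (ev (!b) ω)) = p - 2 * σ := by
    intro b
    cases b <;> simp [Ex, Fin.sum_univ_six, aw, ev]
  have k3 : Ex (aw p σ) (fun ω => ind (rf true ω) * ind (rf false ω)) = p - 2 * σ := by
    simp [Ex, Fin.sum_univ_six, aw, rf]
  have k4 : Ex (aw p σ) (fun ω => ind (ev false ω || ev b0 ω || ev b1 ω || ev b2 ω)) =
      p + 2 * σ := by
    cases b0 <;> cases b1 <;> cases b2 <;> simp [Ex, Fin.sum_univ_six, aw, ev] at hb ⊢ <;> ring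
  simp only [ClauseRel, KK, Ex_law, hY]
  refine ⟨fun s hs => ?_, ⟨k3.le.trans (by linarith), (k2 b0).le.trans (by linarith),
    (k2 b1).le.trans (by linarith), (k2 b2).le.trans (by linarith)⟩,
    le_of_le_of_eq (by linarith) k4.symm⟩
  fin_cases s
  · simp at hs
  · simp at hs
  all_goals exact ⟨(k1 _ _).ge, (k1 _ _).ge⟩

/-- The number of the terminal of a literal. -/
def tm (v : ℕ) (b : Bool) : ℕ := 3 + 2 * v + cond b 1 0

/-- The terminals of a clause. -/
def ct (c : List (ℕ × Bool)) (s : ℕ) : ℕ :=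
  if s < 3 then s else
    tm (c.getD (s % 3) (0, false)).1 (decide ((c.getD (s % 3) (0, false)).2 = decide (s < 6)))

theorem ct_lt (ψ : CNF) (j s : ℕ) : ct (ψ.getD j []) s < 3 + 2 * (sz ψ + 1) := by
  have : ((ψ.getD j []).getD (s % 3) (0, false)).1 ≤ sz ψ := by
    by_cases hj : j < ψ.length
    · rw [List.getD_eq_getElem _ _ hj]
      by_cases hs : s % 3 < ψ[j].length
      · rw [List.getD_eq_getElem _ _ hs]
        have h1 := sz_le_of_mem (List.getElem_mem hj)
        have h2 := sz_le_of_mem (List.getElem_mem hs)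
        generalize ψ[j][s % 3] = l at h2 ⊢
        obtain ⟨v, b⟩ := l
        simp only [sz_prod, sz_nat] at h2
        simp only
        omega
      · rw [List.getD_eq_default _ _ (not_lt.1 hs)]
        exact Nat.zero_le _
    · rw [List.getD_eq_default _ _ (not_lt.1 hj)]
      exact Nat.zero_le _
  unfold ct tm
  split_ifs
  · omega
  · generalize decide (_ = decide (s < 6)) = b
    cases b <;> simp only [cond_true, cond_false] <;> omega

theorem countP_eq_sum {α : Type} (q : α → Bool) (d : α) (l : List α) :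
    (l.countP q : ℝ) = ∑ j ∈ range l.length, ind (q (l.getD j d)) := by
  induction l with
  | nil => simp
  | cons a l ih =>
    rw [List.length_cons, sum_range_succ', List.countP_cons]
    push_cast
    rw [ih]
    cases h : q a <;> simp [h]

theorem hard_main : ∃ K : ℕ, ∀ p σ L : ℝ, SG p σ → OG p (p + L) → L ≤ 2 * σ → 2 * σ ≤ p →
    p + 2 * σ ≤ 1 → (10 * K + 2) * (2 * σ - L) < 2 * σ → Hard p := by
  obtain ⟨K, f, -, hf, h3, hc, hs⟩ := PCP.gap3sat
  refine ⟨K, fun p σ L hσ hO h1 h2 h4 h5 => ?_⟩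
  have hK : (0 : ℝ) ≤ K := Nat.cast_nonneg K
  have h0 : 0 < σ := by nlinarith
  obtain ⟨Γ, hΓ⟩ := clause_real hσ hO
  refine HardF.hard (by linarith) (hardF_of_family (by linarith) Γ (fun φ => (f φ).length)
    (fun φ => 3 + 2 * (sz (f φ) + 1)) (fun z => ct ((f z.1).getD z.2.1 []) z.2.2) (by fun_prop)
    (by fun_prop) (by unfold ct tm; fun_prop) (fun φ => by omega) (fun φ j s => ct_lt _ _ _)
    fun φ => ⟨fun h => ?_, ?_⟩)
  · obtain ⟨a, ha⟩ := hc φ h
    let X : Fin 6 → ℕ → Bool := fun ω t => if t = 0 then rf true ω else if t = 1 then rf false ω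
      else if t = 2 then ev false ω else ev (a ((t - 3) / 2) == decide ((t - 3) % 2 = 1)) ω
    have hX : ∀ ω v b, X ω (tm v b) = ev (a v == b) ω := by
      intro ω v b
      have e1 : (tm v b - 3) / 2 = v := by cases b <;> simp only [tm, cond] <;> omega
      have e2 : decide ((tm v b - 3) % 2 = 1) = b := by
        cases b <;> simp only [tm, cond, decide_eq_true_eq, decide_eq_false_iff_not] <;> omega
      have e3 : 3 ≤ tm v b := by unfold tm; omega
      simp only [X]
      rw [if_neg (by omega), if_neg (by omega), if_neg (by omega), e1, e2]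
    have hP : IsProb (aw p σ) := ⟨fun ω => by fin_cases ω <;> simp [aw] <;> linarith, by
      simp [Fin.sum_univ_six, aw]; ring⟩
    have hb : Bal p (law (aw p σ) fun ω (t : Fin (3 + 2 * (sz (f φ) + 1))) => X ω t) := by
      refine bal_law hP _ fun t => ?_
      have e1 : ∀ b, Ex (aw p σ) (fun ω => ind (ev b ω)) = p := by
        intro b
        cases b <;> simp [Ex, Fin.sum_univ_six, aw, ev] <;> ring
      have e2 : ∀ b, Ex (aw p σ) (fun ω => ind (rf b ω)) = p := by
        intro b
        cases b <;> simp [Ex, Fin.sum_univ_six, aw, rf] <;> ring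
      simp only [X]
      split_ifs
      exacts [e2 _, e2 _, e1 _, e1 _]
    refine ⟨_, hb, fun j hj => (hΓ _ (hb.pull _)).2 ?_⟩
    rw [law_law]
    have hm := List.getElem_mem hj
    simp only [List.getD_eq_getElem _ _ hj]
    obtain ⟨l0, l1, l2, e⟩ := List.length_eq_three.1 (h3 φ _ hm)
    have := ha _ hm
    rw [e] at this ⊢
    refine clause_complete h1 _ (a l0.1 == l0.2) (a l1.1 == l1.2) (a l2.1 == l2.2)
      (by simpa using this) fun ω => ?_
    funext s
    have hn : ∀ u v : Bool, (u == !v) = !(u == v) := by decide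
    fin_cases s <;> simp [ct, hX, hn] <;> rfl
  · rintro ⟨μ, hμ, h⟩
    by_contra hn
    obtain ⟨hne, hbad⟩ := hs φ hn
    have hm : 0 < (f φ).length := List.length_pos_iff.2 hne
    have hcl := fun j hj => clause_sound (hμ.pull _) ((hΓ _ (hμ.pull _)).1 (h j hj))
    simp only [Ex_law] at hcl
    let ex : (Fin (3 + 2 * (sz (f φ) + 1)) → Bool) → ℕ → Bool := fun x t =>
      if h : t < 3 + 2 * (sz (f φ) + 1) then x ⟨t, h⟩ else false
    have hex : ∀ x t ht, x ⟨t, ht⟩ = ex x t := fun x t ht => by simp only [ex, dif_pos ht]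
    simp only [hex] at hcl
    let V : (Fin (3 + 2 * (sz (f φ) + 1)) → Bool) → Bool := fun x => (ex x 0 != ex x 1) && !ex x 2
    let B : ℕ → (Fin (3 + 2 * (sz (f φ) + 1)) → Bool) → Bool := fun j x =>
      (!ex x (ct ((f φ).getD j []) 3) || ex x (ct ((f φ).getD j []) 6)) &&
      (!ex x (ct ((f φ).getD j []) 4) || ex x (ct ((f φ).getD j []) 7)) &&
      (!ex x (ct ((f φ).getD j []) 5) || ex x (ct ((f φ).getD j []) 8))
    have hV : 2 * L - 2 * σ ≤ Ex μ (fun x => ind (V x)) := (hcl 0 hm).1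
    have hB : ∀ j ∈ range (f φ).length, Ex μ (fun x => ind (V x && B j x)) ≤ 10 * (2 * σ - L) :=
      fun j hj => (hcl j (mem_range.1 hj)).2
    have hpt : ∀ x, ((f φ).length : ℝ) * ind (V x) ≤
        K * ∑ j ∈ range (f φ).length, ind (V x && B j x) := by
      intro x
      cases V x
      · simp
      · have := hbad fun v => ex x (tm v true)
        have k : ((f φ).length : ℝ) ≤ K * ((f φ).countP fun c => c.all fun l =>
          ex x (tm l.1 true) != l.2 : ℕ) := by exact_mod_cast this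
        rw [countP_eq_sum _ []] at k
        simp only [ind_true, mul_one, Bool.true_and]
        refine k.trans (mul_le_mul_of_nonneg_left (sum_le_sum fun j hj => ?_) hK)
        have hj := mem_range.1 hj
        simp only [B, List.getD_eq_getElem _ _ hj]
        obtain ⟨⟨v0, b0⟩, ⟨v1, b1⟩, ⟨v2, b2⟩, e⟩ :=
          List.length_eq_three.1 (h3 φ _ (List.getElem_mem hj))
        rw [e]
        cases b0 <;> cases b1 <;> cases b2 <;> simp [ct] <;>
          cases ex x (tm v0 true) <;> cases ex x (tm v1 true) <;> cases ex x (tm v2 true) <;>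
          simp [ind_nonneg]
    have := Ex_mono hμ.1.1 hpt
    rw [Ex_const_mul, Ex_const_mul, Ex_sum] at this
    have k := sum_le_card_nsmul _ _ _ hB
    rw [card_range, nsmul_eq_mul] at k
    have hm' : (0 : ℝ) < (f φ).length := by exact_mod_cast hm
    have : ((f φ).length : ℝ) * (2 * L - 2 * σ) ≤ (f φ).length * (K * (10 * (2 * σ - L))) := by
      nlinarith [mul_le_mul_of_nonneg_left k hK, mul_le_mul_of_nonneg_left hV hm'.le]
    have := le_of_mul_le_mul_left this hm'
    nlinarith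

theorem hard_of_small (hp0 : 0 < p) (hp : 2 * p < 1)
    (h : ∀ ε : ℝ, 0 < ε → ∃ r, 0 < r ∧ r ≤ ε ∧ SG p r) : Hard p := by
  obtain ⟨K, hK⟩ := hard_main
  have hK0 : (0 : ℝ) ≤ K := Nat.cast_nonneg K
  obtain ⟨r, h0, h1, h2⟩ := h (min p (1 - 2 * p) / (10 * K + 2))
    (div_pos (lt_min hp0 (by linarith)) (by linarith))
  rw [le_div_iff₀ (by linarith), le_min_iff] at h1
  have hs := h2.nsmul (by linarith) h0 (5 * K)
  push_cast at hs
  let i := ⌈(1 - 2 * p - r * (10 * K + 2)) / r⌉₊
  have i1 : (1 - 2 * p - r * (10 * K + 2)) / r ≤ i := Nat.le_ceil _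
  have i2 : (i : ℝ) < (1 - 2 * p - r * (10 * K + 2)) / r + 1 :=
    Nat.ceil_lt_add_one (div_nonneg (by linarith) h0.le)
  rw [div_le_iff₀ h0] at i1
  rw [← sub_lt_iff_lt_add, lt_div_iff₀ h0] at i2
  have hO := og_iter hp0 (by linarith) h2 h0.le (by nlinarith) i
  refine hK p _ (1 - 2 * p - i * r) hs (by convert hO using 1; ring) (by linarith) (by linarith)
    (by linarith) ?_
  have : (10 * (K : ℝ) + 2) * (2 * ((5 * K + 1) * r) - (1 - 2 * p - i * r)) < (10 * K + 2) * r :=
    mul_lt_mul_of_pos_left (by linarith) (by linarith)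
  linarith

theorem hard_of_window {s : ℝ} (hp : 2 * p < 1) (hs : SG p s) (hL : DG p L) (h0 : 0 < s)
    (h1 : s < L) (h2 : L < 2 * s) (h3 : s + L ≤ p) : Hard p :=
  hard_of_small (by linarith) hp fun _ hε => amplify hp.le hs hL h0 h1 h2 h3 hε

theorem hard_of_third {s : ℝ} (hp : p ≤ 2 / 5) (hs : SG p s) (h0 : 0 < s) (h1 : 3 * s ≤ p) :
    Hard p := by
  let i := ⌈(1 - 2 * p - 2 * s) / s⌉₊
  have i1 : (1 - 2 * p - 2 * s) / s ≤ i := Nat.le_ceil _
  have i2 : (i : ℝ) < (1 - 2 * p - 2 * s) / s + 1 :=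
    Nat.ceil_lt_add_one_of_gt_neg_one (by rw [lt_div_iff₀ h0]; linarith)
  rw [div_le_iff₀ h0] at i1
  rw [← sub_lt_iff_lt_add, lt_div_iff₀ h0] at i2
  have hO := og_iter (by linarith) (by linarith) hs h0.le (by linarith) i
  rcases i1.eq_or_lt with e | e
  · obtain ⟨K, hK⟩ := hard_main
    exact hK p s (2 * s) hs (by convert hO using 1; linarith) le_rfl (by linarith) (by linarith)
      (by linarith)
  · exact hard_of_window (by linarith) hs hO.dg h0 (by linarith) (by linarith) (by linarith)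

theorem hard_base (h1 : 2 / 7 ≤ p) (h2 : p < 2 / 5) : Hard p := by
  rcases h1.eq_or_lt with rfl | h1
  · exact hard_of_third (by norm_num) sg_S (by norm_num) (by norm_num)
  rcases le_or_gt p (3 / 10) with h | h
  · exact hard_of_third h2.le (sg_C h1.le h) (by linarith) (by linarith)
  rcases le_or_gt p (9 / 28) with k | k
  · exact hard_of_third h2.le (sg_E h.le (by linarith)) (by linarith) (by linarith)
  rcases lt_trichotomy p (1 / 3) with l | rfl | l
  · exact hard_of_window (by linarith) (sg_E h.le l.le) (dg_D h.le l.le) (by linarith)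
      (by linarith) (by linarith) (by linarith)
  · exact hard_of_third (by norm_num) sg_N (by norm_num) (by norm_num)
  rcases le_or_gt p (3 / 8) with m | m
  · exact hard_of_third h2.le (sg_T l.le h2.le) (by linarith) (by linarith)
  · exact hard_of_window (by linarith) (sg_T l.le h2.le) (og_base p).dg (by linarith)
      (by linarith) (by linarith) (by linarith)

theorem hard_all {t : ℝ} (ht : 5 / 2 < t) : Hard (1 / t) := by
  obtain ⟨n, hn⟩ := exists_nat_ge t
  have key : ∀ (n : ℕ) (t : ℝ), 5 / 2 < t → t ≤ 7 / 2 + n → Hard (1 / t) := by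
    intro n
    induction n with
    | zero =>
      intro t h1 h2
      refine hard_base ?_ ?_
      · rw [le_div_iff₀ (by linarith)]; simp at h2; linarith
      · rw [div_lt_iff₀ (by linarith)]; linarith
    | succ n ih =>
      intro t h1 h2
      have hn : (0 : ℝ) ≤ n := Nat.cast_nonneg n
      push_cast at h2
      rcases le_or_gt t (7 / 2) with h | h
      · exact ih t h1 (by linarith)
      · have := (ih (t - 1) (by linarith) (by linarith)).shift (one_div_pos.2 (by linarith))
        have h1 : t - 1 ≠ 0 := by linarith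
        have e : 1 + 1 / (t - 1) = t / (t - 1) := by field_simp; ring
        rwa [e, div_div_div_cancel_right₀ h1] at this
  exact key n t ht (by linarith)

theorem high {t : ℝ} (ht : 5 / 2 < t) {A : List Bool → Bool} (hA : A ∈ N68a2faeb.NP) :
    N793a5b8e.ManyOneReducible A (FD t) :=
  (hard_all ht).npHard (by linarith) hA

end Pool.Agent.MP_9e68e9_lc
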