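import Pool.Agent.MP_9e68e9_lc.PCPPow

/-! Alphabet reduction: long code tests. -/

namespace Pool.Agent.MP_9e68e9_lc.PCP

open Finset
open scoped BigOperators

theorem ind_le_add {p q r : Prop} (h : p → q ∨ r) : ind p ≤ ind q + ind r := by
  by_cases hp : p
  · rw [ind_pos hp]
    rcases h hp with h | h
    · rw [ind_pos h]; linarith [ind_nonneg r]
    · rw [ind_pos h]; linarith [ind_nonneg q]
  · rw [ind_neg hp]; linarith [ind_nonneg q, ind_nonneg r]

theorem ind_le_add4 {p q r s t : Prop} (h : p → q ∨ r ∨ s ∨ t) :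
    ind p ≤ ind q + ind r + ind s + ind t := by
  have h1 := ind_le_add h
  have h2 := ind_le_add (p := r ∨ s ∨ t) id
  have h3 := ind_le_add (p := s ∨ t) id
  linarith

theorem exists_of_expect_lt {α : Type} [Fintype α] [Nonempty α] {g : α → ℝ} {c : ℝ}
    (h : 𝔼 x, g x < c) : ∃ x, g x < c := by
  by_contra hc
  push Not at hc
  have := Finset.expect_le_expect (s := (univ : Finset α)) (f := fun _ => c) (fun x _ => hc x)
  rw [Finset.expect_const univ_nonempty] at this
  linarith

theorem not_of_ind_lt {p : Prop} (h : ind p < 1) : ¬ p := fun hp => by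
  rw [ind_pos hp] at h; exact lt_irrefl _ h

section BLR
variable {G : Type} [AddCommGroup G] [Fintype G]

theorem expect_addl (a : G) (f : G → ℝ) : 𝔼 x, f (a + x) = 𝔼 x, f x :=
  Fintype.expect_equiv (Equiv.addLeft a) _ _ (fun _ => rfl)

theorem blr (h2 : ∀ x : G, x + x = 0) (B : G → ZMod 2) {δ : ℝ} (hδ : δ < 1 / 6)
    (hB : 𝔼 f, 𝔼 g, ind (B f + B g + B (f + g) ≠ 0) ≤ δ) :
    ∃ L : G → ZMod 2, (∀ f g, L (f + g) = L f + L g) ∧
      (∀ f, 𝔼 h, ind (B (f + h) + B h ≠ L f) ≤ 2 * δ) ∧ 𝔼 f, ind (B f ≠ L f) ≤ 3 * δ := by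
  have vote : ∀ f, ∃ c : ZMod 2, 𝔼 h, ind (B (f + h) + B h ≠ c) ≤ 2 * δ := by
    intro f
    obtain ⟨p, hp⟩ : ∃ p, p = 𝔼 h, ind (B (f + h) + B h ≠ 0) := ⟨_, rfl⟩
    have hp1 : 𝔼 h, ind (B (f + h) + B h ≠ 1) = 1 - p := by
      rw [hp, ← Finset.expect_const (univ_nonempty (α := G)) (1 : ℝ),
        ← Finset.expect_sub_distrib]
      refine Finset.expect_congr rfl fun h _ => ?_
      rw [← ind_not]
      refine ind_congr ?_
      generalize B (f + h) + B h = x
      revert x; decide
    have e1 : 𝔼 h, 𝔼 k, ind (B (f + h) + B h ≠ B (f + k) + B k) = 2 * p * (1 - p) := by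
      have : ∀ h k, ind (B (f + h) + B h ≠ B (f + k) + B k) =
          ind (B (f + h) + B h ≠ 0) + ind (B (f + k) + B k ≠ 0) -
            2 * ind (B (f + h) + B h ≠ 0) * ind (B (f + k) + B k ≠ 0) := by
        intro h k
        generalize B (f + h) + B h = x
        generalize B (f + k) + B k = y
        have h01 : (0 : ZMod 2) ≠ 1 := by decide
        have hz : ∀ x : ZMod 2, x = 0 ∨ x = 1 := by decide
        rcases hz x with rfl | rfl <;> rcases hz y with rfl | rfl <;>
          simp [ind, h01, h01.symm] <;> norm_num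
      simp only [this, Finset.expect_sub_distrib, Finset.expect_add_distrib, ← Finset.mul_expect,
        ← Finset.expect_mul, ← hp, Finset.expect_const univ_nonempty]
      ring
    have e2 : 𝔼 h, 𝔼 k, ind (B (f + h) + B h ≠ B (f + k) + B k) ≤ 2 * δ := by
      have : ∀ h k, ind (B (f + h) + B h ≠ B (f + k) + B k) ≤
          ind (B (f + h) + B k + B (f + h + k) ≠ 0) + ind (B h + B (f + k) + B (h + (f + k)) ≠ 0) := by
        intro h k
        refine ind_le_add ?_
        rw [show h + (f + k) = f + h + k by abel]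
        generalize B (f + h) = a
        generalize B h = b
        generalize B (f + k) = c
        generalize B k = d
        generalize B (f + h + k) = e
        revert a b c d e; decide
      refine (Finset.expect_le_expect fun h _ => Finset.expect_le_expect fun k _ =>
        this h k).trans ?_
      simp only [Finset.expect_add_distrib]
      rw [expect_addl f (fun x => 𝔼 k, ind (B x + B k + B (x + k) ≠ 0))]
      have : ∀ h, 𝔼 k, ind (B h + B (f + k) + B (h + (f + k)) ≠ 0) =
          𝔼 k, ind (B h + B k + B (h + k) ≠ 0) :=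
        fun h => expect_addl f (fun x => ind (B h + B x + B (h + x) ≠ 0))
      simp only [this]
      linarith
    have hp0 : 0 ≤ p := hp ▸ Finset.expect_nonneg fun _ _ => ind_nonneg _
    have hp2 : 0 ≤ 1 - p := hp1 ▸ Finset.expect_nonneg fun _ _ => ind_nonneg _
    by_cases h : p ≤ 1 / 2
    · exact ⟨0, by rw [← hp]; nlinarith⟩
    · exact ⟨1, by rw [hp1]; nlinarith⟩
  choose L hL using vote
  refine ⟨L, fun f g => ?_, hL, ?_⟩
  · have : 𝔼 h, (ind (B (g + h) + B h ≠ L g) + ind (B (f + (g + h)) + B (g + h) ≠ L f) +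
        ind (B (f + g + h) + B h ≠ L (f + g))) < 1 := by
      simp only [Finset.expect_add_distrib]
      rw [expect_addl g (fun x => ind (B (f + x) + B x ≠ L f))]
      linarith [hL f, hL g, hL (f + g)]
    obtain ⟨h, hh⟩ := exists_of_expect_lt this
    have i1 := ind_nonneg (B (g + h) + B h ≠ L g)
    have i2 := ind_nonneg (B (f + (g + h)) + B (g + h) ≠ L f)
    have i3 := ind_nonneg (B (f + g + h) + B h ≠ L (f + g))
    have a1 := not_not.1 (not_of_ind_lt (p := B (g + h) + B h ≠ L g) (by linarith))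
    have a2 := not_not.1 (not_of_ind_lt (p := B (f + (g + h)) + B (g + h) ≠ L f) (by linarith))
    have a3 := not_not.1 (not_of_ind_lt (p := B (f + g + h) + B h ≠ L (f + g)) (by linarith))
    rw [← a1, ← a2, ← a3, add_assoc f g h]
    generalize B (f + (g + h)) = a
    generalize B h = b
    generalize B (g + h) = c
    revert a b c; decide
  · have : ∀ f, ind (B f ≠ L f) ≤
        𝔼 h, (ind (B f + B h + B (f + h) ≠ 0) + ind (B (f + h) + B h ≠ L f)) := by
      intro f
      rw [← Finset.expect_const (univ_nonempty (α := G)) (ind (B f ≠ L f))]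
      refine Finset.expect_le_expect fun h _ => ind_le_add ?_
      generalize B (f + h) = a
      generalize B h = b
      generalize B f = c
      generalize L f = d
      revert a b c d; decide
    refine (Finset.expect_le_expect fun f _ => this f).trans ?_
    simp only [Finset.expect_add_distrib]
    have := Finset.expect_le_expect (s := (univ : Finset G)) (fun f _ => hL f)
    rw [Finset.expect_const univ_nonempty] at this
    linarith

end BLR

/-- Functions to the field with two elements. -/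
abbrev Fn (P : Type) : Type := P → ZMod 2

section Lin
variable {P : Type} [Fintype P] [DecidableEq P]

theorem lin_eval (L : Fn P → ZMod 2) (hL : ∀ f g, L (f + g) = L f + L g)
    (hm : 𝔼 f, 𝔼 g, ind (L f * L g ≠ L (f * g)) < 1 / 4) (S : Fn P) (hS : L S = 1) :
    ∃ s, S s = 1 ∧ ∀ f, L f = f s := by
  have h0 : L 0 = 0 := by
    have := hL 0 0
    rw [add_zero] at this
    revert this
    generalize L 0 = a
    revert a; decide
  let L' : Fn P →+ ZMod 2 := ⟨⟨L, h0⟩, hL⟩
  have rep : ∀ f, L f = ∑ s, f s * L (Pi.single s 1) := by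
    intro f
    have : L f = L' (∑ s, Pi.single s (f s)) := by rw [Finset.univ_sum_single]; rfl
    rw [this, map_sum]
    refine Finset.sum_congr rfl fun s _ => ?_
    have hz : ∀ x : ZMod 2, x = 0 ∨ x = 1 := by decide
    rcases hz (f s) with e | e <;> rw [e]
    · simp
    · simp [L']
  have uniq : ∀ s t, L (Pi.single s 1) = 1 → L (Pi.single t 1) = 1 → s = t := by
    intro s t hs ht
    by_contra hne
    have hst : (Pi.single s 1 : Fn P) * Pi.single t 1 = 0 := by
      funext x
      by_cases e : x = s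
      · subst e; simp [Pi.single_apply, hne]
      · simp [Pi.single_apply, e]
    generalize (Pi.single s 1 : Fn P) = es at hs hst
    generalize (Pi.single t 1 : Fn P) = et at ht hst
    have : ∀ f g : Fn P, (1 : ℝ) ≤ ind (L f * L g ≠ L (f * g)) +
        ind (L (es + f) * L g ≠ L ((es + f) * g)) +
        ind (L f * L (et + g) ≠ L (f * (et + g))) +
        ind (L (es + f) * L (et + g) ≠ L ((es + f) * (et + g))) := by
      intro f g
      rw [← ind_pos trivial]
      refine ind_le_add4 fun _ => ?_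
      simp only [add_mul, mul_add, hL, hs, ht, hst, h0]
      generalize L f = a
      generalize L g = b
      generalize L (f * g) = c
      generalize L (es * g) = d
      generalize L (f * et) = e
      revert a b c d e; decide
    have h4 := Finset.expect_le_expect (s := (univ : Finset (Fn P))) fun f _ =>
      Finset.expect_le_expect (s := (univ : Finset (Fn P))) fun g _ => this f g
    simp only [Finset.expect_add_distrib, Finset.expect_const univ_nonempty] at h4
    have r1 : ∀ f, 𝔼 g, ind (L f * L (et + g) ≠ L (f * (et + g))) =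
        𝔼 g, ind (L f * L g ≠ L (f * g)) :=
      fun f => expect_addl et (fun x => ind (L f * L x ≠ L (f * x)))
    simp only [r1] at h4
    rw [expect_addl es (fun x => 𝔼 g, ind (L x * L g ≠ L (x * g)))] at h4
    linarith
  have ex : ∃ s, S s * L (Pi.single s 1) ≠ 0 := by
    by_contra hc
    push Not at hc
    rw [rep, Finset.sum_eq_zero (fun s _ => hc s)] at hS
    exact absurd hS (by decide)
  obtain ⟨s, hs⟩ := ex
  have hz : ∀ x : ZMod 2, x ≠ 0 → x = 1 := by decide
  have h1 : L (Pi.single s 1) = 1 := hz _ (right_ne_zero_of_mul hs)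
  refine ⟨s, hz _ (left_ne_zero_of_mul hs), fun f => ?_⟩
  rw [rep, Finset.sum_eq_single s, h1, mul_one]
  · intro t _ ht
    by_contra hc
    exact ht (uniq _ _ (hz _ (right_ne_zero_of_mul hc)) h1)
  · simp

theorem eval_far {a b : P} (h : a ≠ b) : 𝔼 f : Fn P, ind (f a ≠ f b) = 1 / 2 := by
  have h1 := expect_addl (Pi.single a 1 : Fn P) (fun f => ind (f a ≠ f b))
  have h2 : ∀ f : Fn P, ind ((Pi.single a 1 + f : Fn P) a ≠ (Pi.single a 1 + f : Fn P) b) =
      1 - ind (f a ≠ f b) := by
    intro f
    rw [← ind_not]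
    refine ind_congr ?_
    simp only [Pi.add_apply, Pi.single_eq_same, Pi.single_eq_of_ne h.symm, zero_add]
    generalize f a = x
    generalize f b = y
    revert x y; decide
  simp only [h2, Finset.expect_sub_distrib, Finset.expect_const univ_nonempty] at h1
  linarith

/-- Decoding of a table. -/
noncomputable def dec [Inhabited P] (A : Fn P → ZMod 2) : P := by
  classical exact if h : ∃ w, 𝔼 f : Fn P, ind (A f ≠ f w) < 1 / 4 then h.choose else default

theorem dec_eq [Inhabited P] {A : Fn P → ZMod 2} {a : P}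
    (h : 𝔼 f : Fn P, ind (A f ≠ f a) < 1 / 4) : dec A = a := by
  have ex : ∃ w, 𝔼 f : Fn P, ind (A f ≠ f w) < 1 / 4 := ⟨a, h⟩
  unfold dec
  rw [dif_pos ex]
  by_contra hne
  have h1 := eval_far hne
  have h2 := ex.choose_spec
  have h3 : 𝔼 f : Fn P, ind (f ex.choose ≠ f a) ≤
      𝔼 f : Fn P, (ind (A f ≠ f ex.choose) + ind (A f ≠ f a)) :=
    Finset.expect_le_expect fun f _ => ind_le_add (fun hh => by
      by_contra hc
      push Not at hc
      exact hh (hc.1.symm.trans hc.2))
  rw [Finset.expect_add_distrib] at h3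
  linarith

end Lin

/-- Random strings of the tests. -/
abbrev Rnd (W : Type) : Type := Fn (W × W) × Fn (W × W) × Fn (W × W) × Fn W

/-- Table positions: first or second vertex table, or edge table. -/
abbrev Ref (W : Type) : Type := (Bool × Fn W) ⊕ Fn (W × W)

/-- Pull back along a projection. -/
def lft {W : Type} (π : W × W → W) (f : Fn W) : Fn (W × W) := fun p => f (π p)

/-- The four queried positions. -/
def tq {W : Type} (S : Fn (W × W)) (k : Fin 5) (ξ : Rnd W) : Fin 4 → Ref W :=
  match k with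
  | 0 => ![.inr ξ.1, .inr ξ.2.1, .inr (ξ.1 + ξ.2.1), .inr ξ.1]
  | 1 => ![.inr ξ.1, .inr ξ.2.1, .inr (ξ.1 * ξ.2.1 + ξ.2.2.1), .inr ξ.2.2.1]
  | 2 => ![.inr (S + ξ.2.2.1), .inr ξ.2.2.1, .inr ξ.2.2.1, .inr ξ.2.2.1]
  | 3 => ![.inl (false, ξ.2.2.2), .inr (lft Prod.fst ξ.2.2.2 + ξ.2.2.1), .inr ξ.2.2.1,
      .inr ξ.2.2.1]
  | 4 => ![.inl (true, ξ.2.2.2), .inr (lft Prod.snd ξ.2.2.2 + ξ.2.2.1), .inr ξ.2.2.1,
      .inr ξ.2.2.1]

/-- The acceptance predicates. -/
def tp (k : Fin 5) (x : Fin 4 → ZMod 2) : Prop :=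
  match k with
  | 0 => x 0 + x 1 + x 2 = 0
  | 1 => x 0 * x 1 + x 2 + x 3 = 0
  | 2 => x 0 + x 1 = 1
  | 3 => x 0 + x 1 + x 2 = 0
  | 4 => x 0 + x 1 + x 2 = 0

theorem test_complete {W : Type} (S : Fn (W × W)) (a b : W) (hS : S (a, b) = 1)
    (val : Ref W → ZMod 2) (h1 : ∀ f, val (.inl (false, f)) = f a)
    (h2 : ∀ f, val (.inl (true, f)) = f b) (h3 : ∀ g, val (.inr g) = g (a, b))
    (k : Fin 5) (ξ : Rnd W) : tp k (fun i => val (tq S k ξ i)) := by
  have z1 : ∀ x y : ZMod 2, x + y + (x + y) = 0 := by decide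
  have z2 : ∀ x y : ZMod 2, x + (x + y) + y = 0 := by decide
  have z3 : ∀ x : ZMod 2, 1 + x + x = 1 := by decide
  fin_cases k <;> simp [tp, tq, lft, h1, h2, h3, hS, z1, z2, z3]

theorem test_sound {W : Type} [Fintype W] [DecidableEq W] [Inhabited W] (S : Fn (W × W))
    (val : Ref W → ZMod 2)
    (hS : S (dec (fun f => val (.inl (false, f))), dec (fun f => val (.inl (true, f)))) ≠ 1) :
    1 / 100 ≤ ∑ k : Fin 5, 𝔼 ξ : Rnd W, ind (¬ tp k (fun i => val (tq S k ξ i))) := by
  by_contra hc
  push Not at hc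
  have hk : ∀ k : Fin 5, 𝔼 ξ : Rnd W, ind (¬ tp k (fun i => val (tq S k ξ i))) ≤ 1 / 100 :=
    fun k => (Finset.single_le_sum (f := fun k : Fin 5 =>
      𝔼 ξ : Rnd W, ind (¬ tp k (fun i => val (tq S k ξ i))))
      (fun k _ => Finset.expect_nonneg fun _ _ => ind_nonneg _) (mem_univ k)).trans hc.le
  have prod : ∀ F : Rnd W → ℝ, 𝔼 ξ, F ξ = 𝔼 g, 𝔼 g', 𝔼 h, 𝔼 f, F (g, g', h, f) := by
    intro F
    simp only [← Finset.univ_product_univ, Finset.expect_product]
  have t0 := hk 0
  have t1 := hk 1
  have t2 := hk 2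
  have t3 := hk 3
  have t4 := hk 4
  rw [prod] at t0 t1 t2 t3 t4
  let B : Fn (W × W) → ZMod 2 := fun g => val (.inr g)
  have u0 : 𝔼 f, 𝔼 g, ind (B f + B g + B (f + g) ≠ 0) ≤ 1 / 100 := by
    simpa [tp, tq] using t0
  have u1 : 𝔼 f, 𝔼 g, 𝔼 h, ind (B f * B g + B (f * g + h) + B h ≠ 0) ≤ 1 / 100 := by
    simpa [tp, tq] using t1
  have u2 : 𝔼 h, ind (B (S + h) + B h ≠ 1) ≤ 1 / 100 := by
    simpa [tp, tq] using t2
  have u3 : 𝔼 h, 𝔼 f : Fn W,
      ind (val (.inl (false, f)) + B (lft Prod.fst f + h) + B h ≠ 0) ≤ 1 / 100 := by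
    simpa [tp, tq] using t3
  have u4 : 𝔼 h, 𝔼 f : Fn W,
      ind (val (.inl (true, f)) + B (lft Prod.snd f + h) + B h ≠ 0) ≤ 1 / 100 := by
    simpa [tp, tq] using t4
  obtain ⟨L, hL, hv, hn⟩ := blr (fun x => by
    funext p
    exact (by decide : ∀ a : ZMod 2, a + a = 0) (x p)) B (by norm_num) u0
  have hLS : L S = 1 := by
    have : 𝔼 h, (ind (B (S + h) + B h ≠ 1) + ind (B (S + h) + B h ≠ L S)) < 1 := by
      rw [Finset.expect_add_distrib]; linarith [hv S]
    obtain ⟨h, hh⟩ := exists_of_expect_lt this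
    have a1 := not_not.1 (not_of_ind_lt (p := B (S + h) + B h ≠ 1)
      (by linarith [ind_nonneg (B (S + h) + B h ≠ L S)]))
    have a2 := not_not.1 (not_of_ind_lt (p := B (S + h) + B h ≠ L S)
      (by linarith [ind_nonneg (B (S + h) + B h ≠ 1)]))
    rw [← a2, a1]
  have hm : 𝔼 f, 𝔼 g, ind (L f * L g ≠ L (f * g)) < 1 / 4 := by
    have : ∀ f g, ind (L f * L g ≠ L (f * g)) ≤
        𝔼 h, (ind (B f * B g + B (f * g + h) + B h ≠ 0) + ind (B f ≠ L f) + ind (B g ≠ L g) +
          ind (B (f * g + h) + B h ≠ L (f * g))) := by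
      intro f g
      rw [← Finset.expect_const (univ_nonempty (α := Fn (W × W)))
        (ind (L f * L g ≠ L (f * g)))]
      refine Finset.expect_le_expect fun h _ => ind_le_add4 ?_
      generalize B f = a
      generalize B g = b
      generalize B h = c
      generalize B (f * g + h) = d
      generalize L f = e
      generalize L g = x
      generalize L (f * g) = y
      revert a b c d e x y; decide
    refine (Finset.expect_le_expect fun f _ => Finset.expect_le_expect fun g _ =>
      this f g).trans_lt ?_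
    simp only [Finset.expect_add_distrib, Finset.expect_const univ_nonempty]
    have := Finset.expect_le_expect (s := (univ : Finset (Fn (W × W)))) fun f _ =>
      Finset.expect_le_expect (s := (univ : Finset (Fn (W × W)))) fun g _ => hv (f * g)
    simp only [Finset.expect_const univ_nonempty] at this
    linarith
  obtain ⟨s, hs, hLs⟩ := lin_eval L hL hm S hLS
  have cons : ∀ (A : Fn W → ZMod 2) (π : W × W → W),
      𝔼 h, 𝔼 f : Fn W, ind (A f + B (lft π f + h) + B h ≠ 0) ≤ 1 / 100 →
      dec A = π s := by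
    intro A π hA
    refine dec_eq ?_
    rw [Finset.expect_comm] at hA
    have : ∀ f : Fn W, ind (A f ≠ f (π s)) ≤
        𝔼 h, (ind (A f + B (lft π f + h) + B h ≠ 0) +
          ind (B (lft π f + h) + B h ≠ L (lft π f))) := by
      intro f
      rw [← Finset.expect_const (univ_nonempty (α := Fn (W × W))) (ind (A f ≠ f (π s)))]
      refine Finset.expect_le_expect fun h _ => ind_le_add ?_
      rw [hLs, show lft π f s = f (π s) from rfl]
      generalize A f = a
      generalize B h = b
      generalize B (lft π f + h) = c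
      generalize f (π s) = d
      revert a b c d; decide
    refine (Finset.expect_le_expect fun f _ => this f).trans_lt ?_
    simp only [Finset.expect_add_distrib]
    have := Finset.expect_le_expect (s := (univ : Finset (Fn W))) fun f _ =>
      hv (lft π f)
    simp only [Finset.expect_const univ_nonempty] at this
    linarith
  rw [cons _ Prod.fst u3, cons _ Prod.snd u4] at hS
  exact hS hs

end Pool.Agent.MP_9e68e9_lc.PCP
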