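import Pool.Agent.MP_9e68e9_lc.PCPGraph
import Pool.Agent.MP_9e68e9_lc.PCPTest

/-! Composition of a constraint graph over a large alphabet with the long code tests. -/

namespace Pool.Agent.MP_9e68e9_lc.PCP

open Finset Pool.Agent.MP_2e8011_lc
open scoped BigOperators

section FPT
variable {α γ T T' : Type} [Enc α] [Enc γ]

/-- A function with values in a finite type whose fibres are decidable in polynomial time. -/
def FPT (F : α → T) : Prop := ∀ u, ∃ b : α → Bool, PT b ∧ ∀ a, b a = true ↔ F a = u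

theorem FPT.cases [Fintype T] [Inhabited γ] {F : α → T} (hF : FPT F) (G : T → α → γ)
    (hG : ∀ u, PT (G u)) : PT (fun a => G (F a) a) := by
  have key : ∀ l : List T, ∃ g : α → γ, PT g ∧ ∀ a, F a ∈ l → g a = G (F a) a := by
    intro l
    induction l with
    | nil => exact ⟨fun _ => default, PT.const _, fun a h => by simp at h⟩
    | cons u l ih =>
      obtain ⟨g, hg, e⟩ := ih
      obtain ⟨b, hb, eb⟩ := hF u
      refine ⟨fun a => bif b a then G u a else g a, PT.cond hb (hG u) hg, fun a h => ?_⟩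
      cases hba : b a
      · have : F a ≠ u := fun h => by rw [← eb, hba] at h; simp at h
        simp only [hba, cond_false]
        exact e a ((List.mem_cons.1 h).resolve_left this)
      · simp only [hba, cond_true]
        rw [(eb a).1 hba]
  obtain ⟨g, hg, e⟩ := key (univ : Finset T).toList
  exact hg.congr (fun a => e a (by simp))

theorem FPT.of_bool {F : α → Bool} (h : PT F) : FPT F := by
  intro u
  cases u
  · exact ⟨fun a => !F a, h.not, fun a => by simp⟩
  · exact ⟨F, h, fun a => Iff.rfl⟩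

theorem FPT.map [Fintype T] {F : α → T} (hF : FPT F) (g : T → T') : FPT (fun a => g (F a)) := by
  classical
  intro u
  exact ⟨fun a => decide (g (F a) = u),
    hF.cases (fun t _ => decide (g t = u)) (fun _ => PT.const _), fun a => by simp⟩

theorem FPT.pi {ι : Type} [Fintype ι] {F : α → ι → T} (h : ∀ i, FPT (fun a => F a i)) :
    FPT F := by
  intro u
  choose b hb e using fun i => h i (u i)
  refine ⟨fun a => (univ : Finset ι).toList.all (fun i => b i a), PT.all_const _ hb, fun a => ?_⟩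
  simp only [List.all_eq_true, Finset.mem_toList, mem_univ, forall_true_left, e, funext_iff]

theorem FPT.prod {F : α → T} {G : α → T'} (hF : FPT F) (hG : FPT G) :
    FPT (fun a => (F a, G a)) := by
  intro u
  obtain ⟨b, hb, e⟩ := hF u.1
  obtain ⟨c, hc, e'⟩ := hG u.2
  exact ⟨fun a => b a && c a, hb.and hc, fun a => by simp [e, e', Prod.ext_iff]⟩

theorem FPT.congr {F G : α → T} (hF : FPT F) (e : ∀ a, F a = G a) : FPT G := by
  rwa [← funext e]

end FPT

/-- A bit as an element of the field with two elements. -/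
def b2z (b : Bool) : ZMod 2 := bif b then 1 else 0

theorem b2z_decide (x : ZMod 2) : b2z (decide (x = 1)) = x := by revert x; decide

/-- The clause excluding the pattern `u` on the variables `xs`. -/
def clause (xs : Fin 4 → ℕ) (u : Fin 4 → Bool) : List (ℕ × Bool) :=
  List.ofFn (fun i => (xs i, !u i))

theorem clause_viol (a : ℕ → Bool) (xs : Fin 4 → ℕ) (u : Fin 4 → Bool) :
    (clause xs u).all (fun l => a l.1 != l.2) = true ↔ (fun i => a (xs i)) = u := by
  simp only [clause, List.all_eq_true, List.forall_mem_ofFn_iff, funext_iff]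
  refine forall_congr' fun i => ?_
  cases a (xs i) <;> cases u i <;> simp

theorem satBy_iff (a : ℕ → Bool) (φ : CNF) :
    SatBy a φ ↔ ∀ c ∈ φ, ¬ c.all (fun l => a l.1 != l.2) = true := by
  unfold SatBy
  refine forall_congr' fun c => forall_congr' fun _ => ?_
  rw [List.all_eq_true]
  push Not
  simp only [bne_iff_ne, ne_eq, not_not]

theorem satBy_iff_viol (a : ℕ → Bool) (φ : CNF) : SatBy a φ ↔ viol a φ = 0 := by
  rw [satBy_iff, viol, List.countP_eq_zero]

theorem viol_flatMap {ι : Type} (a : ℕ → Bool) (l : List ι) (f : ι → CNF) :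
    viol a (l.flatMap f) = (l.map (fun i => viol a (f i))).sum := by
  induction l with
  | nil => rfl
  | cons i l ih =>
    simp only [List.flatMap_cons, List.map_cons, List.sum_cons, ← ih]
    exact List.countP_append

theorem sum_map_range (f : ℕ → ℕ) (n : ℕ) :
    ((List.range n).map f).sum = ∑ i ∈ range n, f i := by
  induction n with
  | zero => rfl
  | succ n ih => rw [List.range_succ, List.map_append, List.sum_append, ih, Finset.sum_range_succ]; simp

/-- Rejected patterns of a test. -/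
noncomputable def bad (k : Fin 5) : List (Fin 4 → Bool) := by
  classical exact (univ.filter (fun u : Fin 4 → Bool => ¬ tp k (fun i => b2z (u i)))).toList

theorem mem_bad {k : Fin 5} {u : Fin 4 → Bool} : u ∈ bad k ↔ ¬ tp k (fun i => b2z (u i)) := by
  simp [bad]

theorem length_bad (k : Fin 5) : (bad k).length ≤ 16 := by
  unfold bad
  rw [Finset.length_toList]
  exact (Finset.card_le_univ _).trans (by simp)

section Comp
variable (W Ω : Type) [Fintype W] [DecidableEq W] [Fintype Ω]

/-- Local names of the new variables. -/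
abbrev Loc : Type := Fn W ⊕ (Ω × Fn (W × W))

/-- Tests attached to a vertex. -/
abbrev Tst : Type := Ω × Fin 5 × Rnd W

variable {W Ω}

/-- Global names of the new variables. -/
noncomputable def nm (v : ℕ) (c : Loc W Ω) : ℕ :=
  v * Fintype.card (Loc W Ω) + Fintype.equivFin (Loc W Ω) c

theorem nm_lt {v N : ℕ} (hv : v < N) (c : Loc W Ω) : nm v c < N * Fintype.card (Loc W Ω) := by
  unfold nm
  have := (Fintype.equivFin (Loc W Ω) c).2
  nlinarith

theorem exists_asg (F : ℕ → Loc W Ω → Bool) : ∃ a : ℕ → Bool, ∀ v c, a (nm v c) = F v c := by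
  have hK : 0 < Fintype.card (Loc W Ω) := Fintype.card_pos
  refine ⟨fun n => F (n / Fintype.card (Loc W Ω))
    ((Fintype.equivFin (Loc W Ω)).symm ⟨n % Fintype.card (Loc W Ω), Nat.mod_lt _ hK⟩),
    fun v c => ?_⟩
  have h := (Fintype.equivFin (Loc W Ω) c).2
  have h1 : nm v c / Fintype.card (Loc W Ω) = v := by
    unfold nm
    rw [add_comm, Nat.add_mul_div_right _ _ hK, Nat.div_eq_of_lt h, zero_add]
  have h2 : nm v c % Fintype.card (Loc W Ω) = Fintype.equivFin (Loc W Ω) c := by
    unfold nm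
    rw [add_comm, Nat.add_mul_mod_self_right, Nat.mod_eq_of_lt h]
  simp only [h1, h2, Fin.eta, Equiv.symm_apply_apply]

/-- The variable behind a table position. -/
noncomputable def varOf (v e : ℕ) (ω : Ω) : Ref W → ℕ
  | .inl (false, f) => nm v (.inl f : Loc W Ω)
  | .inl (true, f) => nm e (.inl f : Loc W Ω)
  | .inr g => nm v (.inr (ω, g) : Loc W Ω)

/-- The clauses of one test. -/
noncomputable def tcl (v e : ℕ) (S : Fn (W × W)) (τ : Tst W Ω) : CNF :=
  (bad τ.2.1).map (clause (fun i => varOf v e τ.1 (tq S τ.2.1 τ.2.2 i)))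

/-- The composed formula. -/
noncomputable def comp (N : ℕ) (ep : ℕ → Ω → ℕ) (S : ℕ → Ω → Fn (W × W)) : CNF :=
  (List.range N).flatMap fun v =>
    (univ : Finset (Tst W Ω)).toList.flatMap fun τ => tcl v (ep v τ.1) (S v τ.1) τ

theorem mem_comp {N : ℕ} {ep : ℕ → Ω → ℕ} {S : ℕ → Ω → Fn (W × W)} {c : List (ℕ × Bool)}
    (h : c ∈ comp N ep S) : ∃ v < N, ∃ τ : Tst W Ω, ∃ u, ¬ tp τ.2.1 (fun i => b2z (u i)) ∧
      c = clause (fun i => varOf v (ep v τ.1) τ.1 (tq (S v τ.1) τ.2.1 τ.2.2 i)) u := by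
  unfold comp at h
  obtain ⟨v, hv, h⟩ := List.mem_flatMap.1 h
  obtain ⟨τ, _, h⟩ := List.mem_flatMap.1 h
  obtain ⟨u, hu, rfl⟩ := List.mem_map.1 h
  exact ⟨v, List.mem_range.1 hv, τ, u, mem_bad.1 hu, rfl⟩

theorem comp_w4 (N : ℕ) (ep : ℕ → Ω → ℕ) (S : ℕ → Ω → Fn (W × W)) : W4 (comp N ep S) := by
  intro c h
  obtain ⟨v, _, τ, u, _, rfl⟩ := mem_comp h
  simp [clause]

theorem length_flatMap_le {ι β : Type} (l : List ι) (f : ι → List β) (B : ℕ)
    (h : ∀ i, (f i).length ≤ B) : (l.flatMap f).length ≤ l.length * B := by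
  induction l with
  | nil => simp
  | cons i l ih =>
    simp only [List.flatMap_cons, List.length_append, List.length_cons]
    have := h i
    nlinarith

theorem comp_len (N : ℕ) (ep : ℕ → Ω → ℕ) (S : ℕ → Ω → Fn (W × W)) :
    (comp N ep S).length ≤ N * (Fintype.card (Tst W Ω) * 16) := by
  unfold comp
  refine (length_flatMap_le _ _ (Fintype.card (Tst W Ω) * 16) fun v => ?_).trans (by simp)
  refine (length_flatMap_le _ _ 16 fun τ => ?_).trans (by rw [Finset.length_toList]; rfl)
  simpa [tcl] using length_bad _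

theorem comp_sz (N : ℕ) (ep : ℕ → Ω → ℕ) (S : ℕ → Ω → Fn (W × W))
    (hep : ∀ v < N, ∀ ω, ep v ω < N) (c : List (ℕ × Bool)) (h : c ∈ comp N ep S) :
    sz c ≤ 4 * (2 * (2 * (N * Fintype.card (Loc W Ω)) + 2) + 1) := by
  have h4 := comp_w4 N ep S c h
  obtain ⟨v, hv, τ, u, _, e⟩ := mem_comp h
  rw [← h4]
  refine sz_le_of_forall fun l hl => ?_
  rw [e, clause] at hl
  obtain ⟨i, rfl⟩ := List.mem_ofFn.1 hl
  rw [sz_prod, sz_nat, sz_bool]
  have : ∀ r : Ref W, varOf v (ep v τ.1) τ.1 r < N * Fintype.card (Loc W Ω) := by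
    rintro (⟨_ | _, f⟩ | g)
    · exact nm_lt hv _
    · exact nm_lt (hep v hv _) _
    · exact nm_lt hv _
  have := this (tq (S v τ.1) τ.2.1 τ.2.2 i)
  omega

theorem comp_complete (N : ℕ) (ep : ℕ → Ω → ℕ) (S : ℕ → Ω → Fn (W × W)) (A : ℕ → W)
    (h : ∀ v < N, ∀ ω, S v ω (A v, A (ep v ω)) = 1) : Sat (comp N ep S) := by
  obtain ⟨a, ha⟩ := exists_asg (W := W) (Ω := Ω) (fun v c => match c with
    | .inl f => decide (f (A v) = 1)
    | .inr (ω, g) => decide (g (A v, A (ep v ω)) = 1))
  refine ⟨a, (satBy_iff _ _).2 fun c hc hv => ?_⟩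
  obtain ⟨v, hvN, τ, u, hu, rfl⟩ := mem_comp hc
  rw [clause_viol] at hv
  subst hv
  exact hu (test_complete (S v τ.1) (A v) (A (ep v τ.1)) (h v hvN τ.1)
    (fun r => b2z (a (varOf v (ep v τ.1) τ.1 r)))
    (fun f => by simp only [varOf, ha, b2z_decide])
    (fun f => by simp only [varOf, ha, b2z_decide])
    (fun f => by simp only [varOf, ha, b2z_decide]) τ.2.1 τ.2.2)

theorem comp_sound [Inhabited W] (N : ℕ) (ep : ℕ → Ω → ℕ) (S : ℕ → Ω → Fn (W × W))
    (a : ℕ → Bool) : ∃ A : ℕ → W,
      (Fintype.card (Rnd W) : ℝ) / 100 *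
        ∑ v ∈ range N, ∑ ω, ind (S v ω (A v, A (ep v ω)) ≠ 1) ≤ viol a (comp N ep S) := by
  refine ⟨fun v => dec (fun f => b2z (a (nm v (.inl f : Loc W Ω)))), ?_⟩
  unfold comp
  rw [viol_flatMap, sum_map_range, Finset.mul_sum]
  push_cast
  refine Finset.sum_le_sum fun v _ => ?_
  rw [viol_flatMap, Finset.sum_map_toList, Finset.mul_sum, Fintype.sum_prod_type]
  push_cast
  refine Finset.sum_le_sum fun ω _ => ?_
  by_cases hS : S v ω (dec (fun f => b2z (a (nm v (.inl f : Loc W Ω)))),
      dec (fun f => b2z (a (nm (ep v ω) (.inl f : Loc W Ω))))) ≠ 1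
  · rw [ind_pos hS, mul_one]
    have h := test_sound (S v ω) (fun r => b2z (a (varOf v (ep v ω) ω r))) hS
    have hR : (0 : ℝ) < Fintype.card (Rnd W) := by exact_mod_cast Fintype.card_pos
    simp only [Fintype.expect_eq_sum_div_card, ← Finset.sum_div] at h
    rw [le_div_iff₀ hR] at h
    rw [Fintype.sum_prod_type]
    refine le_trans (by linarith) (h.trans (Finset.sum_le_sum fun k _ =>
      Finset.sum_le_sum fun ξ _ => ?_))
    by_cases ht : tp k (fun i => b2z (a (varOf v (ep v ω) ω (tq (S v ω) k ξ i))))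
    · rw [ind_neg (not_not.2 ht)]; positivity
    · rw [ind_pos ht]
      have : 0 < viol a (tcl v (ep v ω) (S v ω) ((ω, k, ξ) : Tst W Ω)) := by
        unfold viol
        rw [List.countP_pos_iff]
        exact ⟨_, List.mem_map.2 ⟨_, mem_bad.2 ht, rfl⟩, (clause_viol _ _ _).2 rfl⟩
      exact_mod_cast this
  · rw [ind_neg hS, mul_zero]; positivity

theorem comp_pt {α : Type} [Enc α] {N : α → ℕ} {ep : α → ℕ → Ω → ℕ}
    {S : α → ℕ → Ω → Fn (W × W)} (hN : PT N) (hep : ∀ ω, PT (fun p : α × ℕ => ep p.1 p.2 ω))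
    (hS : ∀ ω, FPT (fun p : α × ℕ => S p.1 p.2 ω)) : PT (fun a => comp (N a) (ep a) (S a)) := by
  unfold comp
  refine PT.flatMap (PT.flatMap_const _ fun τ => ?_) hN.range
  refine (hS τ.1).cases (fun s p => tcl p.2 (ep p.1 p.2 τ.1) s τ) fun s => ?_
  unfold tcl
  refine PT.map_const _ fun u => ?_
  have hv : ∀ r : Ref W, PT (fun p : α × ℕ => varOf p.2 (ep p.1 p.2 τ.1) τ.1 r) := by
    have := hep τ.1
    rintro (⟨_ | _, f⟩ | g) <;> simp only [varOf, nm] <;> fun_prop
  simp only [clause, List.ofFn_eq_map]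
  exact PT.map_const _ fun i => (hv _).prodMk (PT.const _)

end Comp

end Pool.Agent.MP_9e68e9_lc.PCP
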