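import Pool.Agent.MP_9e68e9_lc.LowFin
import Pool.Agent.MP_9e68e9_lc.PCPComp

/-! A local criterion for `Good`, and its decision in polynomial time. -/

namespace Pool.Agent.MP_9e68e9_lc.Low

open Finset Pool.Agent.MP_2e8011_lc Pool.Agent.MP_9e68e9_lc.PCP

section
variable {V W : Type} {G : SimpleGraph V} {p : ℝ}

theorem good_comap (l : W → V) (hc : Closed G (Set.range l)) (h : Good p G ∅) :
    Good p (G.comap l) ∅ := by
  obtain ⟨S, D, h1, h2⟩ := h
  refine ⟨S, fun i a => D i (l a), fun i a _ => ?_, fun a => h2 _⟩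
  rcases h1 i (l a) (Set.notMem_empty _) with h | ⟨t, h, h'⟩
  · exact Or.inl h
  · obtain ⟨b, rfl⟩ := hc _ ⟨a, rfl⟩ t h
    exact Or.inr ⟨b, h, h'⟩

theorem good_of_comap (hp : 0 ≤ p) (l : W → V) (hl : Function.Injective l)
    (h : Good p (G.comap l) ∅) : Good p G (Set.range l)ᶜ := by
  obtain ⟨S, D, h1, h2⟩ := h
  refine ⟨S, fun i t => ∃ a, l a = t ∧ D i a, fun i v hv => ?_, fun t => ?_⟩
  · obtain ⟨a, rfl⟩ := not_not.1 hv
    rcases h1 i a (Set.notMem_empty _) with h | ⟨b, h, h'⟩
    exacts [Or.inl ⟨a, rfl, h⟩, Or.inr ⟨l b, h, b, rfl, h'⟩]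
  · by_cases e : ∃ a, l a = t
    · obtain ⟨a, rfl⟩ := e
      exact (S.mono fun i ⟨b, h, h'⟩ => hl h ▸ h').trans (h2 a)
    · exact (S.P_none fun i ⟨b, h, _⟩ => e ⟨b, h⟩).trans_le hp

theorem good_half [Finite V] (h : ∀ v, ∃ t, G.Adj v t) : Good (1 / 2) G ∅ := by
  obtain ⟨D, h1, h2⟩ := exists_minimal_of_wellFoundedLT
    (fun D : Set V => Dom G ∅ fun v => v ∈ D) ⟨Set.univ, fun v _ => Or.inl trivial⟩
  have h3 : Dom G ∅ fun v => v ∉ D := fun v _ => by
    by_contra e
    simp only [not_or, not_not, not_exists, not_and] at e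
    refine (h2 (y := D \ {v}) (fun t _ => ?_) Set.diff_subset e.1).2 rfl
    by_cases e' : t = v
    · obtain ⟨s, hs⟩ := h v
      exact Or.inr ⟨s, e' ▸ hs, e.2 s hs, hs.ne'⟩
    · rcases h1 t (Set.notMem_empty _) with k | ⟨s, k, k'⟩
      · exact Or.inl ⟨k, e'⟩
      · by_cases e'' : s = v
        · exact Or.inl ⟨e.2 t (e'' ▸ k.symm), e'⟩
        · exact Or.inr ⟨s, k, k', e''⟩
  refine ⟨PS.coin (1 / 2) (by norm_num) (by norm_num), fun (b : Bool) v => v ∈ D ↔ b = true,
    fun b => ?_, fun v => ?_⟩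
  · cases b
    · simpa using h3
    · simpa using h1
  · by_cases e : v ∈ D
    · exact (PS.mono _ fun b => by simp [e]).trans (PS.coin_true _ _ _).le
    · exact (PS.mono _ fun (b : Bool) => by simp [e]).trans ((PS.coin_false _ _ _).trans_le
        (by norm_num))

theorem deg_of_good (hp : p < 1 / 2) (h : Good p G ∅) : Deg G ∅ := fun v _ => by
  obtain ⟨S, D, h1, h2⟩ := h
  by_contra e
  obtain ⟨a, ha⟩ : ∃ a, ∀ t, G.Adj v t → t = a := by
    by_cases e' : ∃ a, G.Adj v a
    · obtain ⟨a, ha⟩ := e'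
      exact ⟨a, fun t ht => by_contra fun k => e ⟨t, a, k, ht, ha⟩⟩
    · exact ⟨v, fun t ht => absurd ⟨t, ht⟩ e'⟩
  have := S.cover (X := fun _ => True) (Y := fun i => D i v) (Z := fun i => D i a) fun i _ =>
    (h1 i v (Set.notMem_empty _)).imp_right fun ⟨t, k, k'⟩ => ha t k ▸ k'
  rw [S.P_all fun _ => trivial] at this
  linarith [h2 v, h2 a]

end

/-- The local condition. -/
def Loc (b : Bool) (N : ℕ) (Q : (k : ℕ) → SimpleGraph (Fin k) → Prop) {n : ℕ}
    (G : SimpleGraph (Fin n)) : Prop :=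
  (b = true → Deg G ∅) ∧ ∀ k < N, ∀ l : Fin k → Fin n, Function.Injective l →
    Closed G (Set.range l) → Q k (G.comap l)

theorem good_iff {p : ℝ} (hp : 2 / 5 < p) : ∃ (b : Bool) (N : ℕ), ∀ (n : ℕ)
    (G : SimpleGraph (Fin n)), Good p G ∅ ↔ Loc b N (fun _ H => Good p H ∅) G := by
  rcases lt_or_ge p (1 / 2) with h | h
  · obtain ⟨N, hN⟩ := exists_nat_one_div_lt (sub_pos.2 hp)
    refine ⟨true, N + 1, fun n G => ⟨fun e => ⟨fun _ => deg_of_good h e, fun k _ l _ hc =>
      good_comap l hc e⟩, fun e => good_of_small N (by linarith) (e.1 rfl) fun C h1 _ h2 => ?_⟩⟩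
    haveI := Fintype.ofFinite C
    have e1 : Set.range (fun i => ((Fintype.equivFin C).symm i : Fin n)) = C := by
      ext v
      exact ⟨fun ⟨i, hi⟩ => hi ▸ Subtype.prop _, fun hv => ⟨Fintype.equivFin C ⟨v, hv⟩, by simp⟩⟩
    have e2 : Function.Injective fun i => ((Fintype.equivFin C).symm i : Fin n) :=
      Subtype.val_injective.comp (Equiv.injective _)
    have := good_of_comap (by linarith) _ e2 (e.2 _ (by
      rw [← Nat.card_eq_fintype_card, Nat.card_coe_set_eq]; omega) _ e2 (e1.symm ▸ h1))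
    rwa [e1] at this
  · refine ⟨false, 2, fun n G => ⟨fun e => ⟨by simp, fun k _ l _ hc => good_comap l hc e⟩,
      fun e => ?_⟩⟩
    rcases le_or_gt 1 p with h' | h'
    · exact ⟨PS.coin 0 le_rfl zero_le_one, fun _ _ => True, fun _ v _ => Or.inl trivial,
        fun _ => (PS.P_all _ fun _ => trivial).trans_le h'⟩
    · refine (good_half fun v => by_contra fun k => ?_).le h
      obtain ⟨S, D, h1, h2⟩ := e.2 1 (by norm_num) (fun _ => v) (fun a b _ => Subsingleton.elim a b)
        (by rintro _ ⟨_, rfl⟩ t ht; exact absurd ⟨t, ht⟩ k)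
      have := h2 0
      rw [S.P_all fun i => (h1 i 0 (Set.notMem_empty _)).resolve_right
        fun ⟨t, ht, _⟩ => k ⟨v, ht⟩] at this
      linarith

/-- A matrix written row by row. -/
def mat (k n : ℕ) (f : ℕ → ℕ → Bool) : List Bool :=
  (List.range k).flatMap fun a => (List.range n).map (f a)

theorem length_mat (k n : ℕ) (f : ℕ → ℕ → Bool) : (mat k n f).length = k * n := by
  induction k with
  | zero => simp [mat]
  | succ k ih =>
    simp only [mat] at ih
    simp [mat, List.range_succ, List.flatMap_append, ih, Nat.succ_mul]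

theorem getD_mat (k n : ℕ) (f : ℕ → ℕ → Bool) {a b : ℕ} (ha : a < k) (hb : b < n) :
    (mat k n f).getD (a * n + b) false = f a b := by
  induction k with
  | zero => omega
  | succ k ih =>
    have e : mat (k + 1) n f = mat k n f ++ (List.range n).map (f k) := by
      simp [mat, List.range_succ, List.flatMap_append]
    rw [e]
    by_cases h : a < k
    · rw [List.getD_append _ _ _ _ (by rw [length_mat]; nlinarith), ih h]
    · obtain rfl : a = k := by omega
      rw [List.getD_append_right _ _ _ _ (by rw [length_mat]; omega), length_mat]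
      simp [hb]

theorem eq_mat {x : List Bool} {n : ℕ} (h : n * n = x.length) :
    x = mat n n (fun a b => x.getD (a * n + b) false) := by
  refine List.ext_getElem (by rw [length_mat, h]) (fun i hi hi' => ?_)
  have hn : 0 < n := by
    rcases Nat.eq_zero_or_pos n with rfl | hn
    · omega
    · exact hn
  have e : i / n * n + i % n = i := Nat.div_add_mod' i n
  have := getD_mat n n (fun a b => x.getD (a * n + b) false)
    (a := i / n) (b := i % n) (Nat.div_lt_of_lt_mul (by omega)) (Nat.mod_lt _ hn)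
  rw [e, List.getD_eq_getElem _ _ hi', List.getD_eq_getElem _ _ hi] at this
  exact this.symm

/-- All lists of length `k` of numbers below `n`. -/
def tuples : ℕ → ℕ → List (List ℕ)
  | 0, _ => [[]]
  | k + 1, n => (tuples k n).flatMap fun l => (List.range n).map fun a => a :: l

theorem mem_tuples {k n : ℕ} {l : List ℕ} : l ∈ tuples k n ↔ l.length = k ∧ ∀ a ∈ l, a < n := by
  induction k generalizing l with
  | zero => simp only [tuples, List.mem_singleton, List.length_eq_zero_iff]; grind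
  | succ k ih =>
    simp only [tuples, List.mem_flatMap, List.mem_map, List.mem_range, ih]
    constructor
    · rintro ⟨m, ⟨h1, h2⟩, a, ha, rfl⟩
      exact ⟨by simp [h1], by simpa using ⟨ha, h2⟩⟩
    · rintro ⟨h1, h2⟩
      cases l with
      | nil => simp at h1
      | cons a m =>
        simp only [List.mem_cons, forall_eq_or_imp] at h2
        exact ⟨m, ⟨by simpa using h1, h2.2⟩, a, h2.1, rfl⟩

theorem pt_tuples {α : Type} [Enc α] (k : ℕ) {n : α → ℕ} (hn : PT n) :
    PT (fun a => tuples k (n a)) := by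
  induction k with
  | zero => exact PT.const _
  | succ k ih => unfold tuples; fun_prop

open Classical in
/-- The adjacency matrix, row by row. -/
noncomputable def bits {n : ℕ} (G : SimpleGraph (Fin n)) : List Bool :=
  (List.finRange n).flatMap fun a => (List.finRange n).map fun b => decide (G.Adj a b)

theorem bits_mat {n : ℕ} (G : SimpleGraph (Fin n)) (f : ℕ → ℕ → Bool)
    (h : ∀ a b, G.Adj a b ↔ f a.val b.val = true) : bits G = mat n n f := by
  unfold bits mat
  rw [← List.map_coe_finRange_eq_range, List.flatMap_map]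
  simp only [List.map_map, h]
  congr 1
  funext a
  congr 1
  funext b
  simp

/-- The test for one tuple. -/
def tup (Q : (k : ℕ) → SimpleGraph (Fin k) → Prop) (k : ℕ) (x : List Bool) (n : ℕ)
    (l : List ℕ) : Prop :=
  (∀ s < k, ∀ t < k, l.getD s 0 = l.getD t 0 → s = t) →
    (∀ s < k, ∀ a < n, x.getD (l.getD s 0 * n + a) false = true → ∃ t < k, l.getD t 0 = a) →
    Q k (SimpleGraph.fromRel fun s t => x.getD (l.getD s 0 * n + l.getD t 0) false = true)

/-- The test made by the algorithm. -/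
def check (b : Bool) (N : ℕ) (Q : (k : ℕ) → SimpleGraph (Fin k) → Prop) (x : List Bool)
    (n : ℕ) : Prop :=
  n * n = x.length ∧ (∀ a < n, ∀ c < n, x.getD (a * n + c) false = x.getD (c * n + a) false) ∧
  (∀ a < n, x.getD (a * n + a) false = false) ∧
  (b = true → ∀ v < n, ∃ a < n, ∃ c < n, a ≠ c ∧ x.getD (v * n + a) false = true ∧
    x.getD (v * n + c) false = true) ∧ ∀ k < N, ∀ l ∈ tuples k n, tup Q k x n l

open Classical in
theorem pt_check (b : Bool) (N : ℕ) (Q : (k : ℕ) → SimpleGraph (Fin k) → Prop) :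
    PT (fun x : List Bool => decide (∃ n < x.length + 1, check b N Q x n)) := by
  refine PT.exists_lt (by fun_prop) ?_
  unfold check
  refine PT.decide_and (by fun_prop) (PT.decide_and ?_ (PT.decide_and ?_ (PT.decide_and
    (PT.decide_imp (PT.const _) ?_) ?_)))
  · exact PT.forall_lt (by fun_prop) (PT.forall_lt (by fun_prop) (by fun_prop))
  · exact PT.forall_lt (by fun_prop) (by fun_prop)
  · exact PT.forall_lt (by fun_prop) (PT.exists_lt (by fun_prop) (PT.exists_lt (by fun_prop)
      (by fun_prop)))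
  · refine (PT.all_const (List.range N) (g := fun (q : List Bool × ℕ) k =>
      (tuples k q.2).all fun l => decide (tup Q k q.1 q.2 l)) fun k =>
        PT.all (pt_tuples k PT.id.snd) ?_).congr fun q => by rw [Bool.eq_iff_iff]; simp
    unfold tup
    refine PT.decide_imp ?_ (PT.decide_imp ?_ ?_)
    · exact PT.forall_lt (by fun_prop) (PT.forall_lt (by fun_prop)
        (PT.decide_imp (by fun_prop) (by fun_prop)))
    · exact PT.forall_lt (by fun_prop) (PT.forall_lt (by fun_prop)
        (PT.decide_imp (by fun_prop) (PT.exists_lt (by fun_prop) (by fun_prop))))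
    · have h : FPT (fun (q : (List Bool × ℕ) × List ℕ) (s t : Fin k) =>
          q.1.1.getD (q.2.getD s 0 * q.1.2 + q.2.getD t 0) false) :=
        FPT.pi fun s => FPT.pi fun t => FPT.of_bool (by fun_prop)
      exact h.cases (fun u _ => decide (Q k (SimpleGraph.fromRel fun s t => u s t = true)))
        fun _ => PT.const _

theorem loc_iff (b : Bool) (N : ℕ) (Q : (k : ℕ) → SimpleGraph (Fin k) → Prop) {n : ℕ}
    (G : SimpleGraph (Fin n)) (x : List Bool)
    (h : ∀ a c, G.Adj a c ↔ x.getD (a.val * n + c.val) false = true) : Loc b N Q G ↔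
    (b = true → ∀ v < n, ∃ a < n, ∃ c < n, a ≠ c ∧ x.getD (v * n + a) false = true ∧
      x.getD (v * n + c) false = true) ∧ ∀ k < N, ∀ l ∈ tuples k n, tup Q k x n l := by
  refine and_congr (imp_congr_right fun _ => ⟨fun H v hv => ?_, fun H v _ => ?_⟩)
    (forall₂_congr fun k _ => ?_)
  · obtain ⟨a, c, h1, h2, h3⟩ := H ⟨v, hv⟩ (Set.notMem_empty _)
    exact ⟨a, a.2, c, c.2, fun e => h1 (Fin.ext e), (h _ _).1 h2, (h _ _).1 h3⟩
  · obtain ⟨a, ha, c, hc, h1, h2, h3⟩ := H v v.2
    exact ⟨⟨a, ha⟩, ⟨c, hc⟩, fun e => h1 (congrArg Fin.val e), (h _ _).2 h2, (h _ _).2 h3⟩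
  have key : ∀ (f : Fin k → Fin n) (l : List ℕ), (∀ s : Fin k, l.getD s 0 = f s) →
      ((Function.Injective f → Closed G (Set.range f) → Q k (G.comap f)) ↔ tup Q k x n l) := by
    intro f l e
    have e1 : (SimpleGraph.fromRel fun s t : Fin k =>
        x.getD (l.getD s 0 * n + l.getD t 0) false = true) = G.comap f := by
      ext s t
      simp only [e, ← h, SimpleGraph.fromRel_adj, SimpleGraph.comap_adj]
      exact ⟨fun k => k.2.elim id fun k => k.symm, fun k => ⟨fun e => k.ne (e ▸ rfl), Or.inl k⟩⟩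
    unfold tup
    rw [e1]
    refine imp_congr ⟨fun H s hs t ht k => ?_, fun H s t k => ?_⟩
      (imp_congr_left ⟨fun H s hs a ha k => ?_, ?_⟩)
    · rw [e ⟨s, hs⟩, e ⟨t, ht⟩] at k
      exact congrArg Fin.val (H (Fin.ext k))
    · exact Fin.ext (H s s.2 t t.2 (by rw [e, e, k]))
    · rw [e ⟨s, hs⟩] at k
      obtain ⟨t, ht⟩ := H _ ⟨⟨s, hs⟩, rfl⟩ ⟨a, ha⟩ ((h _ _).2 k)
      exact ⟨t, t.2, by rw [e, ht]⟩
    · rintro H _ ⟨s, rfl⟩ a k
      obtain ⟨t, ht, k'⟩ := H s s.2 a a.2 (by rw [e]; exact (h _ _).1 k)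
      exact ⟨⟨t, ht⟩, Fin.ext (by rw [← e]; exact k')⟩
  refine ⟨fun H l hl => ?_, fun H f => ?_⟩
  · obtain ⟨hlen, hlt⟩ := mem_tuples.1 hl
    have hb : ∀ s : Fin k, l.getD s 0 < n := fun s => by
      rw [List.getD_eq_getElem _ _ (by rw [hlen]; exact s.2)]
      exact hlt _ (List.getElem_mem _)
    exact (key (fun s => ⟨l.getD s 0, hb s⟩) l fun _ => rfl).1 (H _)
  · refine (key f (List.ofFn fun i => (f i).val) fun s => ?_).2 (H _ (mem_tuples.2 ⟨by simp, ?_⟩))
    · rw [List.getD_eq_getElem _ _ (by rw [List.length_ofFn]; exact s.2), List.getElem_ofFn]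
    · intro a ha
      obtain ⟨i, rfl⟩ := List.mem_ofFn.1 ha
      exact (f i).2

open Classical in
theorem pt_loc (b : Bool) (N : ℕ) (Q : (k : ℕ) → SimpleGraph (Fin k) → Prop) :
    PT (fun x : List Bool =>
      decide (∃ (n : ℕ) (G : SimpleGraph (Fin n)), x = bits G ∧ Loc b N Q G)) := by
  refine (pt_check b N Q).congr fun x => decide_eq_decide.2 ⟨?_, ?_⟩
  · rintro ⟨n, -, hlen, hsym, hirr, H⟩
    let G : SimpleGraph (Fin n) :=
      { Adj := fun a c => x.getD (a.val * n + c.val) false = true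
        symm := ⟨fun a c h => by rw [← hsym _ a.2 _ c.2]; exact h⟩
        loopless := ⟨fun a h => by rw [hirr _ a.2] at h; cases h⟩ }
    refine ⟨n, G, ?_, (loc_iff b N Q G x fun _ _ => Iff.rfl).2 H⟩
    rw [bits_mat G (fun a c => x.getD (a * n + c) false) (fun a c => Iff.rfl)]
    exact eq_mat hlen
  · rintro ⟨n, G, rfl, H⟩
    let P : ℕ → ℕ → Prop := fun a c => ∃ (ha : a < n) (hc : c < n), G.Adj ⟨a, ha⟩ ⟨c, hc⟩
    have hP : ∀ a c, G.Adj a c ↔ P a.val c.val := fun a c => by simp [P]
    have hx : bits G = mat n n (fun a c => decide (P a c)) :=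
      bits_mat G _ (fun a c => by rw [decide_eq_true_eq, hP])
    have hg : ∀ a < n, ∀ c < n, (bits G).getD (a * n + c) false = decide (P a c) :=
      fun a ha c hc => by rw [hx, getD_mat n n _ ha hc]
    have hlen : (bits G).length = n * n := by rw [hx, length_mat]
    refine ⟨n, by rw [hlen]; nlinarith, hlen.symm, fun a ha c hc => ?_, fun a ha => ?_,
      (loc_iff b N Q G _ fun a c => ?_).1 H⟩
    · rw [hg a ha c hc, hg c hc a ha]
      simp [P, ha, hc, G.adj_comm]
    · rw [hg a ha a ha]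
      simp [P]
    · rw [hg _ a.2 _ c.2, decide_eq_true_eq, hP]

open Classical in
/-- For `p > 2/5` the existence of a random dominating set with marginals at most `p` is decidable
in polynomial time. -/
theorem pt_good {p : ℝ} (hp : 2 / 5 < p) : PT (fun x : List Bool =>
    decide (∃ (n : ℕ) (G : SimpleGraph (Fin n)), x = bits G ∧ Good p G ∅)) := by
  obtain ⟨b, N, h⟩ := good_iff hp
  exact (pt_loc b N fun _ H => Good p H ∅).congr fun x => decide_eq_decide.2
    (exists₂_congr fun n G => and_congr_right fun _ => (h n G).symm)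

theorem good_iff_weights {V : Type} [Fintype V] [DecidableEq V] (G : SimpleGraph V) (p : ℝ) :
    Good p G ∅ ↔ ∃ μ : (V → Bool) → ℝ, (∀ x, 0 ≤ μ x) ∧ ∑ x, μ x = 1 ∧
      (∀ x, μ x ≠ 0 → ∀ v, x v = true ∨ ∃ u, G.Adj v u ∧ x u = true) ∧
      ∀ v, ∑ x, μ x * (if x v = true then 1 else 0) ≤ p := by
  classical
  constructor
  · rintro ⟨S, D, h1, h2⟩
    have key : ∀ E : (V → Bool) → Prop, ∑ x, S.P (fun i => (fun v => decide (D i v)) = x) *
        (if E x then 1 else 0) = S.P fun i => E fun v => decide (D i v) := fun E => by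
      unfold PS.P
      simp only [sum_mul]
      rw [sum_comm]
      refine sum_congr rfl fun i _ => ?_
      rw [sum_eq_single (fun v => decide (D i v)) (fun x _ hx => by simp [hx.symm]) (by simp)]
      simp
    refine ⟨fun x => S.P fun i => (fun v => decide (D i v)) = x, fun x => S.P_nonneg _, ?_,
      fun x hx v => ?_, fun v => ?_⟩
    · simpa [S.P_all fun _ => trivial] using key fun _ => True
    · obtain ⟨i, rfl⟩ : ∃ i, (fun v => decide (D i v)) = x :=
        by_contra fun e => hx (S.P_none fun i h => e ⟨i, h⟩)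
      simpa using h1 i v (Set.notMem_empty _)
    · have := key fun x => x v = true
      simp only [decide_eq_true_eq] at this
      convert this.trans_le (h2 v)
  · rintro ⟨μ, h1, h2, h3, h4⟩
    refine ⟨⟨V → Bool, inferInstance, μ, h1, h2⟩, fun x v => μ x = 0 ∨ x v = true,
      fun x v _ => ?_, fun v => le_trans (le_of_eq (sum_congr rfl fun x _ => ?_)) (h4 v)⟩
    · by_cases e : μ x = 0
      · exact Or.inl (Or.inl e)
      · exact (h3 x e v).imp Or.inr fun ⟨u, k, k'⟩ => ⟨u, k, Or.inr k'⟩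
    · by_cases e : μ x = 0 <;> simp [e]

end Pool.Agent.MP_9e68e9_lc.Low
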