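import Pool.Agent.MP_9e68e9_lc.Rel
import Pool.Agent.MP_9e68e9_lc.LowAlg
import Pool.Agent.MP_2e8011_lc.CookLevin
import Pool.Prelude.Def_F_458e953d

/-! Graphs with free vertices, private cliques, universal vertices, and the numeric form of the
reductions. -/

namespace Pool.Agent.MP_9e68e9_lc

open Finset Pool.Agent.MP_2e8011_lc

section abstract

variable {V V' : Type} [Fintype V] [DecidableEq V] [Fintype V'] [DecidableEq V'] {p : ℝ}

/-- Feasibility when only the vertices in `need` have to be dominated. -/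
def FeasF (H : SimpleGraph V) (need : V → Prop) (p : ℝ) : Prop :=
  ∃ μ : (V → Bool) → ℝ, IsProb μ ∧
    (∀ y, μ y ≠ 0 → ∀ v, need v → y v = true ∨ ∃ u, H.Adj v u ∧ y u = true) ∧
    ∀ v, Ex μ (fun y => ind (y v)) ≤ p

theorem feasF_of_model {H : SimpleGraph V} {need : V → Prop} {Ω : Type} [Fintype Ω] {P : Ω → ℝ}
    (hP : IsProb P) (Y : Ω → V → Bool)
    (h1 : ∀ ω, P ω ≠ 0 → ∀ v, need v → Y ω v = true ∨ ∃ u, H.Adj v u ∧ Y ω u = true)
    (h2 : ∀ v, Ex P (fun ω => ind (Y ω v)) ≤ p) : FeasF H need p :=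
  ⟨law P Y, hP.law _, fun y hy => by
    obtain ⟨ω, h3, rfl⟩ := exists_of_law_ne_zero hy
    exact h1 ω h3, fun v => by rw [Ex_law]; exact h2 v⟩

theorem feas_iff_feasF {H : SimpleGraph V} : Feas H p ↔ FeasF H (fun _ => True) p :=
  ⟨fun ⟨μ, h1, h2, h3, h4⟩ => ⟨μ, ⟨h1, h2⟩, fun y hy v _ => h3 y hy v, h4⟩,
    fun ⟨μ, h1, h3, h4⟩ => ⟨μ, h1.1, h1.2, fun y hy v => h3 y hy v trivial, h4⟩⟩

theorem FeasF.of_map {H : SimpleGraph V} {need : V → Prop} {H' : SimpleGraph V'}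
    {need' : V' → Prop} (h : FeasF H need p) (f : V' → V) (h1 : ∀ v, need' v → need (f v))
    (h2 : ∀ v u, need' v → H.Adj (f v) u → ∃ u', H'.Adj v u' ∧ f u' = u) : FeasF H' need' p := by
  obtain ⟨μ, k1, k2, k3⟩ := h
  refine feasF_of_model k1 (fun y v => y (f v)) (fun y hy v hv => ?_) fun v => k3 _
  rcases k2 y hy _ (h1 v hv) with h | ⟨u, h, h'⟩
  · exact Or.inl h
  · obtain ⟨u', h3, rfl⟩ := h2 v u hv h
    exact Or.inr ⟨u', h3, h'⟩

theorem feasF_congr {H : SimpleGraph V} {need : V → Prop} {H' : SimpleGraph V'}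
    {need' : V' → Prop} (e : V ≃ V') (h1 : ∀ v, need v ↔ need' (e v))
    (h2 : ∀ u v, H.Adj u v ↔ H'.Adj (e u) (e v)) : FeasF H need p ↔ FeasF H' need' p :=
  ⟨fun h => h.of_map e.symm (fun v hv => (h1 _).2 (by simpa using hv))
      fun v u _ h => ⟨e u, by simpa using (h2 _ _).1 h, by simp⟩,
    fun h => h.of_map e (fun v hv => (h1 _).1 hv)
      fun v u _ h => ⟨e.symm u, (h2 _ _).2 (by simpa using h), by simp⟩⟩

theorem ext_empty (Γ : Gad Empty) : Γ.Ext p (fun _ => 1) ↔ FeasF Γ.H Γ.need p := by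
  constructor
  · rintro ⟨κ, h1, h2, h3⟩
    refine ⟨κ default, h1 _, fun y hy v hv => ?_, fun v => ?_⟩
    · rcases h2 default y one_ne_zero hy v hv with h | h | ⟨s, -⟩
      · exact Or.inl h
      · exact Or.inr h
      · exact s.elim
    · have := h3 v
      rw [Ex, Fintype.sum_unique, one_mul] at this
      exact le_of_eq_of_le (congrArg (fun x => Ex (κ x) fun y => ind (y v))
        (Subsingleton.elim _ _)) this
  · rintro ⟨μ, h1, h2, h3⟩
    refine ⟨fun _ => μ, fun _ => h1, fun x y _ hy v hv => ?_, fun v => ?_⟩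
    · rcases h2 y hy v hv with h | h
      · exact Or.inl h
      · exact Or.inr (Or.inl h)
    · rw [Ex, Fintype.sum_unique, one_mul]
      exact h3 v

theorem bal_empty : Bal p (fun _ : Empty → Bool => (1 : ℝ)) :=
  ⟨⟨fun _ => zero_le_one, by simp⟩, fun s => s.elim⟩

theorem eq_one_of_isProb {μ : (Empty → Bool) → ℝ} (h : IsProb μ) : μ = fun _ => 1 := by
  funext x
  rw [← h.2, Fintype.sum_unique]
  exact congrArg μ (Subsingleton.elim _ _)

theorem feasF_clique {M : ℕ} (hM : 0 < M) (hp : 1 / (M : ℝ) ≤ p) {H : SimpleGraph V}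
    {need : V → Prop} {H' : SimpleGraph (V × Fin (M + 1))}
    (h : ∀ x y, H'.Adj x y ↔ (x.2 = 0 ∧ y.2 = 0 ∧ H.Adj x.1 y.1) ∨
      (x.1 = y.1 ∧ x.2 ≠ y.2 ∧ ((x.2 ≠ 0 ∧ y.2 ≠ 0) ∨ ¬ need x.1))) :
    FeasF H' (fun _ => True) p ↔ FeasF H need p := by
  constructor
  · intro k
    refine k.of_map (fun v => (v, 0)) (fun _ _ => trivial) ?_
    rintro v ⟨u, a⟩ hv hu
    rcases (h _ _).1 hu with ⟨-, h1, h2⟩ | ⟨-, -, h1 | h1⟩
    · exact ⟨u, h2, Prod.ext rfl h1.symm⟩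
    · exact absurd rfl h1.1
    · exact absurd hv h1
  · rintro ⟨μ, k1, k2, k3⟩
    have hM' : (0 : ℝ) < M := by exact_mod_cast hM
    have hu : IsProb fun _ : Fin M => 1 / (M : ℝ) := ⟨fun _ => by positivity, by
      simp only [sum_const, card_univ, Fintype.card_fin, nsmul_eq_mul]
      field_simp⟩
    have hP : IsProb fun z : (V → Bool) × Fin M => μ z.1 * (1 / (M : ℝ)) :=
      ⟨fun z => mul_nonneg (k1.1 _) (by positivity), by
        rw [← Ex_one, Ex_kernel μ fun _ _ => 1 / (M : ℝ)]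
        simp only [hu.Ex_const, k1.Ex_const]⟩
    refine feasF_of_model hP (fun z x => if x.2 = 0 then z.1 x.1 else decide (x.2 = z.2.succ))
      ?_ ?_
    · rintro ⟨y, r⟩ hz ⟨v, a⟩ -
      have hr := Fin.succ_ne_zero r
      by_cases ha : a = 0
      · subst ha
        by_cases hv : need v
        · rcases k2 y (left_ne_zero_of_mul hz) v hv with h1 | ⟨u, h1, h2⟩
          · exact Or.inl (by simpa using h1)
          · exact Or.inr ⟨(u, 0), (h _ _).2 (Or.inl ⟨rfl, rfl, h1⟩), by simpa using h2⟩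
        · exact Or.inr ⟨(v, r.succ), (h _ _).2 (Or.inr ⟨rfl, hr.symm, Or.inr hv⟩), by simp⟩
      · by_cases har : a = r.succ
        · exact Or.inl (by simp [har])
        · exact Or.inr ⟨(v, r.succ), (h _ _).2 (Or.inr ⟨rfl, har, Or.inl ⟨ha, hr⟩⟩), by simp⟩
    · rintro ⟨v, a⟩
      rw [Ex_kernel μ fun _ _ => 1 / (M : ℝ)]
      by_cases ha : a = 0
      · simp only [ha, if_true, hu.Ex_const]
        exact k3 v
      · obtain ⟨r, rfl⟩ := Fin.exists_succ_eq.2 ha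
        refine le_of_eq_of_le ((Ex_congr fun y => ?_).trans (k1.Ex_const _)) hp
        simp [Ex, ind]

theorem feasF_cone {n : ℕ} (hn : 0 < n) (hp : 0 < p) {H : SimpleGraph (Fin n)}
    {H' : SimpleGraph (Fin (n + 1))}
    (h0 : ∀ v : Fin n, H'.Adj v.succ 0) (h : ∀ u v : Fin n, H'.Adj u.succ v.succ ↔ H.Adj u v) :
    FeasF H' (fun _ => True) (p / (1 + p)) ↔ FeasF H (fun _ => True) p := by
  have hq : p / (1 + p) * (1 + p) = p := div_mul_cancel₀ _ (by linarith)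
  have hq0 : 0 < p / (1 + p) := by positivity
  have hq1 : p / (1 + p) < 1 := by rw [div_lt_one (by linarith)]; linarith
  set q := p / (1 + p)
  constructor
  · rintro ⟨μ, k1, k2, k3⟩
    set r := Ex μ (fun y => 1 - ind (y 0)) with hr
    have hr1 : 1 - q ≤ r := by
      rw [hr, Ex_sub, k1.Ex_const]
      linarith [k3 0]
    have hr0 : 0 < r := by linarith
    have key : ∀ f, Ex (fun y => μ y * (1 - ind (y 0)) / r) f =
        Ex μ (fun y => (1 - ind (y 0)) * f y) / r := by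
      intro f
      simp only [Ex, Finset.sum_div]
      exact Finset.sum_congr rfl fun y _ => by ring
    refine feasF_of_model (P := fun y => μ y * (1 - ind (y 0)) / r)
      ⟨fun y => div_nonneg (mul_nonneg (k1.1 y) (by linarith [ind_le_one (y 0)])) hr0.le, ?_⟩
      (fun y v => y v.succ) (fun y hy v _ => ?_) fun v => ?_
    · rw [← Ex_one, key]
      simp only [mul_one]
      exact div_self hr0.ne'
    · have h1 : μ y ≠ 0 := fun e => hy (by simp [e])
      have h2 : y 0 = false := by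
        by_contra e
        rw [Bool.not_eq_false] at e
        exact hy (by simp [e])
      rcases k2 y h1 v.succ trivial with h3 | ⟨u, h3, h4⟩
      · exact Or.inl h3
      · obtain ⟨u, rfl⟩ := Fin.exists_succ_eq.2 (show u ≠ 0 from fun e => by simp [e, h2] at h4)
        exact Or.inr ⟨u, (h _ _).1 h3, h4⟩
    · rw [key, div_le_iff₀ hr0]
      have := Ex_mono (f := fun y => (1 - ind (y 0)) * ind (y v.succ))
        (g := fun y => ind (y v.succ)) k1.1 fun y => by cases y 0 <;> cases y v.succ <;> simp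
      nlinarith [k3 v.succ]
  · rintro ⟨μ, k1, k2, k3⟩
    have hκ : IsProb fun b : Bool => cond b q (1 - q) :=
      ⟨by rintro (_ | _) <;> simp [hq0.le, hq1.le], by simp⟩
    have hP : IsProb fun z : (Fin n → Bool) × Bool => μ z.1 * cond z.2 q (1 - q) :=
      ⟨fun z => mul_nonneg (k1.1 _) (hκ.1 _), by
        rw [← Ex_one, Ex_kernel μ fun _ b => cond b q (1 - q)]
        simp only [hκ.Ex_const, k1.Ex_const]⟩
    refine feasF_of_model hP (fun z => Fin.cons z.2 fun v => !z.2 && z.1 v) ?_ fun v => ?_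
    · rintro ⟨y, b⟩ hz v -
      have hy := k2 y (left_ne_zero_of_mul hz)
      cases b
      · refine Fin.cases ?_ (fun v => ?_) v
        · rcases hy ⟨0, hn⟩ trivial with h1 | ⟨u, -, h1⟩
          · exact Or.inr ⟨_, (h0 ⟨0, hn⟩).symm, by rw [Fin.cons_succ]; simpa using h1⟩
          · exact Or.inr ⟨_, (h0 u).symm, by simpa using h1⟩
        · rcases hy v trivial with h1 | ⟨u, h1, h2⟩
          · exact Or.inl (by simpa using h1)
          · exact Or.inr ⟨u.succ, (h _ _).2 h1, by simpa using h2⟩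
      · refine Fin.cases (Or.inl rfl) (fun v => Or.inr ⟨0, h0 v, rfl⟩) v
    · rw [Ex_kernel μ fun _ b => cond b q (1 - q)]
      refine Fin.cases ?_ (fun v => ?_) v
      · simp only [Fin.cons_zero, k1.Ex_const]
        simp [Ex]
      · have : Ex μ (fun y => Ex (fun b => cond b q (1 - q)) fun b => ind (!b && y v)) =
            (1 - q) * Ex μ (fun y => ind (y v)) := by
          rw [← Ex_const_mul]
          exact Ex_congr fun y => by simp [Ex]
        simp only [Fin.cons_succ]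
        rw [this]
        nlinarith [k3 v]

end abstract

variable {p : ℝ}

/-- Satisfiability reduces to feasibility with free vertices. -/
def HardF (p : ℝ) : Prop :=
  ∃ (n : CNF → ℕ) (P : CNF × ℕ × ℕ → Bool) (N : CNF × ℕ → Bool), PT n ∧ PT P ∧ PT N ∧
    ∀ φ, 0 < n φ ∧ ∃ G : SimpleGraph (Fin (n φ)), (∀ a b, G.Adj a b ↔ P (φ, a, b) = true) ∧
      (Sat φ ↔ FeasF G (fun a => N (φ, a) = true) p)

/-- Satisfiability reduces to feasibility. -/
def Hard (p : ℝ) : Prop :=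
  ∃ (n : CNF → ℕ) (P : CNF × ℕ × ℕ → Bool), PT n ∧ PT P ∧
    ∀ φ, 0 < n φ ∧ ∃ G : SimpleGraph (Fin (n φ)), (∀ a b, G.Adj a b ↔ P (φ, a, b) = true) ∧
      (Sat φ ↔ FeasF G (fun _ => True) p)

theorem HardF.hard (hp : 0 < p) (h : HardF p) : Hard p := by
  obtain ⟨n, P, N, hn, hP, hN, h⟩ := h
  obtain ⟨M, hM⟩ := exists_nat_gt (1 / p)
  have hM0 : (0 : ℝ) < M := lt_trans (by positivity) hM
  have hMp : 1 / (M : ℝ) ≤ p := by
    rw [div_lt_iff₀ hp] at hM
    rw [div_le_iff₀ hM0]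
    linarith
  refine ⟨fun φ => n φ * (M + 1), fun z => decide ((z.2.1 % (M + 1) = 0 ∧ z.2.2 % (M + 1) = 0 ∧
      P (z.1, z.2.1 / (M + 1), z.2.2 / (M + 1)) = true) ∨ (z.2.1 / (M + 1) = z.2.2 / (M + 1) ∧
      z.2.1 % (M + 1) ≠ z.2.2 % (M + 1) ∧ ((z.2.1 % (M + 1) ≠ 0 ∧ z.2.2 % (M + 1) ≠ 0) ∨
      ¬ N (z.1, z.2.1 / (M + 1)) = true))), by fun_prop, by fun_prop, fun φ => ?_⟩
  obtain ⟨h0, G, h1, h2⟩ := h φ
  let H' : SimpleGraph (Fin (n φ) × Fin (M + 1)) :=
    { Adj := fun x y => (x.2 = 0 ∧ y.2 = 0 ∧ G.Adj x.1 y.1) ∨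
        (x.1 = y.1 ∧ x.2 ≠ y.2 ∧ ((x.2 ≠ 0 ∧ y.2 ≠ 0) ∨ ¬ N (φ, x.1) = true))
      symm := ⟨by
        rintro x y (⟨a, b, c⟩ | ⟨a, b, c⟩)
        · exact Or.inl ⟨b, a, c.symm⟩
        · exact Or.inr ⟨a.symm, b.symm, c.imp And.symm fun c => a ▸ c⟩⟩
      loopless := ⟨by
        rintro x (⟨-, -, c⟩ | ⟨-, b, -⟩)
        · exact c.ne rfl
        · exact b rfl⟩ }
  refine ⟨by positivity, H'.comap finProdFinEquiv.symm, fun a b => ?_, h2.trans ?_⟩
  · simp only [H', SimpleGraph.comap_adj, h1, decide_eq_true_eq, Fin.ext_iff, ne_eq]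
    rfl
  · rw [← feasF_clique (by exact_mod_cast hM0) hMp (H' := H') fun _ _ => Iff.rfl]
    exact feasF_congr finProdFinEquiv (fun _ => Iff.rfl) fun u v => by simp

theorem Hard.shift (hp : 0 < p) (h : Hard p) : Hard (p / (1 + p)) := by
  obtain ⟨n, P, hn, hP, h⟩ := h
  refine ⟨fun φ => n φ + 1, fun z => decide (z.2.1 ≠ z.2.2 ∧
    ((z.2.1 = 0 ∨ P (z.1, z.2.1 - 1, z.2.2 - 1) = true) ∨
      (z.2.2 = 0 ∨ P (z.1, z.2.2 - 1, z.2.1 - 1) = true))), by fun_prop, by fun_prop, fun φ => ?_⟩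
  obtain ⟨h0, G, h1, h2⟩ := h φ
  refine ⟨Nat.succ_pos _, SimpleGraph.fromRel fun a b => a.val = 0 ∨ P (φ, a - 1, b - 1) = true,
    fun a b => by simp only [SimpleGraph.fromRel_adj, decide_eq_true_eq, Fin.ext_iff, ne_eq],
    h2.trans (feasF_cone h0 hp (fun v => ?_) fun u v => ?_).symm⟩
  · simp [SimpleGraph.fromRel_adj]
  · simp only [SimpleGraph.fromRel_adj, Fin.val_succ, Nat.add_sub_cancel, ← h1, ne_eq,
      Fin.succ_inj, Nat.add_eq_zero_iff, one_ne_zero, and_false, false_or]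
    exact ⟨fun h => h.2.elim id fun h => h.symm, fun h => ⟨h.ne, Or.inl h⟩⟩

theorem adjBits_eq {n : ℕ} (G : SimpleGraph (Fin n)) (f : ℕ → ℕ → Bool)
    (h : ∀ a b, G.Adj a b ↔ f a.val b.val = true) : adjBits G = Low.mat n n f :=
  Low.bits_mat G f h

theorem adjBits_inj {n m : ℕ} {G : SimpleGraph (Fin n)} {G' : SimpleGraph (Fin m)}
    (h : adjBits G = adjBits G') : fdom G = fdom G' := by
  classical
  have key : ∀ {n : ℕ} (G : SimpleGraph (Fin n)), adjBits G = Low.mat n n fun a b =>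
      decide (∃ (ha : a < n) (hb : b < n), G.Adj ⟨a, ha⟩ ⟨b, hb⟩) :=
    fun G => adjBits_eq G _ fun a b => by simp
  rw [key, key] at h
  have e := congrArg List.length h
  rw [Low.length_mat, Low.length_mat] at e
  obtain rfl : n = m := Nat.mul_self_inj.1 e
  congr 1
  ext a b
  have := congrArg (fun l => l.getD (a.val * n + b.val) false) h
  simp only [Low.getD_mat _ _ _ a.2 b.2] at this
  simpa using this

theorem Hard.npHard {t : ℝ} (ht : 0 < t) (h : Hard (1 / t)) {L : List Bool → Bool}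
    (hL : L ∈ N68a2faeb.NP) : N793a5b8e.ManyOneReducible L (FD t) := by
  obtain ⟨n, P, hn, hP, h⟩ := h
  obtain ⟨f, hf, k⟩ := cookLevin hL
  refine ⟨fun x => Low.mat (n (f x)) (n (f x)) fun a b => P (f x, a, b), ?_, fun x => ?_⟩
  · refine PT.isPolyTime_bits ?_
    unfold Low.mat
    fun_prop
  · obtain ⟨-, G, h1, h2⟩ := h (f x)
    beta_reduce
    rw [← adjBits_eq G (fun a b => P (f x, a, b)) h1, Bool.eq_iff_iff, k, h2, ← feas_iff_feasF, ← le_fdom_iff ht]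
    simp only [FD, decide_eq_true_eq]
    exact ⟨fun h => ⟨_, G, rfl, h⟩, fun ⟨_, G', e, h⟩ => adjBits_inj e ▸ h⟩

theorem hardF_of_family (hp : p ≤ 1) {k : ℕ} (Γ : Gad (Fin k)) (m T : CNF → ℕ)
    (π : CNF × ℕ × ℕ → ℕ) (hm : PT m) (hT : PT T) (hπ : PT π) (hT0 : ∀ φ, 0 < T φ)
    (hlt : ∀ φ j s, π (φ, j, s) < T φ)
    (h : ∀ φ, Sat φ ↔ ∃ μ : (Fin (T φ) → Bool) → ℝ, Bal p μ ∧
      ∀ j < m φ, Γ.Ext p (law μ fun x s => x ⟨π (φ, j, s), hlt _ _ _⟩)) : HardF p := by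
  classical
  let w := Fintype.card Γ.W
  let e : Γ.W ≃ Fin w := Fintype.equivFin _
  let LA : List (ℕ × ℕ) := ((univ.filter fun z : Γ.W × Γ.W => Γ.H.Adj z.1 z.2).image
    fun z => ((e z.1).val, (e z.2).val)).toList
  let LB : List (ℕ × ℕ) := ((univ.filter fun z : Γ.W × Fin k => Γ.att z.1 z.2).image
    fun z => ((e z.1).val, z.2.val)).toList
  let LN : List ℕ := ((univ.filter Γ.need).image fun z => (e z).val).toList
  have hA : ∀ u v, ((e u).val, (e v).val) ∈ LA ↔ Γ.H.Adj u v := by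
    intro u v
    simp [LA, ← Fin.ext_iff]
  have hB : ∀ u (s : Fin k), ((e u).val, s.val) ∈ LB ↔ Γ.att u s := by
    intro u v
    simp [LB, ← Fin.ext_iff]
  have hN : ∀ u, (e u).val ∈ LN ↔ Γ.need u := by
    intro u
    simp [LN, ← Fin.ext_iff]
  refine ⟨fun φ => m φ * w + T φ, fun z => decide (
    (z.2.1 < m z.1 * w ∧ z.2.2 < m z.1 * w ∧ z.2.1 / w = z.2.2 / w ∧ (z.2.1 % w, z.2.2 % w) ∈ LA) ∨
    (z.2.1 < m z.1 * w ∧ ∃ s < k, z.2.2 = m z.1 * w + π (z.1, z.2.1 / w, s) ∧ (z.2.1 % w, s) ∈ LB) ∨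
    (z.2.2 < m z.1 * w ∧ ∃ s < k, z.2.1 = m z.1 * w + π (z.1, z.2.2 / w, s) ∧ (z.2.2 % w, s) ∈ LB)),
    fun z => decide (z.2 < m z.1 * w ∧ z.2 % w ∈ LN), by fun_prop, by fun_prop, by fun_prop,
    fun φ => ?_⟩
  let π' : Fin (m φ) → Fin k → Empty ⊕ Fin (T φ) := fun j s => .inr ⟨π (φ, j, s), hlt _ _ _⟩
  let Δ : Gad (Empty ⊕ Fin (T φ)) := Gad.glue fun j => Γ.push (π' j)
  let E : Δ.hide.W ≃ Fin (m φ * w + T φ) :=
    (Equiv.sumCongr ((Equiv.sigmaEquivProd _ _).trans ((Equiv.prodCongr (Equiv.refl _) e).trans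
      finProdFinEquiv)) (Equiv.refl _)).trans finSumFinEquiv
  have E1 : ∀ j u, (E (.inl ⟨j, u⟩)).val = e u + w * j := fun j u => rfl
  have E2 : ∀ t, (E (.inr t)).val = m φ * w + t := fun t => rfl
  have E3 : ∀ j u, (E (.inl ⟨j, u⟩)).val < m φ * w ∧ (E (.inl ⟨j, u⟩)).val / w = j ∧
      (E (.inl ⟨j, u⟩)).val % w = e u := by
    intro j u
    have h1 := (e u).2
    refine ⟨(finProdFinEquiv (j, e u)).2, ?_, ?_⟩
    · rw [E1, Nat.add_mul_div_left _ _ (by omega), Nat.div_eq_of_lt h1, zero_add]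
    · rw [E1, Nat.add_mul_mod_self_left, Nat.mod_eq_of_lt h1]
  have hatt : ∀ j u t, Δ.att ⟨j, u⟩ (.inr t) ↔
      ∃ s < k, m φ * w + t = m φ * w + π (φ, j, s) ∧ ((e u).val, s) ∈ LB := by
    intro j u t
    constructor
    · rintro ⟨s, h1, h2⟩
      exact ⟨s, s.2, by rw [← Sum.inr.inj h1], (hB _ _).2 h2⟩
    · rintro ⟨s, hs, h1, h2⟩
      exact ⟨⟨s, hs⟩, congrArg Sum.inr (Fin.ext (by simp only; omega)), (hB _ ⟨s, hs⟩).1 h2⟩
  refine ⟨Nat.add_pos_right _ (hT0 φ), Δ.hide.H.comap E.symm, fun a b => ?_, (h φ).trans ?_⟩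
  · obtain ⟨a, rfl⟩ := E.surjective a
    obtain ⟨b, rfl⟩ := E.surjective b
    simp only [SimpleGraph.comap_adj, Equiv.symm_apply_apply, decide_eq_true_eq]
    rcases a with ⟨j, u⟩ | t <;> rcases b with ⟨j', u'⟩ | t'
    · obtain ⟨a1, a2, a3⟩ := E3 j u
      obtain ⟨b1, b2, b3⟩ := E3 j' u'
      rw [a2, a3, b2, b3, hA]
      constructor
      · rintro ⟨i, v, v', h1, h2, h3⟩
        obtain ⟨rfl, h4⟩ := Sigma.mk.inj h1
        obtain ⟨rfl, h5⟩ := Sigma.mk.inj h2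
        obtain rfl := eq_of_heq h4
        obtain rfl := eq_of_heq h5
        exact Or.inl ⟨a1, b1, rfl, h3⟩
      · rintro (⟨-, -, h1, h2⟩ | ⟨-, s, -, h1, -⟩ | ⟨-, s, -, h1, -⟩)
        · obtain rfl := Fin.ext h1
          exact ⟨j, u, u', rfl, rfl, h2⟩
        · omega
        · omega
    · obtain ⟨a1, a2, a3⟩ := E3 j u
      rw [a2, a3, E2]
      refine (hatt j u t').trans ⟨fun h => Or.inr (Or.inl ⟨a1, h⟩), ?_⟩
      rintro (⟨-, h1, -⟩ | ⟨-, h1⟩ | ⟨h1, -⟩)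
      · omega
      · exact h1
      · omega
    · obtain ⟨a1, a2, a3⟩ := E3 j' u'
      rw [a2, a3, E2]
      refine (hatt j' u' t).trans ⟨fun h => Or.inr (Or.inr ⟨a1, h⟩), ?_⟩
      rintro (⟨h1, -⟩ | ⟨h1, -⟩ | ⟨-, h1⟩)
      · omega
      · omega
      · exact h1
    · rw [E2, E2]
      refine ⟨fun h => h.elim, ?_⟩
      rintro (⟨h1, -⟩ | ⟨h1, -⟩ | ⟨h1, -⟩) <;> omega
  · rw [← feasF_congr (H := Δ.hide.H) (need := Δ.hide.need) E ?_ (fun u v => by simp), ← ext_empty,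
      Gad.ext_hide_bal _ hp bal_empty]
    · constructor
      · rintro ⟨μ, h1, h2⟩
        have hb : Bal p (law μ fun x (s : Empty ⊕ Fin (T φ)) => x (Sum.elim Empty.elim id s)) :=
          h1.pull _
        refine ⟨_, hb, eq_one_of_isProb (hb.1.law _), (Gad.ext_glue _ hb.1.1).2 fun j =>
          (Gad.ext_push _ _ hb.1.1).2 ?_⟩
        rw [law_law]
        exact h2 j j.2
      · rintro ⟨μ, h1, -, h2⟩
        refine ⟨_, h1.pull Sum.inr, fun j hj => ?_⟩
        rw [law_law]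
        exact (Gad.ext_push _ _ h1.1.1).1 ((Gad.ext_glue _ h1.1.1).1 h2 ⟨j, hj⟩)
    · rintro (⟨j, u⟩ | t)
      · obtain ⟨a1, -, a3⟩ := E3 j u
        simp only [decide_eq_true_eq, a1, a3, hN, true_and]
        rfl
      · simp only [decide_eq_true_eq, E2]
        exact ⟨fun h => h.elim, fun h => by omega⟩

end Pool.Agent.MP_9e68e9_lc
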