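import Pool.Agent.MP_9e68e9_lc.Prob

/-! Gadgets: graphs with terminals, and the laws on the terminals that extend to them. -/

namespace Pool.Agent.MP_9e68e9_lc

open Finset

/-- A gadget: an inner graph, attachments to terminals, and the inner vertices that have to be
dominated. -/
structure Gad (τ : Type) : Type 1 where
  W : Type
  [fin : Fintype W]
  [dec : DecidableEq W]
  H : SimpleGraph W
  att : W → τ → Prop
  need : W → Prop

instance {τ : Type} (Γ : Gad τ) : Fintype Γ.W := Γ.fin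
instance {τ : Type} (Γ : Gad τ) : DecidableEq Γ.W := Γ.dec

variable {τ T U : Type} [Fintype τ] [DecidableEq τ] [Fintype T] [DecidableEq T]
  [Fintype U] [DecidableEq U]

namespace Gad

/-- All inner vertices that need it are dominated. -/
def Dom (Γ : Gad τ) (x : τ → Bool) (y : Γ.W → Bool) : Prop :=
  ∀ w, Γ.need w → y w = true ∨ (∃ u, Γ.H.Adj w u ∧ y u = true) ∨ ∃ s, Γ.att w s ∧ x s = true

/-- The law `μ` on the terminals extends to the gadget with budget `p`. -/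
def Ext (Γ : Gad τ) (p : ℝ) (μ : (τ → Bool) → ℝ) : Prop :=
  ∃ κ : (τ → Bool) → (Γ.W → Bool) → ℝ, (∀ x, IsProb (κ x)) ∧
    (∀ x y, μ x ≠ 0 → κ x y ≠ 0 → Γ.Dom x y) ∧
    ∀ w, Ex μ (fun x => Ex (κ x) (fun y => ind (y w))) ≤ p

theorem ext_of_model (Γ : Gad τ) {p : ℝ} {Ω : Type} [Fintype Ω] {P : Ω → ℝ} (hP : ∀ ω, 0 ≤ P ω)
    (X : Ω → τ → Bool) (Y : Ω → Γ.W → Bool) (hd : ∀ ω, P ω ≠ 0 → Γ.Dom (X ω) (Y ω))
    (hm : ∀ w, Ex P (fun ω => ind (Y ω w)) ≤ p) : Γ.Ext p (law P X) := by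
  obtain ⟨κ, h1, h2⟩ := exists_kernel (law_nonneg hP fun ω => (X ω, Y ω))
  rw [law_law] at h2
  refine ⟨κ, h1, fun x y hx hy => ?_, fun w => ?_⟩
  · obtain ⟨ω, h3, h4⟩ := exists_of_law_ne_zero (μ := P) (X := fun ω => (X ω, Y ω)) (a := (x, y))
      (by rw [h2]; exact mul_ne_zero hx hy)
    obtain ⟨rfl, rfl⟩ := Prod.ext_iff.1 h4
    exact hd ω h3
  · rw [← Ex_kernel (law P X) κ (fun z => ind (z.2 w))]
    have : (fun z : (τ → Bool) × (Γ.W → Bool) => law P X z.1 * κ z.1 z.2) =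
        law P fun ω => (X ω, Y ω) := funext fun z => (h2 z.1 z.2).symm
    rw [this, Ex_law]
    exact hm w

theorem Ext.model {Γ : Gad τ} {p : ℝ} {μ : (τ → Bool) → ℝ} (hμ : ∀ x, 0 ≤ μ x) (h : Γ.Ext p μ) :
    ∃ ν : (τ → Bool) × (Γ.W → Bool) → ℝ, (∀ z, 0 ≤ ν z) ∧ law ν Prod.fst = μ ∧
      (∀ z, ν z ≠ 0 → Γ.Dom z.1 z.2) ∧ ∀ w, Ex ν (fun z => ind (z.2 w)) ≤ p := by
  obtain ⟨κ, h1, h2, h3⟩ := h
  refine ⟨fun z => μ z.1 * κ z.1 z.2, fun z => mul_nonneg (hμ _) ((h1 _).1 _), ?_,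
    fun z hz => h2 _ _ (left_ne_zero_of_mul hz) (right_ne_zero_of_mul hz), fun w => ?_⟩
  · refine eq_of_Ex fun f => ?_
    rw [Ex_law, Ex_kernel]
    exact Ex_congr fun x => (h1 x).Ex_const (f x)
  · rw [Ex_kernel]
    exact h3 w

theorem Ext.mix {Γ : Gad τ} {p q a b : ℝ} {μ ν : (τ → Bool) → ℝ} (hμ : ∀ x, 0 ≤ μ x)
    (hν : ∀ x, 0 ≤ ν x) (h : Γ.Ext p μ) (h' : Γ.Ext q ν) (ha : 0 ≤ a) (hb : 0 ≤ b) :
    Γ.Ext (a * p + b * q) (fun x => a * μ x + b * ν x) := by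
  obtain ⟨μ', h1, h2, h3, h4⟩ := h.model hμ
  obtain ⟨ν', k1, k2, k3, k4⟩ := h'.model hν
  have := Γ.ext_of_model (p := a * p + b * q) (P := fun z => a * μ' z + b * ν' z)
    (fun z => add_nonneg (mul_nonneg ha (h1 z)) (mul_nonneg hb (k1 z))) Prod.fst Prod.snd
    (fun z hz => by
      by_cases e : μ' z = 0
      · exact k3 z fun e' => hz (by simp [e, e'])
      · exact h3 z e)
    (fun w => by
      rw [Ex_mix]
      exact add_le_add (mul_le_mul_of_nonneg_left (h4 w) ha) (mul_le_mul_of_nonneg_left (k4 w) hb))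
  convert this using 1
  refine eq_of_Ex fun f => ?_
  rw [Ex_law, Ex_mix, Ex_mix, ← h2, ← k2, Ex_law, Ex_law]

theorem Ext.up {Γ : Gad τ} {p : ℝ} {μ : (τ → Bool) → ℝ} (hμ : ∀ x, 0 ≤ μ x) (h : Γ.Ext p μ)
    (F : (τ → Bool) → τ → Bool) (hF : ∀ x s, x s = true → F x s = true) :
    Γ.Ext p (law μ F) := by
  obtain ⟨ν, h1, h2, h3, h4⟩ := h.model hμ
  rw [← h2, law_law]
  refine Γ.ext_of_model h1 _ Prod.snd (fun z hz w hw => ?_) h4
  rcases h3 z hz w hw with h | h | ⟨s, h, h'⟩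
  · exact Or.inl h
  · exact Or.inr (Or.inl h)
  · exact Or.inr (Or.inr ⟨s, h, hF _ _ h'⟩)

theorem isClosed_ext (Γ : Gad τ) (p : ℝ) : IsClosed {μ | IsProb μ ∧ Γ.Ext p μ} := by
  let S : Set ((τ → Bool) × (Γ.W → Bool) → ℝ) :=
    {ν | (∀ x, 0 ≤ ν x) ∧ ∑ x, ν x = 1 ∧ (∀ z, ¬ Γ.Dom z.1 z.2 → ν z = 0) ∧
      ∀ w, ∑ z, ν z * ind (z.2 w) ≤ p}
  have hcl : IsClosed S := by
    simp only [S, Set.ofPred_and, Set.ofPred_forall]
    refine IsClosed.inter (isClosed_iInter fun x => isClosed_le (by fun_prop) (by fun_prop))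
      (IsClosed.inter (isClosed_eq (by fun_prop) (by fun_prop)) (IsClosed.inter
        (isClosed_iInter fun x => isClosed_iInter fun _ => isClosed_eq (by fun_prop) (by fun_prop))
        (isClosed_iInter fun x => isClosed_le (by fun_prop) (by fun_prop))))
  have hco : IsCompact S :=
    (isCompact_stdSimplex ℝ _).of_isClosed_subset hcl fun μ hμ => ⟨hμ.1, hμ.2.1⟩
  have hc : Continuous fun ν : (τ → Bool) × (Γ.W → Bool) → ℝ => law ν Prod.fst := by
    refine continuous_pi fun a => ?_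
    unfold law
    refine continuous_finsetSum _ fun z _ => ?_
    split_ifs
    · fun_prop
    · fun_prop
  convert (hco.image hc).isClosed using 1
  ext μ
  constructor
  · rintro ⟨h, h'⟩
    obtain ⟨ν, h1, h2, h3, h4⟩ := h'.model h.1
    refine ⟨ν, ⟨h1, ?_, fun z hz => by_contra fun e => hz (h3 z e), h4⟩, h2⟩
    have := h.2
    rwa [← h2, ← Ex_one, Ex_law, Ex_one] at this
  · rintro ⟨ν, ⟨h1, h2, h3, h4⟩, rfl⟩
    exact ⟨IsProb.law ⟨h1, h2⟩ _,
      Γ.ext_of_model h1 _ Prod.snd (fun z hz => by_contra fun e => hz (h3 z e)) h4⟩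

/-- Renaming (and identifying) terminals. -/
def push (Γ : Gad τ) (π : τ → T) : Gad T where
  W := Γ.W
  H := Γ.H
  att := fun w t => ∃ s, π s = t ∧ Γ.att w s
  need := Γ.need

omit [Fintype τ] [DecidableEq τ] [Fintype T] [DecidableEq T] in
theorem dom_push (Γ : Gad τ) (π : τ → T) (x : T → Bool) (y : Γ.W → Bool) :
    (Γ.push π).Dom x y ↔ Γ.Dom (fun s => x (π s)) y := by
  refine forall_congr' fun w => imp_congr Iff.rfl (or_congr Iff.rfl (or_congr Iff.rfl ?_))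
  constructor
  · rintro ⟨t, ⟨s, rfl, h⟩, h'⟩
    exact ⟨s, h, h'⟩
  · rintro ⟨s, h, h'⟩
    exact ⟨_, ⟨s, rfl, h⟩, h'⟩

theorem ext_push (Γ : Gad τ) (π : τ → T) {p : ℝ} {μ : (T → Bool) → ℝ} (hμ : ∀ x, 0 ≤ μ x) :
    (Γ.push π).Ext p μ ↔ Γ.Ext p (law μ fun x s => x (π s)) := by
  constructor
  · intro h
    obtain ⟨ν, h1, h2, h3, h4⟩ := h.model hμ
    rw [← h2, law_law]
    exact Γ.ext_of_model h1 _ Prod.snd (fun z hz => (dom_push _ _ _ _).1 (h3 z hz)) h4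
  · rintro ⟨κ, h1, h2, h3⟩
    refine ⟨fun x => κ fun s => x (π s), fun x => h1 _, fun x y hx hy =>
      (dom_push _ _ _ _).2 (h2 _ _ (law_ne_zero hμ (fun x s => x (π s)) hx) hy), fun w => ?_⟩
    have := h3 w
    rwa [Ex_law] at this

/-- Disjoint union of gadgets on the same terminals. -/
def glue {J : Type} [Fintype J] [DecidableEq J] (Γ : J → Gad T) : Gad T where
  W := Σ j, (Γ j).W
  H := { Adj := fun a b => ∃ (j : J) (u v : (Γ j).W), a = ⟨j, u⟩ ∧ b = ⟨j, v⟩ ∧ (Γ j).H.Adj u v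
         symm := ⟨fun _ _ ⟨j, u, v, h1, h2, h3⟩ => ⟨j, v, u, h2, h1, h3.symm⟩⟩
         loopless := ⟨fun _ ⟨j, u, v, h1, h2, h3⟩ => by
           rw [h1] at h2
           obtain rfl := eq_of_heq (Sigma.mk.inj h2).2
           exact h3.ne rfl⟩ }
  att := fun a t => (Γ a.1).att a.2 t
  need := fun a => (Γ a.1).need a.2

omit [Fintype T] [DecidableEq T] in
theorem dom_glue {J : Type} [Fintype J] [DecidableEq J] (Γ : J → Gad T) (x : T → Bool)
    (y : (glue Γ).W → Bool) : (glue Γ).Dom x y ↔ ∀ j, (Γ j).Dom x fun w => y ⟨j, w⟩ := by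
  have key : ∀ j (w : (Γ j).W), (∃ u, (glue Γ).H.Adj ⟨j, w⟩ u ∧ y u = true) ↔
      ∃ u, (Γ j).H.Adj w u ∧ y ⟨j, u⟩ = true := by
    intro j w
    constructor
    · rintro ⟨_, ⟨i, u, v, h1, rfl, h3⟩, h4⟩
      obtain ⟨rfl, h5⟩ := Sigma.mk.inj h1
      obtain rfl := eq_of_heq h5
      exact ⟨v, h3, h4⟩
    · rintro ⟨u, h1, h2⟩
      exact ⟨_, ⟨j, w, u, rfl, rfl, h1⟩, h2⟩
  constructor
  · intro h j w hw
    have := h ⟨j, w⟩ hw
    rwa [key] at this
  · rintro h ⟨j, w⟩ hw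
    rw [key]
    exact h j w hw

theorem ext_glue {J : Type} [Fintype J] [DecidableEq J] (Γ : J → Gad T) {p : ℝ}
    {μ : (T → Bool) → ℝ} (hμ : ∀ x, 0 ≤ μ x) : (glue Γ).Ext p μ ↔ ∀ j, (Γ j).Ext p μ := by
  constructor
  · intro h j
    obtain ⟨ν, h1, h2, h3, h4⟩ := h.model hμ
    rw [← h2]
    exact (Γ j).ext_of_model h1 _ (fun z w => z.2 ⟨j, w⟩)
      (fun z hz => (dom_glue _ _ _).1 (h3 z hz) j) fun w => h4 ⟨j, w⟩
  · intro h
    choose κ h1 h2 h3 using h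
    have := (glue Γ).ext_of_model (p := p)
      (P := fun z : (T → Bool) × (∀ j, (Γ j).W → Bool) => μ z.1 * ∏ j, κ j z.1 (z.2 j))
      (fun z => mul_nonneg (hμ _) ((isProb_pi fun j => h1 j z.1).1 _)) Prod.fst
      (fun z a => z.2 a.1 a.2)
      (fun z hz => (dom_glue _ _ _).2 fun j => h2 j _ _ (left_ne_zero_of_mul hz)
        (Finset.prod_ne_zero_iff.1 (right_ne_zero_of_mul hz) j (mem_univ _)))
      (fun a => by
        rw [Ex_kernel μ (fun x (y : ∀ j, (Γ j).W → Bool) => ∏ j, κ j x (y j))]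
        refine le_of_eq_of_le (Ex_congr fun x => ?_) (h3 a.1 a.2)
        exact Ex_pi (fun j => h1 j x) a.1 fun y => ind (y a.2))
    convert this using 1
    refine eq_of_Ex fun f => ?_
    rw [Ex_law, Ex_kernel μ (fun x (y : ∀ j, (Γ j).W → Bool) => ∏ j, κ j x (y j))]
    exact Ex_congr fun x => ((isProb_pi fun j => h1 j x).Ex_const (f x)).symm

/-- Adjacency after turning some terminals into free inner vertices. -/
def hideAdj (Γ : Gad (T ⊕ U)) : Γ.W ⊕ U → Γ.W ⊕ U → Prop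
  | .inl a, .inl b => Γ.H.Adj a b
  | .inl a, .inr u => Γ.att a (.inr u)
  | .inr u, .inl a => Γ.att a (.inr u)
  | .inr _, .inr _ => False

/-- Turning some terminals into free inner vertices. -/
def hide (Γ : Gad (T ⊕ U)) : Gad T where
  W := Γ.W ⊕ U
  H := { Adj := Γ.hideAdj
         symm := ⟨by rintro (a | a) (b | b) h <;> first | exact h.symm | exact h⟩
         loopless := ⟨by rintro (a | a) h <;> first | exact h.ne rfl | exact h⟩ }
  att := fun a t => Sum.elim (fun w => Γ.att w (.inl t)) (fun _ => False) a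
  need := Sum.elim Γ.need fun _ => False

omit [Fintype T] [DecidableEq T] in
theorem dom_hide (Γ : Gad (T ⊕ U)) (x : T → Bool) (y : Γ.W ⊕ U → Bool) :
    Γ.hide.Dom x y ↔ Γ.Dom (Sum.elim x fun u => y (.inr u)) fun w => y (.inl w) := by
  constructor
  · intro h w hw
    rcases h (.inl w) hw with h | ⟨u | u, h, h'⟩ | ⟨s, h, h'⟩
    · exact Or.inl h
    · exact Or.inr (Or.inl ⟨u, h, h'⟩)
    · exact Or.inr (Or.inr ⟨.inr u, h, h'⟩)
    · exact Or.inr (Or.inr ⟨.inl s, h, h'⟩)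
  · rintro h (w | w) hw
    · rcases h w hw with h | ⟨u, h, h'⟩ | ⟨s | s, h, h'⟩
      · exact Or.inl h
      · exact Or.inr (Or.inl ⟨.inl u, h, h'⟩)
      · exact Or.inr (Or.inr ⟨s, h, h'⟩)
      · exact Or.inr (Or.inl ⟨.inr s, h, h'⟩)
    · exact hw.elim

theorem ext_hide (Γ : Gad (T ⊕ U)) {p : ℝ} {μ : (T → Bool) → ℝ} (hμ : ∀ x, 0 ≤ μ x) :
    Γ.hide.Ext p μ ↔ ∃ μ' : (T ⊕ U → Bool) → ℝ, (∀ x, 0 ≤ μ' x) ∧
      law μ' (fun x t => x (.inl t)) = μ ∧ (∀ u, Ex μ' (fun x => ind (x (.inr u))) ≤ p) ∧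
      Γ.Ext p μ' := by
  constructor
  · intro h
    obtain ⟨ν, h1, h2, h3, h4⟩ := h.model hμ
    refine ⟨law ν fun z => Sum.elim z.1 fun u => z.2 (.inr u), law_nonneg h1 _, ?_, fun u => ?_,
      Γ.ext_of_model h1 _ (fun z w => z.2 (.inl w)) (fun z hz => (dom_hide _ _ _).1 (h3 z hz))
        fun w => h4 (.inl w)⟩
    · rw [law_law, ← h2]
      rfl
    · rw [Ex_law]
      exact h4 (.inr u)
  · rintro ⟨μ', hμ', rfl, k, h⟩
    obtain ⟨ν, h1, h2, h3, h4⟩ := h.model hμ'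
    rw [← h2, law_law]
    refine Γ.hide.ext_of_model h1 _ (fun z => Sum.elim z.2 fun u => z.1 (.inr u))
      (fun z hz => (dom_hide _ _ _).2 ?_) ?_
    · convert h3 z hz using 1
      · funext s
        cases s <;> rfl
      · rfl
    · rintro (w | u)
      · exact h4 w
      · have := k u
        rwa [← h2, Ex_law] at this

end Gad

end Pool.Agent.MP_9e68e9_lc
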