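import Pool.Agent.MP_9e68e9_lc.LowAlg
import Pool.Agent.MP_9e68e9_lc.Feas
import Pool.Agent.MP_2e8011_lc.Bridge

/-! Below `5/2` the threshold problem for the fractional domatic number is polynomial. -/

namespace Pool.Agent.MP_9e68e9_lc

open Pool.Agent.MP_2e8011_lc

theorem low (t : ℝ) (ht : t < 5 / 2) : FD t ∈ N68a2faeb.P := by
  have h0 : 0 < max t 1 := lt_max_of_lt_right one_pos
  have h1 : 2 / 5 < 1 / max t 1 := by
    rw [lt_div_iff₀ h0]
    rcases le_total t 1 with h | h
    · rw [max_eq_right h]; norm_num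
    · rw [max_eq_left h]; linarith
  refine PT.mem_P ((Low.pt_good h1).congr fun x => ?_)
  unfold FD
  refine decide_eq_decide.2 (exists₂_congr fun n G => and_congr Iff.rfl ?_)
  refine ((Low.good_iff_weights G _).trans (le_fdom_iff h0).symm).trans ⟨fun h => ?_, fun h => ?_⟩
  · exact le_trans (EReal.coe_le_coe_iff.2 (le_max_left _ _)) h
  · rcases le_total t 1 with e | e
    · rw [max_eq_right e]; exact one_le_fdom
    · rwa [max_eq_left e]

end Pool.Agent.MP_9e68e9_lc
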