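import Pool.Agent.MP_9e68e9_lc.LowPS

/-! Random dominating sets: local extension lemmas. -/

namespace Pool.Agent.MP_9e68e9_lc.Low

open Finset

variable {V : Type} {G G' : SimpleGraph V} {F F' : Set V} {p : ℝ}

/-- `D` dominates every vertex outside `F`. -/
def Dom (G : SimpleGraph V) (F : Set V) (D : V → Prop) : Prop :=
  ∀ v, v ∉ F → D v ∨ ∃ t, G.Adj v t ∧ D t

/-- There is a random set with marginals at most `p` dominating every vertex outside `F`. -/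
def Good (p : ℝ) (G : SimpleGraph V) (F : Set V) : Prop :=
  ∃ (S : PS) (D : S.ι → V → Prop), (∀ i, Dom G F (D i)) ∧ ∀ v, S.P (fun i => D i v) ≤ p

/-- Changing the membership of one vertex. -/
def upd (D : V → Prop) (x : V) (X : Prop) : V → Prop := fun t => (t = x ∧ X) ∨ (t ≠ x ∧ D t)

theorem upd_le {S : PS} {D : S.ι → V → Prop} {X : S.ι → Prop} (x : V)
    (h : ∀ v, S.P (fun i => D i v) ≤ p) (hX : S.P X ≤ p) (v : V) :
    S.P (fun i => upd (D i) x (X i) v) ≤ p := by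
  by_cases e : v = x
  · exact (S.mono fun i => by simp [upd, e]).trans hX
  · exact (S.mono fun i => by simp [upd, e]).trans (h v)

theorem Good.mono (h : Good p G' F') (hG : G' ≤ G) (hF : F' ⊆ F) : Good p G F := by
  obtain ⟨S, D, h1, h2⟩ := h
  refine ⟨S, D, fun i v hv => ?_, h2⟩
  rcases h1 i v (fun e => hv (hF e)) with h | ⟨t, h, h'⟩
  exacts [Or.inl h, Or.inr ⟨t, hG h, h'⟩]

theorem Good.exact [Finite V] (h : Good p G F) (hp : p ≤ 1) :
    ∃ (S : PS) (D : S.ι → V → Prop), (∀ i, Dom G F (D i)) ∧ ∀ v, S.P (fun i => D i v) = p := by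
  classical
  have key : ∀ T : Finset V, ∃ (S : PS) (D : S.ι → V → Prop), (∀ i, Dom G F (D i)) ∧
      (∀ v, S.P (fun i => D i v) ≤ p) ∧ ∀ v ∈ T, S.P (fun i => D i v) = p := by
    intro T
    induction T using Finset.induction_on with
    | empty => obtain ⟨S, D, h1, h2⟩ := h; exact ⟨S, D, h1, h2, by simp⟩
    | insert x T _ ih =>
      obtain ⟨S, D, h1, h2, h3⟩ := ih
      obtain ⟨U, π, Z, k1, k2, -, k4⟩ := S.split (fun i => D i x) (fun _ => True)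
        (fun _ _ => trivial) p (h2 x) (by rwa [S.P_all fun _ => trivial])
      refine ⟨U, fun i => upd (D (π i)) x (Z i), fun i v hv => ?_,
        upd_le x (fun v => (k1 fun i => D i v).trans_le (h2 v)) k4.le, fun v hv => ?_⟩
      · have := h1 (π i) v hv
        have := k2 i
        unfold upd
        grind
      · by_cases e : v = x
        · exact (U.congr fun i => by simp [upd, e]).trans k4
        · exact (U.congr fun i => by simp [upd, e]).trans ((k1 fun i => D i v).trans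
            (h3 v (by simpa [e] using hv)))
  haveI := Fintype.ofFinite V
  obtain ⟨S, D, h1, -, h3⟩ := key univ
  exact ⟨S, D, h1, fun v => h3 v (mem_univ v)⟩

theorem ear3 (S : PS) (A B : S.ι → Prop) (hA : S.P A = 2 / 5) (hB : S.P B = 2 / 5) :
    ∃ (T : PS) (π : T.ι → S.ι) (X Y Z : T.ι → Prop), PS.Pres T S π ∧ T.P X ≤ 2 / 5 ∧
      T.P Y ≤ 2 / 5 ∧ T.P Z ≤ 2 / 5 ∧ ∀ i, (B (π i) → ¬ A (π i) → X i) ∧
        (A (π i) → ¬ B (π i) → Z i) ∧ (¬ A (π i) → ¬ B (π i) → Y i ∨ (X i ∧ Z i)) ∧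
        (X i ∨ Y i ∨ Z i) := by
  have e1 := S.add_eq (X := A) (Y := fun i => A i ∧ B i) (Z := fun i => A i ∧ ¬ B i)
    (fun i => by tauto) (fun i => by tauto)
  have e2 := S.add_eq (X := B) (Y := fun i => A i ∧ B i) (Z := fun i => ¬ A i ∧ B i)
    (fun i => by tauto) (fun i => by tauto)
  have e3 := S.add_eq (X := fun i => ¬ A i) (Y := fun i => ¬ A i ∧ B i)
    (Z := fun i => ¬ A i ∧ ¬ B i) (fun i => by tauto) (fun i => by tauto)
  rw [S.P_not] at e3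
  have e4 := S.P_nonneg fun i => A i ∧ ¬ B i
  rcases le_total (S.P fun i => A i ∧ B i) (1 / 5) with h | h
  · exact ⟨S, id, B, fun i => ¬ A i ∧ ¬ B i, A, fun _ => rfl, hB.le, by linarith, hA.le,
      fun i => by simp only [id]; tauto⟩
  · obtain ⟨T, π, Y, k1, k2, k3⟩ := S.sub (fun i => ¬ A i ∧ ¬ B i) (2 / 5) (by norm_num)
      (by linarith)
    have f1 := k1 fun i => A i ∧ B i
    obtain ⟨U, ρ, W, l1, l2, l3⟩ := T.sub (fun i => A (π i) ∧ B (π i)) (1 / 5) (by norm_num)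
      (by linarith)
    have m := k1.comp l1
    have g1 := m fun i => A i ∧ B i
    have g2 := m fun i => A i ∧ ¬ B i
    have g3 := m fun i => ¬ A i ∧ B i
    have g4 := m fun i => ¬ A i ∧ ¬ B i
    have g5 := l1 Y
    have g6 := U.add_eq (X := fun i => ¬ A (π (ρ i)) ∧ ¬ B (π (ρ i))) (Y := fun i => Y (ρ i))
      (Z := fun i => ¬ A (π (ρ i)) ∧ ¬ B (π (ρ i)) ∧ ¬ Y (ρ i))
      (fun i => by have := k2 (ρ i); tauto) (fun i => by tauto)
    have g7 := U.add_eq (X := fun i => A (π (ρ i)) ∧ B (π (ρ i))) (Y := W)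
      (Z := fun i => A (π (ρ i)) ∧ B (π (ρ i)) ∧ ¬ W i)
      (fun i => by have := l2 i; tauto) (fun i => by tauto)
    refine ⟨U, fun i => π (ρ i), fun i => ((¬ A (π (ρ i)) ∧ B (π (ρ i))) ∨
      (¬ A (π (ρ i)) ∧ ¬ B (π (ρ i)) ∧ ¬ Y (ρ i))) ∨ W i, fun i => Y (ρ i),
      fun i => ((A (π (ρ i)) ∧ ¬ B (π (ρ i))) ∨ (¬ A (π (ρ i)) ∧ ¬ B (π (ρ i)) ∧ ¬ Y (ρ i))) ∨
      (A (π (ρ i)) ∧ B (π (ρ i)) ∧ ¬ W i), m, ?_, by linarith, ?_, fun i => by tauto⟩
    · refine (U.cover fun i => id).trans ((add_le_add (U.cover fun i => id) le_rfl).trans ?_)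
      linarith
    · refine (U.cover fun i => id).trans ((add_le_add (U.cover fun i => id) le_rfl).trans ?_)
      linarith

variable [Finite V] {u w x y z : V}

theorem ext3 (h : Good (2 / 5) G' F') (a1 : G.Adj u x) (a2 : G.Adj x y) (a3 : G.Adj y z)
    (a4 : G.Adj z w) (xz : x ≠ z) (uy : u ≠ y) (uz : u ≠ z) (wx : w ≠ x) (wy : w ≠ y)
    (hG : ∀ a b, G'.Adj a b → (G.Adj a b ∧ b ≠ x ∧ b ≠ y ∧ b ≠ z) ∨ (a = u ∧ b = w) ∨
      (a = w ∧ b = u)) (hF : ∀ v ∈ F', v ∈ F ∨ v = x ∨ v = y ∨ v = z) : Good (2 / 5) G F := by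
  obtain ⟨S, D, h1, h2⟩ := h.exact (by norm_num)
  obtain ⟨T, π, X, Y, Z, k, k1, k2, k3, k4⟩ := ear3 S _ _ (h2 u) (h2 w)
  refine ⟨T, fun i => upd (upd (upd (D (π i)) x (X i)) y (Y i)) z (Z i), fun i v hv => ?_,
    upd_le z (upd_le y (upd_le x (fun v => (k fun i => D i v).trans_le (h2 v).le) k1) k2) k3⟩
  have c1 := (em (v ∈ F')).imp (hF v) (h1 (π i) v)
  have c2 := k4 i
  clear * - c1 c2 a1 a2 a3 a4 xz uy uz wx wy hG hv
  have := a1.symm
  have := a2.symm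
  have := a3.symm
  have := a4.symm
  have := a1.ne
  have := a2.ne
  have := a3.ne
  have := a4.ne
  unfold upd
  grind (splits := 40)

theorem extTri (h : Good (2 / 5) G' F') (a1 : G.Adj u x) (a2 : G.Adj x y) (a3 : G.Adj y u)
    (hG : ∀ a b, G'.Adj a b → G.Adj a b ∧ b ≠ x ∧ b ≠ y)
    (hF : ∀ v ∈ F', v ∈ F ∨ v = x ∨ v = y ∨ v = u) : Good (2 / 5) G F := by
  obtain ⟨S, D, h1, h2⟩ := h.exact (by norm_num)
  have e := S.P_not fun i => D i u
  obtain ⟨T, π, Z, k, k1, k2⟩ := S.sub (fun i => ¬ D i u) (2 / 5) (by norm_num)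
    (by rw [e, h2]; norm_num)
  have e2 := T.add_eq (X := fun i => ¬ D (π i) u) (Y := Z) (Z := fun i => ¬ D (π i) u ∧ ¬ Z i)
    (fun i => by have := k1 i; tauto) (fun i => by tauto)
  rw [k fun i => ¬ D i u, e, h2] at e2
  refine ⟨T, fun i => upd (upd (D (π i)) x (Z i)) y (¬ D (π i) u ∧ ¬ Z i), fun i v hv => ?_,
    upd_le y (upd_le x (fun v => (k fun i => D i v).trans_le (h2 v).le) k2.le) (by linarith)⟩
  have c1 := (em (v ∈ F')).imp (hF v) (h1 (π i) v)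
  clear * - c1 a1 a2 a3 hG hv
  have := a1.symm
  have := a2.symm
  have := a3.symm
  have := a1.ne
  have := a2.ne
  have := a3.ne
  unfold upd
  grind (splits := 40)

theorem extLoop5 {r : V} (h : Good (2 / 5) G' F') (a0 : G.Adj r u) (a1 : G.Adj u x)
    (a2 : G.Adj x y) (a3 : G.Adj y z) (a4 : G.Adj z r) (rx : r ≠ x) (ry : r ≠ y) (uy : u ≠ y)
    (uz : u ≠ z) (xz : x ≠ z) (hG : ∀ a b, G'.Adj a b → G.Adj a b ∧ b ≠ u ∧ b ≠ x ∧ b ≠ y ∧ b ≠ z)
    (hF : ∀ v ∈ F', v ∈ F ∨ v = u ∨ v = x ∨ v = y ∨ v = z ∨ v = r) : Good (2 / 5) G F := by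
  obtain ⟨S, D, h1, h2⟩ := h.exact (by norm_num)
  have e := S.P_not fun i => D i r
  rw [h2] at e
  obtain ⟨T, π, A, k, k1, k2⟩ := S.sub (fun i => D i r) (1 / 5) (by norm_num)
    (by rw [h2]; norm_num)
  obtain ⟨U, ρ, B, l, l1, l2⟩ := T.sub (fun i => ¬ D (π i) r) (2 / 5) (by norm_num)
    (by rw [k fun i => ¬ D i r, e]; norm_num)
  obtain ⟨W, τ, C, m, m1, m2⟩ := U.sub B (1 / 5) (by norm_num) (by rw [l2]; norm_num)
  have n := (k.comp l).comp m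
  have f1 := n fun i => D i r
  have f2 := n fun i => ¬ D i r
  have f3 := (l.comp m) A
  have f4 := m B
  have g1 := W.add_eq (X := fun i => D (π (ρ (τ i))) r) (Y := fun i => A (ρ (τ i)))
    (Z := fun i => D (π (ρ (τ i))) r ∧ ¬ A (ρ (τ i)))
    (fun i => by have := k1 (ρ (τ i)); tauto) (fun i => by tauto)
  have g2 := W.add_eq (X := fun i => ¬ D (π (ρ (τ i))) r) (Y := fun i => B (τ i))
    (Z := fun i => ¬ D (π (ρ (τ i))) r ∧ ¬ B (τ i))
    (fun i => by have := l1 (τ i); tauto) (fun i => by tauto)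
  have g3 := W.add_eq (X := fun i => B (τ i)) (Y := C) (Z := fun i => B (τ i) ∧ ¬ C i)
    (fun i => by have := m1 i; tauto) (fun i => by tauto)
  have := h2 r
  refine ⟨W, fun i => upd (upd (upd (upd (D (π (ρ (τ i)))) u (B (τ i))) x
    ((¬ D (π (ρ (τ i))) r ∧ ¬ B (τ i)) ∨ A (ρ (τ i)))) y
    ((D (π (ρ (τ i))) r ∧ ¬ A (ρ (τ i))) ∨ C i)) z
    ((B (τ i) ∧ ¬ C i) ∨ (¬ D (π (ρ (τ i))) r ∧ ¬ B (τ i))), fun i v hv => ?_,
    upd_le z (upd_le y (upd_le x (upd_le u (fun v => (n fun i => D i v).trans_le (h2 v).le)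
      (by linarith)) ((W.cover fun i => id).trans (by linarith)))
      ((W.cover fun i => id).trans (by linarith))) ((W.cover fun i => id).trans (by linarith))⟩
  have c1 := (em (v ∈ F')).imp (hF v) (h1 (π (ρ (τ i))) v)
  clear * - c1 a0 a1 a2 a3 a4 rx ry uy uz xz hG hv
  have := a0.symm
  have := a1.symm
  have := a2.symm
  have := a3.symm
  have := a4.symm
  have := a0.ne
  have := a1.ne
  have := a2.ne
  have := a3.ne
  have := a4.ne
  unfold upd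
  grind (splits := 40)

theorem extLolli {t : V} (h : Good (2 / 5) G' F') (a0 : G.Adj w t) (a1 : G.Adj w x)
    (a2 : G.Adj x y) (a3 : G.Adj y z) (a4 : G.Adj z w) (xz : x ≠ z) (wy : w ≠ y) (tx : t ≠ x)
    (ty : t ≠ y) (tz : t ≠ z)
    (hG : ∀ a b, G'.Adj a b → G.Adj a b ∧ b ≠ x ∧ b ≠ y ∧ b ≠ z ∧ (b = w → a = t))
    (hF : ∀ v ∈ F', v ∈ F ∨ v = x ∨ v = y ∨ v = z ∨ v = w) : Good (2 / 5) G F := by
  obtain ⟨S, D, h1, h2⟩ := h.exact (by norm_num)
  have e := S.P_not fun i => D i t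
  rw [h2] at e
  obtain ⟨T, π, B, k, k1, k2, k3⟩ := S.split (fun i => D i w ∧ ¬ D i t) (fun i => ¬ D i t)
    (fun i => And.right) (2 / 5) ((S.mono fun i => And.left).trans (h2 w).le)
    (by rw [e]; norm_num)
  obtain ⟨U, ρ, C, l, l1, l2⟩ := T.sub B (1 / 5) (by norm_num) (by rw [k3]; norm_num)
  have n := k.comp l
  have f2 := n fun i => ¬ D i t
  have f4 := l B
  have g2 := U.add_eq (X := fun i => ¬ D (π (ρ i)) t) (Y := fun i => B (ρ i))
    (Z := fun i => ¬ D (π (ρ i)) t ∧ ¬ B (ρ i))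
    (fun i => by have := k2 (ρ i); tauto) (fun i => by tauto)
  have g3 := U.add_eq (X := fun i => B (ρ i)) (Y := C) (Z := fun i => B (ρ i) ∧ ¬ C i)
    (fun i => by have := l1 i; tauto) (fun i => by tauto)
  refine ⟨U, fun i => upd (upd (upd (upd (D (π (ρ i))) w (B (ρ i))) x
    ((¬ D (π (ρ i)) t ∧ ¬ B (ρ i)) ∨ C i)) y (D (π (ρ i)) t)) z
    ((¬ D (π (ρ i)) t ∧ ¬ B (ρ i)) ∨ (B (ρ i) ∧ ¬ C i)), fun i v hv => ?_,
    upd_le z (upd_le y (upd_le x (upd_le w (fun v => (n fun i => D i v).trans_le (h2 v).le)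
      (by linarith)) ((U.cover fun i => id).trans (by linarith)))
      ((n fun i => D i t).trans_le (h2 t).le)) ((U.cover fun i => id).trans (by linarith))⟩
  have c1 := (em (v ∈ F')).imp (hF v) (h1 (π (ρ i)) v)
  have c2 := k1 (ρ i)
  clear * - c1 c2 a0 a1 a2 a3 a4 xz wy tx ty tz hG hv
  have := a0.symm
  have := a1.symm
  have := a2.symm
  have := a3.symm
  have := a4.symm
  have := a0.ne
  have := a1.ne
  have := a2.ne
  have := a3.ne
  have := a4.ne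
  unfold upd
  grind (splits := 40)

omit [Finite V] in
theorem extLeaf {n n' : V} (h : Good (2 / 5) G' F') (a0 : G.Adj w u) (a1 : G.Adj w n)
    (nu : n ≠ u) (hu : u ∈ F) (hn : n ∉ F') (hn' : ∀ t, G'.Adj n t → t = w ∨ t = n')
    (hG : ∀ a b, G'.Adj a b → G.Adj a b ∧ b ≠ u) (hF : ∀ v ∈ F', v ∈ F ∨ v = w) :
    Good (2 / 5) G F := by
  obtain ⟨S, D, h1, h2⟩ := h
  refine ⟨S, fun i => upd (D i) u (¬ D i w ∧ ¬ D i n), fun i v hv => ?_,
    upd_le u h2 ((S.mono fun i e => ?_).trans (h2 n'))⟩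
  · have := (em (v ∈ F')).imp (hF v) (h1 i v)
    have := a0.ne
    unfold upd
    grind
  · have := h1 i n hn
    grind

omit [Finite V] in
theorem extTwin (h : Good (2 / 5) G' F') (a0 : G.Adj y u) (a1 : G.Adj y w) (hx : x ∉ F')
    (hx' : ∀ t, G'.Adj x t → t = u ∨ t = w)
    (hG : ∀ a b, G'.Adj a b → G.Adj a b ∧ b ≠ y) (hF : ∀ v ∈ F', v ∈ F ∨ v = y) :
    Good (2 / 5) G F := by
  obtain ⟨S, D, h1, h2⟩ := h
  refine ⟨S, fun i => upd (D i) y (D i x), fun i v hv => ?_, upd_le y h2 (h2 x)⟩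
  have := (em (v ∈ F')).imp (hF v) (h1 i v)
  have := h1 i x hx
  have := a0.ne
  have := a1.ne
  unfold upd
  grind (splits := 40)

theorem extGlue {G'' : SimpleGraph V} {F'' R : Set V} (h : Good (2 / 5) G' F')
    (h' : Good (2 / 5) G'' F'') (hG : ∀ a b, G'.Adj a b → G.Adj a b ∧ b ∉ R)
    (hF : ∀ v ∈ F', v ∈ F ∨ v ∈ R) (hu : u ∉ R)
    (hG' : ∀ a b, a ∈ R → G''.Adj a b → G.Adj a b ∧ (b ∈ R ∨ b = u))
    (hF' : ∀ v ∈ F'', v ∉ R) : Good (2 / 5) G F := by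
  obtain ⟨S, D, h1, h2⟩ := h.exact (by norm_num)
  obtain ⟨T, E, k1, k2⟩ := h'.exact (by norm_num)
  obtain ⟨U, π, ρ, l1, l2, l3⟩ := PS.couple S T _ _ (h2 u) (k2 u)
  refine ⟨U, fun i v => ¬ (D (π i) u ↔ E (ρ i) u) ∨ (v ∉ R ∧ D (π i) v) ∨ (v ∈ R ∧ E (ρ i) v),
    fun i v hv => ?_, fun v => (U.cover fun i => id).trans ?_⟩
  · have c1 := (em (v ∈ F')).imp (hF v) (h1 (π i) v)
    have c2 := (em (v ∈ F'')).imp (hF' v) (k1 (ρ i) v)
    clear * - c1 c2 hG hG' hu hv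
    grind
  · rw [l3, zero_add]
    by_cases e : v ∈ R
    · exact (U.mono fun i => by simp [e]).trans ((l2 fun i => E i v).trans_le (k2 v).le)
    · exact (U.mono fun i => by simp [e]).trans ((l1 fun i => D i v).trans_le (h2 v).le)

theorem extC5 {G'' : SimpleGraph V} {F'' : Set V} (h : Good (2 / 5) G' F')
    (h' : Good (2 / 5) G'' F'') (a1 : G.Adj u x) (a2 : G.Adj x y) (a3 : G.Adj y w)
    (a4 : G.Adj w z) (a5 : G.Adj z u) (uy : u ≠ y) (wx : w ≠ x) (xz : x ≠ z) (yz : y ≠ z)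
    (hN : ∀ a b, G.Adj a b → b = x ∨ b = y ∨ b = z → a = x ∨ a = y ∨ a = u ∨ a = w)
    (hG : G' ≤ G) (hF : ∀ v ∈ F', v ∈ F ∨ v = x ∨ v = y)
    (hG' : G'' ≤ G) (hF' : ∀ v ∈ F'', v ∈ F ∨ v = z)
    (hz : z ∉ F') (hz' : ∀ t, G'.Adj z t → t = u ∨ t = w)
    (hx : x ∉ F'') (hx' : ∀ t, G''.Adj x t → t = u ∨ t = y)
    (hy : y ∉ F'') (hy' : ∀ t, G''.Adj y t → t = x ∨ t = w) : Good (2 / 5) G F := by
  obtain ⟨S, D, h1, h2⟩ := h.exact (by norm_num)
  obtain ⟨T, E, k1, k2⟩ := h'.exact (by norm_num)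
  have q1 : S.P (fun i => ¬ D i u ∧ ¬ D i w) ≤ 2 / 5 :=
    (S.mono fun i e => by have := h1 i z hz; grind).trans (h2 z).le
  have q2 : 2 / 5 ≤ T.P (fun i => ¬ E i u ∧ ¬ E i w) := by
    have e1 := T.cover (X := fun i => ¬ (E i u ∧ E i w)) (Y := fun i => E i x)
      (Z := fun i => E i y) fun i e => by
        have := k1 i x hx
        have := k1 i y hy
        grind
    have e2 := T.P_not fun i => E i u ∧ E i w
    have e3 := T.add_eq (X := fun i => E i w) (Y := fun i => E i u ∧ E i w)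
      (Z := fun i => ¬ E i u ∧ E i w) (fun i => by tauto) (fun i => by tauto)
    have e4 := T.cover (X := fun i => ¬ E i u) (Y := fun i => ¬ E i u ∧ E i w)
      (Z := fun i => ¬ E i u ∧ ¬ E i w) fun i => by tauto
    have e5 := T.P_not fun i => E i u
    simp only [k2] at e1 e3 e5
    linarith
  obtain ⟨l, l0, l1, e⟩ := PS.exists_lam q1 q2
  obtain ⟨U, π, ρ, b, hU⟩ := PS.mix S T l l0 l1
  obtain ⟨H, hH⟩ : ∃ H : U.ι → V → Prop,
    ∀ i v, H i v ↔ (¬ b i ∧ D (π i) v) ∨ (b i ∧ E (ρ i) v) := ⟨_, fun _ _ => Iff.rfl⟩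
  have m1 : ∀ v, U.P (fun i => H i v) = 2 / 5 := fun v => by
    rw [U.congr fun i => hH i v, hU (fun i => D i v) fun i => E i v, h2, k2]
    ring
  have m2 : U.P (fun i => ¬ H i u ∧ ¬ H i w) = 2 / 5 := by
    rw [e, ← hU]
    exact U.congr fun i => by simp only [hH]; tauto
  obtain ⟨W, τ, Z, n, n1, n2⟩ := U.sub (fun i => ¬ H i u ∧ ¬ H i w) (1 / 5) (by norm_num)
    (by rw [m2]; norm_num)
  have f1 := n fun i => ¬ H i u ∧ ¬ H i w
  have f2 := n fun i => ¬ H i u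
  have f3 := n fun i => ¬ H i w
  rw [U.P_not, m1] at f2 f3
  have g1 := W.add_eq (X := fun i => ¬ H (τ i) u) (Y := fun i => ¬ H (τ i) u ∧ H (τ i) w)
    (Z := fun i => ¬ H (τ i) u ∧ ¬ H (τ i) w) (fun i => by tauto) (fun i => by tauto)
  have g2 := W.add_eq (X := fun i => ¬ H (τ i) w) (Y := fun i => H (τ i) u ∧ ¬ H (τ i) w)
    (Z := fun i => ¬ H (τ i) u ∧ ¬ H (τ i) w) (fun i => by tauto) (fun i => by tauto)
  have g3 := W.add_eq (X := fun i => ¬ H (τ i) u ∧ ¬ H (τ i) w) (Y := Z)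
    (Z := fun i => ¬ H (τ i) u ∧ ¬ H (τ i) w ∧ ¬ Z i) (fun i => by have := n1 i; tauto)
    (fun i => by tauto)
  refine ⟨W, fun i => upd (upd (upd (H (τ i)) x ((¬ H (τ i) u ∧ H (τ i) w) ∨ Z i)) y
    ((H (τ i) u ∧ ¬ H (τ i) w) ∨ (¬ H (τ i) u ∧ ¬ H (τ i) w ∧ ¬ Z i))) z
    (¬ H (τ i) u ∧ ¬ H (τ i) w), fun i v hv => ?_,
    upd_le z (upd_le y (upd_le x (fun v => (n fun i => H i v).trans_le (m1 v).le)
      ((W.cover fun i => id).trans (by linarith))) ((W.cover fun i => id).trans (by linarith)))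
      (by linarith)⟩
  have key : v ≠ x → v ≠ y → v ≠ z → H (τ i) v ∨ ∃ t, G.Adj v t ∧ H (τ i) t := by
    intro h3 h4 h5
    by_cases hb : b (τ i)
    · rcases k1 (ρ (τ i)) v (by grind) with h | ⟨t, h, h'⟩
      exacts [Or.inl ((hH _ _).2 (Or.inr ⟨hb, h⟩)), Or.inr ⟨t, hG' h, (hH _ _).2 (Or.inr ⟨hb, h'⟩)⟩]
    · rcases h1 (π (τ i)) v (by grind) with h | ⟨t, h, h'⟩
      exacts [Or.inl ((hH _ _).2 (Or.inl ⟨hb, h⟩)), Or.inr ⟨t, hG h, (hH _ _).2 (Or.inl ⟨hb, h'⟩)⟩]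
  clear * - key a1 a2 a3 a4 a5 uy wx xz yz hN hv
  have := a1.symm
  have := a2.symm
  have := a3.symm
  have := a4.symm
  have := a5.symm
  have := a1.ne
  have := a2.ne
  have := a3.ne
  have := a4.ne
  have := a5.ne
  unfold upd
  by_cases hvx : v = x <;> by_cases hvy : v = y <;> by_cases hvz : v = z <;> grind (splits := 40)

theorem extCon (h : Good (2 / 5) G' F') (a1 : G.Adj u x) (a2 : G.Adj x y) (a3 : G.Adj y w)
    (uw : u ≠ w) (uy : u ≠ y) (wx : w ≠ x)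
    (hG : ∀ a b, G'.Adj a b → b ≠ x ∧ b ≠ y ∧ b ≠ w ∧
      (G.Adj a b ∨ (a = u ∧ G.Adj w b) ∨ (b = u ∧ G.Adj a w)))
    (hF : ∀ v ∈ F', v ∈ F ∨ v = x ∨ v = y ∨ v = w ∨ (v = u ∧ w ∈ F))
    (hn : ∀ r, r = u ∨ r = w → r ∉ F → ∃ n n', G.Adj r n ∧ n ≠ x ∧ n ≠ y ∧ n ≠ w ∧ n ∉ F' ∧
      ∀ t, G'.Adj n t → t = u ∨ t = n') : Good (2 / 5) G F := by
  obtain ⟨S, D, h1, h2⟩ := h.exact (by norm_num)
  obtain ⟨N, hN⟩ : ∃ N : V → S.ι → Prop, ∀ r i, N r i ↔ r ∉ F ∧ ¬ D i u ∧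
    ∀ t, G.Adj r t → t ≠ x → t ≠ y → t ≠ w → ¬ D i t := ⟨_, fun _ _ => Iff.rfl⟩
  have q : ∀ r, r = u ∨ r = w → S.P (N r) ≤ 2 / 5 := fun r hr => by
    by_cases e : r ∈ F
    · rw [S.P_none fun i => by simp [hN, e]]
      norm_num
    · obtain ⟨n, n', e1, e2, e3, e4, e5, e6⟩ := hn r hr e
      refine (S.mono fun i e => ?_).trans (h2 n').le
      have := h1 i n e5
      grind
  have hd : ∀ i, N u i → ¬ D i u ∧ ¬ N w i := fun i => by
    have c1 := (em (u ∈ F')).imp (hF u) (h1 i u)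
    have c2 := hN u i
    have c3 := hN w i
    have c4 := a1.ne
    clear * - c1 c2 c3 c4 uw uy hG
    grind
  have e1 := S.P_not fun i => D i u
  have e2 := S.add_eq (X := fun i => ¬ D i u) (Y := N w) (Z := fun i => ¬ D i u ∧ ¬ N w i)
    (fun i => by have := hN w i; tauto) (fun i => by tauto)
  rw [h2] at e1
  have q1 := q u (Or.inl rfl)
  have q2 := q w (Or.inr rfl)
  obtain ⟨T, π, Z, k, k1, k2, k3⟩ := S.split (N u) (fun i => ¬ D i u ∧ ¬ N w i) hd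
    (max (S.P (N u)) (1 / 5)) (le_max_left _ _) (max_le (S.mono hd) (by linarith))
  have e3 := T.add_eq (X := fun i => ¬ D (π i) u) (Y := Z) (Z := fun i => ¬ D (π i) u ∧ ¬ Z i)
    (fun i => by have := k2 i; tauto) (fun i => by tauto)
  rw [k fun i => ¬ D i u] at e3
  have e4 := le_max_right (S.P (N u)) (1 / 5)
  refine ⟨T, fun i => upd (upd (upd (D (π i)) x (Z i)) y (¬ D (π i) u ∧ ¬ Z i)) w (D (π i) u),
    fun i v hv => ?_, upd_le w (upd_le y (upd_le x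
      (fun v => (k fun i => D i v).trans_le (h2 v).le) (k3.trans_le (max_le q1 (by norm_num))))
      (by linarith)) ((k fun i => D i u).trans_le (h2 u).le)⟩
  have c1 := (em (v ∈ F')).imp (hF v) (h1 (π i) v)
  have c2 := k1 i
  have c3 := k2 i
  have c4 := hN u (π i)
  have c5 := hN w (π i)
  clear * - c1 c2 c3 c4 c5 a1 a2 a3 uw uy wx hG hv
  have := a1.symm
  have := a2.symm
  have := a3.symm
  have := a1.ne
  have := a2.ne
  have := a3.ne
  unfold upd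
  grind (splits := 40)

end Pool.Agent.MP_9e68e9_lc.Low
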