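import Pool.Agent.MP_9e68e9_lc.LowMain

/-! The final construction, the induction, and the reduction to small components. -/

namespace Pool.Agent.MP_9e68e9_lc.Low

open Finset

variable {V : Type} {G : SimpleGraph V} {F : Set V} {u w x y : V} {p : ℝ}

theorem twin (hd : Deg G F) (hc : Conn G F) (ih : IH G) (hu : Big G F u) (hw : Big G F w)
    (hx : x ∉ F) (hy : y ∉ F) (xy : x ≠ y) (n1 : Nb G x u w) (n2 : Nb G y u w)
    (h : ¬ G.Adj x y) : Good (2 / 5) G F := by
  obtain ⟨k3, k4⟩ := valid_ear (G' := del G {t | t = y}) (u := u) (w := w) hd hc {t | t = y}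
    (fun v hv => by simp only [Set.mem_setOf_eq] at hv; grind)
    (fun a b e hb => by
      simp only [Set.mem_setOf_eq] at hb ⊢
      unfold Nb at *
      grind) (fun a b e ha hb => ⟨e, ha, hb⟩)
    (fun S hS => by
      have := hS u
      have := hS w
      have := hS x
      simp only [del, Set.mem_setOf_eq] at *
      unfold Nb at *
      grind)
    ((big_two hu y).imp_right fun ⟨a, b, h⟩ => ⟨a, b, by
      simp only [del, Set.mem_setOf_eq]
      unfold Nb at *
      grind⟩)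
    ((big_two hw y).imp_right fun ⟨a, b, h⟩ => ⟨a, b, by
      simp only [del, Set.mem_setOf_eq]
      unfold Nb at *
      grind⟩)
  exact extTwin (ih _ _ k3 k4 (Or.inl ⟨fun a b e => e.1, y, u, n2.1, fun e => e.2.1 rfl⟩))
    n2.1 n2.2.1 (fun e => e.elim hx xy) (fun t e => n1.2.2.2.2.2.2.1 t e.1)
    (fun a b e => ⟨e.1, e.2.2⟩) fun v hv => hv

theorem final [Finite V] (hd : Deg G F) (hB : ∀ a b, G.Adj a b → Big G F a → ¬ Big G F b)
    (hS : ∀ a b, G.Adj a b → ¬ Big G F a → Big G F b)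
    (hT : ∀ x y u w, x ≠ y → u ≠ w → Nb G x u w → Nb G y u w → Big G F x) :
    Good (2 / 5) G F := by
  classical
  haveI := Fintype.ofFinite V
  have ch : ∀ r, ∃ x1 x2 x3 a1 a2 a3 : V, r ∉ F → Big G F r → x1 ≠ x2 ∧ Nb G x1 r a1 ∧
      Nb G x2 r a2 ∧ Nb G x3 r a3 ∧ ¬ Big G F x1 ∧ ¬ Big G F x2 ∧ ¬ Big G F x3 ∧ r ≠ a1 ∧
      r ≠ a2 ∧ r ≠ a3 ∧ a1 ≠ a2 ∧ a1 ≠ a3 ∧ a2 ≠ a3 := fun r => by
    by_cases e : r ∉ F ∧ Big G F r
    · obtain ⟨x1, x2, x3, h1, h2, h3, h4, h5, h6⟩ := e.2.resolve_left e.1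
      have b1 := hB _ _ h4 e.2
      have b2 := hB _ _ h5 e.2
      have b3 := hB _ _ h6 e.2
      obtain ⟨-, a1, k1, n1⟩ := small_nb hd b1 h4.symm
      obtain ⟨-, a2, k2, n2⟩ := small_nb hd b2 h5.symm
      obtain ⟨-, a3, k3, n3⟩ := small_nb hd b3 h6.symm
      refine ⟨x1, x2, x3, a1, a2, a3, fun _ _ => ⟨h1, n1, n2, n3, b1, b2, b3, k1.symm, k2.symm,
        k3.symm, ?_, ?_, ?_⟩⟩ <;> rintro rfl
      exacts [b1 (hT _ _ _ _ h1 k1.symm n1 n2), b1 (hT _ _ _ _ h2 k1.symm n1 n3),
        b2 (hT _ _ _ _ h3 k2.symm n2 n3)]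
    · exact ⟨r, r, r, r, r, r, fun h1 h2 => absurd ⟨h1, h2⟩ e⟩
  choose x1 x2 x3 a1 a2 a3 ch using ch
  let C := PS.coin (1 / 2) (by norm_num) (by norm_num)
  let R : V → V → (V → Bool) → Bool → Prop := fun r t s c => r ∉ F ∧ Big G F r ∧ s r = false ∧
    s (a1 r) = true ∧ s (a2 r) = true ∧ s (a3 r) = true ∧ t = if c then x1 r else x2 r
  have hR : ∀ r t, ((PS.cube V).prod C).P (fun i => R r t i.1 i.2) ≤ 12 / 625 := fun r t => by
    by_cases e : r ∉ F ∧ Big G F r
    · obtain ⟨h1, -, -, -, -, -, -, h2, h3, h4, h5, h6, h7⟩ := ch r e.1 e.2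
      have e1 := PS.cube_pat {r, a1 r, a2 r, a3 r} (fun v => decide (v ≠ r))
      rw [prod_insert (by simp [*]), prod_insert (by simp [*]), prod_insert (by simp [*]),
        prod_singleton] at e1
      simp only [ne_eq, not_true_eq_false, decide_false, h2.symm, h3.symm, h4.symm,
        not_false_eq_true, decide_true, if_true, Bool.false_eq_true, if_false] at e1
      have e2 : C.P (fun c : Bool => c = decide (t = x1 r)) = 1 / 2 := by
        by_cases e : t = x1 r
        · simp only [e, decide_true]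
          exact PS.coin_true _ _ _
        · simp only [e, decide_false]
          exact (PS.coin_false _ _ _).trans (by norm_num)
      have e3 := PS.prod_and (PS.cube V) C (fun s : V → Bool => ∀ v ∈ ({r, a1 r, a2 r, a3 r} :
        Finset V), s v = decide ¬ v = r) (fun c : Bool => c = decide (t = x1 r))
      rw [e1, e2] at e3
      refine (PS.mono _ fun i hi => ?_).trans (e3.trans_le (by norm_num))
      obtain ⟨s, c⟩ := i
      obtain ⟨-, -, k1, k2, k3, k4, k5⟩ := hi
      refine ⟨?_, ?_⟩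
      · simp only [mem_insert, mem_singleton, forall_eq_or_imp, forall_eq]
        simp only at k1 k2 k3 k4
        simp [k1, k2, k3, k4, h2.symm, h3.symm, h4.symm]
      · cases c
        · simp only [Bool.false_eq_true, if_false] at k5
          simp [k5, h1.symm]
        · simp only [if_true] at k5
          simp [k5]
    · rw [PS.P_none _ fun i hi => e ⟨hi.1, hi.2.1⟩]
      norm_num
  refine ⟨(PS.cube V).prod C, fun i t => (Big G F t ∧ i.1 t = true) ∨ (¬ Big G F t ∧
    ((∀ a, G.Adj t a → i.1 a = false) ∨ ∃ r, G.Adj t r ∧ R r t i.1 i.2)), fun i v hv => ?_,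
    fun t => ?_⟩
  · obtain ⟨s, c⟩ := i
    simp only
    by_cases e : Big G F v
    · obtain ⟨-, n1, n2, n3, b1, b2, b3, -⟩ := ch v hv e
      have key : ∀ x a, Nb G x v a → ¬ Big G F x → s v = false → s a = false →
          ∃ t, G.Adj v t ∧ ((Big G F t ∧ s t = true) ∨ (¬ Big G F t ∧
          ((∀ a, G.Adj t a → s a = false) ∨ ∃ r, G.Adj t r ∧ R r t s c))) :=
        fun x a n b h1 h2 => ⟨x, n.2.2.1, Or.inr ⟨b, Or.inl fun t ht => by
          rcases n.2.2.2.2.2.2.1 t ht with rfl | rfl <;> assumption⟩⟩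
      cases h0 : s v
      · right
        cases h1 : s (a1 v)
        · exact key _ _ n1 b1 h0 h1
        cases h2 : s (a2 v)
        · exact key _ _ n2 b2 h0 h2
        cases h3 : s (a3 v)
        · exact key _ _ n3 b3 h0 h3
        cases c
        · exact ⟨x2 v, n2.2.2.1, Or.inr ⟨b2, Or.inr ⟨v, n2.1, hv, e, h0, h1, h2, h3, rfl⟩⟩⟩
        · exact ⟨x1 v, n1.2.2.1, Or.inr ⟨b1, Or.inr ⟨v, n1.1, hv, e, h0, h1, h2, h3, rfl⟩⟩⟩
      · exact Or.inl (Or.inl ⟨e, rfl⟩)
    · by_cases e' : ∀ a, G.Adj v a → s a = false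
      · exact Or.inl (Or.inr ⟨e, Or.inl e'⟩)
      · simp only [not_forall, Bool.not_eq_false] at e'
        obtain ⟨a, h1, h2⟩ := e'
        exact Or.inr ⟨a, h1, Or.inl ⟨hS _ _ h1 e, h2⟩⟩
  · by_cases e : Big G F t
    · have e1 := PS.cube_pat {t} (fun _ => true)
      rw [← PS.prod_fst _ C, prod_singleton] at e1
      exact (PS.mono _ fun i hi => by simpa [e] using hi).trans (e1.trans_le (by norm_num))
    · obtain ⟨u, -, -, h, -⟩ := hd t fun h => e (Or.inl h)
      obtain ⟨-, w, h1, n⟩ := small_nb hd e h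
      have e1 := PS.cube_pat {u, w} (fun _ => false)
      rw [← PS.prod_fst _ C, prod_pair h1.symm] at e1
      have e2 := hR u t
      have e3 := hR w t
      refine (PS.cover ((PS.cube V).prod C) (Y := fun i => ∀ v ∈ ({u, w} : Finset V), i.1 v = false)
        (Z := fun i => R u t i.1 i.2 ∨ R w t i.1 i.2) fun i hi => ?_).trans
        ((add_le_add e1.le (PS.cover _ fun i => id)).trans ?_)
      · rcases hi with hi | ⟨-, hi | ⟨r, h2, h3⟩⟩
        · exact absurd hi.1 e
        · exact Or.inl (by simpa using ⟨hi u n.1, hi w n.2.1⟩)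
        · rcases n.2.2.2.2.2.2.1 r h2 with rfl | rfl
          exacts [Or.inr (Or.inl h3), Or.inr (Or.inr h3)]
      · simp only [Bool.false_eq_true, if_false]
        linarith

theorem step [Finite V] (hd : Deg G F) (hc : Conn G F) (ih : IH G) : Good (2 / 5) G F := by
  by_contra hn
  have hB : ∀ a b, G.Adj a b → Big G F a → ¬ Big G F b := fun a b h h1 h2 =>
    hn (big_big hd hc ih h h1 h2)
  have hS : ∀ a b, G.Adj a b → ¬ Big G F a → Big G F b := fun a b h h1 =>
    by_contra fun h2 => hn (two_small hd hc ih hB h1 h2 h)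
  refine hn (final hd hB hS fun x y u w h1 h2 n1 n2 => by_contra fun h3 => ?_)
  have hu := hS _ _ n1.1 h3
  have h4 := hB _ _ n2.2.2.1 hu
  exact hn (twin hd hc ih hu (hS _ _ n1.2.1 h3) (fun e => h3 (Or.inl e)) (fun e => h4 (Or.inl e))
    h1 n1 n2 fun e => h4 (hS _ _ e h3))

theorem good_free [Finite V] (G : SimpleGraph V) (F : Set V) (hd : Deg G F) (hc : Conn G F) :
    Good (2 / 5) G F := by
  obtain ⟨n, hn⟩ : ∃ n, {a | ∃ c, G.Adj a c}.ncard * (Nat.card (V × V) + 1) +
    {q : V × V | G.Adj q.1 q.2}.ncard = n := ⟨_, rfl⟩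
  induction n using Nat.strong_induction_on generalizing G F with
  | _ n ih =>
    refine step hd hc fun G' F' h1 h2 h3 => ih _ ?_ G' F' h1 h2 rfl
    rw [← hn]
    rcases h3 with ⟨h3, a, b, h4, h5⟩ | ⟨h3, a, b, h4, h5⟩
    · have e1 : {a | ∃ c, G'.Adj a c}.ncard ≤ {a | ∃ c, G.Adj a c}.ncard :=
        Set.ncard_le_ncard fun a ⟨c, h⟩ => ⟨c, h3 h⟩
      have e2 : {q : V × V | G'.Adj q.1 q.2}.ncard < {q : V × V | G.Adj q.1 q.2}.ncard :=
        Set.ncard_lt_ncard ⟨fun q h => h3 h, fun e => h5 (e (a := (a, b)) h4)⟩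
      have := Nat.mul_le_mul_right (Nat.card (V × V) + 1) e1
      omega
    · have e1 : {a | ∃ c, G'.Adj a c}.ncard < {a | ∃ c, G.Adj a c}.ncard :=
        Set.ncard_lt_ncard ⟨fun a ⟨c, h⟩ => h3 a c h, fun e => by
          obtain ⟨c, h⟩ := e (a := a) ⟨b, h4⟩
          exact h5 c h⟩
      have e2 := Set.ncard_le_card {q : V × V | G'.Adj q.1 q.2}
      have := Nat.mul_le_mul_right (Nat.card (V × V) + 1) (Nat.succ_le_of_lt e1)
      rw [Nat.succ_mul] at this
      omega

theorem good_avg (C : Finset V) (hC : C.Nonempty) (h : ∀ v ∈ C, Good p G {t | t ∈ F ∨ t = v}) :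
    Good (p + 1 / C.card) G F := by
  classical
  choose S D h1 h2 using h
  have h0 : (0 : ℝ) < C.card := by exact_mod_cast hC.card_pos
  refine ⟨⟨Σ v : C, (S v v.2).ι, inferInstance, fun q => (S q.1 q.1.2).w q.2 / C.card,
    fun q => div_nonneg ((S _ _).nonneg _) h0.le, ?_⟩, fun q t => D q.1 q.1.2 q.2 t ∨ t = q.1,
    fun q v hv => ?_, fun t => ?_⟩
  · rw [Fintype.sum_sigma]
    have : ∀ v : C, ∑ i, (S v v.2).w i = 1 := fun v => (S v v.2).sum_one
    simp only [← sum_div, this]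
    simp [h0.ne']
  · by_cases e : v = q.1
    · exact Or.inl (Or.inr e)
    · rcases h1 _ _ q.2 v (fun h => h.elim hv e) with h | ⟨t, h, h'⟩
      exacts [Or.inl (Or.inl h), Or.inr ⟨t, h, Or.inl h'⟩]
  · unfold PS.P
    refine (Fintype.sum_sigma _).trans_le ?_
    have : ∀ v : C, (S v v.2).P (fun i => D v v.2 i t ∨ t = v) ≤ p + if t = v then 1 else 0 :=
      fun v => by
        refine (PS.cover _ fun i => id).trans (add_le_add (h2 _ _ _) ?_)
        split_ifs with e
        · exact (PS.P_all _ fun _ => e).le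
        · exact (PS.P_none _ fun _ => e).le
    calc _ = ∑ v : C, (S v v.2).P (fun i => D v v.2 i t ∨ t = v) / C.card := by
          refine sum_congr rfl fun v _ => ?_
          refine Eq.trans (sum_congr rfl fun i _ => ?_) (sum_div _ _ _).symm
          split_ifs <;> simp
      _ ≤ ∑ v : C, (p + if t = v then 1 else 0) / C.card := by gcongr with v; exact this v
      _ ≤ _ := by
          rw [← sum_div, sum_add_distrib, div_le_iff₀ h0, add_mul, one_div_mul_cancel h0.ne']
          refine add_le_add (by simp [mul_comm]) ?_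
          rw [sum_coe_sort C fun v => if t = v then (1 : ℝ) else 0, sum_ite_eq]
          split_ifs <;> norm_num

theorem good_union {C : Set V} (hC : Closed G C) (h1 : Good p G {t | t ∈ F ∨ t ∉ C})
    (h2 : Good p G {t | t ∈ F ∨ t ∈ C}) : Good p G F := by
  obtain ⟨S, D, h1, h3⟩ := h1
  obtain ⟨T, E, h2, h4⟩ := h2
  refine ⟨S.prod T, fun q t => (t ∈ C ∧ D q.1 t) ∨ (t ∉ C ∧ E q.2 t), fun q v hv => ?_,
    fun t => ?_⟩
  · by_cases e : v ∈ C
    · rcases h1 q.1 v (fun h => h.elim hv fun h => h e) with h | ⟨t, h, h'⟩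
      exacts [Or.inl (Or.inl ⟨e, h⟩), Or.inr ⟨t, h, Or.inl ⟨hC v e t h, h'⟩⟩]
    · rcases h2 q.2 v (fun h => h.elim hv e) with h | ⟨t, h, h'⟩
      exacts [Or.inl (Or.inr ⟨e, h⟩), Or.inr ⟨t, h, Or.inr ⟨fun e' => e (hC t e' v h.symm), h'⟩⟩]
  · by_cases e : t ∈ C
    · exact (PS.mono _ fun i => by simp [e]).trans ((PS.prod_fst S T fun i => D i t).trans_le (h3 t))
    · exact (PS.mono _ fun i => by simp [e]).trans ((PS.prod_snd S T fun i => E i t).trans_le (h4 t))

theorem Good.le {q : ℝ} (h : Good p G F) (hq : p ≤ q) : Good q G F := by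
  obtain ⟨S, D, h1, h2⟩ := h
  exact ⟨S, D, h1, fun v => (h2 v).trans hq⟩

theorem good_univ (hp : 0 ≤ p) (hF : ∀ v, v ∈ F) : Good p G F :=
  ⟨PS.coin 0 le_rfl zero_le_one, fun _ _ => False, fun _ v hv => absurd (hF v) hv,
    fun _ => (PS.P_none _ fun _ => not_false).trans_le hp⟩

/-- Only the small components matter. -/
theorem good_of_small [Finite V] (N : ℕ) (hp : 2 / 5 + 1 / (N + 1 : ℝ) ≤ p) (hd : Deg G ∅)
    (h : ∀ C : Set V, Closed G C → C.Nonempty → C.ncard ≤ N → Good p G Cᶜ) : Good p G ∅ := by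
  classical
  have key : ∀ n, ∀ S : Set V, S.ncard = n → Closed G S → Good p G Sᶜ := by
    intro n
    induction n using Nat.strong_induction_on with
    | _ n ih =>
      intro S hS hc
      rcases S.eq_empty_or_nonempty with rfl | hne
      · exact good_univ (le_trans (by positivity) hp) (by simp)
      obtain ⟨C, ⟨c1, c2, c3⟩, c4⟩ := exists_minimal_of_wellFoundedLT
        (fun C : Set V => C ⊆ S ∧ Closed G C ∧ C.Nonempty) ⟨S, subset_rfl, hc, hne⟩
      refine good_union c2 ?_ ((ih _ ?_ (S \ C) rfl fun v hv t ht => ⟨hc v hv.1 t ht, fun e =>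
        hv.2 (c2 t e v ht.symm)⟩).mono le_rfl fun t ht => by simpa [or_iff_not_imp_left] using ht)
      · refine Good.mono (F' := Cᶜ) ?_ le_rfl fun t ht => Or.inr ht
        rcases le_or_gt C.ncard N with e | e
        · exact h C c2 c3 e
        · have hf := C.toFinite
          refine (good_avg hf.toFinset (by simpa using c3) fun v hv => good_free G _
            (fun t _ => hd t (Set.notMem_empty t)) fun T k1 k2 t ht => ?_).le (le_trans ?_ hp)
          · have k3 : T ⊆ C := fun s hs => by_contra fun e => k1 s hs (Or.inl e)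
            exact k1 v (c4 ⟨k3.trans c1, k2, t, ht⟩ k3 (by simpa using hv)) (Or.inr rfl)
          · rw [← Set.ncard_eq_toFinset_card C hf]
            have : (N + 1 : ℝ) ≤ C.ncard := by exact_mod_cast e
            gcongr
      · rw [← hS]
        obtain ⟨v, hv⟩ := c3
        exact Set.ncard_lt_ncard ⟨Set.diff_subset, fun e => (e (c1 hv)).2 hv⟩
  simpa using key _ Set.univ rfl fun _ _ _ _ => trivial

end Pool.Agent.MP_9e68e9_lc.Low
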