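import Pool.Agent.MP_9e68e9_lc.LowExt

/-! Graphs of minimum degree two with a free vertex in each component have random dominating sets
with marginals `2/5`. -/

namespace Pool.Agent.MP_9e68e9_lc.Low

open Finset

variable {V : Type} {G G' : SimpleGraph V} {F F' : Set V} {u w x y z : V}

/-- `S` is closed under adjacency. -/
def Closed (G : SimpleGraph V) (S : Set V) : Prop := ∀ v ∈ S, ∀ t, G.Adj v t → t ∈ S

/-- Vertices outside `F` have two neighbours. -/
def Deg (G : SimpleGraph V) (F : Set V) : Prop :=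
  ∀ v, v ∉ F → ∃ a b, a ≠ b ∧ G.Adj v a ∧ G.Adj v b

/-- Every component meets `F`. -/
def Conn (G : SimpleGraph V) (F : Set V) : Prop :=
  ∀ S : Set V, (∀ v ∈ S, v ∉ F) → Closed G S → ∀ v, v ∉ S

/-- Free or of degree at least three. -/
def Big (G : SimpleGraph V) (F : Set V) (v : V) : Prop :=
  v ∈ F ∨ ∃ a b c, a ≠ b ∧ a ≠ c ∧ b ≠ c ∧ G.Adj v a ∧ G.Adj v b ∧ G.Adj v c

/-- The neighbours of `x` are `a` and `b`. -/
def Nb (G : SimpleGraph V) (x a b : V) : Prop :=
  G.Adj x a ∧ G.Adj x b ∧ G.Adj a x ∧ G.Adj b x ∧ a ≠ x ∧ b ≠ x ∧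
    (∀ t, G.Adj x t → t = a ∨ t = b) ∧ ∀ t, G.Adj t x → t = a ∨ t = b

/-- Induction hypothesis. -/
def IH (G : SimpleGraph V) : Prop := ∀ (G' : SimpleGraph V) (F' : Set V), Deg G' F' → Conn G' F' →
  ((G' ≤ G ∧ ∃ a b, G.Adj a b ∧ ¬ G'.Adj a b) ∨
    ((∀ a b, G'.Adj a b → ∃ c, G.Adj a c) ∧ ∃ a b, G.Adj a b ∧ ∀ c, ¬ G'.Adj a c)) →
  Good (2 / 5) G' F'

/-- Deleting the edges at a set of vertices. -/
def del (G : SimpleGraph V) (T : Set V) : SimpleGraph V where
  Adj a b := G.Adj a b ∧ a ∉ T ∧ b ∉ T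
  symm := ⟨fun _ _ h => ⟨h.1.symm, h.2.2, h.2.1⟩⟩
  loopless := ⟨fun _ h => h.1.ne rfl⟩

/-- Deleting one edge. -/
def delE (G : SimpleGraph V) (u w : V) : SimpleGraph V where
  Adj a b := G.Adj a b ∧ ¬ (a = u ∧ b = w) ∧ ¬ (a = w ∧ b = u)
  symm := ⟨fun _ _ h => ⟨h.1.symm, fun e => h.2.2 ⟨e.2, e.1⟩, fun e => h.2.1 ⟨e.2, e.1⟩⟩⟩
  loopless := ⟨fun _ h => h.1.ne rfl⟩

/-- The edges meeting a set of vertices. -/
def keep (G : SimpleGraph V) (T : Set V) : SimpleGraph V where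
  Adj a b := G.Adj a b ∧ (a ∈ T ∨ b ∈ T)
  symm := ⟨fun _ _ h => ⟨h.1.symm, h.2.symm⟩⟩
  loopless := ⟨fun _ h => h.1.ne rfl⟩

/-- Replacing a path by an edge. -/
def short (G : SimpleGraph V) (T : Set V) (u w : V) : SimpleGraph V where
  Adj a b := (G.Adj a b ∧ a ∉ T ∧ b ∉ T) ∨ (u ≠ w ∧ ((a = u ∧ b = w) ∨ (a = w ∧ b = u)))
  symm := ⟨fun _ _ h => h.imp (fun h => ⟨h.1.symm, h.2.2, h.2.1⟩) fun h =>
    ⟨h.1, h.2.symm.imp And.symm And.symm⟩⟩
  loopless := ⟨fun _ h => h.elim (fun h => h.1.ne rfl) fun h =>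
    h.2.elim (fun e => h.1 (e.1.symm.trans e.2)) fun e => h.1 (e.2.symm.trans e.1)⟩

/-- Identifying `w` with `u`. -/
def merge (G : SimpleGraph V) (T : Set V) (u w : V) : SimpleGraph V where
  Adj a b := a ≠ b ∧ a ∉ T ∧ b ∉ T ∧ (G.Adj a b ∨ (a = u ∧ G.Adj w b) ∨ (b = u ∧ G.Adj w a))
  symm := ⟨fun _ _ h => ⟨h.1.symm, h.2.2.1, h.2.1, h.2.2.2.imp (fun e => e.symm) Or.symm⟩⟩
  loopless := ⟨fun _ h => h.1 rfl⟩

theorem small_nb (hd : Deg G F) (hx : ¬ Big G F x) (h : G.Adj x u) :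
    x ∉ F ∧ ∃ w, w ≠ u ∧ Nb G x u w := by
  have h0 : x ∉ F := fun e => hx (Or.inl e)
  obtain ⟨a, b, h1, h2, h3⟩ := hd x h0
  obtain ⟨w, h4, h5⟩ : ∃ w, w ≠ u ∧ G.Adj x w := by grind
  have h6 : ∀ t, G.Adj x t → t = u ∨ t = w := fun t ht => by
    by_contra e
    exact hx (Or.inr ⟨u, w, t, by grind⟩)
  exact ⟨h0, w, h4, h, h5, h.symm, h5.symm, h.ne', h5.ne', h6, fun t ht => h6 t ht.symm⟩

theorem big_two (h : Big G F u) (x : V) :
    u ∈ F ∨ ∃ a b, a ≠ b ∧ G.Adj u a ∧ G.Adj u b ∧ a ≠ x ∧ b ≠ x := by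
  rcases h with h | ⟨a, b, c, h⟩
  · exact Or.inl h
  · right
    by_cases e : a = x
    · exact ⟨b, c, by grind⟩
    · by_cases e' : b = x
      · exact ⟨a, c, by grind⟩
      · exact ⟨a, b, by grind⟩

theorem valid_free (hd : Deg G F) (hc : Conn G F) (T : Set V) (r : V)
    (hN : ∀ a b, G.Adj a b → b ∈ T → a ∈ T ∨ a = r) :
    Deg (del G T) {v | v ∈ F ∨ v ∈ T ∨ v = r} ∧ Conn (del G T) {v | v ∈ F ∨ v ∈ T ∨ v = r} := by
  refine ⟨fun v hv => ?_, fun S h1 h2 => hc S (fun v hv e => h1 v hv (Or.inl e)) fun v hv t ht => ?_⟩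
  · obtain ⟨a, b, h1, h2, h3⟩ := hd v fun e => hv (Or.inl e)
    simp only [Set.mem_setOf_eq] at hv
    exact ⟨a, b, h1, ⟨h2, by grind⟩, h3, by grind⟩
  · have := h1 v hv
    simp only [Set.mem_setOf_eq] at this
    exact h2 v hv t ⟨ht, by grind⟩

theorem valid_ear (hd : Deg G F) (hc : Conn G F) (T : Set V) (hT : ∀ v ∈ T, v ∉ F)
    (hN : ∀ a b, G.Adj a b → b ∈ T → a ∈ T ∨ a = u ∨ a = w)
    (hG : ∀ a b, G.Adj a b → a ∉ T → b ∉ T → G'.Adj a b)
    (hS : ∀ S, Closed G' S → (u ∈ S ↔ w ∈ S))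
    (hu : u ∈ F ∨ ∃ a b, a ≠ b ∧ G'.Adj u a ∧ G'.Adj u b)
    (hw : w ∈ F ∨ ∃ a b, a ≠ b ∧ G'.Adj w a ∧ G'.Adj w b) :
    Deg G' {v | v ∈ F ∨ v ∈ T} ∧ Conn G' {v | v ∈ F ∨ v ∈ T} := by
  refine ⟨fun v hv => ?_, fun S h1 h2 v hv => ?_⟩
  · obtain ⟨a, b, h1, h2, h3⟩ := hd v fun e => hv (Or.inl e)
    simp only [Set.mem_setOf_eq] at hv
    by_cases e : v = u ∨ v = w
    · grind
    · exact ⟨a, b, h1, hG _ _ h2 (by grind) (by grind), hG _ _ h3 (by grind) (by grind)⟩
  · have h3 := hS S h2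
    simp only [Set.mem_setOf_eq] at h1
    refine hc {t | t ∈ S ∨ (u ∈ S ∧ t ∈ T)} (fun t ht => ?_) (fun a ha b hb => ?_) v (Or.inl hv)
    · simp only [Set.mem_setOf_eq] at ht
      grind
    · simp only [Set.mem_setOf_eq] at ha ⊢
      have := hN a b hb
      have := hN b a hb.symm
      have := hG a b hb
      have := h2 a
      have := h1 a
      by_cases e : b ∈ T <;> by_cases e' : a ∈ T <;> grind

/-- `S` is a free-less set whose only leaving edge is `w u`. -/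
def Cut (G : SimpleGraph V) (F S : Set V) (u w : V) : Prop :=
  (∀ v ∈ S, v ∉ F) ∧ w ∈ S ∧ u ∉ S ∧ ∀ v ∈ S, ∀ t, G.Adj v t → t ∈ S ∨ (v = w ∧ t = u)

variable [Finite V]

omit [Finite V] in
theorem side (hd : Deg G F) (hc : Conn G F) (ih : IH G) (h : G.Adj u w) (hu : Big G F u)
    (hw : Big G F w) : Good (2 / 5) G F ∨ ∃ S, Cut G F S u w ∨ Cut G F S w u := by
  by_cases e : Conn (delE G u w) F
  · refine Or.inl ((ih _ F (fun v hv => ?_) e (Or.inl ⟨fun a b e => e.1, u, w, h, fun e =>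
      e.2.1 ⟨rfl, rfl⟩⟩)).mono (fun a b e => e.1) subset_rfl)
    have h1 := big_two hu w
    have h2 := big_two hw u
    have h3 := hd v hv
    have h4 := h.ne
    simp only [delE]
    by_cases e : v = u
    · grind
    · by_cases e' : v = w <;> grind
  · simp only [Conn, not_forall, not_not] at e
    obtain ⟨S, h1, h2, v, h3⟩ := e
    have h4 : ¬ Closed G S := fun e => hc S h1 e v h3
    simp only [Closed, not_forall, delE] at h4 h2
    obtain ⟨a, h5, b, h6, h7⟩ := h4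
    refine Or.inr ⟨S, ?_⟩
    have := h2 a h5 b
    unfold Cut
    by_cases e : a = u ∧ b = w
    · exact Or.inr ⟨h1, by grind, by grind, fun v hv t ht => by have := h2 v hv t; grind⟩
    · exact Or.inl ⟨h1, by grind, by grind, fun v hv t ht => by have := h2 v hv t; grind⟩

theorem glue {S : Set V} (hd : Deg G F) (hc : Conn G F) (ih : IH G) (h : G.Adj u w)
    (hu : Big G F u) (hS : Cut G F S u w) (h' : G.Adj u x) (hx : x ≠ w) : Good (2 / 5) G F := by
  obtain ⟨h1, h2, h3, h4⟩ := hS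
  have h5 : ∀ a b, G.Adj a b → b ∈ S → a ∈ S ∨ (b = w ∧ a = u) := fun a b e hb => h4 b hb a e.symm
  refine extGlue (G' := del G S) (F' := {v | v ∈ F ∨ v ∈ S}) (G'' := keep G S) (F'' := Sᶜ) (R := S)
    (u := u) (ih _ _ (fun v hv => ?_) (fun T k1 k2 v hv => ?_)
      (Or.inl ⟨fun a b e => e.1, u, w, h, fun e => e.2.2 h2⟩))
    (ih _ _ (fun v hv => ?_) (fun T k1 k2 => hc T (fun v hv => h1 v (not_not.1 (k1 v hv)))
      fun v hv t ht => k2 v hv t ⟨ht, Or.inl (not_not.1 (k1 v hv))⟩)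
      (Or.inl ⟨fun a b e => e.1, u, x, h', fun e => by have := e.2; grind⟩))
    (fun a b e => ⟨e.1, e.2.2⟩) (fun v hv => hv) h3 (fun a b ha e => ⟨e.1, by have := e.1; grind⟩)
    fun v hv => hv
  · simp only [Set.mem_setOf_eq] at hv
    have k1 := big_two hu w
    have k2 := hd v (by grind)
    simp only [del]
    by_cases e : v = u <;> grind
  · simp only [Set.mem_setOf_eq] at k1
    refine hc {t | t ∈ T ∨ (u ∈ T ∧ t ∈ S)} (fun t ht => ?_) (fun a ha b hb => ?_) v (Or.inl hv)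
    · simp only [Set.mem_setOf_eq] at ht
      grind
    · simp only [Set.mem_setOf_eq] at ha ⊢
      have := k2 a
      simp only [del] at this
      have := k1 a
      by_cases e : b ∈ S <;> by_cases e' : a ∈ S <;> grind
  · have hv' := not_not.1 hv
    obtain ⟨a, b, k1, k2, k3⟩ := hd v (h1 v hv')
    exact ⟨a, b, k1, ⟨k2, Or.inl hv'⟩, k3, Or.inl hv'⟩

theorem cut_case {S : Set V} (hd : Deg G F) (hc : Conn G F) (ih : IH G) (h : G.Adj u w)
    (hu : Big G F u) (hw : Big G F w) (hS : Cut G F S u w) : Good (2 / 5) G F := by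
  by_cases e : ∃ x, G.Adj u x ∧ x ≠ w
  · obtain ⟨x, h1, h2⟩ := e
    exact glue hd hc ih h hu hS h1 h2
  have h1 : ∀ x, G.Adj u x → x = w := fun x hx => by_contra fun e' => e ⟨x, hx, e'⟩
  have h2 : u ∈ F := by_contra fun e' => by have := hd u e'; grind
  obtain ⟨n, h3, h4⟩ : ∃ n, G.Adj w n ∧ n ≠ u := by
    have := hd w (hS.1 w hS.2.1)
    grind
  by_cases hn : Big G F n
  · rcases side hd hc ih h3 hw hn with h5 | ⟨S', h5 | h5⟩
    · exact h5
    · exact glue hd hc ih h3 hw h5 h.symm h4.symm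
    · have := h5.2.2.2 w h5.2.1 u h.symm
      have := h5.1 u
      grind
  · obtain ⟨h5, n', h6, h7⟩ := small_nb hd hn h3.symm
    have h8 : ∀ x, G.Adj x u → x = w := fun x hx => h1 x hx.symm
    refine extLeaf (G' := delE G u w) (F' := {v | v ∈ F ∨ v = w}) (n' := n')
      (ih _ _ (fun v hv => ?_) (fun T k1 k2 => hc T (fun v hv e => k1 v hv (Or.inl e))
        fun v hv t ht => k2 v hv t ⟨ht, ?_⟩)
        (Or.inl ⟨fun a b e => e.1, u, w, h, fun e => e.2.1 ⟨rfl, rfl⟩⟩)) h.symm h3 h4 h2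
      (fun e => e.elim h5 h3.ne') (fun t ht => h7.2.2.2.2.2.2.1 t ht.1)
      (fun a b e => ⟨e.1, by have := e.1; have := e.2; grind⟩) fun v hv => hv
    · simp only [Set.mem_setOf_eq] at hv
      have k2 := hd v (by grind)
      simp only [delE]
      grind
    · have := k1 v hv
      simp only [Set.mem_setOf_eq] at this
      grind

theorem big_big (hd : Deg G F) (hc : Conn G F) (ih : IH G) (h : G.Adj u w)
    (hu : Big G F u) (hw : Big G F w) : Good (2 / 5) G F := by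
  rcases side hd hc ih h hu hw with h5 | ⟨S', h5 | h5⟩
  exacts [h5, cut_case hd hc ih h hu hw h5, cut_case hd hc ih h.symm hw hu h5]

theorem loop5 {r : V} (hd : Deg G F) (hc : Conn G F) (ih : IH G) (n1 : Nb G u r x)
    (n2 : Nb G x u y) (n3 : Nb G y x z) (n4 : Nb G z y r) (rx : r ≠ x) (ry : r ≠ y) (uy : u ≠ y)
    (uz : u ≠ z) (xz : x ≠ z) : Good (2 / 5) G F := by
  obtain ⟨h1, h2⟩ := valid_free hd hc {t | t = u ∨ t = x ∨ t = y ∨ t = z} r fun a b e hb => by
    simp only [Set.mem_setOf_eq] at hb ⊢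
    unfold Nb at *
    grind
  exact extLoop5 (ih _ _ h1 h2 (Or.inl ⟨fun a b e => e.1, u, x, n1.2.1, fun e =>
    e.2.1 (Or.inl rfl)⟩)) n1.2.2.1 n1.2.1 n2.2.1 n3.2.1 n4.2.1 rx ry uy uz xz
    (fun a b e => ⟨e.1, by have := e.2.2; simp only [Set.mem_setOf_eq] at this; grind⟩)
    fun v hv => by simp only [Set.mem_setOf_eq] at hv; grind

theorem three_small (hd : Deg G F) (hc : Conn G F) (ih : IH G) (hx : ¬ Big G F x)
    (hy : ¬ Big G F y) (hz : ¬ Big G F z) (a1 : G.Adj x y) (a2 : G.Adj y z) (xz : x ≠ z) :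
    Good (2 / 5) G F := by
  obtain ⟨x0, u, uy, n1⟩ := small_nb hd hx a1
  obtain ⟨y0, z', h1, n2⟩ := small_nb hd hy a1.symm
  obtain rfl : z = z' := (n2.2.2.2.2.2.2.1 z a2).resolve_left xz.symm
  obtain ⟨z0, w, wy, n3⟩ := small_nb hd hz a2.symm
  have hT : ∀ v ∈ {t | t = x ∨ t = y ∨ t = z}, v ∉ F := fun v hv => by
    simp only [Set.mem_setOf_eq] at hv
    grind
  have uz : u ≠ z ∧ w ≠ x := by
    by_contra e
    refine hc _ hT (fun a ha b hb => ?_) x (Or.inl rfl)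
    simp only [Set.mem_setOf_eq] at ha ⊢
    unfold Nb at *
    grind
  have n1' : Nb G x u y := by unfold Nb at *; grind
  have hN : ∀ a b, G.Adj a b → b ∈ {t | t = x ∨ t = y ∨ t = z} →
      a ∈ {t | t = x ∨ t = y ∨ t = z} ∨ a = u ∨ a = w := fun a b e hb => by
    simp only [Set.mem_setOf_eq] at hb ⊢
    unfold Nb at *
    grind
  have main : (u ∈ F ∨ ∃ a b, a ≠ b ∧ (short G {t | t = x ∨ t = y ∨ t = z} u w).Adj u a ∧
      (short G {t | t = x ∨ t = y ∨ t = z} u w).Adj u b) →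
      (w ∈ F ∨ ∃ a b, a ≠ b ∧ (short G {t | t = x ∨ t = y ∨ t = z} u w).Adj w a ∧
      (short G {t | t = x ∨ t = y ∨ t = z} u w).Adj w b) → Good (2 / 5) G F := fun hu hw => by
    obtain ⟨h1, h2⟩ := valid_ear hd hc _ hT hN (fun a b e ha hb => Or.inl ⟨e, ha, hb⟩)
      (fun S hS => by
        by_cases e : u = w
        · rw [e]
        · exact ⟨fun h => hS u h w (Or.inr ⟨e, Or.inl ⟨rfl, rfl⟩⟩),
            fun h => hS w h u (Or.inr ⟨e, Or.inr ⟨rfl, rfl⟩⟩)⟩) hu hw
    refine ext3 (ih _ _ h1 h2 (Or.inr ⟨fun a b e => ?_, x, y, a1, fun c e => ?_⟩))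
      n1.2.2.2.1 a1 a2 n3.2.1 xz uy uz.1 uz.2 wy (fun a b e => ?_) fun v hv => hv
    all_goals
      simp only [short, Set.mem_setOf_eq] at e
      unfold Nb at *
      grind
  by_cases e : u = w
  · subst e
    by_cases e : u ∈ F ∨ ∃ a b, a ≠ b ∧ G.Adj u a ∧ G.Adj u b ∧ a ≠ x ∧ a ≠ z ∧ b ≠ x ∧ b ≠ z
    · have : u ∈ F ∨ ∃ a b, a ≠ b ∧ (short G {t | t = x ∨ t = y ∨ t = z} u u).Adj u a ∧
          (short G {t | t = x ∨ t = y ∨ t = z} u u).Adj u b := by
        refine e.imp_right fun ⟨a, b, h⟩ => ⟨a, b, ?_⟩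
        simp only [short, Set.mem_setOf_eq]
        unfold Nb at *
        grind
      exact main this this
    · obtain ⟨t, h3, h4, h5⟩ : ∃ t, G.Adj u t ∧ t ≠ x ∧ t ≠ z := by
        by_contra e'
        refine hc {t | t = x ∨ t = y ∨ t = z ∨ t = u} (fun v hv => ?_) (fun a ha b hb => ?_) x
          (Or.inl rfl)
        · simp only [Set.mem_setOf_eq] at hv
          grind
        · simp only [Set.mem_setOf_eq] at ha ⊢
          unfold Nb at *
          grind
      obtain ⟨h1, h2⟩ := valid_free hd hc _ u fun a b e hb => by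
        simpa only [or_self] using hN a b e hb
      refine extLolli (ih _ _ h1 h2 (Or.inl ⟨fun a b e => e.1, x, y, a1, fun e =>
        e.2.1 (Or.inl rfl)⟩)) h3 n1.2.2.2.1 a1 a2 n3.2.1 xz uy h4 (by unfold Nb at *; grind) h5
        (fun a b e' => ?_) fun v hv => by simp only [Set.mem_setOf_eq] at hv; grind
      have := e'.1.symm
      simp only [del, Set.mem_setOf_eq] at e'
      refine ⟨e'.1, by grind, by grind, by grind, fun e'' => by_contra fun h6 => ?_⟩
      exact e (Or.inr ⟨a, t, by grind⟩)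
  · by_cases hu : u ∈ F ∨ ∃ t, G.Adj u t ∧ t ≠ x ∧ t ≠ w
    · by_cases hw : w ∈ F ∨ ∃ t, G.Adj w t ∧ t ≠ z ∧ t ≠ u
      · refine main (hu.imp_right fun ⟨t, h⟩ => ⟨t, w, ?_⟩) (hw.imp_right fun ⟨t, h⟩ => ⟨t, u, ?_⟩)
        all_goals
          simp only [short, Set.mem_setOf_eq]
          unfold Nb at *
          grind
      · have h3 : ∀ t, G.Adj w t → t = z ∨ t = u := by grind
        have h4 : G.Adj w u := by have := hd w (by grind); grind
        exact loop5 hd hc ih n1' n2 n3 ⟨n3.2.2.2.1, h4, n3.2.1, h4.symm, n3.2.1.ne, h4.ne', h3,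
          fun t ht => h3 t ht.symm⟩ uy uz.1 xz uz.2.symm wy.symm
    · have h3 : ∀ t, G.Adj u t → t = w ∨ t = x := by grind
      have h4 : G.Adj u w := by have := hd u (by grind); grind
      exact loop5 hd hc ih ⟨h4, n1.2.2.2.1, h4.symm, n1.2.1, h4.ne', n1.2.1.ne, h3,
          fun t ht => h3 t ht.symm⟩ n1' n2 n3 uz.2 wy uy uz.1 xz

theorem two_small (hd : Deg G F) (hc : Conn G F) (ih : IH G)
    (hB : ∀ a b, G.Adj a b → Big G F a → ¬ Big G F b) (hx : ¬ Big G F x)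
    (hy : ¬ Big G F y) (a1 : G.Adj x y) : Good (2 / 5) G F := by
  obtain ⟨x0, u, uy, n1⟩ := small_nb hd hx a1
  obtain ⟨y0, w, wx, n2⟩ := small_nb hd hy a1.symm
  by_cases hu : Big G F u
  swap
  · exact three_small hd hc ih hu hx hy n1.2.2.2.1 a1 uy
  by_cases hw : Big G F w
  swap
  · exact three_small hd hc ih hx hy hw a1 n2.2.1 wx.symm
  have hN : ∀ a b, G.Adj a b → b ∈ {t | t = x ∨ t = y} →
      a ∈ {t | t = x ∨ t = y} ∨ a = u ∨ a = w := fun a b e hb => by
    simp only [Set.mem_setOf_eq] at hb ⊢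
    unfold Nb at *
    grind
  by_cases e : u = w
  · subst e
    obtain ⟨h1, h2⟩ := valid_free hd hc _ u fun a b e hb => by
      simpa only [or_self] using hN a b e hb
    exact extTri (ih _ _ h1 h2 (Or.inl ⟨fun a b e => e.1, x, y, a1, fun e =>
      e.2.1 (Or.inl rfl)⟩)) n1.2.2.2.1 a1 n2.2.1
      (fun a b e => ⟨e.1, by have := e.2.2; simp only [Set.mem_setOf_eq] at this; grind⟩)
      fun v hv => by simp only [Set.mem_setOf_eq] at hv; grind
  have uw : ¬ G.Adj u w := fun e => hB u w e hu hw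
  have wu : ¬ G.Adj w u := fun e => uw e.symm
  by_cases hz : ∃ z, G.Adj u z ∧ G.Adj w z
  · obtain ⟨z, a2, a3⟩ := hz
    obtain ⟨z0, w', h1, n3⟩ := small_nb hd (hB u z a2 hu) a2.symm
    obtain rfl : w = w' := (n3.2.2.2.2.2.2.2 w a3).resolve_left (Ne.symm e)
    have xz : x ≠ z ∧ y ≠ z := by unfold Nb at *; grind
    obtain ⟨k1, k2⟩ := valid_ear (G' := del G {t | t = x ∨ t = y}) hd hc _
      (fun v hv => by simp only [Set.mem_setOf_eq] at hv; grind) hN (fun a b e ha hb => ⟨e, ha, hb⟩)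
      (fun S hS => by
        have := hS u
        have := hS w
        have := hS z
        simp only [del, Set.mem_setOf_eq] at *
        unfold Nb at *
        grind)
      ((big_two hu x).imp_right fun ⟨a, b, h⟩ => ⟨a, b, by
        simp only [del, Set.mem_setOf_eq]
        unfold Nb at *
        grind⟩)
      ((big_two hw y).imp_right fun ⟨a, b, h⟩ => ⟨a, b, by
        simp only [del, Set.mem_setOf_eq]
        unfold Nb at *
        grind⟩)
    obtain ⟨k3, k4⟩ := valid_ear (G' := del G {t | t = z}) (u := u) (w := w) hd hc {t | t = z}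
      (fun v hv => by simp only [Set.mem_setOf_eq] at hv; grind)
      (fun a b e hb => by
        simp only [Set.mem_setOf_eq] at hb ⊢
        unfold Nb at *
        grind) (fun a b e ha hb => ⟨e, ha, hb⟩)
      (fun S hS => by
        have := hS u
        have := hS w
        have := hS x
        have := hS y
        simp only [del, Set.mem_setOf_eq] at *
        unfold Nb at *
        grind)
      ((big_two hu z).imp_right fun ⟨a, b, h⟩ => ⟨a, b, by
        simp only [del, Set.mem_setOf_eq]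
        unfold Nb at *
        grind⟩)
      ((big_two hw z).imp_right fun ⟨a, b, h⟩ => ⟨a, b, by
        simp only [del, Set.mem_setOf_eq]
        unfold Nb at *
        grind⟩)
    refine extC5 (ih _ _ k1 k2 (Or.inl ⟨fun a b e => e.1, x, y, a1, fun e =>
      e.2.1 (Or.inl rfl)⟩)) (ih _ _ k3 k4 (Or.inl ⟨fun a b e => e.1, u, z, a2, fun e =>
      e.2.2 rfl⟩)) n1.2.2.2.1 a1 n2.2.1 a3 a2.symm uy wx xz.1 xz.2 ?_ (fun a b e => e.1)
      (fun v hv => hv) (fun a b e => e.1) (fun v hv => hv) ?_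
      (fun t e => n3.2.2.2.2.2.2.1 t e.1) ?_ (fun t e => (n1.2.2.2.2.2.2.1 t e.1).symm) ?_
      fun t e => n2.2.2.2.2.2.2.1 t e.1
    · unfold Nb at *
      grind
    all_goals
      simp only [Set.mem_setOf_eq]
      grind
  · have hz' : ∀ z, G.Adj u z → ¬ G.Adj w z := fun z h1 h2 => hz ⟨z, h1, h2⟩
    have sy : ∀ a b, G.Adj a b → G.Adj b a := fun a b e => e.symm
    have ir : ∀ a b, G.Adj a b → a ≠ b := fun a b e => e.ne
    refine extCon (G' := merge G {t | t = x ∨ t = y ∨ t = w} u w)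
      (F' := {v | v ∈ F ∨ v = x ∨ v = y ∨ v = w ∨ (v = u ∧ w ∈ F)})
      (ih _ _ (fun v hv => ?_) (fun S k1 k2 v hv => ?_) (Or.inr ⟨fun a b e => ?_, x, y, a1,
        fun c e => e.2.1 (Or.inl rfl)⟩)) n1.2.2.2.1 a1 n2.2.1 e uy wx (fun a b e => ?_)
      (fun v hv => hv) fun r hr r0 => ?_
    · simp only [Set.mem_setOf_eq] at hv
      simp only [merge, Set.mem_setOf_eq]
      by_cases e' : v = u
      · obtain ⟨a, b, h⟩ := (big_two hu x).resolve_left (by grind)
        refine ⟨a, b, ?_⟩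
        unfold Nb at *
        grind
      · obtain ⟨a, b, h⟩ := hd v (by grind)
        unfold Nb at *
        by_cases e1 : a = w
        · exact ⟨u, b, by grind⟩
        · by_cases e2 : b = w
          · exact ⟨a, u, by grind⟩
          · exact ⟨a, b, by grind⟩
    · simp only [Set.mem_setOf_eq] at k1
      refine hc {t | t ∈ S ∨ (u ∈ S ∧ (t = x ∨ t = y ∨ t = w))} (fun t ht => ?_)
        (fun a ha b hb => ?_) v (Or.inl hv)
      · simp only [Set.mem_setOf_eq] at ht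
        have := k1 u
        have := k1 t
        grind
      · simp only [Set.mem_setOf_eq] at ha ⊢
        have c1 := fun h => k2 a h b
        have c2 := fun h => k2 a h u
        have c3 := fun h => k2 u h b
        have c4 := k1 a
        simp only [merge, Set.mem_setOf_eq] at c1 c2 c3
        unfold Nb at *
        grind (splits := 40)
    · simp only [merge, Set.mem_setOf_eq] at e
      unfold Nb at *
      grind
    · simp only [merge, Set.mem_setOf_eq] at e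
      grind
    · obtain ⟨n, h1, h2, h3, h4⟩ : ∃ n, G.Adj r n ∧ n ≠ x ∧ n ≠ y ∧ Big G F r := by
        rcases hr with rfl | rfl
        · obtain ⟨a, b, h⟩ := (big_two hu x).resolve_left r0
          refine ⟨a, ?_⟩
          unfold Nb at *
          grind
        · obtain ⟨a, b, h⟩ := (big_two hw y).resolve_left r0
          refine ⟨a, ?_⟩
          unfold Nb at *
          grind
      obtain ⟨h5, n', h6, n3⟩ := small_nb hd (hB r n h1 h4) h1.symm
      refine ⟨n, n', h1, h2, h3, by grind, ?_, fun t e => ?_⟩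
      · simp only [Set.mem_setOf_eq]
        grind
      · simp only [merge, Set.mem_setOf_eq] at e
        unfold Nb at *
        grind

end Pool.Agent.MP_9e68e9_lc.Low
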