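import Mathlib

/-! Finite probability spaces: splitting, products, couplings. -/

namespace Pool.Agent.MP_9e68e9_lc.Low

open Finset

/-- A finite probability space. -/
structure PS where
  /-- sample points -/
  ι : Type
  /-- finiteness -/
  fin : Fintype ι
  /-- weights -/
  w : ι → ℝ
  /-- nonnegativity -/
  nonneg : ∀ i, 0 ≤ w i
  /-- total mass -/
  sum_one : ∑ i, w i = 1

instance (S : PS) : Fintype S.ι := S.fin

open Classical in
/-- Probability of an event. -/
noncomputable def PS.P (S : PS) (X : S.ι → Prop) : ℝ := ∑ i, if X i then S.w i else 0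

namespace PS
variable (S : PS) {X Y Z : S.ι → Prop}

theorem P_nonneg (X : S.ι → Prop) : 0 ≤ S.P X :=
  sum_nonneg fun i _ => by split_ifs; exacts [S.nonneg i, le_rfl]

theorem cover (h : ∀ i, X i → Y i ∨ Z i) : S.P X ≤ S.P Y + S.P Z := by
  unfold P
  rw [← sum_add_distrib]
  refine sum_le_sum fun i _ => ?_
  have := S.nonneg i
  have := h i
  split_ifs <;> first | linarith | tauto

theorem disj (h1 : ∀ i, Y i → X i) (h2 : ∀ i, Z i → X i) (h : ∀ i, Y i → ¬ Z i) :
    S.P Y + S.P Z ≤ S.P X := by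
  unfold P
  rw [← sum_add_distrib]
  refine sum_le_sum fun i _ => ?_
  have := S.nonneg i
  have := h i
  have := h1 i
  have := h2 i
  split_ifs <;> first | linarith | tauto

theorem mono (h : ∀ i, X i → Y i) : S.P X ≤ S.P Y := by
  refine sum_le_sum fun i _ => ?_
  have := S.nonneg i
  have := h i
  split_ifs <;> first | linarith | tauto

theorem congr (h : ∀ i, X i ↔ Y i) : S.P X = S.P Y :=
  le_antisymm (S.mono fun i => (h i).1) (S.mono fun i => (h i).2)

theorem P_all (h : ∀ i, X i) : S.P X = 1 := by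
  simp only [P, h, if_true]; exact S.sum_one

theorem P_none (h : ∀ i, ¬ X i) : S.P X = 0 := by
  simp [P, h]

theorem add_eq (h : ∀ i, X i ↔ Y i ∨ Z i) (h' : ∀ i, Y i → ¬ Z i) : S.P X = S.P Y + S.P Z :=
  le_antisymm (S.cover fun i => (h i).1)
    (S.disj (fun i e => (h i).2 (Or.inl e)) (fun i e => (h i).2 (Or.inr e)) h')

theorem P_not (X : S.ι → Prop) : S.P (fun i => ¬ X i) = 1 - S.P X := by
  have := S.add_eq (X := fun _ => True) (Y := X) (Z := fun i => ¬ X i) (fun i => by tauto)
    (fun i => by tauto)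
  rw [S.P_all fun _ => trivial] at this
  linarith

/-- Product of two spaces. -/
def prod (S T : PS) : PS where
  ι := S.ι × T.ι
  fin := inferInstance
  w p := S.w p.1 * T.w p.2
  nonneg p := mul_nonneg (S.nonneg _) (T.nonneg _)
  sum_one := by
    rw [Fintype.sum_prod_type]
    simp only [← mul_sum]
    have := T.sum_one
    have := S.sum_one
    simp_all

theorem prod_and (S T : PS) (X : S.ι → Prop) (Y : T.ι → Prop) :
    (S.prod T).P (fun p => X p.1 ∧ Y p.2) = S.P X * T.P Y := by
  unfold P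
  rw [sum_mul_sum]
  refine (Fintype.sum_prod_type _).trans (sum_congr rfl fun i _ => sum_congr rfl fun j _ => ?_)
  by_cases h1 : X i <;> by_cases h2 : Y j <;> simp [h1, h2, prod]

theorem prod_fst (S T : PS) (X : S.ι → Prop) : (S.prod T).P (fun p => X p.1) = S.P X := by
  have := prod_and S T X fun _ => True
  rw [T.P_all fun _ => trivial, mul_one] at this
  simpa using this

theorem prod_snd (S T : PS) (Y : T.ι → Prop) : (S.prod T).P (fun p => Y p.2) = T.P Y := by
  have := prod_and S T (fun _ => True) Y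
  rw [S.P_all fun _ => trivial, one_mul] at this
  simpa using this

/-- A biased coin. -/
def coin (l : ℝ) (h0 : 0 ≤ l) (h1 : l ≤ 1) : PS where
  ι := Bool
  fin := inferInstance
  w b := if b then l else 1 - l
  nonneg b := by cases b <;> simp <;> linarith
  sum_one := by simp

theorem coin_true (l : ℝ) (h0 : 0 ≤ l) (h1 : l ≤ 1) :
    (coin l h0 h1).P (fun b : Bool => b = true) = l := by
  unfold P
  refine (Fintype.sum_bool _).trans ?_
  simp [coin]

theorem coin_false (l : ℝ) (h0 : 0 ≤ l) (h1 : l ≤ 1) :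
    (coin l h0 h1).P (fun b : Bool => b = false) = 1 - l := by
  unfold P
  refine (Fintype.sum_bool _).trans ?_
  simp [coin]

theorem exists_lam {a b c : ℝ} (h1 : a ≤ c) (h2 : c ≤ b) :
    ∃ l, 0 ≤ l ∧ l ≤ 1 ∧ c = a * (1 - l) + b * l := by
  rcases eq_or_lt_of_le (h1.trans h2) with e | e
  · exact ⟨0, le_rfl, zero_le_one, by linarith⟩
  · have : 0 < b - a := by linarith
    refine ⟨(c - a) / (b - a), div_nonneg (by linarith) this.le, (div_le_one this).2 (by linarith),
      ?_⟩
    field_simp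
    ring

theorem coin_mix (l : ℝ) (h0 : 0 ≤ l) (h1 : l ≤ 1) (X Y : S.ι → Prop) :
    (S.prod (coin l h0 h1)).P (fun i => (X i.1 ∧ i.2 = false) ∨ (Y i.1 ∧ i.2 = true)) =
      S.P X * (1 - l) + S.P Y * l := by
  have e1 := prod_and S (coin l h0 h1) X (fun b : Bool => b = false)
  have e2 := prod_and S (coin l h0 h1) Y (fun b : Bool => b = true)
  rw [coin_false] at e1
  rw [coin_true] at e2
  rw [← e1, ← e2]
  refine add_eq _ (fun i => Iff.rfl) fun i => ?_
  rintro ⟨-, h⟩ ⟨-, h'⟩
  rw [h] at h'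
  cases h'

/-- `π` is a measure preserving map. -/
def Pres (T S : PS) (π : T.ι → S.ι) : Prop := ∀ E : S.ι → Prop, T.P (fun i => E (π i)) = S.P E

theorem Pres.comp {U T S : PS} {π : T.ι → S.ι} {ρ : U.ι → T.ι} (h : Pres T S π)
    (h' : Pres U T ρ) : Pres U S (fun i => π (ρ i)) := fun E => (h' fun i => E (π i)).trans (h E)

theorem mix (S T : PS) (l : ℝ) (h0 : 0 ≤ l) (h1 : l ≤ 1) :
    ∃ (U : PS) (π : U.ι → S.ι) (ρ : U.ι → T.ι) (b : U.ι → Prop), ∀ X Y,
      U.P (fun i => (¬ b i ∧ X (π i)) ∨ (b i ∧ Y (ρ i))) = S.P X * (1 - l) + T.P Y * l := by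
  refine ⟨(S.prod T).prod (coin l h0 h1), fun i => i.1.1, fun i => i.1.2, fun i => i.2 = true,
    fun X Y => ?_⟩
  rw [← prod_fst S T, ← prod_snd S T, ← coin_mix _ l h0 h1]
  exact congr _ fun i => or_congr (and_comm.trans (and_congr_right fun _ => Bool.not_eq_true _ ▸
    Iff.rfl)) and_comm

theorem split (X Y : S.ι → Prop) (h : ∀ i, X i → Y i) (c : ℝ) (h1 : S.P X ≤ c) (h2 : c ≤ S.P Y) :
    ∃ (T : PS) (π : T.ι → S.ι) (Z : T.ι → Prop), Pres T S π ∧ (∀ i, X (π i) → Z i) ∧
      (∀ i, Z i → Y (π i)) ∧ T.P Z = c := by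
  obtain ⟨l, h3, h4, rfl⟩ := exists_lam h1 h2
  refine ⟨S.prod (coin l h3 h4), fun i => i.1,
    fun i => (X i.1 ∧ i.2 = false) ∨ (Y i.1 ∧ i.2 = true), prod_fst S _, fun i e => ?_,
    fun i e => ?_, ?_⟩
  · rcases i with ⟨i, _ | _⟩
    · exact Or.inl ⟨e, rfl⟩
    · exact Or.inr ⟨h _ e, rfl⟩
  · rcases e with e | e
    exacts [h _ e.1, e.1]
  · exact coin_mix _ l h3 h4 X Y

theorem sub (Y : S.ι → Prop) (c : ℝ) (h1 : 0 ≤ c) (h2 : c ≤ S.P Y) :
    ∃ (T : PS) (π : T.ι → S.ι) (Z : T.ι → Prop), Pres T S π ∧ (∀ i, Z i → Y (π i)) ∧ T.P Z = c := by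
  obtain ⟨T, π, Z, h3, -, h4, h5⟩ := S.split (fun _ => False) Y (fun _ => False.elim) c
    (by rwa [S.P_none fun _ => not_false]) h2
  exact ⟨T, π, Z, h3, h4, h5⟩

theorem couple (S T : PS) (A : S.ι → Prop) (B : T.ι → Prop) (hA : S.P A = 2 / 5)
    (hB : T.P B = 2 / 5) : ∃ (U : PS) (π : U.ι → S.ι) (ρ : U.ι → T.ι), Pres U S π ∧ Pres U T ρ ∧
      U.P (fun i => ¬ (A (π i) ↔ B (ρ i))) = 0 := by
  classical
  have hA' := S.P_not A
  have hB' := T.P_not B
  rw [hA] at hA'
  rw [hB] at hB'
  replace hA' : ∑ i, (if A i then 0 else S.w i) = 3 / 5 := by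
    rw [show (3 : ℝ) / 5 = 1 - 2 / 5 by norm_num, ← hA']
    exact sum_congr rfl fun i _ => by by_cases h : A i <;> simp [h]
  replace hB' : ∑ i, (if B i then 0 else T.w i) = 3 / 5 := by
    rw [show (3 : ℝ) / 5 = 1 - 2 / 5 by norm_num, ← hB']
    exact sum_congr rfl fun i _ => by by_cases h : B i <;> simp [h]
  unfold P at hA hB
  let k : S.ι → T.ι → ℝ := fun i j =>
    if A i then (if B j then 5 / 2 else 0) else (if B j then 0 else 5 / 3)
  have k1 : ∀ i, ∑ j, T.w j * k i j = 1 := fun i => by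
    by_cases h : A i
    · have : ∀ j, T.w j * k i j = 5 / 2 * if B j then T.w j else 0 := fun j => by
        simp only [k, if_pos h]; split_ifs <;> ring
      simp only [this, ← mul_sum]
      rw [hB]; norm_num
    · have : ∀ j, T.w j * k i j = 5 / 3 * if B j then 0 else T.w j := fun j => by
        simp only [k, if_neg h]; by_cases h' : B j <;> simp [h', mul_comm]
      simp only [this, ← mul_sum]
      rw [hB']; norm_num
  have k2 : ∀ j, ∑ i, S.w i * k i j = 1 := fun j => by
    by_cases h : B j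
    · have : ∀ i, S.w i * k i j = 5 / 2 * if A i then S.w i else 0 := fun i => by
        simp only [k, if_pos h]; split_ifs <;> ring
      simp only [this, ← mul_sum]
      rw [hA]; norm_num
    · have : ∀ i, S.w i * k i j = 5 / 3 * if A i then 0 else S.w i := fun i => by
        simp only [k, if_neg h]; by_cases h' : A i <;> simp [h', mul_comm]
      simp only [this, ← mul_sum]
      rw [hA']; norm_num
  refine ⟨⟨S.ι × T.ι, inferInstance, fun p => S.w p.1 * (T.w p.2 * k p.1 p.2), fun p => ?_, ?_⟩,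
    fun p => p.1, fun p => p.2, fun E => ?_, fun E => ?_, ?_⟩
  · refine mul_nonneg (S.nonneg _) (mul_nonneg (T.nonneg _) ?_)
    simp only [k]
    split_ifs <;> norm_num
  · rw [Fintype.sum_prod_type]
    simp only [← mul_sum, k1, mul_one]
    exact S.sum_one
  · unfold P
    refine (Fintype.sum_prod_type _).trans (sum_congr rfl fun i _ => ?_)
    by_cases h : E i
    · simp only [h, if_true, ← mul_sum, k1, mul_one]
    · simp [h]
  · unfold P
    refine (Fintype.sum_prod_type_right _).trans (sum_congr rfl fun j _ => ?_)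
    by_cases h : E j
    · simp only [h, if_true, mul_left_comm _ (T.w j), ← mul_sum, k2, mul_one]
    · simp [h]
  · refine sum_eq_zero fun p _ => ?_
    by_cases h1 : A p.1 <;> by_cases h2 : B p.2 <;> simp [h1, h2, k]

/-- Independent coins of bias `2/5`. -/
noncomputable def cube (V : Type) [Fintype V] [DecidableEq V] : PS where
  ι := V → Bool
  fin := inferInstance
  w s := ∏ v, if s v then 2 / 5 else 3 / 5
  nonneg s := prod_nonneg fun v _ => by split_ifs <;> norm_num
  sum_one := by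
    have := Finset.prod_univ_sum (fun _ : V => (univ : Finset Bool))
      (fun _ b => if b then (2 / 5 : ℝ) else 3 / 5)
    rw [Fintype.piFinset_univ] at this
    rw [← this]
    simp only [Fintype.sum_bool]
    norm_num

theorem cube_pat {V : Type} [Fintype V] [DecidableEq V] (T : Finset V) (g : V → Bool) :
    (cube V).P (fun s : V → Bool => ∀ v ∈ T, s v = g v) =
      ∏ v ∈ T, if g v then (2 / 5 : ℝ) else 3 / 5 := by
  have := Finset.prod_univ_sum (fun _ : V => (univ : Finset Bool))
    (fun v b => if v ∈ T → b = g v then (if b then (2 / 5 : ℝ) else 3 / 5) else 0)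
  rw [Fintype.piFinset_univ] at this
  unfold P
  refine Eq.trans (sum_congr rfl fun s _ => ?_) (this.symm.trans ?_)
  · rw [Finset.prod_ite_zero]
    simp [cube]
  · rw [← Finset.prod_ite_mem_eq T]
    refine prod_congr rfl fun v _ => ?_
    rw [Fintype.sum_bool]
    by_cases h : v ∈ T
    · cases g v <;> simp [h]
    · simp only [h, false_imp_iff, if_true, if_false]
      norm_num

end PS

end Pool.Agent.MP_9e68e9_lc.Low
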