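import Pool.Agent.MP_9e68e9_lc.PCPPow

/-! The Margulis expander on `ZMod n × ZMod n` and its numerical form. -/

namespace Pool.Agent.MP_9e68e9_lc.PCP

open Finset
open scoped BigOperators ComplexConjugate

/-- Weight used in the Jimbo-Maruoka argument. -/
noncomputable def gam (x y : ℕ) : ℝ := if y < x then 5 / 4 else if x < y then 4 / 5 else 1

theorem gam_le (x y : ℕ) : gam x y ≤ 5 / 4 := by unfold gam; split_ifs <;> norm_num
theorem gam_ge (x y : ℕ) : 4 / 5 ≤ gam x y := by unfold gam; split_ifs <;> norm_num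

theorem gam_amgm (x y : ℕ) (a b : ℝ) : 2 * (a * b) ≤ gam x y * a ^ 2 + gam y x * b ^ 2 := by
  unfold gam
  rcases lt_trichotomy x y with h | h | h
  · simp only [h, h.not_gt, if_true, if_false]
    nlinarith [sq_nonneg (4 * a - 5 * b)]
  · simp only [h, lt_irrefl, if_false]
    nlinarith [sq_nonneg (a - b)]
  · simp only [h, h.not_gt, if_true, if_false]
    nlinarith [sq_nonneg (5 * a - 4 * b)]

theorem gam_mono {x u v n : ℕ} (h : x + u < n) (hv : u ≤ v ∨ n ≤ u + v) : gam x v ≤ gam x u := by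
  rcases hv with hv | hv
  · unfold gam
    split_ifs <;> first | omega | norm_num
  · have : gam x v = 4 / 5 := by
      unfold gam
      rw [if_neg (by omega), if_pos (by omega)]
    rw [this]; exact gam_ge _ _

theorem gam_four (X Y : ℤ) (h : ¬ (X = 0 ∧ Y = 0)) :
    gam Y.natAbs (Y - 2 * X).natAbs + gam Y.natAbs (Y + 2 * X).natAbs +
      (gam X.natAbs (X - 2 * Y).natAbs + gam X.natAbs (X + 2 * Y).natAbs) ≤ 15 / 4 := by
  unfold gam
  split_ifs <;> first | omega | norm_num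

section Z
variable {n : ℕ} [NeZero n]

/-- Distance to zero. -/
def dz (t : ZMod n) : ℕ := t.valMinAbs.natAbs

theorem dz_ge (u : ℤ) : u.natAbs ≤ dz (u : ZMod n) ∨ n ≤ u.natAbs + dz (u : ZMod n) := by
  have h : ((u - (u : ZMod n).valMinAbs : ℤ) : ZMod n) = 0 := by simp
  rw [ZMod.intCast_zmod_eq_zero_iff_dvd] at h
  by_cases e : u - (u : ZMod n).valMinAbs = 0
  · left; unfold dz; omega
  · right
    have := Int.natAbs_le_of_dvd_ne_zero h e
    unfold dz
    omega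

/-- The factor coming from the shift. -/
noncomputable def cf (a : ZMod n) : ℝ := ‖1 + ZMod.stdAddChar (-a)‖

theorem cf_nonneg (a : ZMod n) : 0 ≤ cf a := norm_nonneg _

theorem cf_sq (a : ZMod n) : cf a ^ 2 = 2 + 2 * Real.cos (2 * Real.pi * dz a / n) := by
  have h : (-a) = ((-a.valMinAbs : ℤ) : ZMod n) := by simp
  have e : (2 * Real.pi * Complex.I * ((-a.valMinAbs : ℤ) : ℂ) / n : ℂ) =
      ((2 * Real.pi * (-a.valMinAbs : ℤ) / n : ℝ) : ℂ) * Complex.I := by
    push_cast; ring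
  unfold cf
  rw [h, ZMod.stdAddChar_coe, e, ← Complex.normSq_eq_norm_sq, Complex.normSq_apply]
  simp only [Complex.add_re, Complex.add_im, Complex.one_re, Complex.one_im,
    Complex.exp_ofReal_mul_I_re, Complex.exp_ofReal_mul_I_im]
  have c : Real.cos (2 * Real.pi * (-a.valMinAbs : ℤ) / n) =
      Real.cos (2 * Real.pi * dz a / n) := by
    rw [← Real.cos_abs]
    congr 1
    unfold dz
    rw [abs_div, abs_mul, abs_of_pos (by positivity : 0 < 2 * Real.pi), Nat.abs_cast]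
    push_cast
    rw [abs_neg, Nat.cast_natAbs]
    push_cast
    rfl
  rw [← c]
  nlinarith [Real.sin_sq_add_cos_sq (2 * Real.pi * (-a.valMinAbs : ℤ) / n)]

theorem cf_le (a : ZMod n) : cf a ≤ 2 := by
  have := cf_sq a
  have := Real.cos_le_one (2 * Real.pi * dz a / n)
  have := cf_nonneg a
  nlinarith

theorem cf_add (a b : ZMod n) (h : n ≤ 2 * (dz a + dz b)) : cf a + cf b ≤ 3 := by
  have hn : (0 : ℝ) < n := by exact_mod_cast Nat.pos_of_ne_zero (NeZero.ne n)
  have ha : 2 * dz a ≤ n := by have := ZMod.natAbs_valMinAbs_le a; unfold dz; omega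
  have hb : 2 * dz b ≤ n := by have := ZMod.natAbs_valMinAbs_le b; unfold dz; omega
  have ha' : (2 * dz a : ℝ) ≤ n := by exact_mod_cast ha
  have hb' : (2 * dz b : ℝ) ≤ n := by exact_mod_cast hb
  have h' : (n : ℝ) ≤ 2 * (dz a + dz b) := by exact_mod_cast h
  have hp := Real.pi_pos
  have c : Real.cos (2 * Real.pi * dz b / n) ≤ Real.cos (Real.pi - 2 * Real.pi * dz a / n) := by
    apply Real.cos_le_cos_of_nonneg_of_le_pi
    · rw [sub_nonneg, div_le_iff₀ hn]; nlinarith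
    · rw [div_le_iff₀ hn]; nlinarith
    · rw [sub_le_iff_le_add, ← add_div, le_div_iff₀ hn]; nlinarith
  rw [Real.cos_pi_sub] at c
  have := cf_sq a
  have := cf_sq b
  nlinarith [cf_nonneg a, cf_nonneg b, sq_nonneg (cf a - cf b)]

theorem bracket (a b : ZMod n) (h : ¬ (a = 0 ∧ b = 0)) :
    cf a * (gam (dz b) (dz (b - 2 * a)) + gam (dz b) (dz (b + 2 * a))) +
      cf b * (gam (dz a) (dz (a - 2 * b)) + gam (dz a) (dz (a + 2 * b))) ≤ 15 / 2 := by
  have g1 := gam_le (dz b) (dz (b - 2 * a))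
  have g2 := gam_le (dz b) (dz (b + 2 * a))
  have g3 := gam_le (dz a) (dz (a - 2 * b))
  have g4 := gam_le (dz a) (dz (a + 2 * b))
  have ca := cf_nonneg a
  have cb := cf_nonneg b
  by_cases hd : n ≤ 2 * (dz a + dz b)
  · have := cf_add a b hd
    nlinarith
  · obtain ⟨X, hX⟩ : ∃ X, X = a.valMinAbs := ⟨_, rfl⟩
    obtain ⟨Y, hY⟩ : ∃ Y, Y = b.valMinAbs := ⟨_, rfl⟩
    have ea : a = (X : ZMod n) := by simp [hX]
    have eb : b = (Y : ZMod n) := by simp [hY]
    have da : dz a = X.natAbs := by rw [hX]; rfl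
    have db : dz b = Y.natAbs := by rw [hY]; rfl
    have h0 : ¬ (X = 0 ∧ Y = 0) := by
      rintro ⟨h1, h2⟩
      exact h ⟨by rw [ea, h1]; simp, by rw [eb, h2]; simp⟩
    have e1 : b - 2 * a = ((Y - 2 * X : ℤ) : ZMod n) := by push_cast; rw [← ea, ← eb]
    have e2 : b + 2 * a = ((Y + 2 * X : ℤ) : ZMod n) := by push_cast; rw [← ea, ← eb]
    have e3 : a - 2 * b = ((X - 2 * Y : ℤ) : ZMod n) := by push_cast; rw [← ea, ← eb]
    have e4 : a + 2 * b = ((X + 2 * Y : ℤ) : ZMod n) := by push_cast; rw [← ea, ← eb]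
    rw [da, db] at hd
    have k1 : gam (dz b) (dz (b - 2 * a)) ≤ gam Y.natAbs (Y - 2 * X).natAbs := by
      rw [e1, db]; exact gam_mono (n := n) (by omega) (dz_ge _)
    have k2 : gam (dz b) (dz (b + 2 * a)) ≤ gam Y.natAbs (Y + 2 * X).natAbs := by
      rw [e2, db]; exact gam_mono (n := n) (by omega) (dz_ge _)
    have k3 : gam (dz a) (dz (a - 2 * b)) ≤ gam X.natAbs (X - 2 * Y).natAbs := by
      rw [e3, da]; exact gam_mono (n := n) (by omega) (dz_ge _)
    have k4 : gam (dz a) (dz (a + 2 * b)) ≤ gam X.natAbs (X + 2 * Y).natAbs := by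
      rw [e4, da]; exact gam_mono (n := n) (by omega) (dz_ge _)
    have := gam_four X Y h0
    have := cf_le a
    have := cf_le b
    have := gam_ge (dz b) (dz (b - 2 * a))
    have := gam_ge (dz b) (dz (b + 2 * a))
    have := gam_ge (dz a) (dz (a - 2 * b))
    have := gam_ge (dz a) (dz (a + 2 * b))
    nlinarith

/-- Shear in the second coordinate. -/
def sh2 (c e : ZMod n) : ZMod n × ZMod n ≃ ZMod n × ZMod n where
  toFun z := (z.1, z.2 + c * z.1 + e)
  invFun z := (z.1, z.2 - c * z.1 - e)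
  left_inv z := by ext <;> simp; ring
  right_inv z := by ext <;> simp; ring

/-- Shear in the first coordinate. -/
def sh1 (c e : ZMod n) : ZMod n × ZMod n ≃ ZMod n × ZMod n where
  toFun z := (z.1 + c * z.2 + e, z.2)
  invFun z := (z.1 - c * z.2 - e, z.2)
  left_inv z := by ext <;> simp; ring
  right_inv z := by ext <;> simp; ring

theorem comb (G : ZMod n × ZMod n → ℝ) (h0 : G (0, 0) = 0) :
    ∑ t, G t * (cf t.1 * G (t.1, t.2 - 2 * t.1) + cf t.2 * G (t.1 - 2 * t.2, t.2)) ≤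
      15 / 4 * ∑ t, G t ^ 2 := by
  have h1 : ∀ t : ZMod n × ZMod n,
      2 * (G t * (cf t.1 * G (t.1, t.2 - 2 * t.1) + cf t.2 * G (t.1 - 2 * t.2, t.2))) ≤
      (cf t.1 * gam (dz t.2) (dz (t.2 - 2 * t.1)) * G t ^ 2 +
        cf t.1 * gam (dz (t.2 - 2 * t.1)) (dz t.2) * G (t.1, t.2 - 2 * t.1) ^ 2) +
      (cf t.2 * gam (dz t.1) (dz (t.1 - 2 * t.2)) * G t ^ 2 +
        cf t.2 * gam (dz (t.1 - 2 * t.2)) (dz t.1) * G (t.1 - 2 * t.2, t.2) ^ 2) := by
    intro t
    have a1 := mul_le_mul_of_nonneg_left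
      (gam_amgm (dz t.2) (dz (t.2 - 2 * t.1)) (G t) (G (t.1, t.2 - 2 * t.1))) (cf_nonneg t.1)
    have a2 := mul_le_mul_of_nonneg_left
      (gam_amgm (dz t.1) (dz (t.1 - 2 * t.2)) (G t) (G (t.1 - 2 * t.2, t.2))) (cf_nonneg t.2)
    linarith
  have h2 := Finset.sum_le_sum (fun t (_ : t ∈ (univ : Finset (ZMod n × ZMod n))) => h1 t)
  rw [← Finset.mul_sum, Finset.sum_add_distrib, Finset.sum_add_distrib,
    Finset.sum_add_distrib] at h2
  have r1 : ∑ t : ZMod n × ZMod n,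
      cf t.1 * gam (dz (t.2 - 2 * t.1)) (dz t.2) * G (t.1, t.2 - 2 * t.1) ^ 2 =
      ∑ t : ZMod n × ZMod n, cf t.1 * gam (dz t.2) (dz (t.2 + 2 * t.1)) * G t ^ 2 := by
    symm
    refine Fintype.sum_equiv (sh2 2 0) _ _ (fun t => ?_)
    simp [sh2]
  have r2 : ∑ t : ZMod n × ZMod n,
      cf t.2 * gam (dz (t.1 - 2 * t.2)) (dz t.1) * G (t.1 - 2 * t.2, t.2) ^ 2 =
      ∑ t : ZMod n × ZMod n, cf t.2 * gam (dz t.1) (dz (t.1 + 2 * t.2)) * G t ^ 2 := by
    symm
    refine Fintype.sum_equiv (sh1 2 0) _ _ (fun t => ?_)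
    simp [sh1]
  rw [r1, r2, ← Finset.sum_add_distrib, ← Finset.sum_add_distrib, ← Finset.sum_add_distrib] at h2
  have h3 : ∑ t : ZMod n × ZMod n,
      ((cf t.1 * gam (dz t.2) (dz (t.2 - 2 * t.1)) * G t ^ 2 +
        cf t.1 * gam (dz t.2) (dz (t.2 + 2 * t.1)) * G t ^ 2) +
      (cf t.2 * gam (dz t.1) (dz (t.1 - 2 * t.2)) * G t ^ 2 +
        cf t.2 * gam (dz t.1) (dz (t.1 + 2 * t.2)) * G t ^ 2)) ≤ ∑ t, 15 / 2 * G t ^ 2 := by
    refine Finset.sum_le_sum (fun t _ => ?_)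
    by_cases ht : t.1 = 0 ∧ t.2 = 0
    · have : G t = 0 := by rw [← h0]; congr 1; exact Prod.ext ht.1 ht.2
      simp [this]
    · have := mul_le_mul_of_nonneg_right (bracket t.1 t.2 ht) (sq_nonneg (G t))
      linarith
  rw [← Finset.mul_sum] at h3
  linarith

/-- Fourier transform. -/
noncomputable def ft (f : ZMod n × ZMod n → ℝ) (t : ZMod n × ZMod n) : ℂ :=
  ∑ z : ZMod n × ZMod n, (f z : ℂ) * ZMod.stdAddChar (t.1 * z.1 + t.2 * z.2)

theorem ortho (z w : ZMod n × ZMod n) :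
    ∑ t : ZMod n × ZMod n, (ZMod.stdAddChar (t.1 * (w.1 - z.1) + t.2 * (w.2 - z.2)) : ℂ) =
      if z = w then ((n : ℂ) * n) else 0 := by
  simp only [AddChar.map_add_eq_mul]
  rw [Fintype.sum_prod_type' (fun a b : ZMod n =>
    (ZMod.stdAddChar (a * (w.1 - z.1)) : ℂ) * ZMod.stdAddChar (b * (w.2 - z.2))),
    ← Finset.sum_mul_sum, AddChar.sum_mulShift _ (ZMod.isPrimitive_stdAddChar n),
    AddChar.sum_mulShift _ (ZMod.isPrimitive_stdAddChar n)]
  by_cases h : z = w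
  · simp [h, ZMod.card]
  · rw [if_neg h]
    by_cases h1 : w.1 - z.1 = 0
    · have h2 : ¬ w.2 - z.2 = 0 := fun h2 =>
        h (Prod.ext (sub_eq_zero.1 h1).symm (sub_eq_zero.1 h2).symm)
      simp [h2]
    · simp [h1]

theorem plancherel (f g : ZMod n × ZMod n → ℝ) :
    ∑ t, conj (ft f t) * ft g t = (((n : ℝ) * n * ∑ z, f z * g z : ℝ) : ℂ) := by
  have h1 : ∀ t, conj (ft f t) * ft g t = ∑ z, ∑ w, (f z * g w : ℂ) *
      ZMod.stdAddChar (t.1 * (w.1 - z.1) + t.2 * (w.2 - z.2)) := by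
    intro t
    unfold ft
    rw [map_sum, Finset.sum_mul_sum]
    refine Finset.sum_congr rfl fun z _ => Finset.sum_congr rfl fun w _ => ?_
    rw [map_mul, Complex.conj_ofReal, ← AddChar.map_neg_eq_conj,
      show t.1 * (w.1 - z.1) + t.2 * (w.2 - z.2) =
        -(t.1 * z.1 + t.2 * z.2) + (t.1 * w.1 + t.2 * w.2) by ring, AddChar.map_add_eq_mul _ (-_)]
    ring
  simp only [h1]
  rw [Finset.sum_comm]
  push_cast
  rw [Finset.mul_sum]
  refine Finset.sum_congr rfl fun z _ => ?_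
  rw [Finset.sum_comm]
  simp only [← Finset.mul_sum, ortho]
  simp only [mul_ite, mul_zero, Finset.sum_ite_eq, Finset.mem_univ, if_true]
  ring

theorem ft_sh1 (f : ZMod n × ZMod n → ℝ) (e : ZMod n) (t : ZMod n × ZMod n) :
    ft (fun z => f (sh1 2 e z)) t = ZMod.stdAddChar (-(t.1 * e)) * ft f (t.1, t.2 - 2 * t.1) := by
  unfold ft
  rw [Finset.mul_sum]
  refine Fintype.sum_equiv (sh1 2 e) _ _ (fun z => ?_)
  rw [mul_left_comm, ← AddChar.map_add_eq_mul]
  congr 2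
  simp only [sh1, Equiv.coe_fn_mk]
  ring

theorem ft_sh2 (f : ZMod n × ZMod n → ℝ) (e : ZMod n) (t : ZMod n × ZMod n) :
    ft (fun z => f (sh2 2 e z)) t = ZMod.stdAddChar (-(t.2 * e)) * ft f (t.1 - 2 * t.2, t.2) := by
  unfold ft
  rw [Finset.mul_sum]
  refine Fintype.sum_equiv (sh2 2 e) _ _ (fun z => ?_)
  rw [mul_left_comm, ← AddChar.map_add_eq_mul]
  congr 2
  simp only [sh2, Equiv.coe_fn_mk]
  ring

theorem margulis (f : ZMod n × ZMod n → ℝ) (h0 : ∑ z, f z = 0) :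
    ∑ z, f z * f (sh1 2 0 z) + ∑ z, f z * f (sh1 2 1 z) +
      (∑ z, f z * f (sh2 2 0 z) + ∑ z, f z * f (sh2 2 1 z)) ≤ 15 / 4 * ∑ z, f z ^ 2 := by
  have hn : (0 : ℝ) < n := by exact_mod_cast Nat.pos_of_ne_zero (NeZero.ne n)
  have p1 := plancherel f (fun z => f (sh1 2 0 z))
  have p2 := plancherel f (fun z => f (sh1 2 1 z))
  have p3 := plancherel f (fun z => f (sh2 2 0 z))
  have p4 := plancherel f (fun z => f (sh2 2 1 z))
  have p0 := plancherel f f
  simp only [ft_sh1, ft_sh2] at p1 p2 p3 p4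
  have g0 : ‖ft f (0, 0)‖ = 0 := by
    unfold ft
    simp only [zero_mul, add_zero, AddChar.map_zero_eq_one, mul_one]
    rw [← Complex.ofReal_sum, h0]; simp
  have c := comb (fun t => ‖ft f t‖) g0
  have q0 : ∑ t, ‖ft f t‖ ^ 2 = n * n * ∑ z, f z ^ 2 := by
    have : ((∑ t, ‖ft f t‖ ^ 2 : ℝ) : ℂ) = ((n * n * ∑ z, f z ^ 2 : ℝ) : ℂ) := by
      simp only [sq (f _)]
      rw [← p0]
      push_cast
      exact Finset.sum_congr rfl fun t _ => by rw [Complex.conj_mul']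
    exact_mod_cast this
  have s : (((n : ℝ) * n * (∑ z, f z * f (sh1 2 0 z) + ∑ z, f z * f (sh1 2 1 z) +
      (∑ z, f z * f (sh2 2 0 z) + ∑ z, f z * f (sh2 2 1 z))) : ℝ) : ℂ) =
      ∑ t, conj (ft f t) * ((1 + ZMod.stdAddChar (-t.1)) * ft f (t.1, t.2 - 2 * t.1) +
        (1 + ZMod.stdAddChar (-t.2)) * ft f (t.1 - 2 * t.2, t.2)) := by
    rw [mul_add, mul_add, mul_add, Complex.ofReal_add, Complex.ofReal_add, Complex.ofReal_add,
      ← p1, ← p2, ← p3, ← p4, ← Finset.sum_add_distrib, ← Finset.sum_add_distrib,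
      ← Finset.sum_add_distrib]
    refine Finset.sum_congr rfl fun t _ => ?_
    simp only [mul_zero, neg_zero, AddChar.map_zero_eq_one, mul_one]
    ring
  have s2 : (n : ℝ) * n * (∑ z, f z * f (sh1 2 0 z) + ∑ z, f z * f (sh1 2 1 z) +
      (∑ z, f z * f (sh2 2 0 z) + ∑ z, f z * f (sh2 2 1 z))) ≤
      ∑ t : ZMod n × ZMod n, ‖ft f t‖ * (cf t.1 * ‖ft f (t.1, t.2 - 2 * t.1)‖ +
        cf t.2 * ‖ft f (t.1 - 2 * t.2, t.2)‖) := by
    refine (le_abs_self _).trans ?_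
    rw [← Real.norm_eq_abs, ← Complex.norm_real, s]
    refine (norm_sum_le _ _).trans (Finset.sum_le_sum fun t _ => ?_)
    rw [norm_mul, Complex.norm_conj]
    refine mul_le_mul_of_nonneg_left ((norm_add_le _ _).trans (le_of_eq ?_)) (norm_nonneg _)
    rw [norm_mul, norm_mul]
    rfl
  have := s2.trans c
  rw [q0, mul_left_comm] at this
  exact le_of_mul_le_mul_left this (by positivity)

/-- The eight generators. -/
def tz (i : Bool × Bool) (b : Bool) : ZMod n × ZMod n ≃ ZMod n × ZMod n :=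
  let u : ZMod n := if b then 1 else -1
  if i.1 then sh1 (2 * u) (if i.2 then u else 0) else sh2 (2 * u) (if i.2 then u else 0)

theorem tz_inv (i : Bool × Bool) (b : Bool) (z : ZMod n × ZMod n) :
    tz i (!b) (tz i b z) = z := by
  obtain ⟨i1, i2⟩ := i
  cases i1 <;> cases i2 <;> cases b <;> ext <;> simp [tz, sh1, sh2] <;> ring

theorem margulis' (f : ZMod n × ZMod n → ℝ) (h0 : ∑ z, f z = 0) :
    1 / 2 * ∑ z, f z ^ 2 ≤ ∑ i : Bool × Bool, ∑ z, (f z - f (tz i true z)) ^ 2 := by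
  have h1 : ∀ e : ZMod n × ZMod n ≃ ZMod n × ZMod n,
      ∑ z, (f z - f (e z)) ^ 2 = 2 * ∑ z, f z ^ 2 - 2 * ∑ z, f z * f (e z) := by
    intro e
    have : ∑ z, f (e z) ^ 2 = ∑ z, f z ^ 2 := Equiv.sum_comp e (fun z => f z ^ 2)
    simp only [sub_sq, Finset.sum_add_distrib, Finset.sum_sub_distrib, this, mul_assoc,
      ← Finset.mul_sum]
    ring
  simp only [h1]
  have := margulis f h0
  simp only [Fintype.sum_prod_type (f := fun i : Bool × Bool =>
    2 * ∑ z, f z ^ 2 - 2 * ∑ z, f z * f (tz i true z)), Fintype.sum_bool]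
  simp only [tz, if_true, mul_one, Bool.false_eq_true, if_false]
  linarith

/-- Numbering of the vertices. -/
def encZ (z : ZMod n × ZMod n) : ℕ := z.1.val * n + z.2.val

theorem encZ_div (z : ZMod n × ZMod n) : encZ z / n = z.1.val := by
  unfold encZ
  rw [add_comm, Nat.add_mul_div_right _ _ (Nat.pos_of_ne_zero (NeZero.ne n)),
    Nat.div_eq_of_lt (ZMod.val_lt _), zero_add]

theorem encZ_mod (z : ZMod n × ZMod n) : encZ z % n = z.2.val := by
  unfold encZ
  rw [add_comm, Nat.add_mul_mod_self_right, Nat.mod_eq_of_lt (ZMod.val_lt _)]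

theorem encZ_lt (z : ZMod n × ZMod n) : encZ z < n * n := by
  unfold encZ
  have h1 := ZMod.val_lt z.1
  have h2 := ZMod.val_lt z.2
  nlinarith

theorem exists_encZ {r : ℕ} (h : r < n * n) : ∃ z : ZMod n × ZMod n, encZ z = r := by
  have hn := Nat.pos_of_ne_zero (NeZero.ne n)
  refine ⟨((r / n : ℕ), (r % n : ℕ)), ?_⟩
  unfold encZ
  simp only [ZMod.val_natCast]
  rw [Nat.mod_eq_of_lt (Nat.div_lt_of_lt_mul h), Nat.mod_mod, Nat.div_add_mod']

theorem sum_encZ (g : ℕ → ℝ) : ∑ r ∈ range (n * n), g r = ∑ z : ZMod n × ZMod n, g (encZ z) := by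
  symm
  refine Finset.sum_bij (fun z _ => encZ z) (fun z _ => mem_range.2 (encZ_lt z)) ?_ ?_
    (fun _ _ => rfl)
  · intro z _ w _ e
    have h1 := congrArg (· / n) e
    have h2 := congrArg (· % n) e
    simp only [encZ_div, encZ_mod] at h1 h2
    exact Prod.ext (ZMod.val_injective _ h1) (ZMod.val_injective _ h2)
  · intro r hr
    obtain ⟨z, hz⟩ := exists_encZ (mem_range.1 hr)
    exact ⟨z, mem_univ _, hz⟩

end Z

/-- The generators of the expander on `{0, …, s * s - 1}`. -/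
def marg (i : Bool × Bool) (b : Bool) (s r : ℕ) : ℕ :=
  let u := bif b then 1 else s - 1
  let e := bif i.2 then u else 0
  bif i.1 then ((r / s + 2 * u * (r % s) + e) % s) * s + r % s
  else (r / s) * s + (r % s + 2 * u * (r / s) + e) % s

theorem marg_encZ {n : ℕ} [NeZero n] (i : Bool × Bool) (b : Bool) (z : ZMod n × ZMod n) :
    marg i b n (encZ z) = encZ (tz i b z) := by
  have hn := Nat.pos_of_ne_zero (NeZero.ne n)
  have h1 : ((n - 1 : ℕ) : ZMod n) = -1 := by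
    rw [Nat.cast_sub hn]; simp
  obtain ⟨i1, i2⟩ := i
  unfold marg
  simp only [encZ_div, encZ_mod, ← ZMod.val_natCast]
  cases i1 <;> cases i2 <;> cases b <;>
    simp [tz, sh1, sh2, encZ, h1]

theorem marg_lt (i : Bool × Bool) (b : Bool) {s r : ℕ} (h : r < s * s) :
    marg i b s r < s * s := by
  haveI : NeZero s := ⟨by rintro rfl; simp at h⟩
  obtain ⟨z, rfl⟩ := exists_encZ h
  rw [marg_encZ]; exact encZ_lt _

theorem marg_inv (i : Bool × Bool) (b : Bool) {s r : ℕ} (h : r < s * s) :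
    marg i (!b) s (marg i b s r) = r := by
  haveI : NeZero s := ⟨by rintro rfl; simp at h⟩
  obtain ⟨z, rfl⟩ := exists_encZ h
  rw [marg_encZ, marg_encZ, tz_inv]

theorem marg_gap (s : ℕ) (g : ℕ → ℝ) (h0 : ∑ r ∈ range (s * s), g r = 0) :
    1 / 2 * ∑ r ∈ range (s * s), g r ^ 2 ≤
      ∑ i : Bool × Bool, ∑ r ∈ range (s * s), (g r - g (marg i true s r)) ^ 2 := by
  rcases Nat.eq_zero_or_pos s with rfl | hs
  · simp
  haveI : NeZero s := ⟨hs.ne'⟩
  simp only [sum_encZ, marg_encZ] at h0 ⊢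
  exact margulis' (fun z => g (encZ z)) h0

theorem marg_cut (s : ℕ) (β : ℕ → Bool) : ∃ c : Bool,
    ∑ r ∈ range (s * s), ind (β r ≠ c) ≤
      4 * ∑ i : Bool × Bool, ∑ r ∈ range (s * s), ind (β r ≠ β (marg i true s r)) := by
  rcases Nat.eq_zero_or_pos s with rfl | hs
  · simp
  have hN : (0 : ℝ) < (s * s : ℕ) := by exact_mod_cast Nat.mul_pos hs hs
  have key : ∀ c : Bool, 2 * ∑ r ∈ range (s * s), ind (β r ≠ c) ≤ (s * s : ℕ) →
      ∑ r ∈ range (s * s), ind (β r ≠ c) ≤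
      4 * ∑ i : Bool × Bool, ∑ r ∈ range (s * s), ind (β r ≠ β (marg i true s r)) := by
    intro c hc
    obtain ⟨k, hk⟩ : ∃ k, k = ∑ r ∈ range (s * s), ind (β r ≠ c) := ⟨_, rfl⟩
    obtain ⟨N, hNN⟩ : ∃ N : ℝ, N = (s * s : ℕ) := ⟨_, rfl⟩
    rw [← hk] at hc ⊢
    rw [← hNN] at hc hN
    have hk0 : 0 ≤ k := hk ▸ Finset.sum_nonneg fun _ _ => ind_nonneg _
    have := marg_gap s (fun r => ind (β r ≠ c) - k / N) (by
      rw [Finset.sum_sub_distrib, ← hk]
      simp only [Finset.sum_const, card_range, nsmul_eq_mul, ← hNN]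
      field_simp
      ring)
    have e1 : ∑ r ∈ range (s * s), (ind (β r ≠ c) - k / N) ^ 2 = k - k ^ 2 / N := by
      simp only [sub_sq, sq (ind _), ind_mul_self, Finset.sum_add_distrib, Finset.sum_sub_distrib,
        mul_assoc, ← Finset.mul_sum, ← Finset.sum_mul, ← hk]
      simp only [Finset.sum_const, card_range, nsmul_eq_mul, ← hNN]
      field_simp
      ring
    have e2 : ∀ i r, (ind (β r ≠ c) - k / N - (ind (β (marg i true s r) ≠ c) - k / N)) ^ 2 =
        ind (β r ≠ β (marg i true s r)) := by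
      intro i r
      rw [sub_sub_sub_cancel_right]
      cases β r <;> cases β (marg i true s r) <;> cases c <;> simp [ind]
    simp only [e1, e2] at this
    have : k ^ 2 / N ≤ k / 2 := by
      rw [div_le_div_iff₀ hN (by norm_num)]; nlinarith
    linarith
  have tot : ∑ r ∈ range (s * s), ind (β r ≠ true) + ∑ r ∈ range (s * s), ind (β r ≠ false) =
      (s * s : ℕ) := by
    rw [← Finset.sum_add_distrib, Finset.sum_congr rfl (g := fun _ => (1 : ℝ))]
    · simp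
    · intro r _
      cases β r <;> simp [ind]
  by_cases h : 2 * ∑ r ∈ range (s * s), ind (β r ≠ true) ≤ (s * s : ℕ)
  · exact ⟨true, key _ h⟩
  · exact ⟨false, key _ (by linarith)⟩

end Pool.Agent.MP_9e68e9_lc.PCP
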