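import Pool.Agent.MP_9e68e9_lc.PCPExp
import Pool.Agent.MP_2e8011_lc.CookLevin

/-! The regular expanding constraint graph of a formula with clauses of width four. -/

namespace Pool.Agent.MP_9e68e9_lc.PCP

open Finset Pool.Agent.MP_2e8011_lc
open scoped BigOperators

theorem sum_le_of_inj {α β : Type} [DecidableEq β] (s : Finset α) (t : Finset β) (e : α → β)
    (hi : ∀ a ∈ s, ∀ b ∈ s, e a = e b → a = b) (hm : ∀ a ∈ s, e a ∈ t) (f : α → ℝ) (g : β → ℝ)
    (hg : ∀ b, 0 ≤ g b) (h : ∀ a ∈ s, f a ≤ g (e a)) : ∑ a ∈ s, f a ≤ ∑ b ∈ t, g b := by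
  refine (Finset.sum_le_sum h).trans ?_
  rw [← Finset.sum_image (g := e) (f := g) hi]
  refine Finset.sum_le_sum_of_subset_of_nonneg ?_ (fun b _ _ => hg b)
  intro b hb
  obtain ⟨a, ha, rfl⟩ := Finset.mem_image.1 hb
  exact hm a ha

/-- Number of `i < n` with `p i`. -/
def cntP (p : ℕ → Bool) (n : ℕ) : ℕ := ((List.range n).filter p).length

theorem cntP_add (p : ℕ → Bool) (a b : ℕ) :
    cntP p (a + b) = cntP p a + cntP (fun k => p (a + k)) b := by
  simp [cntP, List.range_add, List.filter_map, Function.comp_def]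

theorem getD_cntP {p : ℕ → Bool} {v B : ℕ} (hv : v < B) (hp : p v = true) :
    ((List.range B).filter p).getD (cntP p v) 0 = v ∧ cntP p v < cntP p B := by
  obtain ⟨k, rfl⟩ : ∃ k, B = v + 1 + k := ⟨B - v - 1, by omega⟩
  unfold cntP
  rw [List.range_add, List.range_succ, List.filter_append, List.filter_append]
  simp [hp]

theorem cntP_getD {p : ℕ → Bool} {i B : ℕ} (hi : i < cntP p B) :
    ((List.range B).filter p).getD i 0 < B ∧ p (((List.range B).filter p).getD i 0) = true ∧
      cntP p (((List.range B).filter p).getD i 0) = i := by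
  have hm : ((List.range B).filter p).getD i 0 ∈ (List.range B).filter p := by
    rw [List.getD_eq_getElem _ _ hi]; exact List.getElem_mem _
  have h1 := List.mem_range.1 (List.mem_filter.1 hm).1
  have h2 := (List.mem_filter.1 hm).2
  refine ⟨h1, h2, ?_⟩
  obtain ⟨e, hl⟩ := getD_cntP h1 h2
  have nd : ((List.range B).filter p).Nodup := List.nodup_range.filter _
  exact nd.getElem_inj_iff.1
    ((List.getD_eq_getElem _ _ hl).symm.trans (e.trans (List.getD_eq_getElem _ _ hi)))

/-- One plus the integer square root. -/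
def sq1 (x : ℕ) : ℕ := cntP (fun i => decide (i * i ≤ x)) (x + 1)

theorem sq1_eq (x : ℕ) : sq1 x = Nat.sqrt x + 1 := by
  unfold sq1
  obtain ⟨k, hk⟩ : ∃ k, x + 1 = (Nat.sqrt x + 1) + k :=
    ⟨x - Nat.sqrt x, by have := Nat.sqrt_le_self x; omega⟩
  rw [hk, cntP_add]
  have h1 : cntP (fun i => decide (i * i ≤ x)) (Nat.sqrt x + 1) = Nat.sqrt x + 1 := by
    unfold cntP
    rw [List.filter_eq_self.2, List.length_range]
    intro a ha
    have := List.mem_range.1 ha
    exact decide_eq_true (Nat.le_sqrt.1 (by omega))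
  have h2 : cntP (fun k => decide ((Nat.sqrt x + 1 + k) * (Nat.sqrt x + 1 + k) ≤ x)) k = 0 := by
    unfold cntP
    rw [List.filter_eq_nil_iff.2, List.length_nil]
    intro a _
    simp only [decide_eq_true_eq, ← Nat.le_sqrt]
    omega
  rw [h1, h2]

theorem lt_sq1 (x : ℕ) : x < sq1 x * sq1 x := by
  rw [sq1_eq]; exact Nat.lt_succ_sqrt x

theorem sq1_le {x : ℕ} (h : 0 < x) : sq1 x * sq1 x ≤ 4 * x := by
  rw [sq1_eq]
  have h1 : 0 < Nat.sqrt x := Nat.sqrt_pos.2 h
  have h2 := Nat.sqrt_le x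
  nlinarith

/-- The alphabet of the graph. -/
abbrev Sg : Type := Fin 4 → Bool

/-- Edge labels. -/
abbrev Lb : Type := Option (Option (Bool × (Bool × Bool))) × Bool

/-- Reverse label. -/
def flp (j : Lb) : Lb := (j.1, !j.2)

theorem flp_inv : Function.Involutive flp := fun j => by simp [flp]

/-- The literal with occurrence number `o`. -/
def lit (φ : CNF) (o : ℕ) : ℕ × Bool := (φ.getD (o / 4) []).getD (o % 4) (0, false)

/-- Number of occurrences. -/
def MM (φ : CNF) : ℕ := 4 * φ.length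

/-- The variable of a vertex. -/
def vr (φ : CNF) (v : ℕ) : ℕ := (lit φ (v % MM φ)).1

/-- Membership in a cloud. -/
def inC (φ : CNF) (x w : ℕ) : Bool := decide (vr φ w = x)

/-- The cloud of a variable. -/
def cloud (φ : CNF) (x : ℕ) : List ℕ := (List.range (4 * MM φ)).filter (inC φ x)

/-- Position of a vertex in its cloud. -/
def rank (φ : CNF) (v : ℕ) : ℕ := cntP (inC φ (vr φ v)) v

/-- Side of the expander on a cloud. -/
def cs (φ : CNF) (x : ℕ) : ℕ := sq1 (cntP (inC φ x) (MM φ))

/-- Side of the global expander. -/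
def gs (φ : CNF) : ℕ := sq1 (4 * MM φ)

/-- Number of vertices. -/
def NN (φ : CNF) : ℕ := gs φ * gs φ

/-- Neighbour in the clause cycle. -/
def nxR (φ : CNF) (b : Bool) (v : ℕ) : ℕ :=
  if v < MM φ then 4 * (v / 4) + (v % 4 + (bif b then 1 else 3)) % 4 else v

/-- Neighbour in the cloud. -/
def nxC (φ : CNF) (i : Bool × Bool) (b : Bool) (v : ℕ) : ℕ :=
  if v < 4 * MM φ ∧ rank φ v < cs φ (vr φ v) * cs φ (vr φ v) then
    (cloud φ (vr φ v)).getD (marg i b (cs φ (vr φ v)) (rank φ v)) 0 else v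

/-- Neighbour along a label. -/
def nx (φ : CNF) : Lb → ℕ → ℕ
  | (none, _), v => v
  | (some none, b), v => nxR φ b v
  | (some (some (true, i)), b), v => nxC φ i b v
  | (some (some (false, i)), b), v => marg i b (gs φ) v

/-- Position of a vertex in its clause. -/
def pos (v : ℕ) : Fin 4 := ⟨v % 4, Nat.mod_lt _ (by norm_num)⟩

/-- Constraint on the clause cycle. -/
def conR (φ : CNF) (v : ℕ) (x y : Sg) : Bool :=
  if v < MM φ then decide (x = y) && decide (∃ p : Fin 4, x p = (lit φ (4 * (v / 4) + p)).2)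
  else true

/-- Constraint along a label. -/
def con (φ : CNF) : Lb → ℕ → Sg → Sg → Bool
  | (some none, true), v, x, y => conR φ v x y
  | (some (some (true, i)), true), v, x, y => decide (x (pos v) = y (pos (nxC φ i true v)))
  | _, _, _, _ => true

theorem cntP_cloud (φ : CNF) (x t : ℕ) :
    cntP (inC φ x) (t * MM φ) = t * cntP (inC φ x) (MM φ) := by
  induction t with
  | zero => simp [cntP]
  | succ t ih =>
    rw [Nat.succ_mul, cntP_add, ih, Nat.succ_mul]
    congr 2
    funext k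
    simp [inC, vr]

theorem cs_le (φ : CNF) {v : ℕ} (hv : v < 4 * MM φ) :
    cs φ (vr φ v) * cs φ (vr φ v) ≤ cntP (inC φ (vr φ v)) (4 * MM φ) := by
  have h1 := (getD_cntP (p := inC φ (vr φ v)) hv (by simp [inC])).2
  rw [cntP_cloud] at h1 ⊢
  exact sq1_le (by omega)

theorem cloud_getD (φ : CNF) {x r : ℕ} (hr : r < cntP (inC φ x) (4 * MM φ)) :
    (cloud φ x).getD r 0 < 4 * MM φ ∧ vr φ ((cloud φ x).getD r 0) = x ∧
      rank φ ((cloud φ x).getD r 0) = r := by
  obtain ⟨h1, h2, h3⟩ := cntP_getD hr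
  have h4 : vr φ ((cloud φ x).getD r 0) = x := by simpa [inC, cloud] using h2
  refine ⟨h1, h4, ?_⟩
  unfold rank
  rw [h4]; exact h3

theorem getD_rank (φ : CNF) {v : ℕ} (hv : v < 4 * MM φ) :
    (cloud φ (vr φ v)).getD (rank φ v) 0 = v :=
  (getD_cntP (p := inC φ (vr φ v)) hv (by simp [inC])).1

theorem lt_NN (φ : CNF) : 4 * MM φ < NN φ := lt_sq1 _

theorem nxC_spec (φ : CNF) (i : Bool × Bool) (b : Bool) {v : ℕ}
    (h : v < 4 * MM φ ∧ rank φ v < cs φ (vr φ v) * cs φ (vr φ v)) :
    nxC φ i b v < 4 * MM φ ∧ vr φ (nxC φ i b v) = vr φ v ∧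
      rank φ (nxC φ i b v) = marg i b (cs φ (vr φ v)) (rank φ v) := by
  unfold nxC
  rw [if_pos h]
  exact cloud_getD φ ((marg_lt i b h.2).trans_le (cs_le φ h.1))

theorem nx_lt (φ : CNF) (j : Lb) {v : ℕ} (hv : v < NN φ) : nx φ j v < NN φ := by
  have := lt_NN φ
  rcases j with ⟨_ | _ | ⟨_ | _, i⟩, b⟩
  · exact hv
  · simp only [nx, nxR]
    split_ifs with h
    · unfold MM at *; omega
    · exact hv
  · exact marg_lt _ _ hv
  · simp only [nx]
    by_cases h : v < 4 * MM φ ∧ rank φ v < cs φ (vr φ v) * cs φ (vr φ v)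
    · have := (nxC_spec φ i b h).1; omega
    · rw [nxC, if_neg h]; exact hv

theorem nx_inv (φ : CNF) (j : Lb) {v : ℕ} (hv : v < NN φ) : nx φ (flp j) (nx φ j v) = v := by
  rcases j with ⟨_ | _ | ⟨_ | _, i⟩, b⟩
  · rfl
  · simp only [nx, nxR, flp]
    by_cases h : v < MM φ
    · cases b <;> simp only [h, if_true, cond_true, cond_false, Bool.not_true, Bool.not_false] <;>
        (rw [if_pos (by unfold MM at *; omega)]; omega)
    · simp [h]
  · exact marg_inv _ _ hv
  · simp only [nx, flp]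
    by_cases h : v < 4 * MM φ ∧ rank φ v < cs φ (vr φ v) * cs φ (vr φ v)
    · obtain ⟨h1, h2, h3⟩ := nxC_spec φ i b h
      rw [nxC, if_pos ⟨h1, by rw [h2, h3]; exact marg_lt _ _ h.2⟩, h2, h3, marg_inv _ _ h.2]
      exact getD_rank φ h.1
    · have : nxC φ i b v = v := by rw [nxC, if_neg h]
      rw [this, nxC, if_neg h]

/-- The neighbour maps on the vertex type. -/
def sg (φ : CNF) (j : Lb) (v : Fin (NN φ)) : Fin (NN φ) := ⟨nx φ j v, nx_lt φ j v.2⟩

theorem sg_inv (φ : CNF) (j : Lb) (v : Fin (NN φ)) : sg φ (flp j) (sg φ j v) = v :=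
  Fin.ext (nx_inv φ j v.2)

theorem wk_sg (φ : CNF) (v : Fin (NN φ)) (p : List Lb) :
    (wk (sg φ) v p).val = wk (nx φ) v.val p := by
  induction p generalizing v with
  | nil => rfl
  | cons j p ih => rw [wk_cons, wk_cons, ih]; rfl

instance (φ : CNF) : Nonempty (Fin (NN φ)) := ⟨⟨0, (Nat.zero_le _).trans_lt (lt_NN φ)⟩⟩

theorem card_Lb : Fintype.card Lb = 20 := by simp [Lb]

theorem var_ineq {J : Type} [Fintype J] (x : J → ℝ) (j0 : J) :
    (𝔼 j, x j) ^ 2 ≤ 𝔼 j, x j ^ 2 -
      1 / (2 * (Fintype.card J : ℝ) ^ 2) * ∑ k, (x j0 - x k) ^ 2 := by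
  haveI : Nonempty J := ⟨j0⟩
  have hD : (0 : ℝ) < Fintype.card J := by exact_mod_cast Fintype.card_pos
  have h1 : ∑ k, (x j0 - x k) ^ 2 ≤ ∑ j, ∑ k, (x j - x k) ^ 2 :=
    Finset.single_le_sum (f := fun j => ∑ k, (x j - x k) ^ 2)
      (fun j _ => Finset.sum_nonneg fun _ _ => sq_nonneg _) (mem_univ j0)
  have h2 : ∑ j, ∑ k, (x j - x k) ^ 2 =
      2 * Fintype.card J * ∑ j, x j ^ 2 - 2 * (∑ j, x j) ^ 2 := by
    simp only [sub_sq, Finset.sum_add_distrib, Finset.sum_sub_distrib, Finset.sum_const,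
      Finset.card_univ, nsmul_eq_mul, mul_assoc, ← Finset.mul_sum, ← Finset.sum_mul]
    ring
  rw [Fintype.expect_eq_sum_div_card, Fintype.expect_eq_sum_div_card]
  have h3 := mul_le_mul_of_nonneg_left h1
    (show 0 ≤ 1 / (2 * (Fintype.card J : ℝ) ^ 2) by positivity)
  have h4 : 1 / (2 * (Fintype.card J : ℝ) ^ 2) * ∑ j, ∑ k, (x j - x k) ^ 2 =
      (∑ j, x j ^ 2) / Fintype.card J - ((∑ j, x j) / Fintype.card J) ^ 2 := by
    rw [h2]; field_simp
  linarith

theorem sg_gap (φ : CNF) (f : Fin (NN φ) → ℝ) (h0 : 𝔼 v, f v = 0) :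
    𝔼 v, (𝔼 j, f (sg φ j v)) ^ 2 ≤ (1 - 1 / 1600) * 𝔼 v, f v ^ 2 := by
  have hN : (0 : ℝ) < NN φ := by exact_mod_cast (Nat.zero_le _).trans_lt (lt_NN φ)
  let g : ℕ → ℝ := fun r => if h : r < NN φ then f ⟨r, h⟩ else 0
  have hg : ∀ v : Fin (NN φ), g v = f v := fun v => by simp [g]
  have s0 : ∑ r ∈ range (gs φ * gs φ), g r = 0 := by
    rw [show gs φ * gs φ = NN φ from rfl, Finset.sum_range]
    simp only [hg]
    rw [Fintype.expect_eq_sum_div_card, Fintype.card_fin, div_eq_zero_iff] at h0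
    exact h0.resolve_right hN.ne'
  have m := marg_gap (gs φ) g s0
  rw [show gs φ * gs φ = NN φ from rfl] at m
  simp only [Finset.sum_range, hg] at m
  have h1 : ∀ v, (𝔼 j, f (sg φ j v)) ^ 2 ≤ 𝔼 j, f (sg φ j v) ^ 2 -
      1 / 800 * ∑ i : Bool × Bool, (f v - g (marg i true (gs φ) v)) ^ 2 := by
    intro v
    have a := var_ineq (fun j => f (sg φ j v)) (none, true)
    rw [card_Lb] at a
    have b : ∑ i : Bool × Bool, (f v - g (marg i true (gs φ) v)) ^ 2 ≤
        ∑ k, (f (sg φ (none, true) v) - f (sg φ k v)) ^ 2 := by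
      refine sum_le_of_inj _ _ (fun i => ((some (some (false, i)), true) : Lb)) ?_
        (fun _ _ => mem_univ _) _ _ (fun _ => sq_nonneg _) (fun i _ => le_of_eq ?_)
      · intro a _ b _ e; simpa using e
      · rw [← hg (sg φ (some (some (false, i)), true) v)]; rfl
    norm_num at a ⊢
    linarith
  refine (Finset.expect_le_expect fun v _ => h1 v).trans ?_
  rw [Finset.expect_sub_distrib, Finset.expect_comm, ← Finset.mul_expect]
  simp only [expect_step (sg_inv φ) _ (fun v => f v ^ 2), Finset.expect_const univ_nonempty]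
  rw [Fintype.expect_eq_sum_div_card (fun v : Fin (NN φ) =>
    ∑ i : Bool × Bool, (f v - g (marg i true (gs φ) v)) ^ 2), Finset.sum_comm,
    Fintype.expect_eq_sum_div_card, Fintype.card_fin]
  have := div_le_div_of_nonneg_right m hN.le
  rw [mul_div_assoc] at this
  linarith

/-- All clauses have width four. -/
def W4 (φ : CNF) : Prop := ∀ c ∈ φ, c.length = 4

/-- Number of violated clauses. -/
def viol (a : ℕ → Bool) (φ : CNF) : ℕ := φ.countP (fun c => c.all (fun l => a l.1 != l.2))

theorem countP_eq_sum {α : Type} (P : α → Bool) (d : α) (l : List α) :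
    (l.countP P : ℝ) = ∑ i ∈ range l.length, ind (P (l.getD i d) = true) := by
  induction l with
  | nil => simp
  | cons a l ih =>
    rw [List.length_cons, Finset.sum_range_succ', List.countP_cons]
    push_cast
    rw [ih]
    simp [ind]

theorem sum_range_four (g : ℕ → ℝ) (m : ℕ) :
    ∑ o ∈ range (4 * m), g o =
      ∑ i ∈ range m, (g (4 * i) + g (4 * i + 1) + g (4 * i + 2) + g (4 * i + 3)) := by
  induction m with
  | zero => simp
  | succ m ih =>
    rw [Finset.sum_range_succ, ← ih, show 4 * (m + 1) = 4 * m + 1 + 1 + 1 + 1 by ring]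
    simp only [Finset.sum_range_succ]
    ring

theorem lit_eq (φ : CNF) (i : ℕ) (p : Fin 4) :
    lit φ (4 * i + p) = (φ.getD i []).getD p (0, false) := by
  have := p.2
  unfold lit
  rw [show (4 * i + p) / 4 = i by omega, show (4 * i + p) % 4 = p by omega]

theorem graph_complete {φ : CNF} (hw : W4 φ) {a : ℕ → Bool} (ha : SatBy a φ) :
    ∃ A0 : ℕ → Sg, ∀ v j, con φ j v (A0 v) (A0 (nx φ j v)) = true := by
  refine ⟨fun v p => a (lit φ (4 * (v % MM φ / 4) + p)).1, fun v j => ?_⟩
  rcases j with ⟨_ | _ | ⟨_ | _, i⟩, _ | _⟩ <;> try rfl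
  · simp only [con, nx, conR, nxR]
    split_ifs with h
    · have h1 : (4 * (v / 4) + (v % 4 + bif true then 1 else 3) % 4) % MM φ / 4 = v / 4 := by
        rw [Nat.mod_eq_of_lt (by unfold MM at *; simp only [cond_true]; omega)]
        simp only [cond_true]; omega
      simp only [h1, Nat.mod_eq_of_lt h, decide_true, Bool.true_and, decide_eq_true_eq]
      have hi : v / 4 < φ.length := by unfold MM at h; omega
      have hm : φ.getD (v / 4) [] ∈ φ := by
        rw [List.getD_eq_getElem _ _ hi]; exact List.getElem_mem _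
      obtain ⟨l, hl, e⟩ := ha _ hm
      obtain ⟨p, hp, rfl⟩ := List.getElem_of_mem hl
      refine ⟨⟨p, hw _ hm ▸ hp⟩, ?_⟩
      rw [lit_eq, List.getD_eq_getElem _ _ hp]
      exact e
    · rfl
  · simp only [con, nx, decide_eq_true_eq]
    have key : ∀ w, 4 * (w % MM φ / 4) + (pos w : ℕ) = w % MM φ := by
      intro w
      have : w % MM φ % 4 = w % 4 := Nat.mod_mod_of_dvd _ ⟨_, rfl⟩
      simp only [pos]; omega
    rw [key, key]
    by_cases h : v < 4 * MM φ ∧ rank φ v < cs φ (vr φ v) * cs φ (vr φ v)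
    · exact congrArg a (nxC_spec φ i true h).2.1.symm
    · rw [nxC, if_neg h]

theorem graph_sound {φ : CNF} (hw : W4 φ) (A0 : ℕ → Sg) : ∃ a : ℕ → Bool,
    (viol a φ : ℝ) ≤ 5 * ∑ v ∈ range (NN φ), ∑ j,
      ind (con φ j v (A0 v) (A0 (nx φ j v)) = false) := by
  let β : ℕ → ℕ → Bool := fun x r => A0 ((cloud φ x).getD r 0) (pos ((cloud φ x).getD r 0))
  choose a ha using fun x => marg_cut (cs φ x) (β x)
  refine ⟨a, ?_⟩
  let E : ℕ → ℝ := fun v => ∑ j, ind (con φ j v (A0 v) (A0 (nx φ j v)) = false)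
  have hE : ∀ v, 0 ≤ E v := fun v => Finset.sum_nonneg fun _ _ => ind_nonneg _
  let ρ : ℕ → Prop := fun v => conR φ v (A0 v) (A0 (nxR φ true v)) = false
  let μ : ℕ → Prop := fun v => A0 v (pos v) ≠ a (vr φ v)
  have h1 : (viol a φ : ℝ) ≤ ∑ o ∈ range (MM φ), (ind (ρ o) + ind (μ o)) := by
    unfold viol MM
    rw [countP_eq_sum _ [], sum_range_four]
    refine Finset.sum_le_sum fun i hi => ?_
    have hi' := mem_range.1 hi
    by_cases hv : ((φ.getD i []).all fun l => a l.1 != l.2) = true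
    · rw [ind_pos hv]
      by_contra hc
      push Not at hc
      have n0 := ind_nonneg (ρ (4 * i))
      have n1 := ind_nonneg (ρ (4 * i + 1))
      have n2 := ind_nonneg (ρ (4 * i + 2))
      have n3 := ind_nonneg (ρ (4 * i + 3))
      have m0 := ind_nonneg (μ (4 * i))
      have m1 := ind_nonneg (μ (4 * i + 1))
      have m2 := ind_nonneg (μ (4 * i + 2))
      have m3 := ind_nonneg (μ (4 * i + 3))
      have nz : ∀ p : Prop, ind p < 1 → ¬ p := fun p h hp => by
        rw [ind_pos hp] at h; exact lt_irrefl _ h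
      have hr : ∀ p : Fin 4, ¬ ρ (4 * i + p) := by
        intro p
        fin_cases p <;> exact nz _ (by simp only [Nat.add_zero]; linarith)
      have hμ : ∀ p : Fin 4, ¬ μ (4 * i + p) := by
        intro p
        fin_cases p <;> exact nz _ (by simp only [Nat.add_zero]; linarith)
      have hr' : ∀ p : Fin 4, A0 (4 * i + p) = A0 (4 * i + (p + 1) % 4) ∧
          ∃ q : Fin 4, A0 (4 * i + p) q = (lit φ (4 * i + q)).2 := by
        intro p
        have h := hr p
        have hp := p.2
        have lt : 4 * i + p < MM φ := by unfold MM; omega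
        simp only [ρ, conR, nxR, lt, if_true, cond_true, Bool.not_eq_false, Bool.and_eq_true,
          decide_eq_true_eq] at h
        rw [show (4 * i + p) / 4 = i by omega, show (4 * i + p) % 4 = p by omega] at h
        exact h
      have e1 := (hr' 0).1
      have e2 := (hr' 1).1
      have e3 := (hr' 2).1
      have eq : ∀ p : Fin 4, A0 (4 * i + p) = A0 (4 * i + (0 : Fin 4)) := by
        intro p
        fin_cases p
        · rfl
        · exact e1.symm
        · exact (e1.trans e2).symm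
        · exact ((e1.trans e2).trans e3).symm
      obtain ⟨q, hq⟩ := (hr' 0).2
      have hq4 := q.2
      have h2 := not_not.1 (hμ q)
      have pq : pos (4 * i + q) = q := Fin.ext (by simp only [pos]; omega)
      have vq : vr φ (4 * i + q) = (lit φ (4 * i + q)).1 := by
        unfold vr; rw [Nat.mod_eq_of_lt (by unfold MM; omega)]
      rw [pq, eq, hq, vq, lit_eq] at h2
      have hm : φ.getD i [] ∈ φ := by
        rw [List.getD_eq_getElem _ _ hi']; exact List.getElem_mem _
      have hl : (q : ℕ) < (φ.getD i []).length := by rw [hw _ hm]; exact hq4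
      rw [List.getD_eq_getElem _ _ hl] at h2
      have := List.all_eq_true.1 hv _ (List.getElem_mem hl)
      rw [← h2] at this
      simp at this
    · rw [ind_neg hv]
      have := fun o => add_nonneg (ind_nonneg (ρ o)) (ind_nonneg (μ o))
      linarith [this (4 * i), this (4 * i + 1), this (4 * i + 2), this (4 * i + 3)]
  have hsub : ∀ B, B ≤ NN φ → ∑ v ∈ range B, E v ≤ ∑ v ∈ range (NN φ), E v := fun B hB =>
    Finset.sum_le_sum_of_subset_of_nonneg (Finset.range_subset_range.2 hB) (fun v _ _ => hE v)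
  have hN := lt_NN φ
  have h2 : ∑ o ∈ range (MM φ), ind (ρ o) ≤ ∑ v ∈ range (NN φ), E v := by
    refine le_trans (Finset.sum_le_sum fun o _ => ?_) (hsub (MM φ) (by omega))
    exact Finset.single_le_sum (f := fun j => ind (con φ j o (A0 o) (A0 (nx φ j o)) = false))
      (fun _ _ => ind_nonneg _) (mem_univ ((some none, true) : Lb))
  have h3 : ∑ o ∈ range (MM φ), ind (μ o) ≤ 4 * ∑ v ∈ range (4 * MM φ), E v := by
    have mp1 : ∀ o ∈ range (MM φ), vr φ o ∈ (range (4 * MM φ)).image (vr φ) := fun o ho =>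
      mem_image_of_mem _ (mem_range.2 (by have := mem_range.1 ho; omega))
    have mp2 : ∀ o ∈ range (4 * MM φ), vr φ o ∈ (range (4 * MM φ)).image (vr φ) := fun o ho =>
      mem_image_of_mem _ ho
    rw [← Finset.sum_fiberwise_of_maps_to mp1, ← Finset.sum_fiberwise_of_maps_to mp2,
      Finset.mul_sum]
    refine Finset.sum_le_sum fun x hx => ?_
    obtain ⟨v0, hv0, rfl⟩ := mem_image.1 hx
    have hcs := cs_le φ (mem_range.1 hv0)
    generalize vr φ v0 = x at hcs
    refine le_trans ?_ ((ha x).trans (mul_le_mul_of_nonneg_left ?_ (by norm_num)))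
    · refine sum_le_of_inj _ _ (rank φ) ?_ ?_ _ _ (fun _ => ind_nonneg _) ?_
      · intro o ho o' ho' e
        rw [mem_filter, mem_range] at ho ho'
        rw [← getD_rank φ (v := o) (by omega), ← getD_rank φ (v := o') (by omega), e, ho.2, ho'.2]
      · intro o ho
        rw [mem_filter, mem_range] at ho
        have := (getD_cntP (p := inC φ x) ho.1 (by simp [inC, ho.2])).2
        rw [mem_range, rank, ho.2]
        exact this.trans (lt_sq1 _)
      · intro o ho
        rw [mem_filter, mem_range] at ho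
        have := getD_rank φ (v := o) (by omega)
        rw [ho.2] at this
        simp only [μ, β, this, ho.2, le_refl]
    · rw [Finset.sum_comm]
      refine sum_le_of_inj _ _ (fun r => (cloud φ x).getD r 0) ?_ ?_ _ _ hE ?_
      · intro r hr r' hr' e
        rw [← (cloud_getD φ ((mem_range.1 hr).trans_le hcs)).2.2,
          ← (cloud_getD φ ((mem_range.1 hr').trans_le hcs)).2.2, e]
      · intro r hr
        have := cloud_getD φ ((mem_range.1 hr).trans_le hcs)
        exact mem_filter.2 ⟨mem_range.2 this.1, this.2.1⟩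
      · intro r hr
        obtain ⟨c1, c2, c3⟩ := cloud_getD φ ((mem_range.1 hr).trans_le hcs)
        refine sum_le_of_inj _ _ (fun i => ((some (some (true, i)), true) : Lb)) ?_
          (fun _ _ => mem_univ _) _ _ (fun _ => ind_nonneg _) (fun i _ => le_of_eq ?_)
        · intro a _ b _ e; simpa using e
        · have : nxC φ i true ((cloud φ x).getD r 0) =
              (cloud φ x).getD (marg i true (cs φ x) r) 0 := by
            rw [nxC, if_pos ⟨c1, by rw [c2, c3]; exact mem_range.1 hr⟩, c2, c3]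
          simp only [con, nx, this, β, decide_eq_false_iff_not]
  rw [Finset.sum_add_distrib] at h1
  have := hsub (4 * MM φ) hN.le
  linarith

end Pool.Agent.MP_9e68e9_lc.PCP
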