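import Mathlib

/-! Gap amplification by graph powering (abstract form). -/

namespace Pool.Agent.MP_9e68e9_lc.PCP

open Finset
open scoped BigOperators

/-- Indicator of a proposition. -/
noncomputable def ind (p : Prop) : ℝ := by classical exact if p then 1 else 0

theorem ind_pos {p : Prop} (h : p) : ind p = 1 := by simp [ind, h]
theorem ind_neg {p : Prop} (h : ¬ p) : ind p = 0 := by simp [ind, h]
theorem ind_nonneg (p : Prop) : 0 ≤ ind p := by unfold ind; split_ifs <;> norm_num
theorem ind_le_one (p : Prop) : ind p ≤ 1 := by unfold ind; split_ifs <;> norm_num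
theorem ind_mul_self (p : Prop) : ind p * ind p = ind p := by unfold ind; split_ifs <;> norm_num
theorem ind_mono {p q : Prop} (h : p → q) : ind p ≤ ind q := by
  by_cases hp : p
  · rw [ind_pos hp, ind_pos (h hp)]
  · rw [ind_neg hp]; exact ind_nonneg q
theorem ind_congr {p q : Prop} (h : p ↔ q) : ind p = ind q := by rw [propext h]
theorem ind_not (p : Prop) : ind (¬ p) = 1 - ind p := by
  by_cases hp : p
  · rw [ind_pos hp, ind_neg (not_not.2 hp)]; norm_num
  · rw [ind_neg hp, ind_pos hp]; norm_num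

section Words
variable {J : Type} [Fintype J]

/-- Average over all words of length `n`. -/
noncomputable def avgW (n : ℕ) (g : List J → ℝ) : ℝ := 𝔼 w : Fin n → J, g (List.ofFn w)

theorem avgW_zero (g : List J → ℝ) : avgW 0 g = g [] := by
  simp [avgW]

theorem avgW_succ (n : ℕ) (g : List J → ℝ) :
    avgW (n + 1) g = 𝔼 j, avgW n (fun w => g (j :: w)) := by
  unfold avgW
  rw [← Finset.expect_product', Finset.univ_product_univ]
  symm
  refine Fintype.expect_equiv (Fin.consEquiv (fun _ : Fin (n + 1) => J)) _ _ (fun x => ?_)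
  simp [Fin.consEquiv, List.ofFn_succ]

theorem avgW_congr {n : ℕ} {g h : List J → ℝ} (e : ∀ w, w.length = n → g w = h w) :
    avgW n g = avgW n h :=
  Finset.expect_congr rfl (fun w _ => e _ (by simp))

theorem avgW_mono {n : ℕ} {g h : List J → ℝ} (e : ∀ w, w.length = n → g w ≤ h w) :
    avgW n g ≤ avgW n h :=
  Finset.expect_le_expect (fun w _ => e _ (by simp))

theorem avgW_const [Nonempty J] (n : ℕ) (c : ℝ) : avgW n (fun _ : List J => c) = c := by
  unfold avgW; simp

theorem avgW_addf (n : ℕ) (g h : List J → ℝ) :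
    avgW n (fun w => g w + h w) = avgW n g + avgW n h := by
  unfold avgW; exact Finset.expect_add_distrib _ _ _

theorem avgW_subf (n : ℕ) (g h : List J → ℝ) :
    avgW n (fun w => g w - h w) = avgW n g - avgW n h := by
  unfold avgW; exact Finset.expect_sub_distrib _ _ _

theorem avgW_mul (n : ℕ) (c : ℝ) (g : List J → ℝ) :
    avgW n (fun w => c * g w) = c * avgW n g := by
  unfold avgW; exact (Finset.mul_expect _ _ _).symm

theorem avgW_sum {ι : Type} (s : Finset ι) (n : ℕ) (g : ι → List J → ℝ) :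
    avgW n (fun w => ∑ i ∈ s, g i w) = ∑ i ∈ s, avgW n (g i) := by
  unfold avgW; exact Finset.expect_sum_comm _ _ _

theorem avgW_expect {ι : Type} [Fintype ι] (n : ℕ) (g : ι → List J → ℝ) :
    avgW n (fun w => 𝔼 i, g i w) = 𝔼 i, avgW n (g i) := by
  unfold avgW; exact Finset.expect_comm _ _ _

theorem avgW_nonneg {n : ℕ} {g : List J → ℝ} (h : ∀ w, 0 ≤ g w) : 0 ≤ avgW n g :=
  Finset.expect_nonneg (fun _ _ => h _)

theorem avgW_append (m n : ℕ) (g : List J → ℝ) :
    avgW (m + n) g = avgW m (fun p => avgW n (fun q => g (p ++ q))) := by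
  induction m generalizing g with
  | zero => simp [avgW_zero]
  | succ m ih =>
    rw [show m + 1 + n = (m + n) + 1 by omega, avgW_succ, avgW_succ]
    refine Finset.expect_congr rfl (fun j _ => ?_)
    rw [ih]
    rfl

/-- The reverse path. -/
def rv (ι : J → J) (p : List J) : List J := (p.map ι).reverse

omit [Fintype J] in
theorem rv_cons (ι : J → J) (j : J) (p : List J) : rv ι (j :: p) = rv ι p ++ [ι j] := by
  simp [rv]

omit [Fintype J] in
theorem length_rv (ι : J → J) (p : List J) : (rv ι p).length = p.length := by simp [rv]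

theorem avgW_rv {ι : J → J} (hι : Function.Involutive ι) (n : ℕ) (g : List J → ℝ) :
    avgW n (fun p => g (rv ι p)) = avgW n g := by
  induction n generalizing g with
  | zero => simp [avgW_zero, rv]
  | succ n ih =>
    rw [avgW_succ, avgW_append n 1 g]
    simp only [rv_cons]
    have h1 : ∀ j, avgW n (fun w => g (rv ι w ++ [ι j])) = avgW n (fun w => g (w ++ [ι j])) :=
      fun j => ih (fun w => g (w ++ [ι j]))
    simp only [h1]
    have h2 : ∀ p : List J, avgW 1 (fun q => g (p ++ q)) = 𝔼 j, g (p ++ [j]) := by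
      intro p
      rw [avgW_succ]
      simp only [avgW_zero]
    simp only [h2]
    rw [avgW_expect]
    exact Fintype.expect_equiv hι.toPerm _ _ (fun j => rfl)

end Words

section Walks
variable {V J : Type}

/-- End point of the walk from `v` with label word `p`. -/
def wk (σ : J → V → V) (v : V) (p : List J) : V := p.foldl (fun v j => σ j v) v

@[simp] theorem wk_nil (σ : J → V → V) (v : V) : wk σ v [] = v := rfl
@[simp] theorem wk_cons (σ : J → V → V) (v : V) (j : J) (p : List J) :
    wk σ v (j :: p) = wk σ (σ j v) p := rfl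
theorem wk_append (σ : J → V → V) (v : V) (p q : List J) :
    wk σ v (p ++ q) = wk σ (wk σ v p) q := by simp [wk]

theorem wk_rv {σ : J → V → V} {ι : J → J} (hσ : ∀ j v, σ (ι j) (σ j v) = v) (v : V) (p : List J) :
    wk σ (wk σ v p) (rv ι p) = v := by
  induction p generalizing v with
  | nil => rfl
  | cons j p ih => rw [rv_cons, wk_append, wk_cons σ v, ih]; simp [hσ]

theorem wk_bij [Finite V] {σ : J → V → V} {ι : J → J} (hσ : ∀ j v, σ (ι j) (σ j v) = v)
    (p : List J) : Function.Bijective (fun v => wk σ v p) :=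
  Finite.injective_iff_bijective.1
    (Function.LeftInverse.injective (g := fun v => wk σ v (rv ι p)) (fun v => wk_rv hσ v p))

theorem expect_bij [Fintype V] {e : V → V} (he : Function.Bijective e) (f : V → ℝ) :
    𝔼 v, f (e v) = 𝔼 v, f v :=
  Fintype.expect_equiv (Equiv.ofBijective e he) _ _ (fun _ => rfl)

theorem expect_step [Fintype V] {σ : J → V → V} {ι : J → J} (hσ : ∀ j v, σ (ι j) (σ j v) = v)
    (j : J) (f : V → ℝ) : 𝔼 v, f (σ j v) = 𝔼 v, f v :=
  expect_bij (wk_bij hσ [j]) f

variable [Fintype V] [Fintype J]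

theorem reversal {σ : J → V → V} {ι : J → J} (hι : Function.Involutive ι)
    (hσ : ∀ j v, σ (ι j) (σ j v) = v) (r : ℕ) (Φ : V → List J → ℝ) :
    𝔼 a, avgW r (Φ a) = 𝔼 u, avgW r (fun p => Φ (wk σ u p) (rv ι p)) := by
  rw [← avgW_expect, ← avgW_expect, ← avgW_rv hι]
  refine avgW_congr (fun p _ => ?_)
  exact (expect_bij (wk_bij hσ p) (fun a => Φ a (rv ι p))).symm

/-- Number of marked steps among the first `n` steps of a walk. -/
noncomputable def cnt (σ : J → V → V) (X : V → J → ℝ) : ℕ → V → List J → ℝ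
  | 0, _, _ => 0
  | _ + 1, _, [] => 0
  | n + 1, a, j :: w => X a j + cnt σ X n (σ j a) w

omit [Fintype V] [Fintype J] in
theorem cnt_eq (σ : J → V → V) (X : V → J → ℝ) (d : J) (n : ℕ) (a : V) (w : List J)
    (h : n ≤ w.length) :
    cnt σ X n a w = ∑ r ∈ range n, X (wk σ a (w.take r)) (w.getD r d) := by
  induction n generalizing a w with
  | zero => simp [cnt]
  | succ n ih =>
    cases w with
    | nil => simp at h
    | cons j w =>
      rw [Finset.sum_range_succ', cnt, ih _ _ (by simpa using h)]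
      simp [add_comm]

theorem second_moment [Nonempty V] [Nonempty J] {σ : J → V → V} {ι : J → J}
    (hσ : ∀ j v, σ (ι j) (σ j v) = v) {θ : ℝ} (hθ : 0 < θ) (hθ1 : θ ≤ 1)
    (hgap : ∀ f : V → ℝ, 𝔼 v, f v = 0 →
      𝔼 v, (𝔼 j, f (σ j v)) ^ 2 ≤ (1 - θ) * 𝔼 v, f v ^ 2)
    (X : V → J → ℝ) (hX0 : ∀ v j, 0 ≤ X v j) (hX1 : ∀ v j, X v j ≤ 1) (k n : ℕ) :
    𝔼 a, avgW (n + k) (fun w => cnt σ X n a w ^ 2) ≤
      n * ((2 + 2 / θ ^ 3) * (𝔼 v, 𝔼 j, X v j) + 2 * n * (𝔼 v, 𝔼 j, X v j) ^ 2) := by
  set ε := 𝔼 v, 𝔼 j, X v j with hε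
  have hε0 : 0 ≤ ε := Finset.expect_nonneg fun v _ => Finset.expect_nonneg fun j _ => hX0 v j
  let m : ℕ → V → ℝ := fun n a => avgW (n + k) (cnt σ X n a)
  have m0 : ∀ a, m 0 a = 0 := fun a => by
    simp only [m]
    exact (avgW_congr (h := fun _ => 0) (fun w _ => by simp [cnt])).trans (avgW_const _ _)
  have ms : ∀ n a, m (n + 1) a = (𝔼 j, X a j) + 𝔼 j, m n (σ j a) := by
    intro n a
    simp only [m]
    rw [show n + 1 + k = (n + k) + 1 by omega, avgW_succ, ← Finset.expect_add_distrib]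
    refine Finset.expect_congr rfl (fun j _ => ?_)
    simp only [cnt]
    rw [avgW_addf, avgW_const]
  have mean : ∀ n, 𝔼 a, m n a = n * ε := by
    intro n
    induction n with
    | zero => simp [m0]
    | succ n ih =>
      simp only [ms]
      rw [Finset.expect_add_distrib, Finset.expect_comm (f := fun a j => m n (σ j a))]
      simp only [expect_step hσ, ih]
      simp only [Finset.expect_const Finset.univ_nonempty]
      push_cast
      ring
  have hφ : 𝔼 a, ((𝔼 j, X a j) - ε) ^ 2 ≤ ε := by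
    have h1 : ∀ a, ((𝔼 j, X a j) - ε) ^ 2 ≤ (𝔼 j, X a j) - 2 * ε * (𝔼 j, X a j) + ε ^ 2 := by
      intro a
      have a0 : 0 ≤ 𝔼 j, X a j := Finset.expect_nonneg fun j _ => hX0 a j
      have a1 : 𝔼 j, X a j ≤ 1 :=
        (Finset.expect_le_expect (g := fun _ => (1 : ℝ)) fun j _ => hX1 a j).trans (by simp)
      nlinarith
    refine (Finset.expect_le_expect (fun a _ => h1 a)).trans ?_
    rw [Finset.expect_add_distrib, Finset.expect_sub_distrib, ← Finset.mul_expect, ← hε]
    simp only [Finset.expect_const Finset.univ_nonempty]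
    nlinarith
  have var : ∀ n, 𝔼 a, (m n a - n * ε) ^ 2 ≤ 2 / θ ^ 3 * ε := by
    intro n
    induction n with
    | zero => simp [m0]; positivity
    | succ n ih =>
      have hz : 𝔼 a, (m n a - n * ε) = 0 := by
        rw [Finset.expect_sub_distrib, mean]; simp
      have hg := hgap _ hz
      have h1 : ∀ a, (m (n + 1) a - (n + 1 : ℕ) * ε) ^ 2 ≤
          (1 + 1 / θ) * ((𝔼 j, X a j) - ε) ^ 2 +
            (1 + θ) * (𝔼 j, (m n (σ j a) - n * ε)) ^ 2 := by
        intro a
        rw [ms, Finset.expect_sub_distrib]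
        simp only [Finset.expect_const Finset.univ_nonempty]
        push_cast
        obtain ⟨x, hx⟩ : ∃ x, x = (𝔼 j, X a j) - ε := ⟨_, rfl⟩
        obtain ⟨y, hy⟩ : ∃ y, y = (𝔼 j, m n (σ j a)) - n * ε := ⟨_, rfl⟩
        have e : (𝔼 j, X a j) + (𝔼 j, m n (σ j a)) - (n + 1) * ε = x + y := by rw [hx, hy]; ring
        rw [e, ← hx, ← hy]
        have : 0 ≤ (x - θ * y) ^ 2 / θ := by positivity
        have e2 : (1 + 1 / θ) * x ^ 2 + (1 + θ) * y ^ 2 - (x + y) ^ 2 = (x - θ * y) ^ 2 / θ := by
          field_simp; ring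
        linarith
      refine (Finset.expect_le_expect (fun a _ => h1 a)).trans ?_
      rw [Finset.expect_add_distrib, ← Finset.mul_expect, ← Finset.mul_expect]
      have b1 : (1 + 1 / θ) * 𝔼 a, ((𝔼 j, X a j) - ε) ^ 2 ≤ (1 + 1 / θ) * ε :=
        mul_le_mul_of_nonneg_left hφ (by positivity)
      have b2 : (1 + θ) * 𝔼 a, (𝔼 j, (m n (σ j a) - n * ε)) ^ 2 ≤
          (1 + θ) * ((1 - θ) * (2 / θ ^ 3 * ε)) :=
        mul_le_mul_of_nonneg_left
          (hg.trans (mul_le_mul_of_nonneg_left ih (by linarith))) (by positivity)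
      have b3 : (1 + 1 / θ) * ε + (1 + θ) * ((1 - θ) * (2 / θ ^ 3 * ε)) ≤ 2 / θ ^ 3 * ε := by
        have e : 2 / θ ^ 3 * ε - ((1 + 1 / θ) * ε + (1 + θ) * ((1 - θ) * (2 / θ ^ 3 * ε))) =
            (1 - θ) / θ * ε := by field_simp; ring
        have : 0 ≤ (1 - θ) / θ * ε := by
          have : 0 ≤ 1 - θ := by linarith
          positivity
        linarith
      linarith
  induction n with
  | zero =>
    have : ∀ a, avgW (0 + k) (fun w => cnt σ X 0 a w ^ 2) = 0 := fun a =>
      (avgW_congr (h := fun _ => 0) (fun w _ => by simp [cnt])).trans (avgW_const _ _)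
    simp only [this]
    simp
  | succ n ih =>
    have hs : ∀ a, avgW (n + 1 + k) (fun w => cnt σ X (n + 1) a w ^ 2) =
        𝔼 j, (X a j ^ 2 + 2 * X a j * m n (σ j a) +
          avgW (n + k) (fun w => cnt σ X n (σ j a) w ^ 2)) := by
      intro a
      rw [show n + 1 + k = (n + k) + 1 by omega, avgW_succ]
      refine Finset.expect_congr rfl (fun j _ => ?_)
      simp only [cnt, m]
      rw [← avgW_mul, ← avgW_const (J := J) (n + k) (X a j ^ 2), ← avgW_addf, ← avgW_addf]
      exact avgW_congr (fun w _ => by ring)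
    simp only [hs]
    have h1 : ∀ a j, X a j ^ 2 + 2 * X a j * m n (σ j a) +
          avgW (n + k) (fun w => cnt σ X n (σ j a) w ^ 2) ≤
        (2 + 2 * n * ε) * X a j + (m n (σ j a) - n * ε) ^ 2 +
          avgW (n + k) (fun w => cnt σ X n (σ j a) w ^ 2) := by
      intro a j
      have := hX0 a j
      have := hX1 a j
      nlinarith [sq_nonneg (X a j - (m n (σ j a) - n * ε))]
    refine (Finset.expect_le_expect (fun a _ => Finset.expect_le_expect
      (fun j _ => h1 a j))).trans ?_
    simp only [Finset.expect_add_distrib, ← Finset.mul_expect]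
    rw [← hε, Finset.expect_comm (f := fun a j => (m n (σ j a) - n * ε) ^ 2),
      Finset.expect_comm (f := fun a j => avgW (n + k) (fun w => cnt σ X n (σ j a) w ^ 2))]
    simp only [expect_step hσ _ (fun a => (m n a - n * ε) ^ 2),
      expect_step hσ _ (fun a => avgW (n + k) (fun w => cnt σ X n a w ^ 2))]
    simp only [Finset.expect_const Finset.univ_nonempty]
    have := var n
    push_cast
    have hn : (0 : ℝ) ≤ n := Nat.cast_nonneg n
    nlinarith [mul_nonneg hn (sq_nonneg ε), sq_nonneg ε]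

end Walks

section Power
variable {V J S : Type}

/-- Label words shorter than `R`. -/
abbrev Pth (J : Type) (R : ℕ) : Type := {p : List J // p.length < R}

instance [Finite J] (R : ℕ) : Finite (Pth J R) := (List.finite_length_lt J R).to_subtype

/-- The opinion about the end point of the path `p`. -/
def op [Inhabited S] {R : ℕ} (x : Pth J R → S) (p : List J) : S :=
  if h : p.length < R then x ⟨p, h⟩ else default

/-- The constraint of the powered graph. -/
def PS [Inhabited S] (σ : J → V → V) (ι : J → J) (con : J → V → S → S → Bool) (d : J) (R : ℕ)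
    (a : V) (l : ℕ) (w : List J) (x y : Pth J R → S) : Prop :=
  ∀ r < R, ∀ s < R, r + s + 1 = l →
    con (w.getD r d) (wk σ a (w.take r)) (op x (w.take r))
      (op y (rv ι ((w.drop (r + 1)).take s))) = true

theorem take_split (w : List J) (r s : ℕ) :
    w.take (r + s + 1) = w.take (r + 1) ++ (w.drop (r + 1)).take s := by
  rw [show r + s + 1 = (r + 1) + s by omega, List.take_add]

theorem take_succ_getD (w : List J) (d : J) {r : ℕ} (h : r < w.length) :
    w.take (r + 1) = w.take r ++ [w.getD r d] := by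
  rw [List.take_add_one, List.getD_eq_getElem?_getD, List.getElem?_eq_getElem h]
  simp

theorem power_complete [Inhabited S] {σ : J → V → V} {ι : J → J}
    (hσ : ∀ j v, σ (ι j) (σ j v) = v) (con : J → V → S → S → Bool) (d : J) (R : ℕ)
    (A0 : V → S) (h : ∀ v j, con j v (A0 v) (A0 (σ j v)) = true) (a : V) (l : ℕ) (w : List J)
    (hw : R ≤ w.length) :
    PS σ ι con d R a l w (fun p => A0 (wk σ a p.1)) (fun p => A0 (wk σ (wk σ a (w.take l)) p.1)) := by
  intro r hr s hs e
  have h1 : (w.take r).length < R := by simp; omega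
  have h2 : (rv ι ((w.drop (r + 1)).take s)).length < R := by rw [length_rv]; simp; omega
  simp only [op, h1, h2, dif_pos]
  rw [← e, take_split, wk_append, wk_rv hσ, take_succ_getD w d (by omega), wk_append]
  exact h _ _

variable [Fintype V] [Fintype J] [Fintype S] [Inhabited S]

theorem exists_plural [Nonempty J] (R : ℕ) (o : ℕ → List J → S) :
    ∃ x : S, (R : ℝ) / Fintype.card S ≤ ∑ r ∈ range R, avgW r (fun p => ind (o r p = x)) := by
  by_contra hc
  push Not at hc
  have h1 : ∑ x : S, ∑ r ∈ range R, avgW r (fun p => ind (o r p = x)) = R := by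
    rw [Finset.sum_comm]
    have : ∀ r, ∑ x : S, avgW r (fun p => ind (o r p = x)) = 1 := by
      intro r
      rw [← avgW_sum, ← avgW_const (J := J) r 1]
      refine avgW_congr (fun p _ => ?_)
      rw [Finset.sum_eq_single (o r p)]
      · exact ind_pos rfl
      · exact fun b _ hb => ind_neg (Ne.symm hb)
      · simp
    simp [this]
  have h2 := Finset.sum_lt_sum_of_nonempty (s := (univ : Finset S)) Finset.univ_nonempty
    (fun x _ => hc x)
  rw [h1] at h2
  have : (0 : ℝ) < Fintype.card S := by exact_mod_cast Fintype.card_pos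
  simp only [Finset.sum_const, Finset.card_univ, nsmul_eq_mul] at h2
  rw [mul_div_cancel₀ _ this.ne'] at h2
  exact lt_irrefl _ h2

theorem first_moment [Nonempty J] {σ : J → V → V} {ι : J → J} (hι : Function.Involutive ι)
    (hσ : ∀ j v, σ (ι j) (σ j v) = v) (d : J) (X : V → J → ℝ) (G : V → List J → V → ℝ)
    (r s k : ℕ) :
    𝔼 a, avgW (r + ((s + k) + 1)) (fun w => X (wk σ a (w.take r)) (w.getD r d) *
        G a (w.take r) (wk σ a (w.take r)) *
        G (wk σ a (w.take (r + s + 1))) (rv ι ((w.drop (r + 1)).take s))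
          (wk σ a (w.take (r + 1)))) =
      𝔼 u, 𝔼 j, X u j * avgW r (fun p => G (wk σ u p) (rv ι p) u) *
        avgW s (fun p => G (wk σ (σ j u) p) (rv ι p) (σ j u)) := by
  have h1 : ∀ a, avgW (r + ((s + k) + 1)) (fun w => X (wk σ a (w.take r)) (w.getD r d) *
        G a (w.take r) (wk σ a (w.take r)) *
        G (wk σ a (w.take (r + s + 1))) (rv ι ((w.drop (r + 1)).take s))
          (wk σ a (w.take (r + 1)))) =
      avgW r (fun p => G a p (wk σ a p) * 𝔼 j, X (wk σ a p) j *
        avgW s (fun q => G (wk σ (σ j (wk σ a p)) q) (rv ι q) (σ j (wk σ a p)))) := by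
    intro a
    rw [avgW_append]
    refine avgW_congr (fun p hp => ?_)
    rw [avgW_succ, Finset.mul_expect]
    refine Finset.expect_congr rfl (fun j _ => ?_)
    rw [avgW_append, ← mul_assoc, ← avgW_mul]
    refine avgW_congr (fun q hq => ?_)
    rw [← avgW_const (J := J) k (G a p (wk σ a p) * X (wk σ a p) j *
      G (wk σ (σ j (wk σ a p)) q) (rv ι q) (σ j (wk σ a p)))]
    refine avgW_congr (fun z _ => ?_)
    have e1 : (p ++ j :: (q ++ z)).take r = p := by rw [← hp]; simp
    have e2 : (p ++ j :: (q ++ z)).getD r d = j := by rw [← hp]; simp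
    have e3 : (p ++ j :: (q ++ z)).take (r + 1) = p ++ [j] := by
      rw [← hp, List.take_append]; simp
    have e4 : ((p ++ j :: (q ++ z)).drop (r + 1)).take s = q := by
      rw [← hp, ← hq, List.drop_append, List.drop_of_length_le (Nat.le_succ _)]; simp
    rw [take_split, e1, e2, e3, e4, wk_append, wk_append]
    simp only [wk_cons, wk_nil]
    ring
  simp only [h1]
  rw [reversal hι hσ]
  refine Finset.expect_congr rfl (fun u _ => ?_)
  simp only [wk_rv hσ]
  have : ∀ c : ℝ, avgW r (fun p => G (wk σ u p) (rv ι p) u * c) =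
      c * avgW r (fun p => G (wk σ u p) (rv ι p) u) := fun c => by
    rw [← avgW_mul]; exact avgW_congr (fun _ _ => by ring)
  rw [this, Finset.expect_mul]
  exact Finset.expect_congr rfl (fun j _ => by ring)

theorem power_sound [Nonempty V] [Nonempty J] {σ : J → V → V} {ι : J → J}
    (hι : Function.Involutive ι)
    (hσ : ∀ j v, σ (ι j) (σ j v) = v) {θ : ℝ} (hθ : 0 < θ) (hθ1 : θ ≤ 1)
    (hgap : ∀ f : V → ℝ, 𝔼 v, f v = 0 →
      𝔼 v, (𝔼 j, f (σ j v)) ^ 2 ≤ (1 - θ) * 𝔼 v, f v ^ 2)
    (con : J → V → S → S → Bool) (d : J) {R : ℕ} (hR : 0 < R) {ε0 : ℝ}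
    (h0 : ∀ A0 : V → S, ε0 ≤ 𝔼 v, 𝔼 j, ind (con j v (A0 v) (A0 (σ j v)) = false))
    (A : V → Pth J R → S) :
    (1 / (2 * (Fintype.card S : ℝ) ^ 2)) ^ 2 / (4 + 2 / θ ^ 3) * min (R * ε0) 1 ≤
      𝔼 a, 𝔼 l : Fin (2 * R), avgW (2 * R)
        (fun w => ind (¬ PS σ ι con d R a l w (A a) (A (wk σ a (w.take l))))) := by
  choose A0 hA0 using fun u : V =>
    exists_plural (J := J) R (fun _ p => op (A (wk σ u p)) (rv ι p))
  let X : V → J → ℝ := fun v j => ind (con j v (A0 v) (A0 (σ j v)) = false)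
  let G : V → List J → V → ℝ := fun a p u => ind (op (A a) p = A0 u)
  let Z : ℕ → ℕ → V → List J → ℝ := fun r s a w => X (wk σ a (w.take r)) (w.getD r d) *
        G a (w.take r) (wk σ a (w.take r)) *
        G (wk σ a (w.take (r + s + 1))) (rv ι ((w.drop (r + 1)).take s))
          (wk σ a (w.take (r + 1)))
  let N : V → ℕ → List J → ℝ := fun a l w =>
    ∑ r ∈ range R, ∑ s ∈ range R, ind (r + s + 1 = l) * Z r s a w
  obtain ⟨ε, hε⟩ : ∃ ε, ε = 𝔼 v, 𝔼 j, X v j := ⟨_, rfl⟩
  have hε0 : ε0 ≤ ε := hε ▸ h0 A0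
  have hεn : 0 ≤ ε := hε ▸
    Finset.expect_nonneg fun v _ => Finset.expect_nonneg fun j _ => ind_nonneg _
  obtain ⟨q, hq⟩ : ∃ q : ℝ, q = Fintype.card S := ⟨_, rfl⟩
  have hq0 : 0 < q := by rw [hq]; exact_mod_cast Fintype.card_pos
  have hR0 : (0 : ℝ) < R := by exact_mod_cast hR
  rw [← hq] at hA0 ⊢
  have hZ0 : ∀ r s a w, 0 ≤ Z r s a w := fun r s a w =>
    mul_nonneg (mul_nonneg (ind_nonneg _) (ind_nonneg _)) (ind_nonneg _)
  have hZ1 : ∀ r s a w, Z r s a w ≤ X (wk σ a (w.take r)) (w.getD r d) := fun r s a w => by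
    have a1 : 0 ≤ X (wk σ a (w.take r)) (w.getD r d) := ind_nonneg _
    exact (mul_le_of_le_one_right (mul_nonneg a1 (ind_nonneg _)) (ind_le_one _)).trans
      (mul_le_of_le_one_right a1 (ind_le_one _))
  have hN0 : ∀ a l w, 0 ≤ N a l w := fun a l w =>
    Finset.sum_nonneg fun r _ => Finset.sum_nonneg fun s _ => mul_nonneg (ind_nonneg _) (hZ0 _ _ _ _)
  have hN1 : ∀ a l (w : List J), w.length = 2 * R → N a l w ≤ cnt σ X R a w := by
    intro a l w hw
    rw [cnt_eq σ X d R a w (by omega)]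
    refine Finset.sum_le_sum (fun r _ => ?_)
    have a1 : 0 ≤ X (wk σ a (w.take r)) (w.getD r d) := ind_nonneg _
    calc ∑ s ∈ range R, ind (r + s + 1 = l) * Z r s a w
        ≤ ∑ s ∈ range R, ind (r + s + 1 = l) * X (wk σ a (w.take r)) (w.getD r d) :=
          Finset.sum_le_sum fun s _ => mul_le_mul_of_nonneg_left (hZ1 _ _ _ _) (ind_nonneg _)
      _ ≤ _ := by
          rw [← Finset.sum_mul]
          refine mul_le_of_le_one_left a1 ?_
          by_cases hs : l - 1 - r ∈ range R
          · rw [Finset.sum_eq_single_of_mem _ hs (fun b _ hb => ind_neg (by omega))]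
            exact ind_le_one _
          · rw [Finset.sum_eq_zero (fun b hb => ind_neg (fun e => hs (by
              rw [show l - 1 - r = b by omega]; exact hb)))]
            norm_num
  have hNv : ∀ a l (w : List J), w.length = 2 * R →
      PS σ ι con d R a l w (A a) (A (wk σ a (w.take l))) → N a l w = 0 := by
    intro a l w hw hP
    refine Finset.sum_eq_zero fun r hr => Finset.sum_eq_zero fun s hs => ?_
    by_cases e : r + s + 1 = l
    · have := hP r (mem_range.1 hr) s (mem_range.1 hs) e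
      have hr' := mem_range.1 hr
      by_cases g1 : op (A a) (w.take r) = A0 (wk σ a (w.take r))
      · by_cases g2 : op (A (wk σ a (w.take (r + s + 1)))) (rv ι ((w.drop (r + 1)).take s)) =
            A0 (wk σ a (w.take (r + 1)))
        · rw [← e, g1, g2, take_succ_getD w d (by omega), wk_append] at this
          have hX : X (wk σ a (w.take r)) (w.getD r d) = 0 := ind_neg (by
            simp only [wk_cons, wk_nil] at this
            rw [this]; simp)
          simp only [Z, hX, zero_mul, mul_zero]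
        · simp only [Z, G, ind_neg g2, mul_zero]
      · simp only [Z, G, ind_neg g1, mul_zero, zero_mul]
    · rw [ind_neg e, zero_mul]
  have E1 : R * ε / (2 * q ^ 2) ≤ 𝔼 a, 𝔼 l : Fin (2 * R), avgW (2 * R) (N a l) := by
    have s1 : ∀ a, 𝔼 l : Fin (2 * R), avgW (2 * R) (N a l) =
        (∑ r ∈ range R, ∑ s ∈ range R, avgW (2 * R) (Z r s a)) / (2 * R) := by
      intro a
      rw [Fintype.expect_eq_sum_div_card, Fintype.card_fin]
      push_cast
      congr 1
      simp only [N, avgW_sum, avgW_mul]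
      rw [Finset.sum_comm]
      refine Finset.sum_congr rfl (fun r hr => ?_)
      rw [Finset.sum_comm]
      refine Finset.sum_congr rfl (fun s hs => ?_)
      rw [← Finset.sum_mul, Finset.sum_eq_single
        (⟨r + s + 1, by have := mem_range.1 hr; have := mem_range.1 hs; omega⟩ : Fin (2 * R)),
        ind_pos rfl, one_mul]
      · exact fun b _ hb => ind_neg (fun e => hb (Fin.ext e.symm))
      · simp
    simp only [s1]
    rw [← Finset.expect_div, le_div_iff₀ (by positivity)]
    simp only [Finset.expect_sum_comm]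
    have s2 : ∀ r ∈ range R, ∀ s ∈ range R, 𝔼 a, avgW (2 * R) (Z r s a) =
        𝔼 u, 𝔼 j, X u j * avgW r (fun p => G (wk σ u p) (rv ι p) u) *
          avgW s (fun p => G (wk σ (σ j u) p) (rv ι p) (σ j u)) := by
      intro r hr s hs
      have := mem_range.1 hr
      have := mem_range.1 hs
      rw [← first_moment hι hσ d X G r s (2 * R - r - s - 1),
        show r + (s + (2 * R - r - s - 1) + 1) = 2 * R by omega]
    rw [Finset.sum_congr rfl (fun r hr => Finset.sum_congr rfl (s2 r hr))]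
    simp only [← Finset.expect_sum_comm]
    have s3 : R * ε / (2 * q ^ 2) * (2 * R) = 𝔼 u, 𝔼 j, X u j * (R / q) * (R / q) := by
      simp only [← Finset.expect_mul]
      rw [← hε]
      field_simp
    rw [s3]
    refine Finset.expect_le_expect fun u _ => Finset.expect_le_expect fun j _ => ?_
    simp only [← Finset.mul_sum]
    rw [← Finset.sum_mul, ← Finset.mul_sum]
    have a1 : 0 ≤ X u j := ind_nonneg _
    have a2 : 0 ≤ R / q := by positivity
    exact mul_le_mul (mul_le_mul_of_nonneg_left (hA0 u) a1) (hA0 (σ j u)) a2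
      (mul_nonneg a1 (a2.trans (hA0 u)))
  have E2 := second_moment hσ hθ hθ1 hgap X (fun _ _ => ind_nonneg _) (fun _ _ => ind_le_one _) R R
  rw [← hε, ← two_mul] at E2
  obtain ⟨b, hb⟩ : ∃ b, b = 2 + 2 / θ ^ 3 := ⟨_, rfl⟩
  have hb0 : 0 < b := by rw [hb]; positivity
  rw [show 4 + 2 / θ ^ 3 = b + 2 by rw [hb]; ring]
  rw [← hb] at E2
  obtain ⟨α, hα⟩ : ∃ α, α = 1 / (2 * q ^ 2) := ⟨_, rfl⟩
  have hα0 : 0 < α := by rw [hα]; positivity
  rw [← hα]
  obtain ⟨x, hx⟩ : ∃ x, x = R * ε := ⟨_, rfl⟩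
  have hx0 : 0 ≤ x := by rw [hx]; positivity
  have E1' : α * x ≤ 𝔼 a, 𝔼 l : Fin (2 * R), avgW (2 * R) (N a l) := by
    refine le_trans (le_of_eq ?_) E1
    rw [hα, hx]; ring
  have E2' : 𝔼 a, avgW (2 * R) (fun w => cnt σ X R a w ^ 2) ≤ (b + 2 * x) * x := by
    refine E2.trans (le_of_eq ?_)
    rw [hx]; ring
  obtain ⟨t, ht⟩ : ∃ t, t = α / (b + 2 * x) := ⟨_, rfl⟩
  have ht0 : 0 < t := by rw [ht]; positivity
  haveI : Nonempty (Fin (2 * R)) := ⟨⟨0, by omega⟩⟩
  have key : 2 * t * (𝔼 a, 𝔼 l : Fin (2 * R), avgW (2 * R) (N a l)) -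
      t ^ 2 * 𝔼 a, avgW (2 * R) (fun w => cnt σ X R a w ^ 2) ≤
      𝔼 a, 𝔼 l : Fin (2 * R), avgW (2 * R)
        (fun w => ind (¬ PS σ ι con d R a l w (A a) (A (wk σ a (w.take l))))) := by
    rw [Finset.mul_expect, Finset.mul_expect, ← Finset.expect_sub_distrib]
    refine Finset.expect_le_expect fun a _ => ?_
    rw [Finset.mul_expect, ← Finset.expect_const (Finset.univ_nonempty (α := Fin (2 * R)))
      (t ^ 2 * avgW (2 * R) (fun w => cnt σ X R a w ^ 2)), ← Finset.expect_sub_distrib]
    refine Finset.expect_le_expect fun l _ => ?_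
    rw [← avgW_mul, ← avgW_mul, ← avgW_subf]
    refine avgW_mono fun w hw => ?_
    have n0 := hN0 a l w
    have n1 := hN1 a l w hw
    have n2 : t ^ 2 * N a l w ^ 2 ≤ t ^ 2 * cnt σ X R a w ^ 2 :=
      mul_le_mul_of_nonneg_left (pow_le_pow_left₀ n0 n1 2) (by positivity)
    by_cases hP : PS σ ι con d R a l w (A a) (A (wk σ a (w.take l)))
    · rw [ind_neg (not_not.2 hP), hNv a l w hw hP]
      have : 0 ≤ t ^ 2 * cnt σ X R a w ^ 2 := by positivity
      linarith
    · rw [ind_pos hP]
      nlinarith [sq_nonneg (t * N a l w - 1)]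
  refine le_trans ?_ key
  have f1 : 2 * t * (α * x) - t ^ 2 * ((b + 2 * x) * x) ≤
      2 * t * (𝔼 a, 𝔼 l : Fin (2 * R), avgW (2 * R) (N a l)) -
      t ^ 2 * 𝔼 a, avgW (2 * R) (fun w => cnt σ X R a w ^ 2) := by
    have := mul_le_mul_of_nonneg_left E1' (show 0 ≤ 2 * t by positivity)
    have := mul_le_mul_of_nonneg_left E2' (show 0 ≤ t ^ 2 by positivity)
    linarith
  refine le_trans ?_ f1
  have f2 : 2 * t * (α * x) - t ^ 2 * ((b + 2 * x) * x) = α ^ 2 * (x / (b + 2 * x)) := by
    rw [ht]; field_simp; ring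
  rw [f2, div_mul_eq_mul_div, mul_div_assoc]
  refine mul_le_mul_of_nonneg_left ?_ (by positivity)
  rw [div_le_div_iff₀ (by positivity) (by positivity)]
  have m1 : min (R * ε0) 1 ≤ x := (min_le_left _ _).trans
    (hx ▸ mul_le_mul_of_nonneg_left hε0 hR0.le)
  have m2 : min (R * ε0) 1 ≤ 1 := min_le_right _ _
  nlinarith [mul_le_mul_of_nonneg_right m1 hb0.le, mul_le_mul_of_nonneg_right m2 hx0]

end Power

end Pool.Agent.MP_9e68e9_lc.PCP
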