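import Pool.Agent.MP_9e68e9_lc.PCPComp

/-! One round of gap amplification. -/

namespace Pool.Agent.MP_9e68e9_lc.PCP

open Finset Pool.Agent.MP_2e8011_lc
open scoped BigOperators

section PTs
variable {α : Type} [Enc α] {f : α → CNF} {g h : α → ℕ}

theorem pt_cntP {p : α → ℕ → Bool} (hp : PT (fun q : α × ℕ => p q.1 q.2)) (hg : PT g) :
    PT (fun a => cntP (p a) (g a)) := (PT.filter hp hg.range).length

theorem pt_sq1 (hg : PT g) : PT (fun a => sq1 (g a)) :=
  pt_cntP (p := fun a i => decide (i * i ≤ g a)) (by fun_prop) (by fun_prop)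

theorem pt_lit (hf : PT f) (hg : PT g) : PT (fun a => lit (f a) (g a)) := by
  unfold lit; fun_prop

theorem pt_MM (hf : PT f) : PT (fun a => MM (f a)) := by
  unfold MM; fun_prop

theorem pt_vr (hf : PT f) (hg : PT g) : PT (fun a => vr (f a) (g a)) :=
  (pt_lit hf (hg.mod (pt_MM hf))).fst

theorem pt_inC (hf : PT f) (hg : PT g) (hh : PT h) : PT (fun a => inC (f a) (g a) (h a)) :=
  PT.eq (pt_vr hf hh) hg

theorem pt_inC' (hf : PT f) (hg : PT g) : PT (fun q : α × ℕ => inC (f q.1) (g q.1) q.2) :=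
  pt_inC (hf.comp PT.id.fst) (hg.comp PT.id.fst) PT.id.snd

theorem pt_cloud (hf : PT f) (hg : PT g) : PT (fun a => cloud (f a) (g a)) :=
  PT.filter (pt_inC' hf hg) ((PT.const 4).mul (pt_MM hf)).range

theorem pt_rank (hf : PT f) (hg : PT g) : PT (fun a => rank (f a) (g a)) :=
  pt_cntP (pt_inC' hf (pt_vr hf hg)) hg

theorem pt_cs (hf : PT f) (hg : PT g) : PT (fun a => cs (f a) (g a)) :=
  pt_sq1 (pt_cntP (pt_inC' hf hg) (pt_MM hf))

theorem pt_gs (hf : PT f) : PT (fun a => gs (f a)) := pt_sq1 ((PT.const 4).mul (pt_MM hf))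

theorem pt_NN (hf : PT f) : PT (fun a => NN (f a)) := (pt_gs hf).mul (pt_gs hf)

theorem pt_marg (i : Bool × Bool) (b : Bool) (hg : PT g) (hh : PT h) :
    PT (fun a => marg i b (g a) (h a)) := by
  unfold marg; fun_prop

theorem pt_nxC (i : Bool × Bool) (b : Bool) (hf : PT f) (hg : PT g) :
    PT (fun a => nxC (f a) i b (g a)) := by
  have h1 := pt_MM hf
  have h2 := pt_rank hf hg
  have h3 := pt_cs hf (pt_vr hf hg)
  have h4 := pt_cloud hf (pt_vr hf hg)
  have h5 := pt_marg i b h3 h2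
  exact PT.ite (PT.decide_and (PT.lt hg ((PT.const 4).mul h1)) (PT.lt h2 (h3.mul h3)))
    (h4.getD h5 (PT.const 0)) hg

theorem pt_nx (j : Lb) (hf : PT f) (hg : PT g) : PT (fun a => nx (f a) j (g a)) := by
  rcases j with ⟨_ | _ | ⟨_ | _, i⟩, b⟩
  · exact hg
  · have := pt_MM hf
    simp only [nx, nxR]
    fun_prop
  · exact pt_marg i b (pt_gs hf) hg
  · exact pt_nxC i b hf hg

theorem pt_wk (p : List Lb) (hf : PT f) (hg : PT g) : PT (fun a => wk (nx (f a)) (g a) p) := by
  induction p generalizing g with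
  | nil => exact hg
  | cons j p ih => exact ih (pt_nx j hf hg)

theorem fpt_pos (hg : PT g) : FPT (fun a => pos (g a)) := fun u =>
  ⟨fun a => decide (g a % 4 = u.val), by fun_prop, fun a => by simp [pos, Fin.ext_iff]⟩

theorem fpt_const {T : Type} (t : T) : FPT (fun _ : α => t) := by
  classical
  exact fun u => ⟨fun _ => decide (t = u), PT.const _, fun a => by simp⟩

theorem fpt_con (j : Lb) (hf : PT f) (hg : PT g) : FPT (fun a => con (f a) j (g a)) := by
  rcases j with ⟨_ | _ | ⟨_ | _, i⟩, _ | _⟩ <;> try exact fpt_const (fun _ _ => true)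
  · have h1 : FPT (fun a => decide (g a < MM (f a))) := FPT.of_bool (PT.lt hg (pt_MM hf))
    have h2 : FPT (fun a (p : Fin 4) => (lit (f a) (4 * (g a / 4) + p)).2) :=
      FPT.pi fun p => FPT.of_bool (pt_lit hf (by fun_prop)).snd
    refine ((h1.prod h2).map (fun t (x y : Sg) =>
      bif t.1 then decide (x = y) && decide (∃ p : Fin 4, x p = t.2 p) else true)).congr
      fun a => ?_
    funext x y
    by_cases hh : g a < MM (f a) <;> simp [con, conR, hh]
  · exact ((fpt_pos hg).prod (fpt_pos (pt_nxC i true hf hg))).map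
      (fun t (x y : Sg) => decide (x t.1 = y t.2))

end PTs

/-- The alphabet of the powered graph. -/
def WW (R : ℕ) : Type := Pth Lb R → Sg

instance (R : ℕ) : Finite (WW R) := inferInstanceAs (Finite (Pth Lb R → Sg))
noncomputable instance (R : ℕ) : Fintype (WW R) := Fintype.ofFinite _
noncomputable instance (R : ℕ) : DecidableEq (WW R) := Classical.decEq _
instance (R : ℕ) : Inhabited (WW R) := ⟨fun _ => default⟩

/-- Edges of the powered graph at a vertex. -/
abbrev Om (R : ℕ) : Type := Fin (2 * R) × (Fin (2 * R) → Lb)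

/-- End point of an edge of the powered graph. -/
def ep (R : ℕ) (φ : CNF) (v : ℕ) (ω : Om R) : ℕ := wk (nx φ) v ((List.ofFn ω.2).take ω.1)

open Classical in
/-- Constraint of an edge of the powered graph. -/
noncomputable def SS (R : ℕ) (φ : CNF) (v : ℕ) (ω : Om R) : Fn (WW R × WW R) := fun p =>
  if PS (nx φ) flp (con φ) (none, true) R v ω.1 (List.ofFn ω.2) p.1 p.2 then 1 else 0

/-- One round. -/
noncomputable def round (R : ℕ) (φ : CNF) : CNF := comp (NN φ) (ep R φ) (SS R φ)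

theorem round_pt (R : ℕ) : PT (round R) := by
  classical
  refine comp_pt (pt_NN PT.id) (fun ω => pt_wk _ PT.id.fst PT.id.snd) fun ω => ?_
  have h : FPT (fun (p : CNF × ℕ) (r : Fin R) => con p.1 ((List.ofFn ω.2).getD r (none, true))
      (wk (nx p.1) p.2 ((List.ofFn ω.2).take r))) :=
    FPT.pi fun r => fpt_con _ PT.id.fst (pt_wk _ PT.id.fst PT.id.snd)
  refine (h.map (fun t => (fun p : WW R × WW R => if (∀ r : Fin R, ∀ s < R, r + s + 1 = ω.1 →
    t r (op p.1 ((List.ofFn ω.2).take r))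
      (op p.2 (rv flp (((List.ofFn ω.2).drop (r + 1)).take s))) = true) then 1 else 0 :
        Fn (WW R × WW R)))).congr fun a => ?_
  funext p
  unfold SS
  by_cases hP : PS (nx a.1) flp (con a.1) (none, true) R a.2 ω.1 (List.ofFn ω.2) p.1 p.2
  · rw [if_pos hP]
    exact if_pos fun (r : Fin R) => hP r r.2
  · rw [if_neg hP]
    exact if_neg fun (H : ∀ r : Fin R, _) => hP fun r hr => H ⟨r, hr⟩

theorem wk_lt (φ : CNF) {v : ℕ} (hv : v < NN φ) (p : List Lb) : wk (nx φ) v p < NN φ := by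
  have := wk_sg φ ⟨v, hv⟩ p
  simp only at this
  rw [← this]; exact Fin.isLt _

theorem PS_sg (R : ℕ) (φ : CNF) (v : Fin (NN φ)) (l : ℕ) (w : List Lb) (x y : Pth Lb R → Sg) :
    PS (sg φ) flp (fun j v => con φ j v.val) (none, true) R v l w x y ↔
      PS (nx φ) flp (con φ) (none, true) R v.val l w x y := by
  simp only [PS, wk_sg]

theorem round_w4 (R : ℕ) (φ : CNF) : W4 (round R φ) := comp_w4 _ _ _

theorem NN_le {φ : CNF} (h : 0 < φ.length) : NN φ ≤ 64 * φ.length := by
  have := sq1_le (x := 4 * MM φ) (by unfold MM; omega)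
  unfold NN gs
  unfold MM at *
  omega

theorem NN_le' (φ : CNF) : NN φ ≤ 64 * φ.length + 1 := by
  rcases Nat.eq_zero_or_pos φ.length with h | h
  · simp [NN, gs, MM, h, sq1_eq]
  · have := NN_le h; omega

theorem round_complete (R : ℕ) {φ : CNF} (hw : W4 φ) (h : Sat φ) : Sat (round R φ) := by
  obtain ⟨a, ha⟩ := h
  obtain ⟨A0, hA⟩ := graph_complete hw ha
  refine comp_complete _ _ _ (fun v => (fun p => A0 (wk (nx φ) v p.1) : Pth Lb R → Sg))
    fun v hv ω => ?_
  have := power_complete (sg_inv φ) (fun j v => con φ j v.val) (none, true) R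
    (fun v => A0 v.val) (fun v j => hA v.val j) ⟨v, hv⟩ ω.1 (List.ofFn ω.2) (by simp; omega)
  rw [PS_sg] at this
  simp only [wk_sg] at this
  exact if_pos this

/-- The constant lost in one round. -/
noncomputable def c0 : ℝ := (1 / (2 * (16 : ℝ) ^ 2)) ^ 2 / (4 + 2 / (1 / 1600) ^ 3) / 8000

theorem c0_pos : 0 < c0 := by unfold c0; positivity

theorem c0_le : c0 ≤ 1 := by unfold c0; norm_num

theorem round_sound {R : ℕ} (hR : 0 < R) {φ : CNF} (hw : W4 φ) (h0 : 0 < φ.length) {ε : ℝ}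
    (hε : 0 ≤ ε) (h : ∀ a, ε * φ.length ≤ viol a φ) (a : ℕ → Bool) :
    c0 * min (R * (ε / 6400)) 1 * (NN φ * (Fintype.card (Tst (WW R) (Om R)) * 16) : ℕ) ≤
      viol a (round R φ) := by
  obtain ⟨A, hA⟩ := comp_sound (NN φ) (ep R φ) (SS R φ) a
  refine le_trans ?_ hA
  have hN : (0 : ℝ) < NN φ := by exact_mod_cast (Nat.zero_le _).trans_lt (lt_NN φ)
  have hN' : (NN φ : ℝ) ≤ 64 * φ.length := by exact_mod_cast NN_le h0
  have key := power_sound (S := Sg) flp_inv (sg_inv φ) (θ := 1 / 1600) (by norm_num) (by norm_num)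
    (sg_gap φ) (fun j v => con φ j v.val) (none, true) hR (ε0 := ε / 6400) (fun A0 => by
      obtain ⟨b, hb⟩ := graph_sound hw (fun v => if h : v < NN φ then A0 ⟨v, h⟩ else default)
      rw [Finset.sum_range] at hb
      have e : ∀ (v : Fin (NN φ)) (j : Lb), (if h : nx φ j v < NN φ then A0 ⟨nx φ j v, h⟩
          else default) = A0 (sg φ j v) := fun v j => dif_pos (nx_lt φ j v.2)
      simp only [e, Fin.is_lt, dif_pos, Fin.eta] at hb
      simp only [Fintype.expect_eq_sum_div_card, card_Lb, Fintype.card_fin, ← Finset.sum_div]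
      rw [le_div_iff₀ hN, le_div_iff₀ (by norm_num)]
      have := h b
      have := mul_le_mul_of_nonneg_left hN' hε
      push_cast
      linarith) (fun v => A v.val)
  have e1 : ∑ v ∈ range (NN φ), ∑ ω : Om R, ind (SS R φ v ω (A v, A (ep R φ v ω)) ≠ 1) =
      NN φ * Fintype.card (Om R) * 𝔼 v : Fin (NN φ), 𝔼 l : Fin (2 * R), avgW (2 * R)
        (fun w => ind (¬ PS (sg φ) flp (fun j v => con φ j v.val) (none, true) R v l w (A v.val)
          (A (wk (sg φ) v (w.take l)).val))) := by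
    rw [Finset.sum_range, Fintype.expect_eq_sum_div_card, Fintype.card_fin, mul_right_comm,
      mul_div_cancel₀ _ hN.ne', Finset.sum_mul]
    refine Finset.sum_congr rfl fun v _ => ?_
    unfold avgW
    rw [← Finset.expect_product', Finset.univ_product_univ, Fintype.expect_eq_sum_div_card,
      div_mul_cancel₀ _ (by
        haveI : Nonempty (Fin (2 * R)) := ⟨⟨0, by omega⟩⟩
        exact_mod_cast Fintype.card_ne_zero)]
    refine Finset.sum_congr rfl fun ω _ => ind_congr ?_
    rw [PS_sg, wk_sg]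
    unfold SS ep
    split_ifs with hh
    · simp [hh]
    · simp [hh]
  rw [e1]
  have e2 : (Fintype.card (Tst (WW R) (Om R)) : ℝ) =
      Fintype.card (Om R) * (5 * Fintype.card (Rnd (WW R))) := by
    rw [Fintype.card_prod, Fintype.card_prod (Fin 5), Fintype.card_fin]
    push_cast
    rfl
  have e3 : (Fintype.card Sg : ℝ) = 16 := by simp [Sg]
  rw [e3] at key
  push_cast
  rw [e2]
  have := mul_le_mul_of_nonneg_left key (show (0 : ℝ) ≤
    (Fintype.card (Rnd (WW R)) : ℝ) / 100 * (NN φ * Fintype.card (Om R)) by positivity)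
  refine le_trans (le_of_eq ?_) (this.trans (le_of_eq ?_))
  · unfold c0; ring
  · ring

theorem exists_round : ∃ (r : CNF → CNF) (C : ℕ), PT r ∧ (∀ φ, W4 (r φ)) ∧
    (∀ φ, (r φ).length ≤ C * (φ.length + 1)) ∧
    (∀ φ, sz (r φ) ≤ C * (φ.length + 1) ^ 2) ∧
    (∀ φ, W4 φ → Sat φ → Sat (r φ)) ∧
    ∀ φ, W4 φ → 0 < φ.length → ∀ ε : ℝ, 0 < ε → (∀ a, ε * φ.length ≤ viol a φ) →
      ∀ a, 0 < viol a (r φ) ∧ min (3 * ε) c0 * (r φ).length ≤ viol a (r φ) := by
  obtain ⟨R, hR⟩ := exists_nat_gt (3 * 6400 / c0)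
  have c := c0_pos
  have hR0 : 0 < R := by
    have : (0 : ℝ) < R := lt_trans (by positivity) hR
    exact_mod_cast this
  obtain ⟨T, hT⟩ : ∃ T, T = Fintype.card (Tst (WW R) (Om R)) * 16 := ⟨_, rfl⟩
  obtain ⟨K, hK⟩ : ∃ K, K = Fintype.card (Loc (WW R) (Om R)) := ⟨_, rfl⟩
  have hT0 : 0 < T := by
    haveI : Nonempty (Fin (2 * R)) := ⟨⟨0, by omega⟩⟩
    have : 0 < Fintype.card (Tst (WW R) (Om R)) := Fintype.card_pos
    omega
  have hlen : ∀ φ, (round R φ).length ≤ NN φ * T := fun φ => hT ▸ comp_len _ _ _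
  refine ⟨round R, 64 * T * (2048 * K + 41), round_pt R, round_w4 R, fun φ => ?_, fun φ => ?_,
    fun φ => round_complete R, fun φ hw h0 ε hε h a => ?_⟩
  · have h1 := hlen φ
    have h2 := NN_le' φ
    calc _ ≤ NN φ * T := h1
      _ ≤ (64 * (φ.length + 1)) * T := Nat.mul_le_mul_right _ (by omega)
      _ = 64 * T * 1 * (φ.length + 1) := by ring
      _ ≤ _ := Nat.mul_le_mul_right _ (Nat.mul_le_mul_left _ (by omega))
  · have h1 := hlen φ
    have h2 : NN φ ≤ 64 * (φ.length + 1) := by have := NN_le' φ; omega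
    have h3 := sz_le_of_forall (comp_sz (NN φ) (ep R φ) (SS R φ) (fun v hv ω => wk_lt φ hv _))
    rw [← hK] at h3
    have h4 : NN φ * K ≤ 64 * (φ.length + 1) * K := Nat.mul_le_mul_right _ h2
    calc _ ≤ _ := h3
      _ ≤ (64 * (φ.length + 1) * T) * ((2048 * K + 41) * (φ.length + 1)) :=
        Nat.mul_le_mul (h1.trans (Nat.mul_le_mul_right _ h2)) (by nlinarith)
      _ = _ := by ring
  · have h1 := round_sound hR0 hw h0 hε.le h a
    rw [← hT] at h1
    have hm : min (3 * ε) c0 ≤ c0 * min (R * (ε / 6400)) 1 := by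
      rw [mul_min_of_nonneg _ _ c.le, mul_one]
      refine min_le_min_right _ ?_
      rw [div_lt_iff₀ c] at hR
      nlinarith
    have hm0 : 0 < min (3 * ε) c0 := lt_min (by positivity) c
    have hN : 0 < NN φ * T := Nat.mul_pos ((Nat.zero_le _).trans_lt (lt_NN φ)) hT0
    have hN' : (0 : ℝ) < (NN φ * T : ℕ) := by exact_mod_cast hN
    have h2 : min (3 * ε) c0 * (NN φ * T : ℕ) ≤ viol a (round R φ) :=
      (mul_le_mul_of_nonneg_right hm hN'.le).trans h1
    refine ⟨?_, le_trans (mul_le_mul_of_nonneg_left ?_ hm0.le) h2⟩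
    · have : (0 : ℝ) < viol a (round R φ) := lt_of_lt_of_le (by positivity) h2
      exact_mod_cast this
    · exact_mod_cast hlen φ

end Pool.Agent.MP_9e68e9_lc.PCP
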