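import Pool.Agent.MP_9e68e9_lc.Feas

/-! Finite probability vectors, expectations and laws. -/

namespace Pool.Agent.MP_9e68e9_lc

open Finset

variable {Ω α β : Type} [Fintype Ω] [Fintype α] [Fintype β]

/-- Probability vectors. -/
def IsProb (μ : Ω → ℝ) : Prop := (∀ x, 0 ≤ μ x) ∧ ∑ x, μ x = 1

/-- Expectation. -/
def Ex (μ f : Ω → ℝ) : ℝ := ∑ x, μ x * f x

open Classical in
/-- The law of a random variable. -/
noncomputable def law (μ : Ω → ℝ) (X : Ω → α) : α → ℝ :=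
  fun a => ∑ ω, if X ω = a then μ ω else 0

theorem Ex_law (μ : Ω → ℝ) (X : Ω → α) (f : α → ℝ) :
    Ex (law μ X) f = Ex μ (fun ω => f (X ω)) := by
  classical
  simp only [Ex, law, Finset.sum_mul, ite_mul, zero_mul]
  rw [Finset.sum_comm]
  simp

theorem Ex_one (μ : Ω → ℝ) : Ex μ (fun _ => 1) = ∑ x, μ x := by simp [Ex]

theorem IsProb.Ex_const {μ : Ω → ℝ} (h : IsProb μ) (c : ℝ) : Ex μ (fun _ => c) = c := by
  simp [Ex, ← Finset.sum_mul, h.2]

theorem Ex_add (μ f g : Ω → ℝ) : Ex μ (fun x => f x + g x) = Ex μ f + Ex μ g := by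
  simp [Ex, mul_add, Finset.sum_add_distrib]

theorem Ex_sub (μ f g : Ω → ℝ) : Ex μ (fun x => f x - g x) = Ex μ f - Ex μ g := by
  simp [Ex, mul_sub, Finset.sum_sub_distrib]

theorem Ex_const_mul (μ : Ω → ℝ) (c : ℝ) (f : Ω → ℝ) :
    Ex μ (fun x => c * f x) = c * Ex μ f := by
  simp only [Ex, Finset.mul_sum]
  exact Finset.sum_congr rfl fun x _ => by ring

theorem Ex_mul_const (μ : Ω → ℝ) (c : ℝ) (f : Ω → ℝ) :
    Ex μ (fun x => f x * c) = Ex μ f * c := by
  simp only [Ex, Finset.sum_mul]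
  exact Finset.sum_congr rfl fun x _ => by ring

theorem Ex_sum {J : Type} (μ : Ω → ℝ) (s : Finset J) (f : J → Ω → ℝ) :
    Ex μ (fun x => ∑ j ∈ s, f j x) = ∑ j ∈ s, Ex μ (f j) := by
  simp only [Ex, Finset.mul_sum]
  exact Finset.sum_comm

theorem Ex_comm (μ : Ω → ℝ) (ν : α → ℝ) (f : Ω → α → ℝ) :
    Ex μ (fun x => Ex ν (fun y => f x y)) = Ex ν (fun y => Ex μ (fun x => f x y)) := by
  simp only [Ex, Finset.mul_sum]
  rw [Finset.sum_comm]
  exact Finset.sum_congr rfl fun x _ => Finset.sum_congr rfl fun y _ => by ring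

theorem Ex_mono' {μ f g : Ω → ℝ} (hμ : ∀ x, 0 ≤ μ x) (h : ∀ x, μ x ≠ 0 → f x ≤ g x) :
    Ex μ f ≤ Ex μ g :=
  Finset.sum_le_sum fun x _ => by
    by_cases e : μ x = 0
    · simp [e]
    · exact mul_le_mul_of_nonneg_left (h x e) (hμ x)

theorem Ex_mono {μ f g : Ω → ℝ} (hμ : ∀ x, 0 ≤ μ x) (h : ∀ x, f x ≤ g x) : Ex μ f ≤ Ex μ g :=
  Ex_mono' hμ fun x _ => h x

theorem Ex_nonneg {μ f : Ω → ℝ} (hμ : ∀ x, 0 ≤ μ x) (h : ∀ x, 0 ≤ f x) : 0 ≤ Ex μ f :=
  Finset.sum_nonneg fun x _ => mul_nonneg (hμ x) (h x)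

theorem Ex_congr {μ f g : Ω → ℝ} (h : ∀ x, f x = g x) : Ex μ f = Ex μ g := by
  rw [funext h]

theorem Ex_mix (a b : ℝ) (μ ν f : Ω → ℝ) :
    Ex (fun x => a * μ x + b * ν x) f = a * Ex μ f + b * Ex ν f := by
  simp only [Ex, Finset.mul_sum, ← Finset.sum_add_distrib]
  exact Finset.sum_congr rfl fun x _ => by ring

theorem eq_of_Ex {μ ν : Ω → ℝ} (h : ∀ f, Ex μ f = Ex ν f) : μ = ν := by
  classical
  funext x
  simpa [Ex] using h fun y => if y = x then 1 else 0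

omit [Fintype α] in
theorem law_nonneg {μ : Ω → ℝ} (hμ : ∀ x, 0 ≤ μ x) (X : Ω → α) (a : α) : 0 ≤ law μ X a :=
  Finset.sum_nonneg fun x _ => by
    split_ifs
    · exact hμ x
    · exact le_rfl

theorem IsProb.law {μ : Ω → ℝ} (h : IsProb μ) (X : Ω → α) : IsProb (law μ X) :=
  ⟨law_nonneg h.1 X, by rw [← Ex_one, Ex_law, Ex_one, h.2]⟩

omit [Fintype α] in
theorem exists_of_law_ne_zero {μ : Ω → ℝ} {X : Ω → α} {a : α} (h : law μ X a ≠ 0) :
    ∃ ω, μ ω ≠ 0 ∧ X ω = a := by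
  obtain ⟨ω, -, hω⟩ := Finset.exists_ne_zero_of_sum_ne_zero h
  by_cases e : X ω = a
  · exact ⟨ω, by simpa [e] using hω, e⟩
  · simp [e] at hω

omit [Fintype α] in
theorem le_law {μ : Ω → ℝ} (hμ : ∀ x, 0 ≤ μ x) (X : Ω → α) (ω : Ω) : μ ω ≤ law μ X (X ω) := by
  classical
  refine le_trans (by simp) (Finset.single_le_sum (f := fun ω' => if X ω' = X ω then μ ω' else 0)
    (fun x _ => ?_) (mem_univ ω))
  split_ifs
  · exact hμ x
  · exact le_rfl

omit [Fintype α] in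
theorem law_ne_zero {μ : Ω → ℝ} (hμ : ∀ x, 0 ≤ μ x) (X : Ω → α) {ω : Ω} (h : μ ω ≠ 0) :
    law μ X (X ω) ≠ 0 :=
  ne_of_gt (lt_of_lt_of_le (lt_of_le_of_ne (hμ ω) h.symm) (le_law hμ X ω))

theorem law_law (μ : Ω → ℝ) (X : Ω → α) (Y : α → β) :
    law (law μ X) Y = law μ (fun ω => Y (X ω)) :=
  eq_of_Ex fun f => by simp only [Ex_law]

theorem law_id (μ : Ω → ℝ) : law μ (fun ω => ω) = μ := eq_of_Ex fun f => by simp only [Ex_law]

theorem Ex_prod (ν : α × β → ℝ) (f : α × β → ℝ) :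
    Ex ν f = ∑ a, ∑ b, ν (a, b) * f (a, b) := by
  simp [Ex, Fintype.sum_prod_type]

/-- Expectation under a measure composed with a kernel. -/
theorem Ex_kernel (μ : α → ℝ) (κ : α → β → ℝ) (f : α × β → ℝ) :
    Ex (fun z : α × β => μ z.1 * κ z.1 z.2) f = Ex μ (fun a => Ex (κ a) (fun b => f (a, b))) := by
  simp only [Ex, Fintype.sum_prod_type, Finset.mul_sum, mul_assoc]

/-- Disintegration. -/
theorem exists_kernel [Nonempty β] {ν : α × β → ℝ} (hν : ∀ z, 0 ≤ ν z) :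
    ∃ κ : α → β → ℝ, (∀ a, IsProb (κ a)) ∧ ∀ a b, ν (a, b) = law ν Prod.fst a * κ a b := by
  classical
  have e : ∀ a, law ν Prod.fst a = ∑ b, ν (a, b) := by
    intro a
    simp only [law, Fintype.sum_prod_type]
    rw [Finset.sum_comm]
    simp
  let b0 : β := Classical.arbitrary β
  refine ⟨fun a b => if law ν Prod.fst a = 0 then (if b = b0 then 1 else 0) else
    ν (a, b) / law ν Prod.fst a, fun a => ⟨fun b => ?_, ?_⟩, fun a b => ?_⟩
  · dsimp only
    split_ifs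
    · exact zero_le_one
    · exact le_rfl
    · exact div_nonneg (hν _) (law_nonneg hν _ _)
  · by_cases h : law ν Prod.fst a = 0
    · simp [h]
    · simp only [h, if_false]
      rw [← Finset.sum_div, ← e, div_self h]
  · by_cases h : law ν Prod.fst a = 0
    · have := le_law hν Prod.fst (a, b)
      rw [h] at this ⊢
      simpa using le_antisymm this (hν _)
    · simp only [h, if_false]
      field_simp

theorem isProb_pi {J : Type} [Fintype J] [DecidableEq J] {A : J → Type} [∀ j, Fintype (A j)]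
    {κ : ∀ j, A j → ℝ} (h : ∀ j, IsProb (κ j)) : IsProb (fun y : ∀ j, A j => ∏ j, κ j (y j)) := by
  refine ⟨fun y => Finset.prod_nonneg fun j _ => (h j).1 _, ?_⟩
  rw [← Fintype.piFinset_univ, ← Finset.prod_univ_sum]
  simp [fun j => (h j).2]

theorem Ex_pi {J : Type} [Fintype J] [DecidableEq J] {A : J → Type} [∀ j, Fintype (A j)]
    {κ : ∀ j, A j → ℝ} (h : ∀ j, IsProb (κ j)) (i : J) (f : A i → ℝ) :
    Ex (fun y : ∀ j, A j => ∏ j, κ j (y j)) (fun y => f (y i)) = Ex (κ i) f := by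
  let F : ∀ j, A j → ℝ := Function.update κ i (fun a => κ i a * f a)
  have e : ∀ y : ∀ j, A j, (∏ j, κ j (y j)) * f (y i) = ∏ j, F j (y j) := by
    intro y
    rw [← Finset.mul_prod_erase univ _ (mem_univ i), ← Finset.mul_prod_erase univ _ (mem_univ i)]
    have : ∏ j ∈ univ.erase i, F j (y j) = ∏ j ∈ univ.erase i, κ j (y j) :=
      Finset.prod_congr rfl fun j hj => by
        simp only [F, Function.update_of_ne (Finset.ne_of_mem_erase hj)]
    rw [this]
    simp only [F, Function.update_self]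
    ring
  simp only [Ex, e]
  rw [← Fintype.piFinset_univ, ← Finset.prod_univ_sum,
    ← Finset.mul_prod_erase univ _ (mem_univ i)]
  have : ∏ j ∈ univ.erase i, ∑ a, F j a = 1 :=
    Finset.prod_eq_one fun j hj => by
      simp only [F, Function.update_of_ne (Finset.ne_of_mem_erase hj)]
      exact (h j).2
  rw [this]
  simp [F]

end Pool.Agent.MP_9e68e9_lc
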