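import Pool.Agent.MP_9e68e9_lc.Gad

/-! Relations between events of probability `p` that are realised by gadgets. -/

namespace Pool.Agent.MP_9e68e9_lc

open Finset

variable {τ T U : Type} [Fintype τ] [DecidableEq τ] [Fintype T] [DecidableEq T]
  [Fintype U] [DecidableEq U] {p : ℝ}

/-- Laws all of whose marginals equal `p`. -/
def Bal (p : ℝ) (μ : (τ → Bool) → ℝ) : Prop := IsProb μ ∧ ∀ s, Ex μ (fun x => ind (x s)) = p

theorem Bal.pull {μ : (T → Bool) → ℝ} (h : Bal p μ) (π : τ → T) :
    Bal p (law μ fun x s => x (π s)) :=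
  ⟨h.1.law _, fun s => by rw [Ex_law]; exact h.2 _⟩

theorem bal_law {Ω : Type} [Fintype Ω] {P : Ω → ℝ} (hP : IsProb P) (X : Ω → τ → Bool)
    (h : ∀ s, Ex P (fun ω => ind (X ω s)) = p) : Bal p (law P X) :=
  ⟨hP.law _, fun s => by rw [Ex_law]; exact h s⟩

theorem Gad.raise (Γ : Gad τ) (hp : p ≤ 1) {μ : (τ → Bool) → ℝ} (hμ : IsProb μ) (h : Γ.Ext p μ)
    (s : τ) (hs : Ex μ (fun x => ind (x s)) ≤ p) :
    ∃ μ', IsProb μ' ∧ Γ.Ext p μ' ∧ Ex μ' (fun x => ind (x s)) = p ∧
      ∀ f : (τ → Bool) → ℝ, (∀ x, f (Function.update x s true) = f x) → Ex μ' f = Ex μ f := by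
  set m := Ex μ (fun x => ind (x s)) with hm
  let q := (p - m) / (1 - m)
  have hq0 : 0 ≤ q := div_nonneg (by linarith) (by linarith)
  have hq1 : q ≤ 1 := div_le_one_of_le₀ (by linarith) (by linarith)
  have hq : q * (1 - m) = p - m := by
    by_cases e : 1 - m = 0
    · rw [e]; linarith
    · simp only [q]; field_simp
  have hl := hμ.law fun x => Function.update x s true
  refine ⟨fun x => (1 - q) * μ x + q * law μ (fun x => Function.update x s true) x,
    ⟨fun x => add_nonneg (mul_nonneg (by linarith) (hμ.1 x)) (mul_nonneg hq0 (hl.1 x)), ?_⟩,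
    ?_, ?_, fun f hf => ?_⟩
  · rw [← Ex_one, Ex_mix, hμ.Ex_const, hl.Ex_const]; ring
  · have := h.mix hμ.1 hl.1 (h.up hμ.1 (fun x => Function.update x s true) fun x t ht => by
      by_cases e : t = s
      · subst e; simp
      · rwa [Function.update_of_ne e]) (by linarith : 0 ≤ 1 - q) hq0
    convert this using 1
    ring
  · rw [Ex_mix, Ex_law]
    simp only [Function.update_self, ind_true]
    rw [hμ.Ex_const]
    linarith
  · rw [Ex_mix, Ex_law]
    simp only [hf]
    ring

theorem Gad.ext_hide_bal (Γ : Gad (T ⊕ U)) (hp : p ≤ 1) {μ : (T → Bool) → ℝ} (hμ : Bal p μ) :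
    Γ.hide.Ext p μ ↔ ∃ μ' : (T ⊕ U → Bool) → ℝ, Bal p μ' ∧
      law μ' (fun x t => x (.inl t)) = μ ∧ Γ.Ext p μ' := by
  rw [Gad.ext_hide _ hμ.1.1]
  constructor
  · rintro ⟨μ0, h0, h1, h2, h3⟩
    have hp0 : IsProb μ0 := ⟨h0, by
      have := hμ.1.2
      rwa [← h1, ← Ex_one, Ex_law, Ex_one] at this⟩
    have key : ∀ S : Finset U, ∃ μ' : (T ⊕ U → Bool) → ℝ, IsProb μ' ∧
        law μ' (fun x t => x (.inl t)) = μ ∧ Γ.Ext p μ' ∧
        (∀ u, Ex μ' (fun x => ind (x (.inr u))) ≤ p) ∧
        ∀ u ∈ S, Ex μ' (fun x => ind (x (.inr u))) = p := by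
      intro S
      induction S using Finset.induction_on with
      | empty => exact ⟨μ0, hp0, h1, h3, h2, by simp⟩
      | insert a S ha ih =>
        obtain ⟨μ', k1, k2, k3, k4, k5⟩ := ih
        obtain ⟨ν, l1, l2, l3, l4⟩ := Γ.raise hp k1 k3 (.inr a) (k4 a)
        have e : ∀ u, u ≠ a → Ex ν (fun x => ind (x (.inr u))) =
            Ex μ' (fun x => ind (x (.inr u))) := fun u hu =>
          l4 _ fun x => by rw [Function.update_of_ne (by simpa using hu)]
        refine ⟨ν, l1, ?_, l2, fun u => ?_, fun u hu => ?_⟩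
        · rw [← k2]
          refine eq_of_Ex fun f => ?_
          rw [Ex_law, Ex_law]
          refine l4 _ fun x => ?_
          congr 1
        · by_cases hu : u = a
          · rw [hu, l3]
          · rw [e u hu]; exact k4 u
        · by_cases hu' : u = a
          · rw [hu', l3]
          · rw [e u hu']; exact k5 u ((mem_insert.1 hu).resolve_left hu')
    obtain ⟨μ', k1, k2, k3, -, k5⟩ := key univ
    refine ⟨μ', ⟨k1, ?_⟩, k2, k3⟩
    rintro (t | u)
    · have := hμ.2 t
      rwa [← k2, Ex_law] at this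
    · exact k5 u (mem_univ _)
  · rintro ⟨μ', h1, h2, h3⟩
    exact ⟨μ', h1.1.1, h2, fun u => (h1.2 _).le, h3⟩

/-- The relation `R` between events of probability `p` is realised by a gadget. -/
def Real (p : ℝ) (τ : Type) [Fintype τ] [DecidableEq τ] (R : ((τ → Bool) → ℝ) → Prop) : Prop :=
  ∃ Γ : Gad τ, ∀ μ, Bal p μ → (Γ.Ext p μ ↔ R μ)

theorem Real.congr {R R' : ((τ → Bool) → ℝ) → Prop} (h : Real p τ R)
    (e : ∀ μ, Bal p μ → (R μ ↔ R' μ)) : Real p τ R' := by
  obtain ⟨Γ, hΓ⟩ := h
  exact ⟨Γ, fun μ hμ => (hΓ μ hμ).trans (e μ hμ)⟩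

theorem Real.pull {R : ((τ → Bool) → ℝ) → Prop} (h : Real p τ R) (π : τ → T) :
    Real p T (fun μ => R (law μ fun x s => x (π s))) := by
  obtain ⟨Γ, hΓ⟩ := h
  exact ⟨Γ.push π, fun μ hμ => (Γ.ext_push π hμ.1.1).trans (hΓ _ (hμ.pull π))⟩

theorem Real.all {J : Type} [Fintype J] [DecidableEq J] {R : J → ((τ → Bool) → ℝ) → Prop}
    (h : ∀ j, Real p τ (R j)) : Real p τ (fun μ => ∀ j, R j μ) := by
  choose Γ hΓ using h
  exact ⟨Gad.glue Γ, fun μ hμ => (Gad.ext_glue Γ hμ.1.1).trans
    (forall_congr' fun j => hΓ j μ hμ)⟩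

theorem Real.and {R R' : ((τ → Bool) → ℝ) → Prop} (h : Real p τ R) (h' : Real p τ R') :
    Real p τ (fun μ => R μ ∧ R' μ) :=
  (Real.all (J := Bool) (R := fun b => cond b R' R) (by rintro (_ | _); exacts [h, h'])).congr
    fun μ _ => by simp

theorem Real.imp {R : ((τ → Bool) → ℝ) → Prop} (h : Real p τ R) (Q : Prop) :
    Real p τ (fun μ => Q → R μ) := by
  by_cases hQ : Q
  · exact h.congr fun μ _ => by simp [hQ]
  · exact (Real.all (J := Empty) (R := fun _ _ => True) (fun j => j.elim)).congr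
      fun μ _ => by simp [hQ]

theorem Real.ex (hp : p ≤ 1) {R : ((T ⊕ U → Bool) → ℝ) → Prop} (h : Real p (T ⊕ U) R) :
    Real p T (fun μ => ∃ μ' : (T ⊕ U → Bool) → ℝ, Bal p μ' ∧
      law μ' (fun x t => x (.inl t)) = μ ∧ R μ') := by
  obtain ⟨Γ, hΓ⟩ := h
  refine ⟨Γ.hide, fun μ hμ => (Γ.ext_hide_bal hp hμ).trans (exists_congr fun μ' => ?_)⟩
  exact and_congr_right fun h1 => and_congr_right fun _ => hΓ μ' h1

/-- Adding one more event, decided by a coin. -/
theorem exists_coin {μ : (τ → Bool) → ℝ} (hμ : Bal p μ) (q : (τ → Bool) → ℝ) (h0 : ∀ x, 0 ≤ q x)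
    (h1 : ∀ x, q x ≤ 1) (hq : Ex μ q = p) :
    ∃ μ' : (τ ⊕ Unit → Bool) → ℝ, Bal p μ' ∧ law μ' (fun x t => x (.inl t)) = μ ∧
      ∀ f, Ex μ' f = Ex μ (fun x => q x * f (Sum.elim x fun _ => true) +
        (1 - q x) * f (Sum.elim x fun _ => false)) := by
  let κ : (τ → Bool) → Bool → ℝ := fun x b => cond b (q x) (1 - q x)
  have key : ∀ f, Ex (law (fun z : (τ → Bool) × Bool => μ z.1 * κ z.1 z.2)
      fun z => Sum.elim z.1 fun _ : Unit => z.2) f = Ex μ (fun x => q x * f (Sum.elim x fun _ => true) +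
        (1 - q x) * f (Sum.elim x fun _ => false)) := by
    intro f
    rw [Ex_law, Ex_kernel]
    exact Ex_congr fun x => by simp [Ex, κ]
  refine ⟨_, ⟨⟨law_nonneg (fun z => mul_nonneg (hμ.1.1 _) ?_) _, ?_⟩, ?_⟩, ?_, key⟩
  · rcases z with ⟨x, _ | _⟩
    · simpa [κ] using h1 x
    · exact h0 x
  · rw [← Ex_one, key, ← hμ.1.Ex_const 1]
    exact Ex_congr fun x => by rw [hμ.1.Ex_const]; ring
  · rintro (s | s)
    · rw [key, ← hμ.2 s]
      exact Ex_congr fun x => by simp only [Sum.elim_inl]; ring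
    · rw [key, ← hq]
      exact Ex_congr fun x => by simp
  · refine eq_of_Ex fun f => ?_
    rw [Ex_law, key]
    refine Ex_congr fun x => ?_
    simp only [Sum.elim_inl]
    ring

/-- Probability of both events. -/
def KK (μ : (τ → Bool) → ℝ) (a b : τ) : ℝ := Ex μ (fun x => ind (x a) * ind (x b))

/-- Probability of the union of all events. -/
def UU (μ : (τ → Bool) → ℝ) : ℝ := Ex μ (fun x => ind (decide (∃ s, x s = true)))

theorem Bal.KK_nonneg {μ : (τ → Bool) → ℝ} (h : Bal p μ) (a b : τ) : 0 ≤ KK μ a b :=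
  Ex_nonneg h.1.1 fun _ => mul_nonneg (ind_nonneg _) (ind_nonneg _)

theorem Bal.KK_le {μ : (τ → Bool) → ℝ} (h : Bal p μ) (a b : τ) : KK μ a b ≤ p := by
  rw [← h.2 a]
  exact Ex_mono h.1.1 fun x => by cases x a <;> cases x b <;> simp

/-- Closeness at distance `s` is realised. -/
def SG (p s : ℝ) : Prop := Real p Bool (fun μ => p - s ≤ KK μ false true)

/-- Distance at least `L` is realised. -/
def DG (p L : ℝ) : Prop := Real p Bool (fun μ => KK μ false true ≤ p - L)

/-- A union of probability at least `c` is realised. -/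
def OG (p c : ℝ) : Prop := ∀ (τ : Type) [Fintype τ] [DecidableEq τ] (_ : τ),
  Real p τ (fun μ => c ≤ UU μ)

theorem SG.pull {s : ℝ} (h : SG p s) (a b : T) : Real p T (fun μ => p - s ≤ KK μ a b) :=
  (Real.pull h fun c => cond c b a).congr fun μ _ => by simp only [KK, Ex_law]; rfl

theorem DG.pull {L : ℝ} (h : DG p L) (a b : T) : Real p T (fun μ => KK μ a b ≤ p - L) :=
  (Real.pull h fun c => cond c b a).congr fun μ _ => by simp only [KK, Ex_law]; rfl

theorem SG.add (hp : p ≤ 1) {s t : ℝ} (h : SG p s) (h' : SG p t) (hs : 0 < s) (ht : 0 < t) :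
    SG p (s + t) := by
  refine (Real.ex hp ((h.pull (T := Bool ⊕ Unit) (.inl false) (.inr ())).and
    (h'.pull (.inr ()) (.inl true)))).congr fun μ hμ => ⟨?_, fun hK => ?_⟩
  · rintro ⟨μ', h1, rfl, h2, h3⟩
    simp only [KK, Ex_law] at h2 h3 ⊢
    have := Ex_mono (f := fun x => ind (x (.inl false)) * ind (x (.inr ())) +
      ind (x (.inr ())) * ind (x (.inl true)) - ind (x (.inr ())))
      (g := fun x => ind (x (.inl false)) * ind (x (.inl true))) h1.1.1 fun x => by
        cases x (.inl false) <;> cases x (.inl true) <;> cases x (.inr ()) <;> simp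
    rw [Ex_sub, Ex_add, h1.2] at this
    linarith
  · have hst : 0 < s + t := by linarith
    let l := s / (s + t)
    have hl0 : 0 ≤ l := by positivity
    have hl1 : l ≤ 1 := div_le_one_of_le₀ (by linarith) hst.le
    have hl : l * (s + t) = s := div_mul_cancel₀ _ hst.ne'
    obtain ⟨μ', h1, h2, h3⟩ := exists_coin hμ (fun x => (1 - l) * ind (x false) + l * ind (x true))
      (fun x => by cases x false <;> cases x true <;> simp [hl0, hl1])
      (fun x => by cases x false <;> cases x true <;> simp [hl0, hl1])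
      (by rw [Ex_add, Ex_const_mul, Ex_const_mul, hμ.2, hμ.2]; ring)
    have hK' := hμ.KK_le false true
    refine ⟨μ', h1, h2, ?_, ?_⟩
    · have : KK μ' (.inl false) (.inr ()) = (1 - l) * p + l * KK μ false true := by
        rw [KK, h3, KK, ← hμ.2 false, ← Ex_const_mul, ← Ex_const_mul, ← Ex_add]
        exact Ex_congr fun x => by
          simp only [Sum.elim_inl, Sum.elim_inr]
          cases x false <;> cases x true <;> simp
      rw [this]
      nlinarith
    · have : KK μ' (.inr ()) (.inl true) = (1 - l) * KK μ false true + l * p := by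
        rw [KK, h3, KK, ← hμ.2 true, ← Ex_const_mul, ← Ex_const_mul, ← Ex_add]
        exact Ex_congr fun x => by
          simp only [Sum.elim_inl, Sum.elim_inr]
          cases x false <;> cases x true <;> simp
      rw [this]
      nlinarith

theorem SG.nsmul (hp : p ≤ 1) {s : ℝ} (h : SG p s) (hs : 0 < s) (m : ℕ) :
    SG p ((m + 1) * s) := by
  induction m with
  | zero => simpa using h
  | succ m ih =>
    have := ih.add hp h (by positivity) hs
    convert this using 1
    push_cast
    ring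

theorem og_base (p : ℝ) : OG p (1 - p) := by
  intro τ _ _ _
  refine ⟨{ W := Unit, H := ⊥, att := fun _ _ => True, need := fun _ => True }, fun μ hμ => ?_⟩
  constructor
  · intro h
    obtain ⟨ν, h1, h2, h3, h4⟩ := h.model hμ.1.1
    have hν : IsProb ν := ⟨h1, by
      have := hμ.1.2
      rwa [← h2, ← Ex_one, Ex_law, Ex_one] at this⟩
    have := Ex_mono' (f := fun _ => 1)
      (g := fun z => ind (decide (∃ s, z.1 s = true)) + ind (z.2 ())) h1 fun z hz => by
        rcases h3 z hz () trivial with h | ⟨u, h, -⟩ | ⟨s, -, h⟩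
        · rw [h]; simpa using ind_nonneg _
        · exact h.elim
        · rw [decide_eq_true ⟨s, h⟩]; simpa using ind_nonneg _
    rw [hν.Ex_const, Ex_add] at this
    have e : UU μ = Ex ν fun z => ind (decide (∃ s, z.1 s = true)) := by rw [UU, ← h2, Ex_law]
    have := h4 ()
    linarith
  · intro h
    rw [← law_id μ]
    refine Gad.ext_of_model _ hμ.1.1 _ (fun x _ => !decide (∃ s, x s = true)) (fun x _ w _ => ?_)
      fun w => ?_
    · by_cases e : ∃ s, x s = true
      · obtain ⟨s, hs⟩ := e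
        exact Or.inr (Or.inr ⟨s, trivial, hs⟩)
      · exact Or.inl (by simpa using e)
    · have : Ex μ (fun x => ind (!decide (∃ s, x s = true))) = 1 - UU μ := by
        rw [UU, ← hμ.1.Ex_const 1, ← Ex_sub]
        exact Ex_congr fun x => by
          cases decide (∃ s, x s = true) <;> simp
      rw [this]
      linarith

theorem OG.step (hp0 : 0 < p) (hp : p ≤ 1) {c s : ℝ} (h : OG p c) (h' : SG p s) (hc : c ≤ 1)
    (hs : 0 ≤ s) (hsp : s ≤ p) : OG p (c - s) := by
  intro τ _ _ a
  refine (Real.ex hp ((h'.pull (T := τ ⊕ Unit) (.inl a) (.inr ())).and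
    (h _ (.inr ())))).congr fun μ hμ => ⟨?_, fun hK => ?_⟩
  · rintro ⟨μ', h1, rfl, h2, h3⟩
    simp only [KK, UU, Ex_law] at h2 h3 ⊢
    have := Ex_mono (f := fun x : τ ⊕ Unit → Bool => ind (decide (∃ s, x s = true)))
      (g := fun x => ind (decide (∃ s, x (.inl s) = true)) + (ind (x (.inr ())) -
        ind (x (.inl a)) * ind (x (.inr ())))) h1.1.1 fun x => by
        by_cases e : ∃ s, x (.inl s) = true
        · rw [decide_eq_true e]
          generalize decide (∃ s, x s = true) = d
          cases d <;> cases x (.inl a) <;> cases x (.inr ()) <;> norm_num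
        · have e1 : x (.inl a) = false := by
            by_contra e'
            exact e ⟨a, by simpa using e'⟩
          rw [e1, decide_eq_false e]
          cases e2 : x (.inr ())
          · rw [decide_eq_false]
            · simp
            · rintro ⟨s | s, hs⟩
              · exact e ⟨s, hs⟩
              · rw [e2] at hs; exact absurd hs (by simp)
          · simpa using ind_le_one _
    rw [Ex_add, Ex_sub, h1.2] at this
    linarith
  · set u := UU μ with hu
    have hu1 : u ≤ 1 := by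
      rw [hu, UU, ← hμ.1.Ex_const 1]
      exact Ex_mono hμ.1.1 fun x => ind_le_one _
    let m := max 0 (c - u)
    have hm0 : 0 ≤ m := le_max_left _ _
    have hm1 : c - u ≤ m := le_max_right _ _
    have hm2 : m ≤ s := max_le hs (by linarith)
    have hm3 : m ≤ 1 - u := max_le (by linarith) (by linarith)
    let α := m / p
    let γ := m / (1 - u)
    have hα0 : 0 ≤ α := by positivity
    have hα1 : α ≤ 1 := div_le_one_of_le₀ (by linarith) hp0.le
    have hα : α * p = m := div_mul_cancel₀ _ hp0.ne'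
    have hγ0 : 0 ≤ γ := div_nonneg hm0 (by linarith)
    have hγ1 : γ ≤ 1 := div_le_one_of_le₀ hm3 (by linarith)
    have hγ : γ * (1 - u) = m := by
      by_cases e : 1 - u = 0
      · rw [e]; linarith
      · exact div_mul_cancel₀ _ e
    have hcase : ∀ x : τ → Bool, (x a = true ∧ decide (∃ s, x s = true) = true) ∨
        (x a = false ∧ decide (∃ s, x s = true) = true) ∨
        (x a = false ∧ decide (∃ s, x s = true) = false) := by
      intro x
      cases e : x a
      · cases decide (∃ s, x s = true) <;> simp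
      · exact Or.inl ⟨rfl, decide_eq_true ⟨a, e⟩⟩
    have hN : Ex μ (fun x => 1 - ind (decide (∃ s, x s = true))) = 1 - u := by
      rw [Ex_sub, hμ.1.Ex_const]; rfl
    obtain ⟨μ', h1, h2, h3⟩ := exists_coin hμ
      (fun x => (1 - α) * ind (x a) + γ * (1 - ind (decide (∃ s, x s = true))))
      (fun x => by rcases hcase x with ⟨e, e'⟩ | ⟨e, e'⟩ | ⟨e, e'⟩ <;> simp [e, e', hα1, hγ0])
      (fun x => by rcases hcase x with ⟨e, e'⟩ | ⟨e, e'⟩ | ⟨e, e'⟩ <;> simp [e, e', hα0, hγ1])
      (by rw [Ex_add, Ex_const_mul, Ex_const_mul, hμ.2, hN]; linarith)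
    refine ⟨μ', h1, h2, ?_, ?_⟩
    · have : KK μ' (.inl a) (.inr ()) = (1 - α) * p := by
        rw [KK, h3, ← hμ.2 a, ← Ex_const_mul]
        exact Ex_congr fun x => by
          simp only [Sum.elim_inl, Sum.elim_inr]
          rcases hcase x with ⟨e, e'⟩ | ⟨e, e'⟩ | ⟨e, e'⟩ <;> simp [e, e']
      rw [this]
      linarith
    · have : UU μ' = u + γ * (1 - u) := by
        rw [UU, h3, ← hN, ← Ex_const_mul, hu, UU, ← Ex_add]
        refine Ex_congr fun x => ?_
        have e1 : decide (∃ s, Sum.elim x (fun _ : Unit => true) s = true) = true :=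
          decide_eq_true ⟨.inr (), rfl⟩
        have e2 : decide (∃ s, Sum.elim x (fun _ : Unit => false) s = true) =
            decide (∃ s, x s = true) := by simp
        rw [e1, e2]
        rcases hcase x with ⟨e, e'⟩ | ⟨e, e'⟩ | ⟨e, e'⟩ <;> simp [e, e']
      rw [this]
      linarith

theorem og_iter (hp0 : 0 < p) (hp : p ≤ 1) {s : ℝ} (h' : SG p s) (hs : 0 ≤ s) (hsp : s ≤ p)
    (i : ℕ) : OG p (1 - p - i * s) := by
  induction i with
  | zero => simpa using og_base p
  | succ i ih =>
    have := ih.step hp0 hp h' (by have : 0 ≤ (i : ℝ) * s := by positivity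
                                  linarith) hs hsp
    convert this using 1
    push_cast
    ring

theorem OG.dg {c : ℝ} (h : OG p c) : DG p (c - p) := by
  refine (h Bool true).congr fun μ hμ => ?_
  have : UU μ = 2 * p - KK μ false true := by
    rw [two_mul]
    nth_rewrite 1 [← hμ.2 false]
    rw [← hμ.2 true, KK, ← Ex_add, ← Ex_sub]
    exact Ex_congr fun x => by
      cases e : x false <;> cases e' : x true <;> simp [e, e']
  rw [this]
  constructor <;> intro h <;> linarith

end Pool.Agent.MP_9e68e9_lc
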