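import Pool.Agent.MP_9e68e9_lc.Rel

/-! Two-terminal gadgets and their thresholds. -/

namespace Pool.Agent.MP_9e68e9_lc

open Finset

/-- A pair of bits. -/
def mk2 (a b : Bool) : Bool → Bool := fun c => cond c b a

theorem sum2 (F : (Bool → Bool) → ℝ) : ∑ x, F x =
    F (mk2 false false) + F (mk2 false true) + F (mk2 true false) + F (mk2 true true) := by
  have e : ∀ a b, (Equiv.boolArrowEquivProd Bool).symm (a, b) = mk2 a b := by
    intro a b
    funext c
    cases c <;> rfl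
  rw [← (Equiv.boolArrowEquivProd Bool).symm.sum_comp, Fintype.sum_prod_type]
  simp only [Fintype.sum_bool, e]
  ring

theorem eq_mk2 (x : Bool → Bool) : x = mk2 (x false) (x true) := by
  funext c
  cases c <;> rfl

/-- The law of two events of probability `p` whose intersection has probability `K`. -/
def law2 (p K : ℝ) : (Bool → Bool) → ℝ := fun x =>
  cond (x false) (cond (x true) K (p - K)) (cond (x true) (p - K) (1 - 2 * p + K))

variable {p : ℝ}

theorem Bal.eq_law2 {μ : (Bool → Bool) → ℝ} (h : Bal p μ) : μ = law2 p (KK μ false true) := by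
  have h1 := h.1.2
  have h2 := h.2 false
  have h3 := h.2 true
  simp only [Ex, sum2, mk2, cond_true, cond_false, ind_true, ind_false] at h1 h2 h3
  funext x
  rw [eq_mk2 x]
  cases x false <;> cases x true <;>
    simp only [law2, KK, Ex, sum2, mk2, cond_true, cond_false, ind_true, ind_false] <;> linarith

theorem bal_law2 {K : ℝ} (hp : 2 * p ≤ 1) (h0 : 0 ≤ K) (h1 : K ≤ p) : Bal p (law2 p K) := by
  refine ⟨⟨fun x => ?_, ?_⟩, ?_⟩
  · unfold law2
    cases x false <;> cases x true <;> simp only [cond_true, cond_false] <;> linarith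
  · simp only [sum2, law2, mk2, cond_true, cond_false]
    ring
  · rintro (_ | _) <;> simp only [Ex, sum2, law2, mk2, cond_true, cond_false, ind_true, ind_false] <;>
      ring

theorem KK_law2 (K : ℝ) : KK (law2 p K) false true = K := by
  simp only [KK, Ex, sum2, law2, mk2, cond_true, cond_false, ind_true, ind_false]
  ring

theorem Gad.mix2 (Γ : Gad Bool) {p q K M a b : ℝ} (hp : 2 * p ≤ 1) (hq : 2 * q ≤ 1) (hK : 0 ≤ K)
    (hK' : K ≤ p) (hM : 0 ≤ M) (hM' : M ≤ q) (h : Γ.Ext p (law2 p K)) (h' : Γ.Ext q (law2 q M))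
    (ha : 0 ≤ a) (hb : 0 ≤ b) (hab : a + b = 1) {r N : ℝ} (hr : r = a * p + b * q)
    (hN : N = a * K + b * M) : Γ.Ext r (law2 r N) := by
  have := h.mix (bal_law2 hp hK hK').1.1 (bal_law2 hq hM hM').1.1 h' ha hb
  subst hr hN
  convert this using 1
  funext x
  obtain rfl : b = 1 - a := by linarith
  unfold law2
  cases x false <;> cases x true <;> simp only [cond_true, cond_false] <;> ring

theorem Gad.between (Γ : Gad Bool) {K M N : ℝ} (hp : 2 * p ≤ 1) (hK : 0 ≤ K) (hM : M ≤ p)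
    (h : Γ.Ext p (law2 p K)) (h' : Γ.Ext p (law2 p M)) (h1 : K ≤ N) (h2 : N ≤ M) :
    Γ.Ext p (law2 p N) := by
  by_cases e : K = M
  · obtain rfl : N = M := by linarith
    exact h'
  · have hKM : 0 < M - K := by
      rcases lt_or_eq_of_le (h1.trans h2) with h | h
      · linarith
      · exact absurd h e
    refine Γ.mix2 hp hp hK (by linarith) (by linarith) hM h h' (a := (M - N) / (M - K))
      (b := (N - K) / (M - K)) (div_nonneg (by linarith) hKM.le) (div_nonneg (by linarith) hKM.le)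
      ?_ ?_ ?_ <;> field_simp <;> ring

theorem sg_of (Γ : Gad Bool) (hp : 2 * p ≤ 1) {K s' : ℝ} (hK : 0 ≤ K) (hK' : K ≤ p)
    (h1 : Γ.Ext p (law2 p p)) (h2 : Γ.Ext p (law2 p K))
    (h3 : ∀ μ, Bal p μ → Γ.Ext p μ → p - s' ≤ KK μ false true) :
    ∃ s, p - K ≤ s ∧ s ≤ s' ∧ SG p s := by
  let I : Set ℝ := Set.Icc 0 p ∩ (law2 p) ⁻¹' {μ | IsProb μ ∧ Γ.Ext p μ}
  have hc : Continuous (law2 p) := by
    refine continuous_pi fun x => ?_
    unfold law2
    cases x false <;> cases x true <;> simp only [cond_true, cond_false] <;> fun_prop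
  have hI : IsClosed I := isClosed_Icc.inter ((Γ.isClosed_ext p).preimage hc)
  have hKI : K ∈ I := ⟨⟨hK, hK'⟩, (bal_law2 hp hK hK').1, h2⟩
  have hb : BddBelow I := ⟨0, fun x hx => hx.1.1⟩
  have hm := hI.csInf_mem ⟨K, hKI⟩ hb
  refine ⟨p - sInf I, by linarith [csInf_le hb hKI], ?_, Γ, fun μ hμ => ⟨fun h => ?_, fun h => ?_⟩⟩
  · have := h3 _ (bal_law2 hp hm.1.1 hm.1.2) hm.2.2
    rw [KK_law2] at this
    linarith
  · have : KK μ false true ∈ I := ⟨⟨hμ.KK_nonneg _ _, hμ.KK_le _ _⟩, by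
      change IsProb _ ∧ _
      rw [← hμ.eq_law2]
      exact ⟨hμ.1, h⟩⟩
    linarith [csInf_le hb this]
  · rw [hμ.eq_law2]
    exact Γ.between hp hm.1.1 le_rfl hm.2.2 h1 (by linarith) (hμ.KK_le _ _)

theorem sg_exact (Γ : Gad Bool) (hp : 2 * p ≤ 1) {s : ℝ} (hs : s ≤ p)
    (h1 : Γ.Ext p (law2 p p)) (h2 : Γ.Ext p (law2 p (p - s)))
    (h3 : ∀ μ, Bal p μ → Γ.Ext p μ → p - s ≤ KK μ false true) : SG p s :=
  ⟨Γ, fun μ hμ => ⟨h3 μ hμ, fun h => by
    rw [hμ.eq_law2]
    exact Γ.between hp (by linarith) le_rfl h2 h1 h (hμ.KK_le _ _)⟩⟩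

theorem dg_exact (Γ : Gad Bool) (hp : 2 * p ≤ 1) {L : ℝ} (hL : 0 ≤ L)
    (h1 : Γ.Ext p (law2 p 0)) (h2 : Γ.Ext p (law2 p (p - L)))
    (h3 : ∀ μ, Bal p μ → Γ.Ext p μ → KK μ false true ≤ p - L) : DG p L :=
  ⟨Γ, fun μ hμ => ⟨h3 μ hμ, fun h => by
    rw [hμ.eq_law2]
    exact Γ.between hp le_rfl (by linarith) h1 h2 (hμ.KK_nonneg _ _) h⟩⟩

end Pool.Agent.MP_9e68e9_lc
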